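import Pool.Agent.Lib_MP_a95293_rc.Defs

/-!
# Piece SVM: the product over the primes
-/

set_option autoImplicit false

namespace Pool.MP_a95293_nt.RC

open Finset

/-- PROOF: `∏_{p ≤ z} (1 - 1/p)^(-1) ≥ ∑_{n ≤ z} 1/n ≥ log z`: every `n ≤ z` is a product of prime powers `p^(v_p(n))`, `p ≤ z`, `v_p(n) ≤ z`, so
`∑_{n ≤ z} 1/n ≤ ∏_{p ≤ z} ∑_{j ≤ z} p^(-j)` (`Finset.prod_univ_sum`/`Finset.prod_sum`, injectivity of the factorization), or use
`EulerProduct`/`Nat.smoothNumbers` (`EulerProduct.prod_filter_prime_tsum_eq_tsum_factoredNumbers`), and `log z ≤ harmonic z` (`log_add_one_le_harmonic`). -/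
theorem mertens_up (z : ℕ) (hz : 2 ≤ z) :
    ∏ p ∈ (Icc 1 z).filter Nat.Prime, (1 - 1 / (p : ℝ)) ≤ 1 / Real.log z := by
  set f : ℕ →* ℝ := ⟨⟨fun n => (n : ℝ)⁻¹, by simp⟩, fun a b => by simp [mul_comm]⟩ with hf
  have hfv : ∀ n : ℕ, f n = (n : ℝ)⁻¹ := fun n => rfl
  have h1 := (EulerProduct.summable_and_hasSum_smoothNumbers_prod_primesBelow_geometric
    (f := f) (fun {p} hp => by
      rw [hfv, norm_inv, Real.norm_natCast]
      exact inv_lt_one_of_one_lt₀ (by exact_mod_cast hp.one_lt)) (z + 1)).2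
  have h2 := hasSum_subtype_iff_indicator.1 h1
  have h3 : ∑ n ∈ Icc 1 z, 1 / (n : ℝ) ≤ ∏ p ∈ (z + 1).primesBelow, (1 - f p)⁻¹ := by
    refine le_trans (le_of_eq ?_) (sum_le_hasSum (Icc 1 z) (fun n _ => ?_) h2)
    · refine sum_congr rfl fun n hn => ?_
      rw [mem_Icc] at hn
      rw [Set.indicator_of_mem (Nat.mem_smoothNumbers_of_lt (by omega) (by omega)), hfv, one_div]
    · apply Set.indicator_nonneg
      intro n _
      rw [hfv]
      positivity
  have h4 : Real.log z ≤ ∑ n ∈ Icc 1 z, 1 / (n : ℝ) := by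
    have h5 := log_add_one_le_harmonic z
    have h6 : ((harmonic z : ℚ) : ℝ) = ∑ d ∈ Icc 1 z, 1 / (d : ℝ) := by
      rw [harmonic_eq_sum_Icc]
      push_cast
      refine Finset.sum_congr rfl fun d _ => ?_
      rw [one_div]
    rw [h6] at h5
    refine le_trans (Real.log_le_log ?_ ?_) h5
    · exact_mod_cast (by omega : 0 < z)
    · push_cast
      linarith
  have h7 : (z + 1).primesBelow = (Icc 1 z).filter Nat.Prime := by
    ext p
    rw [Nat.mem_primesBelow, mem_filter, mem_Icc]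
    constructor
    · rintro ⟨a, b⟩
      exact ⟨⟨b.one_lt.le, by omega⟩, b⟩
    · rintro ⟨⟨a, b⟩, c⟩
      exact ⟨by omega, c⟩
  rw [h7] at h3
  have h8 : ∏ p ∈ (Icc 1 z).filter Nat.Prime, (1 - f p)⁻¹ =
      (∏ p ∈ (Icc 1 z).filter Nat.Prime, (1 - 1 / (p : ℝ)))⁻¹ := by
    rw [← Finset.prod_inv_distrib]
    refine prod_congr rfl fun p _ => ?_
    rw [hfv, one_div]
  rw [h8] at h3
  have hlog : 0 < Real.log z := Real.log_pos (by exact_mod_cast (by omega : 1 < z))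
  have hpos : 0 < ∏ p ∈ (Icc 1 z).filter Nat.Prime, (1 - 1 / (p : ℝ)) := by
    refine Finset.prod_pos fun p hp => ?_
    have hp' : (1 : ℝ) < p := by exact_mod_cast (mem_filter.1 hp).2.one_lt
    rw [sub_pos, div_lt_one (by linarith)]
    exact hp'
  have h9 := h4.trans h3
  rw [le_div_iff₀ hlog, mul_comm, ← le_div_iff₀ hpos, one_div]
  exact h9

end Pool.MP_a95293_nt.RC
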