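import Pool.Agent.Lib_MP_a95293_rc.SvA

/-!
# Piece SVU: the upper bound sieve
-/

set_option autoImplicit false

namespace Pool.MP_a95293_nt.RC

open Finset Pool.Agent.OmAP

/-- **The upper bound sieve.**
PROOF: copy of `sieve_count`. -/
theorem sieve_count_up (K : ℕ) : ∃ C : ℕ, ∀ z T : ℕ, 2 ≤ z → z ^ C ≤ T → ∀ Om : ℕ → Finset ℕ,
    (∀ p ∈ PP K z, (Om p).card ≤ K ∧ Om p ⊆ range p) →
    (((range T).filter fun t => ∀ p ∈ PP K z, t % p ∉ Om p).card : ℝ) ≤
      4 * T * ∏ p ∈ PP K z, (1 - ((Om p).card : ℝ) / p) := by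
  classical
  obtain ⟨C0, hC0⟩ := brun_hooley_up K
  refine ⟨2 * C0 + 2 * K + 2, ?_⟩
  intro z T hz hzT Om hOm
  obtain ⟨lam, h1, h2, h3, h4⟩ := hC0 z hz
  have hprime : ∀ p ∈ PP K z, p.Prime := fun p hp => (mem_PP.mp hp).2
  have hpos : ∀ p ∈ PP K z, (0 : ℝ) < p := fun p hp => by
    exact_mod_cast (hprime p hp).pos
  have hzpos : (0 : ℝ) < z := by exact_mod_cast (by omega : 0 < z)
  -- the sets of forbidden primes
  set S : ℕ → Finset ℕ := fun t => (PP K z).filter fun p => t % p ∈ Om p with hS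
  have hSsub : ∀ t, S t ⊆ PP K z := fun t => Finset.filter_subset _ _
  set N : Finset ℕ → ℕ := fun A => ((range T).filter fun t => ∀ p ∈ A, t % p ∈ Om p).card with hN
  -- count = sum of indicators
  have hcount : (((range T).filter fun t => ∀ p ∈ PP K z, t % p ∉ Om p).card : ℝ) =
      ∑ t ∈ range T, (if S t = ∅ then (1 : ℝ) else 0) := by
    rw [Finset.card_filter]
    push_cast
    refine Finset.sum_congr rfl fun t _ => ?_
    have : (∀ p ∈ PP K z, t % p ∉ Om p) ↔ S t = ∅ := by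
      simp only [hS, Finset.filter_eq_empty_iff]
    simp only [this]
  have hstep1 : (((range T).filter fun t => ∀ p ∈ PP K z, t % p ∉ Om p).card : ℝ) ≤
      ∑ A ∈ (PP K z).powerset, lam A * (N A : ℝ) := by
    rw [hcount]
    have e1 : ∑ A ∈ (PP K z).powerset, lam A * (N A : ℝ) =
        ∑ t ∈ range T, ∑ A ∈ (S t).powerset, lam A := by
      have e2 : ∀ A ∈ (PP K z).powerset, lam A * (N A : ℝ) =
          ∑ t ∈ range T, (if A ⊆ S t then lam A else 0) := by
        intro A hA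
        have hAP : A ⊆ PP K z := Finset.mem_powerset.mp hA
        have e3 : (N A : ℝ) = ∑ t ∈ range T, (if A ⊆ S t then (1 : ℝ) else 0) := by
          simp only [hN]
          rw [Finset.card_filter]
          push_cast
          refine Finset.sum_congr rfl fun t _ => ?_
          have : (∀ p ∈ A, t % p ∈ Om p) ↔ A ⊆ S t := by
            constructor
            · intro h p hp
              exact Finset.mem_filter.mpr ⟨hAP hp, h p hp⟩
            · intro h p hp
              exact (Finset.mem_filter.mp (h hp)).2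
          simp only [this]
        rw [e3, Finset.mul_sum]
        refine Finset.sum_congr rfl fun t _ => ?_
        split_ifs <;> simp
      rw [Finset.sum_congr rfl e2, Finset.sum_comm]
      refine Finset.sum_congr rfl fun t _ => ?_
      rw [← Finset.sum_filter]
      refine Finset.sum_congr ?_ fun _ _ => rfl
      ext A
      simp only [Finset.mem_filter, Finset.mem_powerset]
      exact ⟨fun h => h.2, fun h => ⟨h.trans (hSsub t), h⟩⟩
    rw [e1]
    exact Finset.sum_le_sum fun t _ => h3 (S t) (hSsub t)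
  -- the error
  set F : Finset (Finset ℕ) := (PP K z).powerset.filter fun A => lam A ≠ 0 with hF
  have hFcard : F.card ≤ z ^ C0 := by
    have : F.card ≤ (Finset.Icc 1 (z ^ C0)).card := by
      refine Finset.card_le_card_of_injOn (fun A => ∏ p ∈ A, p) ?_ ?_
      · intro A hA
        have hA' : A ⊆ PP K z ∧ lam A ≠ 0 := by
          have := Finset.mem_filter.mp (Finset.mem_coe.mp hA)
          exact ⟨Finset.mem_powerset.mp this.1, this.2⟩
        refine Finset.mem_coe.mpr (Finset.mem_Icc.mpr ⟨?_, h2 A hA'.1 hA'.2⟩)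
        exact Finset.prod_pos fun p hp => (hprime p (hA'.1 hp)).pos
      · intro A hA B hB hAB
        have hA' : A ⊆ PP K z :=
          Finset.mem_powerset.mp (Finset.mem_filter.mp (Finset.mem_coe.mp hA)).1
        have hB' : B ⊆ PP K z :=
          Finset.mem_powerset.mp (Finset.mem_filter.mp (Finset.mem_coe.mp hB)).1
        exact prod_primes_inj (fun p hp => hprime p (hA' hp)) (fun p hp => hprime p (hB' hp)) hAB
    simpa using this
  have hcardle : ∀ p ∈ PP K z, ((Om p).card : ℝ) ≤ p := by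
    intro p hp
    have hK : (Om p).card ≤ K := (hOm p hp).1
    have hpK : 2 * K < p := (mem_PP.mp hp).1.1
    exact_mod_cast (by omega : (Om p).card ≤ p)
  have hterm : ∀ A ∈ (PP K z).powerset, lam A * (N A : ℝ) ≤
      lam A * ((T : ℝ) * ∏ p ∈ A, ((Om p).card : ℝ) / p) +
        (if lam A ≠ 0 then (z : ℝ) ^ C0 else 0) := by
    intro A hA
    have hAP : A ⊆ PP K z := Finset.mem_powerset.mp hA
    by_cases hl : lam A = 0
    · simp [hl]
    · rw [if_pos hl]
      have hc := crt_count A (fun p hp => hprime p (hAP hp)) Om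
        (fun p hp => (hOm p (hAP hp)).2) T
      have hle : ∏ p ∈ A, ((Om p).card : ℝ) ≤ (z : ℝ) ^ C0 := by
        calc ∏ p ∈ A, ((Om p).card : ℝ) ≤ ∏ p ∈ A, (p : ℝ) :=
              Finset.prod_le_prod (fun p _ => Nat.cast_nonneg _) fun p hp => hcardle p (hAP hp)
          _ = ((∏ p ∈ A, p : ℕ) : ℝ) := by push_cast; rfl
          _ ≤ ((z ^ C0 : ℕ) : ℝ) := by exact_mod_cast h2 A hAP hl
          _ = (z : ℝ) ^ C0 := by push_cast; rfl
      have habs : |lam A * ((N A : ℝ) - (T : ℝ) * ∏ p ∈ A, ((Om p).card : ℝ) / p)| ≤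
          (z : ℝ) ^ C0 := by
        rw [abs_mul]
        calc |lam A| * |(N A : ℝ) - (T : ℝ) * ∏ p ∈ A, ((Om p).card : ℝ) / p| ≤
            1 * (z : ℝ) ^ C0 := by
              refine mul_le_mul (h1 A) (hc.trans hle) (abs_nonneg _) (by norm_num)
          _ = (z : ℝ) ^ C0 := one_mul _
      have := (abs_le.mp habs).2
      rw [mul_sub] at this
      linarith
  have hsum : ∑ A ∈ (PP K z).powerset, lam A * (N A : ℝ) ≤
      ∑ A ∈ (PP K z).powerset, lam A * ((T : ℝ) * ∏ p ∈ A, ((Om p).card : ℝ) / p) +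
      (z : ℝ) ^ (2 * C0) := by
    have h := Finset.sum_le_sum hterm
    rw [Finset.sum_add_distrib] at h
    have he : ∑ A ∈ (PP K z).powerset, (if lam A ≠ 0 then (z : ℝ) ^ C0 else 0) ≤
        (z : ℝ) ^ (2 * C0) := by
      rw [← Finset.sum_filter, Finset.sum_const, nsmul_eq_mul, two_mul, pow_add]
      refine mul_le_mul_of_nonneg_right ?_ (by positivity)
      exact_mod_cast hFcard
    linarith
  have hmain : ∑ A ∈ (PP K z).powerset, lam A * ((T : ℝ) * ∏ p ∈ A, ((Om p).card : ℝ) / p) ≤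
      2 * T * ∏ p ∈ PP K z, (1 - ((Om p).card : ℝ) / p) := by
    have h := h4 (fun p => ((Om p).card : ℝ) / p) (by
      intro p hp
      refine ⟨by positivity, ?_⟩
      refine div_le_div_of_nonneg_right ?_ (hpos p hp).le
      exact_mod_cast (hOm p hp).1)
    have h' := mul_le_mul_of_nonneg_left h (Nat.cast_nonneg T : (0 : ℝ) ≤ T)
    rw [Finset.mul_sum] at h'
    calc ∑ A ∈ (PP K z).powerset, lam A * ((T : ℝ) * ∏ p ∈ A, ((Om p).card : ℝ) / p) =
        ∑ A ∈ (PP K z).powerset, (T : ℝ) * (lam A * ∏ p ∈ A, ((Om p).card : ℝ) / p) :=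
          Finset.sum_congr rfl fun A _ => by ring
      _ ≤ T * (2 * ∏ p ∈ PP K z, (1 - ((Om p).card : ℝ) / p)) := h'
      _ = 2 * T * ∏ p ∈ PP K z, (1 - ((Om p).card : ℝ) / p) := by ring
  have hprod : 1 / (z : ℝ) ^ (2 * K) ≤ ∏ p ∈ PP K z, (1 - ((Om p).card : ℝ) / p) := by
    refine (prod_lower K z (by omega)).trans ?_
    refine Finset.prod_le_prod ?_ ?_
    · intro p hp
      have hpK : 2 * K < p := (mem_PP.mp hp).1.1
      rw [sub_nonneg, div_le_one (hpos p hp)]
      exact_mod_cast (by omega : K ≤ p)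
    · intro p hp
      have : ((Om p).card : ℝ) / p ≤ (K : ℝ) / p := by
        refine div_le_div_of_nonneg_right ?_ (hpos p hp).le
        exact_mod_cast (hOm p hp).1
      linarith
  have herr : (z : ℝ) ^ (2 * C0) ≤ (T : ℝ) / 4 * ∏ p ∈ PP K z, (1 - ((Om p).card : ℝ) / p) := by
    have hT : (z : ℝ) ^ (2 * C0 + 2 * K + 2) ≤ T := by exact_mod_cast hzT
    have hT0 : (0 : ℝ) ≤ T := Nat.cast_nonneg T
    have hz2 : (4 : ℝ) ≤ (z : ℝ) ^ 2 := by
      have : (2 : ℝ) ≤ z := by exact_mod_cast hz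
      nlinarith
    calc (z : ℝ) ^ (2 * C0) = (z : ℝ) ^ (2 * C0) * 4 / 4 := by ring
      _ ≤ (z : ℝ) ^ (2 * C0) * (z : ℝ) ^ 2 / 4 := by
          refine div_le_div_of_nonneg_right ?_ (by norm_num)
          exact mul_le_mul_of_nonneg_left hz2 (by positivity)
      _ = (z : ℝ) ^ (2 * C0 + 2 * K + 2) / 4 * (1 / (z : ℝ) ^ (2 * K)) := by
          field_simp
          ring
      _ ≤ (T : ℝ) / 4 * (1 / (z : ℝ) ^ (2 * K)) := by
          refine mul_le_mul_of_nonneg_right ?_ (by positivity)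
          linarith
      _ ≤ _ := mul_le_mul_of_nonneg_left hprod (by positivity)
  have hT0 : 0 ≤ (T : ℝ) * ∏ p ∈ PP K z, (1 - ((Om p).card : ℝ) / p) :=
    mul_nonneg (Nat.cast_nonneg T) (le_trans (by positivity) hprod)
  have h5 : (T : ℝ) / 4 * ∏ p ∈ PP K z, (1 - ((Om p).card : ℝ) / p) =
      1 / 4 * ((T : ℝ) * ∏ p ∈ PP K z, (1 - ((Om p).card : ℝ) / p)) := by ring
  have h6 : 2 * (T : ℝ) * ∏ p ∈ PP K z, (1 - ((Om p).card : ℝ) / p) =
      2 * ((T : ℝ) * ∏ p ∈ PP K z, (1 - ((Om p).card : ℝ) / p)) := by ring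
  have h7 : 4 * (T : ℝ) * ∏ p ∈ PP K z, (1 - ((Om p).card : ℝ) / p) =
      4 * ((T : ℝ) * ∏ p ∈ PP K z, (1 - ((Om p).card : ℝ) / p)) := by ring
  rw [h7]
  rw [h5] at herr
  rw [h6] at hmain
  linarith

end Pool.MP_a95293_nt.RC
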