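import Pool.Agent.Lib_MP_a95293_rc.Defs

/-!
# Piece RAD: elementary facts on radicals
-/

set_option autoImplicit false

namespace Pool.MP_a95293_nt.RC

open Finset

theorem rd_pos (n : ℕ) : 0 < rd n := by
  exact Finset.prod_pos fun p hp => (Nat.prime_of_mem_primeFactors hp).pos

theorem rd_dvd (n : ℕ) : rd n ∣ n := by
  exact Nat.prod_primeFactors_dvd n

theorem rd_squarefree (n : ℕ) : Squarefree (rd n) := by
  unfold rd
  apply Finset.squarefree_prod_of_pairwise_isCoprime
  · intro p hp q hq hpq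
    exact Nat.coprime_iff_isRelPrime.1 ((Nat.coprime_primes (Nat.prime_of_mem_primeFactors hp)
      (Nat.prime_of_mem_primeFactors hq)).2 hpq)
  · intro p hp
    exact (Nat.prime_of_mem_primeFactors hp).prime.squarefree

theorem rd_primeFactors (n : ℕ) : (rd n).primeFactors = n.primeFactors := by
  unfold rd
  exact Nat.primeFactors_prod fun p hp => Nat.prime_of_mem_primeFactors hp

theorem rd_of_squarefree {n : ℕ} (hn : Squarefree n) : rd n = n := by
  exact Nat.prod_primeFactors_of_squarefree hn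

theorem rd_congr {m n : ℕ} (h : m.primeFactors = n.primeFactors) : rd m = rd n := by
  unfold rd
  rw [h]

theorem rd_mul {a b : ℕ} (h : a.Coprime b) : rd (a * b) = rd a * rd b := by
  unfold rd
  rw [h.primeFactors_mul, Finset.prod_union h.disjoint_primeFactors]

theorem rd_dvd_iff {n R : ℕ} (hR : R ≠ 0) : rd n ∣ R ↔ n.primeFactors ⊆ R.primeFactors := by
  constructor
  · intro h
    rw [← rd_primeFactors n]
    exact Nat.primeFactors_mono h hR
  · intro h
    refine Dvd.dvd.trans ?_ (Nat.prod_primeFactors_dvd R)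
    exact Finset.prod_dvd_prod_of_subset _ _ _ h

theorem pr3_pos {z : ℕ × ℕ} (hz : Prm z) : 0 < pr3 z := by
  unfold pr3
  have h1 := hz.1
  have h2 := hz.2.1
  positivity

theorem Prm.cop1 {z : ℕ × ℕ} (hz : Prm z) : z.1.Coprime (z.1 + z.2) := by
  rw [Nat.coprime_self_add_right]
  exact hz.2.2

theorem Prm.cop2 {z : ℕ × ℕ} (hz : Prm z) : z.2.Coprime (z.1 + z.2) := by
  rw [Nat.coprime_add_self_right]
  exact hz.2.2.symm

theorem rd_pr3 {z : ℕ × ℕ} (hz : Prm z) : rd (pr3 z) = rd z.1 * rd z.2 * rd (z.1 + z.2) := by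
  unfold pr3
  rw [rd_mul (Nat.Coprime.mul_left hz.cop1 hz.cop2), rd_mul hz.2.2]

theorem primeFactors_pr3 {z : ℕ × ℕ} (hz : Prm z) :
    (pr3 z).primeFactors = z.1.primeFactors ∪ z.2.primeFactors ∪ (z.1 + z.2).primeFactors := by
  unfold pr3
  rw [(Nat.Coprime.mul_left hz.cop1 hz.cop2).primeFactors_mul, hz.2.2.primeFactors_mul]

/-- PROOF: `v_p(abc) = v_p(a)` for a prime divisor `p` of `a` (the other two are prime to `p`); same for the others. -/
theorem fact_pr3 {z : ℕ × ℕ} (hz : Prm z) (p : ℕ) :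
    (p ∈ z.1.primeFactors → (pr3 z).factorization p = z.1.factorization p) ∧
    (p ∈ z.2.primeFactors → (pr3 z).factorization p = z.2.factorization p) ∧
    (p ∈ (z.1 + z.2).primeFactors → (pr3 z).factorization p = (z.1 + z.2).factorization p) := by
  have h1 := hz.1.ne'
  have h2 := hz.2.1.ne'
  have h3 : z.1 + z.2 ≠ 0 := by omega
  have hf : (pr3 z).factorization p =
      z.1.factorization p + z.2.factorization p + (z.1 + z.2).factorization p := by
    unfold pr3
    rw [Nat.factorization_mul (mul_ne_zero h1 h2) h3, Nat.factorization_mul h1 h2]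
    rfl
  have key : ∀ {a b : ℕ}, a.Coprime b → p ∈ a.primeFactors → b.factorization p = 0 := by
    intro a b hab hp
    apply Nat.factorization_eq_zero_of_not_dvd
    intro hb
    exact (Nat.prime_of_mem_primeFactors hp).one_lt.ne'
      (Nat.eq_one_of_dvd_coprimes hab (Nat.dvd_of_mem_primeFactors hp) hb)
  refine ⟨fun h => ?_, fun h => ?_, fun h => ?_⟩
  · rw [hf, key hz.2.2 h, key hz.cop1 h]
    omega
  · rw [hf, key hz.2.2.symm h, key hz.cop2 h]
    omega
  · rw [hf, key hz.cop1.symm h, key hz.cop2.symm h]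
    omega

theorem Prm.swap {z : ℕ × ℕ} (hz : Prm z) : Prm z.swap ∧ pr3 z.swap = pr3 z := by
  refine ⟨⟨hz.2.1, hz.1, hz.2.2.symm⟩, ?_⟩
  unfold pr3
  show z.2 * z.1 * (z.2 + z.1) = z.1 * z.2 * (z.1 + z.2)
  ring

end Pool.MP_a95293_nt.RC
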