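import Pool.Agent.Lib_MP_a95293_rc.DecC
import Pool.Agent.Lib_MP_a95293_rc.Rad

/-!
# Piece EV: the number of triples with given primes (Evertse's bound)
-/

set_option autoImplicit false

namespace Pool.MP_a95293_nt.RC

open Finset

/-- the side of the prime `p`: `0, 1, 2` for `p ∣ a`, `p ∣ b`, neither -/
private def Ev_sd (z : ℕ × ℕ) (p : ℕ) : ℕ := if p ∣ z.1 then 0 else if p ∣ z.2 then 1 else 2

private theorem Ev_sd_lt (z : ℕ × ℕ) (p : ℕ) : Ev_sd z p < 3 := by
  unfold Ev_sd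
  split_ifs <;> omega

private theorem Ev_mem1 {z : ℕ × ℕ} (hz : Prm z) {p : ℕ} :
    p ∈ z.1.primeFactors ↔ p ∈ (pr3 z).primeFactors ∧ Ev_sd z p = 0 := by
  rw [primeFactors_pr3 hz, mem_union, mem_union]
  constructor
  · intro h
    refine ⟨Or.inl (Or.inl h), ?_⟩
    unfold Ev_sd
    rw [if_pos (Nat.dvd_of_mem_primeFactors h)]
  · rintro ⟨h, hs⟩
    have hpp : p.Prime := by
      rcases h with (h | h) | h <;> exact Nat.prime_of_mem_primeFactors h
    unfold Ev_sd at hs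
    have : p ∣ z.1 := by
      by_contra hc
      rw [if_neg hc] at hs
      split_ifs at hs
    exact Nat.mem_primeFactors.2 ⟨hpp, this, hz.1.ne'⟩

private theorem Ev_mem2 {z : ℕ × ℕ} (hz : Prm z) {p : ℕ} :
    p ∈ z.2.primeFactors ↔ p ∈ (pr3 z).primeFactors ∧ Ev_sd z p = 1 := by
  rw [primeFactors_pr3 hz, mem_union, mem_union]
  constructor
  · intro h
    refine ⟨Or.inl (Or.inr h), ?_⟩
    have h2 := Nat.dvd_of_mem_primeFactors h
    have h1 : ¬ p ∣ z.1 := fun h1 =>
      (Nat.prime_of_mem_primeFactors h).one_lt.ne' (Nat.eq_one_of_dvd_coprimes hz.2.2 h1 h2)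
    unfold Ev_sd
    rw [if_neg h1, if_pos h2]
  · rintro ⟨h, hs⟩
    have hpp : p.Prime := by
      rcases h with (h | h) | h <;> exact Nat.prime_of_mem_primeFactors h
    unfold Ev_sd at hs
    have : p ∣ z.2 := by
      by_contra hc
      rw [if_neg hc] at hs
      split_ifs at hs
      omega
    exact Nat.mem_primeFactors.2 ⟨hpp, this, hz.2.1.ne'⟩

private theorem Ev_mem3 {z : ℕ × ℕ} (hz : Prm z) {p : ℕ} :
    p ∈ (z.1 + z.2).primeFactors ↔ p ∈ (pr3 z).primeFactors ∧ Ev_sd z p = 2 := by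
  rw [primeFactors_pr3 hz, mem_union, mem_union]
  constructor
  · intro h
    refine ⟨Or.inr h, ?_⟩
    have h3 := Nat.dvd_of_mem_primeFactors h
    have hpp := Nat.prime_of_mem_primeFactors h
    have h1 : ¬ p ∣ z.1 := fun h1 =>
      hpp.one_lt.ne' (Nat.eq_one_of_dvd_coprimes hz.cop1 h1 h3)
    have h2 : ¬ p ∣ z.2 := fun h1 =>
      hpp.one_lt.ne' (Nat.eq_one_of_dvd_coprimes hz.cop2 h1 h3)
    unfold Ev_sd
    rw [if_neg h1, if_neg h2]
  · rintro ⟨h, hs⟩
    unfold Ev_sd at hs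
    rcases h with (h | h) | h
    · rw [if_pos (Nat.dvd_of_mem_primeFactors h)] at hs
      omega
    · by_cases h1 : p ∣ z.1
      · rw [if_pos h1] at hs
        omega
      · rw [if_neg h1, if_pos (Nat.dvd_of_mem_primeFactors h)] at hs
        omega
    · exact h

/-- the key of `z` -/
private def Ev_key (P : Finset ℕ) (z : ℕ × ℕ) (p : P) : ℕ × ℕ :=
  (Ev_sd z p, (pr3 z).factorization p % 24)

private theorem Ev_fib (P : Finset ℕ) (Z : Finset (ℕ × ℕ))
    (hZ : ∀ z ∈ Z, Prm z ∧ (pr3 z).primeFactors = P ∧ 24 ^ 40 ≤ z.1 + z.2) (κ : P → ℕ × ℕ) :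
    (Z.filter fun z => Ev_key P z = κ).card ≤ (2 ^ 11 * 24) ^ P.card := by
  rcases (Z.filter fun z => Ev_key P z = κ).eq_empty_or_nonempty with he | ⟨y, hy⟩
  · rw [he, card_empty]
    exact Nat.zero_le _
  · rw [mem_filter] at hy
    obtain ⟨hyP, hyp, _⟩ := hZ y hy.1
    have hT : (y.1 + y.2).primeFactors.card ≤ P.card := by
      apply card_le_card
      rw [← hyp, primeFactors_pr3 hyP]
      exact subset_union_right
    refine le_trans (count_c (le_refl 24) (al 24 y.1) (al 24 y.2) (y.1 + y.2).primeFactors _ ?_)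
      (Nat.pow_le_pow_right (by norm_num) hT)
    intro z hz
    rw [mem_filter] at hz
    obtain ⟨hzP, hzp, hz24⟩ := hZ z hz.1
    have hk : ∀ p ∈ P, Ev_sd z p = Ev_sd y p ∧
        (pr3 z).factorization p % 24 = (pr3 y).factorization p % 24 := by
      intro p hp
      have h1 : Ev_key P z ⟨p, hp⟩ = Ev_key P y ⟨p, hp⟩ := by rw [hz.2, hy.2]
      exact ⟨congrArg Prod.fst h1, congrArg Prod.snd h1⟩
    have e1 : z.1.primeFactors = y.1.primeFactors := by
      ext p
      rw [Ev_mem1 hzP, Ev_mem1 hyP, hzp, hyp]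
      constructor
      · rintro ⟨a, b⟩
        exact ⟨a, by rw [← (hk p a).1]; exact b⟩
      · rintro ⟨a, b⟩
        exact ⟨a, by rw [(hk p a).1]; exact b⟩
    have e2 : z.2.primeFactors = y.2.primeFactors := by
      ext p
      rw [Ev_mem2 hzP, Ev_mem2 hyP, hzp, hyp]
      constructor
      · rintro ⟨a, b⟩
        exact ⟨a, by rw [← (hk p a).1]; exact b⟩
      · rintro ⟨a, b⟩
        exact ⟨a, by rw [(hk p a).1]; exact b⟩
    have e3 : (z.1 + z.2).primeFactors = (y.1 + y.2).primeFactors := by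
      ext p
      rw [Ev_mem3 hzP, Ev_mem3 hyP, hzp, hyp]
      constructor
      · rintro ⟨a, b⟩
        exact ⟨a, by rw [← (hk p a).1]; exact b⟩
      · rintro ⟨a, b⟩
        exact ⟨a, by rw [(hk p a).1]; exact b⟩
    refine ⟨hzP, ?_, ?_, hz24, e3⟩
    · unfold al
      rw [e1]
      refine prod_congr rfl fun p hp => ?_
      have hpP : p ∈ P := by
        rw [← hyp]
        exact (Ev_mem1 hyP).1 hp |>.1
      rw [← (fact_pr3 hzP p).1 (e1 ▸ hp), ← (fact_pr3 hyP p).1 hp, (hk p hpP).2]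
    · unfold al
      rw [e2]
      refine prod_congr rfl fun p hp => ?_
      have hpP : p ∈ P := by
        rw [← hyp]
        exact (Ev_mem2 hyP).1 hp |>.1
      rw [← (fact_pr3 hzP p).2.1 (e2 ▸ hp), ← (fact_pr3 hyP p).2.1 hp, (hk p hpP).2]

private theorem Ev_num (m : ℕ) : (2 ^ 11 * 24) ^ m * 72 ^ m + (24 ^ 40) ^ 2 ≤ (24 ^ 81) ^ (m + 1) := by
  have h1 : (2 ^ 11 * 24) ^ m * 72 ^ m ≤ (24 ^ 81) ^ m := by
    rw [← mul_pow]
    exact Nat.pow_le_pow_left (by norm_num) m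
  have h2 : 1 ≤ (24 ^ 81) ^ m := Nat.one_le_pow _ _ (by norm_num)
  calc (2 ^ 11 * 24) ^ m * 72 ^ m + (24 ^ 40) ^ 2 ≤ (24 ^ 81) ^ m * 1 + (24 ^ 81) ^ m * (24 ^ 40) ^ 2 := by
        have := Nat.mul_le_mul_right ((24 ^ 40) ^ 2) h2
        rw [one_mul] at this
        rw [mul_one]
        exact Nat.add_le_add h1 this
    _ = (24 ^ 81) ^ m * (1 + (24 ^ 40) ^ 2) := by ring
    _ ≤ (24 ^ 81) ^ m * 24 ^ 81 := Nat.mul_le_mul_left _ (by norm_num)
    _ = (24 ^ 81) ^ (m + 1) := (pow_succ _ _).symm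

/-- **Evertse's bound**.
PROOF: `k = 24`, `P = R.primeFactors`, `m = P.card`. Split `Z` into the `z` with `z.1 + z.2 < 24^40` (at most `24^80`, subset of a product of ranges) and
the rest. For the rest let `key z : P → ℕ × ℕ`, `p ↦ (i, v_p(pr3 z) % 24)` with `i = 0, 1, 2` according to `p ∣ a`, `p ∣ b`, `p ∣ a + b`; the key
lies in `Fintype.piFinset (fun _ => range 3 ×ˢ range 24)`, of size `72^m`. The key determines `al 24 z.1`, `al 24 z.2` and
`(z.1 + z.2).primeFactors` (`fact_pr3`, `primeFactors_pr3`), so every fibre has at most `(2^11 * 24)^m` elements (`count_c`, `T.card ≤ m`).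
Total `≤ 24^80 + (72 * 2^11 * 24)^m ≤ (24^80)^(m+1)`; take `C₀ = 24^80` (`x + y ≤ x y` for `x, y ≥ 2`; for `m = 0` the set `Z` is empty or
handle it by `1 + 24^80 ≤ 24^81`: take `C₀ = 24^81`). -/
theorem evertse : ∃ C₀ : ℕ, 1 ≤ C₀ ∧ ∀ (P : Finset ℕ) (Z : Finset (ℕ × ℕ)),
    (∀ z ∈ Z, Prm z ∧ (pr3 z).primeFactors = P) → Z.card ≤ C₀ ^ (P.card + 1) := by
  classical
  refine ⟨24 ^ 81, Nat.one_le_pow _ _ (by norm_num), fun P Z hZ => ?_⟩
  refine le_trans ?_ (Ev_num P.card)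
  set Z1 := Z.filter fun z => z.1 + z.2 < 24 ^ 40 with hZ1
  set Z2 := Z.filter fun z => ¬ z.1 + z.2 < 24 ^ 40 with hZ2
  have hc : Z.card = Z1.card + Z2.card := (card_filter_add_card_filter_not _).symm
  have b1 : Z1.card ≤ (24 ^ 40) ^ 2 := by
    have h1 : Z1 ⊆ range (24 ^ 40) ×ˢ range (24 ^ 40) := by
      intro z hz
      rw [hZ1, mem_filter] at hz
      rw [mem_product, mem_range, mem_range]
      have := hz.2
      omega
    have h2 := card_le_card h1
    rw [card_product, card_range, ← sq] at h2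
    exact h2
  have b2 : Z2.card ≤ (2 ^ 11 * 24) ^ P.card * 72 ^ P.card := by
    have h1 : Z2.card ≤ (2 ^ 11 * 24) ^ P.card * (Z2.image (Ev_key P)).card := by
      apply card_le_mul_card_image
      intro κ _
      apply Ev_fib
      intro z hz
      rw [hZ2, mem_filter] at hz
      exact ⟨(hZ z hz.1).1, (hZ z hz.1).2, not_lt.1 hz.2⟩
    refine h1.trans (Nat.mul_le_mul_left _ ?_)
    have h2 : Z2.image (Ev_key P) ⊆ Fintype.piFinset fun _ : P => range 3 ×ˢ range 24 := by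
      intro κ hκ
      rw [mem_image] at hκ
      obtain ⟨z, _, rfl⟩ := hκ
      rw [Fintype.mem_piFinset]
      intro p
      rw [mem_product, mem_range, mem_range]
      exact ⟨Ev_sd_lt z p, Nat.mod_lt _ (by norm_num)⟩
    refine (card_le_card h2).trans (le_of_eq ?_)
    rw [Fintype.card_piFinset]
    simp [card_product]
  rw [hc, add_comm]
  exact Nat.add_le_add b2 b1

/-- PROOF: the set is contained in the union over the `R ≤ X` of the sets `{z | Prm z ∧ (pr3 z).primeFactors = R.primeFactors}`, which are finite by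
`evertse` (a set all of whose finite subsets have bounded cardinality is finite: `Set.Infinite.exists_subset_card_eq`). -/
theorem finite_le (X : ℕ) : {z : ℕ × ℕ | Prm z ∧ rd (pr3 z) ≤ X}.Finite := by
  classical
  obtain ⟨C₀, _, hC⟩ := evertse
  have h1 : {z : ℕ × ℕ | Prm z ∧ rd (pr3 z) ≤ X} ⊆
      ⋃ R ∈ (Finset.range (X + 1) : Set ℕ), {z : ℕ × ℕ | Prm z ∧ (pr3 z).primeFactors = R.primeFactors} := by
    rintro z ⟨hz, hX⟩
    refine Set.mem_biUnion (x := rd (pr3 z)) ?_ ?_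
    · exact mem_coe.2 (mem_range.2 (by omega))
    · exact ⟨hz, (rd_primeFactors _).symm⟩
  refine Set.Finite.subset (Set.Finite.biUnion (Finset.finite_toSet _) fun R _ => ?_) h1
  by_contra hc
  obtain ⟨t, ht, htc⟩ := Set.Infinite.exists_subset_card_eq hc (C₀ ^ (R.primeFactors.card + 1) + 1)
  have := hC R.primeFactors t (fun z hz => ht hz)
  omega

end Pool.MP_a95293_nt.RC
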