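import Pool.Agent.Lib_MP_a95293_rc.PadeW

/-!
# Piece PADV: two consecutive Padé forms do not vanish together
-/

set_option autoImplicit false

namespace Pool.MP_a95293_nt.RC

open Finset

private theorem PadeV_A0 (k n : ℕ) : (pA k n).eval 0 = gm k n n := by
  unfold pA
  rw [Polynomial.eval_finsetSum, sum_eq_single 0]
  · simp [cf, gp]
  · intro i _ hi
    simp [hi]
  · intro h
    exact absurd (mem_range.2 (Nat.succ_pos n)) h

private theorem PadeV_B0 (k n : ℕ) : (pB k n).eval 0 = gp k n n := by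
  unfold pB
  rw [Polynomial.eval_finsetSum, sum_eq_single 0]
  · simp [cf, gm]
  · intro i _ hi
    simp [hi]
  · intro h
    exact absurd (mem_range.2 (Nat.succ_pos n)) h

private theorem PadeV_gp (k n : ℕ) :
    gp k (n + 1) (n + 1) * (n + 1) = k * (k * (n + 1) + 1) * gp k n n := by
  have h1 := gp_mul k (n + 1) (n + 1) le_rfl
  have h2 := gp_mul k n n le_rfl
  rw [prod_range_succ', Nat.factorial_succ, Nat.sub_zero] at h1
  have h3 : ∏ t ∈ range n, (k * (n + 1 - (t + 1)) + 1) = ∏ t ∈ range n, (k * (n - t) + 1) := by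
    refine prod_congr rfl fun t _ => ?_
    rw [Nat.add_sub_add_right]
  rw [h3] at h1
  apply Nat.eq_of_mul_eq_mul_right (Nat.factorial_pos n)
  calc gp k (n + 1) (n + 1) * (n + 1) * n.factorial =
      gp k (n + 1) (n + 1) * ((n + 1) * n.factorial) := by ring
    _ = k * (k * (n + 1) + 1) * (k ^ n * ∏ t ∈ range n, (k * (n - t) + 1)) := by
        rw [h1]
        ring
    _ = _ := by
        rw [← h2]
        ring

private theorem PadeV_gm (k n : ℕ) (hk : 1 ≤ k) :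
    gm k (n + 1) (n + 1) * (n + 1) = k * (k * (n + 1) - 1) * gm k n n := by
  have h1 := gm_mul k (n + 1) (n + 1) hk le_rfl
  have h2 := gm_mul k n n hk le_rfl
  rw [prod_range_succ', Nat.factorial_succ, Nat.sub_zero] at h1
  have h3 : ∏ t ∈ range n, (k * (n + 1 - (t + 1)) - 1) = ∏ t ∈ range n, (k * (n - t) - 1) := by
    refine prod_congr rfl fun t _ => ?_
    rw [Nat.add_sub_add_right]
  rw [h3] at h1
  apply Nat.eq_of_mul_eq_mul_right (Nat.factorial_pos n)
  calc gm k (n + 1) (n + 1) * (n + 1) * n.factorial =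
      gm k (n + 1) (n + 1) * ((n + 1) * n.factorial) := by ring
    _ = k * (k * (n + 1) - 1) * (k ^ n * ∏ t ∈ range n, (k * (n - t) - 1)) := by
        rw [h1]
        ring
    _ = _ := by
        rw [← h2]
        ring

private theorem PadeV_degA (k n : ℕ) : (pA k n).natDegree ≤ n := by
  unfold pA
  refine Polynomial.natDegree_sum_le_of_forall_le _ _ fun i hi => ?_
  rw [mem_range] at hi
  exact (Polynomial.natDegree_C_mul_X_pow_le _ _).trans (by omega)

private theorem PadeV_degB (k n : ℕ) : (pB k n).natDegree ≤ n := by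
  unfold pB
  refine Polynomial.natDegree_sum_le_of_forall_le _ _ fun i hi => ?_
  rw [mem_range] at hi
  exact (Polynomial.natDegree_C_mul_X_pow_le _ _).trans (by omega)

private theorem PadeV_deg (k n : ℕ) : (pW k n).natDegree ≤ 2 * n + 1 := by
  unfold pW
  have h1 := Polynomial.natDegree_mul_le_of_le (PadeV_degA k n) (PadeV_degB k (n + 1))
  have h2 := Polynomial.natDegree_mul_le_of_le (PadeV_degA k (n + 1)) (PadeV_degB k n)
  refine (Polynomial.natDegree_sub_le_of_le h1 h2).trans ?_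
  apply max_le <;> omega

private theorem PadeV_fA (k n : ℕ) (u v : ℤ) (hv : v ≠ 0) :
    ((fA k n u v : ℤ) : ℚ) = (v : ℚ) ^ n * (pA k n).eval ((u : ℚ) / v) := by
  have hv' : (v : ℚ) ≠ 0 := by exact_mod_cast hv
  unfold fA pA
  rw [Polynomial.eval_finsetSum, mul_sum]
  push_cast
  refine sum_congr rfl fun i hi => ?_
  rw [mem_range] at hi
  have h1 : (v : ℚ) ^ n = (v : ℚ) ^ i * (v : ℚ) ^ (n - i) := by
    rw [← pow_add]
    congr 1
    omega
  rw [Polynomial.eval_mul, Polynomial.eval_C, Polynomial.eval_pow, Polynomial.eval_X, div_pow, h1]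
  field_simp

private theorem PadeV_fB (k n : ℕ) (u v : ℤ) (hv : v ≠ 0) :
    ((fB k n u v : ℤ) : ℚ) = (v : ℚ) ^ n * (pB k n).eval ((u : ℚ) / v) := by
  have hv' : (v : ℚ) ≠ 0 := by exact_mod_cast hv
  unfold fB fA pB
  have hr := sum_range_reflect (fun i => (cf k n i : ℤ) * v ^ i * u ^ (n - i)) (n + 1)
  rw [← hr, Polynomial.eval_finsetSum, mul_sum, Nat.add_sub_cancel]
  push_cast
  refine sum_congr rfl fun i hi => ?_
  rw [mem_range] at hi
  have h1 : (v : ℚ) ^ n = (v : ℚ) ^ i * (v : ℚ) ^ (n - i) := by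
    rw [← pow_add]
    congr 1
    omega
  have h4 : n - (n - i) = i := by omega
  rw [Polynomial.eval_mul, Polynomial.eval_C, Polynomial.eval_pow, Polynomial.eval_X, div_pow, h1,
    h4]
  field_simp

/-- PROOF: `W(0) = A_n(0) B_(n+1)(0) - A_(n+1)(0) B_n(0) = gm k n n * gp k (n+1) (n+1) - gm k (n+1) (n+1) * gp k n n` (since
`cf k n 0 = gm k n n`, `cf k n n = gp k n n`; `gp k n 0 = 1 = gm k n 0`), and by `gp_mul`, `gm_mul`
`gp k (n+1) (n+1) (n+1)! = k^(n+1) (k (n+1) + 1) ∏_{t<n} (k (n - t) + 1)`, so `gp k (n+1) (n+1) * (n+1) = k (k(n+1)+1) gp k n n` and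
`gm k (n+1) (n+1) * (n+1) = k (k(n+1)-1) gm k n n`; hence `(n+1) W(0) = 2 k gm k n n gp k n n > 0`. -/
theorem pW_zero (k n : ℕ) (hk : 2 ≤ k) : (pW k n).eval 0 ≠ 0 := by
  have hgp := PadeV_gp k n
  have hgm := PadeV_gm k n (by omega)
  have hp : (0 : ℚ) < gp k n n := by exact_mod_cast gp_pos k n n (by omega) le_rfl
  have hm : (0 : ℚ) < gm k n n := by exact_mod_cast gm_pos k n n hk le_rfl
  have hk0 : (0 : ℚ) < k := by exact_mod_cast (by omega : 0 < k)
  have hgp' : (gp k (n + 1) (n + 1) : ℚ) * (n + 1) = k * (k * (n + 1) + 1) * gp k n n := by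
    exact_mod_cast hgp
  have hgm' : (gm k (n + 1) (n + 1) : ℚ) * (n + 1) = k * (k * (n + 1) - 1) * gm k n n := by
    have h1 : ((gm k (n + 1) (n + 1) * (n + 1) : ℕ) : ℚ) = ((k * (k * (n + 1) - 1) * gm k n n : ℕ) : ℚ) := by
      rw [hgm]
    have h2 : 1 ≤ k * (n + 1) := Nat.mul_pos (by omega) (Nat.succ_pos n)
    rw [Nat.cast_mul, Nat.cast_mul, Nat.cast_mul, Nat.cast_sub h2] at h1
    push_cast at h1
    exact h1
  unfold pW
  rw [Polynomial.eval_sub, Polynomial.eval_mul, Polynomial.eval_mul, PadeV_A0, PadeV_A0, PadeV_B0,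
    PadeV_B0]
  intro h0
  have h1 : ((gm k n n : ℚ) * gp k (n + 1) (n + 1) - gm k (n + 1) (n + 1) * gp k n n) * (n + 1) =
      2 * k * gm k n n * gp k n n := by
    linear_combination (gm k n n : ℚ) * hgp' - (gp k n n : ℚ) * hgm'
  rw [h0, zero_mul] at h1
  have h2 : 0 < 2 * (k : ℚ) * gm k n n * gp k n n := by positivity
  linarith

/-- PROOF: `natDegree (pW k n) ≤ 2n + 1`, `(X-1)^(2n+1) ∣ W` (`pW_dvd`), `W ≠ 0` (`pW_zero`): `W = C w * (X-1)^(2n+1)` with `w ≠ 0`, so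
`W(r) ≠ 0` for `r ≠ 1`. -/
theorem pW_ne (k n : ℕ) (hk : 2 ≤ k) (r : ℚ) (hr : r ≠ 1) : (pW k n).eval r ≠ 0 := by
  obtain ⟨E, hE⟩ := pW_dvd k n hk
  have h0 := pW_zero k n hk
  have hE0 : E ≠ 0 := by
    intro h
    apply h0
    rw [hE, h, mul_zero, Polynomial.eval_zero]
  have hX : (Polynomial.X - Polynomial.C (1 : ℚ)) ^ (2 * n + 1) ≠ 0 :=
    pow_ne_zero _ (Polynomial.X_sub_C_ne_zero 1)
  have hdeg : E.natDegree = 0 := by
    have h1 := PadeV_deg k n
    rw [hE, Polynomial.natDegree_mul hX hE0, Polynomial.natDegree_pow,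
      Polynomial.natDegree_X_sub_C] at h1
    omega
  obtain ⟨w, hw⟩ := Polynomial.natDegree_eq_zero.1 hdeg
  have hw0 : w ≠ 0 := by
    intro h
    apply hE0
    rw [← hw, h, Polynomial.C_0]
  rw [hE, ← hw, Polynomial.eval_mul, Polynomial.eval_pow, Polynomial.eval_sub, Polynomial.eval_X,
    Polynomial.eval_C, Polynomial.eval_C]
  exact mul_ne_zero (pow_ne_zero _ (sub_ne_zero.2 hr)) hw0

/-- **Nonvanishing**.
PROOF: with `r = u/v`: `fA k n u v = v^n A_n(r)`, `fB k n u v = v^n B_n(r)` (reflect the sum), so the determinant is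
`v^(2n+1) W(r) ≠ 0` (`pW_ne`). -/
theorem pad_det (k n : ℕ) (hk : 2 ≤ k) (u v : ℤ) (huv : u ≠ v) (hv : v ≠ 0) :
    fA k n u v * fB k (n + 1) u v - fA k (n + 1) u v * fB k n u v ≠ 0 := by
  have hv' : (v : ℚ) ≠ 0 := by exact_mod_cast hv
  have hr : (u : ℚ) / v ≠ 1 := by
    intro h
    rw [div_eq_one_iff_eq hv'] at h
    exact huv (by exact_mod_cast h)
  have h1 := pW_ne k n hk ((u : ℚ) / v) hr
  intro h0
  have h2 : (((fA k n u v * fB k (n + 1) u v - fA k (n + 1) u v * fB k n u v : ℤ)) : ℚ) = 0 := by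
    rw [h0, Int.cast_zero]
  rw [Int.cast_sub, Int.cast_mul, Int.cast_mul, PadeV_fA k n u v hv, PadeV_fA k (n + 1) u v hv,
    PadeV_fB k n u v hv, PadeV_fB k (n + 1) u v hv] at h2
  apply h1
  unfold pW
  rw [Polynomial.eval_sub, Polynomial.eval_mul, Polynomial.eval_mul]
  have h3 : (v : ℚ) ^ n * (v : ℚ) ^ (n + 1) ≠ 0 := mul_ne_zero (pow_ne_zero _ hv') (pow_ne_zero _ hv')
  apply mul_left_cancel₀ h3
  rw [mul_zero]
  linear_combination h2

/-- PROOF: if both vanish, `t A_n = s B_n`, `t A_(n+1) = s B_(n+1)`, hence `s (A_n B_(n+1) - A_(n+1) B_n) = t (A_n A_(n+1) - A_(n+1) A_n) = 0`,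
contradiction to `pad_det` and `s ≠ 0`. -/
theorem Lam_ne (k n : ℕ) (hk : 2 ≤ k) (s t u v : ℤ) (hs : s ≠ 0) (huv : u ≠ v) (hv : v ≠ 0) :
    Lam k n s t u v ≠ 0 ∨ Lam k (n + 1) s t u v ≠ 0 := by
  by_contra hcon
  rw [not_or, not_not, not_not] at hcon
  obtain ⟨h1, h2⟩ := hcon
  unfold Lam at h1 h2
  have h3 := pad_det k n hk u v huv hv
  apply h3
  apply mul_left_cancel₀ hs
  rw [mul_zero]
  linear_combination fA k (n + 1) u v * h1 - fA k n u v * h2

end Pool.MP_a95293_nt.RC
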