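import Pool.Agent.Lib_MP_a95293_rc.Defs

/-!
# Piece LOCC: counting with the Chinese remainder theorem
-/

set_option autoImplicit false

namespace Pool.MP_a95293_nt.RC

open Finset

/-- PROOF: the map `y ↦ (l ↦ y % l)` from the left set to `Fintype.piFinset (fun l : 𝓛 => K l)` is injective: `y ≡ y'` modulo every `l`, so modulo the product
(`Finset.prod_dvd_of_coprime`, `Nat.modEq_iff_dvd`), and both are smaller than the product. `Fintype.card_piFinset`, `Finset.prod_coe_sort`. -/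
theorem crt_count (L : Finset ℕ) (hL : ∀ l ∈ L, l.Prime) (K : ℕ → Finset ℕ) :
    ((range (∏ l ∈ L, l)).filter fun y => ∀ l ∈ L, y % l ∈ K l).card ≤ ∏ l ∈ L, (K l).card := by
  classical
  rw [← prod_coe_sort L fun l => (K l).card]
  rw [← Fintype.card_piFinset fun l : L => K l]
  refine card_le_card_of_injOn (fun y => fun l : L => y % l) ?_ ?_
  · intro y hy
    have h1 := (mem_filter.1 (mem_coe.1 hy)).2
    exact mem_coe.2 (Fintype.mem_piFinset.2 fun l => h1 l l.2)
  · intro y hy y' hy' h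
    have h1 := mem_range.1 (mem_filter.1 (mem_coe.1 hy)).1
    have h2 := mem_range.1 (mem_filter.1 (mem_coe.1 hy')).1
    have h3 : ∀ l ∈ L, y % l = y' % l := fun l hl => congrFun h ⟨l, hl⟩
    have h4 : ((∏ l ∈ L, l : ℕ) : ℤ) ∣ (y' : ℤ) - y := by
      push_cast
      apply Finset.prod_dvd_of_coprime
      · intro p hp q hq hpq
        exact Nat.isCoprime_iff_coprime.2 ((Nat.coprime_primes (hL p hp) (hL q hq)).2 hpq)
      · intro l hl
        exact Nat.modEq_iff_dvd.1 (h3 l hl)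
    exact Nat.ModEq.eq_of_lt_of_lt (Nat.modEq_iff_dvd.2 h4) h1 h2

/-- PROOF: `∏ (K l).card * 2^|G| ≤ ∏ l`, since `2 (K l).card ≤ l` for `l ∈ G` and `(K l).card ≤ l` for the others; `crt_count`. -/
theorem crt_half (L G : Finset ℕ) (hL : ∀ l ∈ L, l.Prime) (hG : G ⊆ L) (K : ℕ → Finset ℕ)
    (h1 : ∀ l ∈ L, (K l).card ≤ l) (h2 : ∀ l ∈ G, 2 * (K l).card ≤ l) :
    ((range (∏ l ∈ L, l)).filter fun y => ∀ l ∈ L, y % l ∈ K l).card * 2 ^ G.card ≤ ∏ l ∈ L, l := by
  classical
  refine (Nat.mul_le_mul_right _ (crt_count L hL K)).trans ?_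
  have h3 : (2 : ℕ) ^ G.card = ∏ l ∈ L, if l ∈ G then 2 else 1 := by
    rw [Finset.prod_ite_mem, inter_eq_right.2 hG, prod_const]
  rw [h3, ← Finset.prod_mul_distrib]
  refine Finset.prod_le_prod' fun l hl => ?_
  by_cases hlG : l ∈ G
  · rw [if_pos hlG, mul_comm]
    exact h2 l hlG
  · rw [if_neg hlG, mul_one]
    exact h1 l hl

end Pool.MP_a95293_nt.RC
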