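import Pool.Agent.Lib_MP_a95293_rc.Defs

/-!
# Piece DECA: `a = α x^k`
-/

set_option autoImplicit false

namespace Pool.MP_a95293_nt.RC

open Finset

/-- the coefficient: `∏ p^(v_p(a) mod k)` -/
def al (k a : ℕ) : ℕ := ∏ p ∈ a.primeFactors, p ^ (a.factorization p % k)

/-- the root: `∏ p^(v_p(a) / k)` -/
def rt (k a : ℕ) : ℕ := ∏ p ∈ a.primeFactors, p ^ (a.factorization p / k)

/-- PROOF: `Nat.factorization_prod_pow_eq_self`, `Nat.mod_add_div`. -/
theorem al_mul (k a : ℕ) (ha : a ≠ 0) : al k a * rt k a ^ k = a := by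
  unfold al rt
  rw [← Finset.prod_pow, ← Finset.prod_mul_distrib]
  have h1 := Nat.prod_factorization_pow_eq_self ha
  conv_rhs => rw [← h1]
  rw [Finsupp.prod, Nat.support_factorization]
  refine Finset.prod_congr rfl fun p _ => ?_
  rw [← pow_mul, ← pow_add]
  congr 1
  rw [mul_comm]
  exact Nat.mod_add_div _ _

theorem al_pos (k a : ℕ) : 0 < al k a := by
  exact Finset.prod_pos fun p hp => pow_pos (Nat.prime_of_mem_primeFactors hp).pos _

theorem rt_pos (k a : ℕ) : 0 < rt k a := by
  exact Finset.prod_pos fun p hp => pow_pos (Nat.prime_of_mem_primeFactors hp).pos _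

/-- PROOF: the primes `p > H` contribute `p^0`; every other prime at most `H^(k-1) ≤ H^k`; at most `w` primes. -/
theorem al_le {k a H w : ℕ} (hk : 1 ≤ k) (hH : 1 ≤ H) (hw : a.primeFactors.card ≤ w)
    (h : ∀ p ∈ a.primeFactors, H < p → k ∣ a.factorization p) : al k a ≤ H ^ (k * w) := by
  unfold al
  calc ∏ p ∈ a.primeFactors, p ^ (a.factorization p % k) ≤ ∏ p ∈ a.primeFactors, H ^ k := by
        refine Finset.prod_le_prod' fun p hp => ?_
        rcases Nat.lt_or_ge H p with hH' | hH'
        · rw [Nat.mod_eq_zero_of_dvd (h p hp hH'), pow_zero]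
          exact Nat.one_le_pow _ _ (by omega)
        · calc p ^ (a.factorization p % k) ≤ H ^ (a.factorization p % k) :=
                Nat.pow_le_pow_left hH' _
            _ ≤ H ^ k := Nat.pow_le_pow_right (by omega) (Nat.mod_lt _ (by omega)).le
    _ = H ^ (k * a.primeFactors.card) := by rw [Finset.prod_const, ← pow_mul]
    _ ≤ H ^ (k * w) := Nat.pow_le_pow_right (by omega) (Nat.mul_le_mul_left _ hw)

end Pool.MP_a95293_nt.RC
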