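import Pool.Agent.Lib_MP_a95293_rc.Defs

/-!
# Piece PATB: residue classes
-/

set_option autoImplicit false

namespace Pool.MP_a95293_nt.RC

open Finset

/-- the modulus: `4` for `p = 2` and `p` otherwise -/
def mo (p : ℕ) : ℕ := if p = 2 then 4 else p

/-- the class of `x / y` modulo `mo p` -/
noncomputable def cls (p : ℕ) (x y : ℤ) : ℕ := ((x : ZMod (mo p)) * (y : ZMod (mo p))⁻¹).val

private theorem PatB_mo {p : ℕ} (hp : p.Prime) {y : ℤ} (hy : ¬ (p : ℤ) ∣ y) :
    IsUnit ((y : ℤ) : ZMod (mo p)) := by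
  rw [ZMod.coe_int_isUnit_iff_isCoprime]
  have h1 : IsCoprime (p : ℤ) y := (Prime.coprime_iff_not_dvd (Nat.prime_iff_prime_int.1 hp)).2 hy
  unfold mo
  split_ifs with h
  · subst h
    have h2 : ((4 : ℕ) : ℤ) = ((2 : ℕ) : ℤ) ^ 2 := by norm_num
    rw [h2]
    exact h1.pow_left
  · exact h1

/-- PROOF: `ZMod.val_injective` (`mo p ≠ 0`), `y`, `y'` are units modulo `mo p` (`ZMod.coe_mul_inv_eq_one`-like lemmas for integers coprime to
the modulus), multiply by `y y'`; `ZMod.intCast_eq_intCast_iff_dvd_sub`. -/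
theorem cls_eq {p : ℕ} (hp : p.Prime) {x y x' y' : ℤ} (hy : ¬ (p : ℤ) ∣ y) (hy' : ¬ (p : ℤ) ∣ y')
    (h : cls p x y = cls p x' y') : (mo p : ℤ) ∣ x * y' - x' * y := by
  have h0 : mo p ≠ 0 := by
    unfold mo
    split_ifs
    · norm_num
    · exact hp.ne_zero
  have : NeZero (mo p) := ⟨h0⟩
  unfold cls at h
  have h1 := ZMod.val_injective (mo p) h
  have hu := PatB_mo hp hy
  have hu' := PatB_mo hp hy'
  rw [← ZMod.intCast_eq_intCast_iff_dvd_sub]
  push_cast
  calc (x' : ZMod (mo p)) * y = x' * ((y' : ZMod (mo p))⁻¹ * y') * y := by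
        rw [ZMod.inv_mul_of_unit _ hu', mul_one]
    _ = (x' * (y' : ZMod (mo p))⁻¹) * (y' * y) := by ring
    _ = (x * (y : ZMod (mo p))⁻¹) * (y' * y) := by rw [h1]
    _ = x * ((y : ZMod (mo p))⁻¹ * y) * y' := by ring
    _ = x * y' := by rw [ZMod.inv_mul_of_unit _ hu, mul_one]

/-- PROOF: for `p ≠ 2` work in the field `ZMod p`: `(x/y)^k = β/α`, which has at most `k` solutions (`Polynomial.card_nthRoots`, image under
`ZMod.val`). For `p = 2`: `x / y` is odd modulo `4`, so the value is in `{1, 3}` (two elements, `k ≥ 2`). -/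
theorem cls_mem {k : ℕ} (hk : 2 ≤ k) {p : ℕ} (hp : p.Prime) (α β : ℤ) :
    ∃ Q : Finset ℕ, Q.card ≤ k ∧ ∀ x y : ℤ, ¬ (p : ℤ) ∣ α → ¬ (p : ℤ) ∣ x → ¬ (p : ℤ) ∣ y →
      (p : ℤ) ∣ α * x ^ k - β * y ^ k → cls p x y ∈ Q := by
  classical
  by_cases h2 : p = 2
  · subst h2
    refine ⟨{1, 3}, (card_le_two).trans hk, fun x y hα hx hy _ => ?_⟩
    have hux := PatB_mo Nat.prime_two hx
    have huy := PatB_mo Nat.prime_two hy
    unfold cls
    have hm : mo 2 = 4 := if_pos rfl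
    rw [hm] at hux huy ⊢
    have h3 : ((x : ZMod 4) * (y : ZMod 4)⁻¹) * ((y : ZMod 4) * (x : ZMod 4)⁻¹) = 1 := by
      calc ((x : ZMod 4) * (y : ZMod 4)⁻¹) * ((y : ZMod 4) * (x : ZMod 4)⁻¹) =
          (x * (x : ZMod 4)⁻¹) * ((y : ZMod 4)⁻¹ * y) := by ring
        _ = 1 := by rw [ZMod.mul_inv_of_unit _ hux, ZMod.inv_mul_of_unit _ huy, mul_one]
    have h4 : ∀ u v : ZMod 4, u * v = 1 → u.val = 1 ∨ u.val = 3 := by decide
    rw [mem_insert, mem_singleton]
    exact h4 _ _ h3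
  · have hm : mo p = p := if_neg h2
    have : Fact p.Prime := ⟨hp⟩
    refine ⟨(Polynomial.nthRoots k ((β : ZMod p) * (α : ZMod p)⁻¹)).toFinset.image ZMod.val, ?_,
      fun x y hα hx hy hd => ?_⟩
    · exact card_image_le.trans ((Multiset.toFinset_card_le _).trans (Polynomial.card_nthRoots _ _))
    · have hc : cls p x y = ((x : ZMod p) * (y : ZMod p)⁻¹).val := by
        unfold cls
        rw [hm]
      rw [hc, mem_image]
      refine ⟨_, ?_, rfl⟩
      rw [Multiset.mem_toFinset, Polynomial.mem_nthRoots (by omega)]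
      have hα0 : (α : ZMod p) ≠ 0 := fun h => hα ((ZMod.intCast_zmod_eq_zero_iff_dvd _ _).1 h)
      have hy0 : (y : ZMod p) ≠ 0 := fun h => hy ((ZMod.intCast_zmod_eq_zero_iff_dvd _ _).1 h)
      have he : (α : ZMod p) * (x : ZMod p) ^ k - (β : ZMod p) * (y : ZMod p) ^ k = 0 := by
        have := (ZMod.intCast_zmod_eq_zero_iff_dvd _ _).2 hd
        push_cast at this
        exact this
      rw [mul_pow, inv_pow, eq_comm]
      field_simp
      linear_combination -he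

end Pool.MP_a95293_nt.RC
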