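import Pool.Agent.Lib_MP_a95293_rc.Rad

/-!
# Piece CORC: admissible integer triples
-/

set_option autoImplicit false

namespace Pool.MP_a95293_nt.RC

open Finset

/-- the radical of an integer -/
def radZ (m : ℤ) : ℕ := ∏ p ∈ m.natAbs.primeFactors, p

/-- admissible `n`-tuples -/
def Adm {n : ℕ} (x : Fin n → ℤ) : Prop :=
  Finset.univ.gcd x = 1 ∧ ∑ i, x i = 0 ∧ ∀ S : Finset (Fin n), S.Nonempty → S ≠ univ → ∑ i ∈ S, x i ≠ 0

private theorem CorC_core {p q r : ℤ} (hp : p ≠ 0) (hq : q ≠ 0)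
    (hs : (0 < p ∧ 0 < q) ∨ (p < 0 ∧ q < 0)) (hr : p + q + r = 0)
    (hg : ∀ d : ℤ, d ∣ p → d ∣ q → d ∣ r → IsUnit d) :
    Prm (p.natAbs, q.natAbs) ∧ (p * q * r).natAbs = pr3 (p.natAbs, q.natAbs) ∧
      r.natAbs = p.natAbs + q.natAbs := by
  have hr' : r.natAbs = p.natAbs + q.natAbs := by omega
  refine ⟨⟨Int.natAbs_pos.2 hp, Int.natAbs_pos.2 hq, ?_⟩, ?_, hr'⟩
  · apply Nat.coprime_of_dvd
    intro d hd h1 h2
    have h3 : (d : ℤ) ∣ p := Int.natCast_dvd.2 h1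
    have h4 : (d : ℤ) ∣ q := Int.natCast_dvd.2 h2
    have h5 : (d : ℤ) ∣ r := by
      have : r = -(p + q) := by linarith
      rw [this]
      exact (dvd_add h3 h4).neg_right
    have h6 := hg d h3 h4 h5
    have h7 := hd.one_lt
    rcases Int.isUnit_iff.1 h6 with h8 | h8 <;> omega
  · unfold pr3
    rw [Int.natAbs_mul, Int.natAbs_mul, hr']

/-- PROOF: the three integers are nonzero and sum to `0`; two of them have the same sign, say `a, b > 0` in absolute value and the third is `-(a+b)` up to a common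
sign. `gcd (x 0, x 1, x 2) = 1` gives `a.Coprime b`; the product is `± a b (a + b)`, the maximum of the `|x j|` is `a + b`. -/
theorem adm_pair {x : Fin 3 → ℤ} (hx : Adm x) : ∃ z : ℕ × ℕ, Prm z ∧ radZ (∏ i, x i) = rd (pr3 z) ∧
    (∀ j, |x j| ≤ (z.1 + z.2 : ℕ)) ∧ ∃ j, |x j| = (z.1 + z.2 : ℕ) := by
  obtain ⟨hgcd, hsum, hne⟩ := hx
  rw [Fin.sum_univ_three] at hsum
  have h0 : x 0 ≠ 0 := by
    have := hne {0} (singleton_nonempty _) (by decide)
    rwa [sum_singleton] at this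
  have h1 : x 1 ≠ 0 := by
    have := hne {1} (singleton_nonempty _) (by decide)
    rwa [sum_singleton] at this
  have h2 : x 2 ≠ 0 := by
    have := hne {2} (singleton_nonempty _) (by decide)
    rwa [sum_singleton] at this
  have hg : ∀ d : ℤ, d ∣ x 0 → d ∣ x 1 → d ∣ x 2 → IsUnit d := by
    intro d e0 e1 e2
    apply isUnit_of_dvd_one
    rw [← hgcd]
    apply Finset.dvd_gcd
    intro i _
    fin_cases i
    · exact e0
    · exact e1
    · exact e2
  have hrad : ∀ z : ℕ × ℕ, (∏ i, x i).natAbs = pr3 z → radZ (∏ i, x i) = rd (pr3 z) := by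
    intro z hz
    unfold radZ rd
    rw [hz]
  have hprod : ∏ i, x i = x 0 * x 1 * x 2 := Fin.prod_univ_three _
  have hcases : ((0 < x 0 ∧ 0 < x 1) ∨ (x 0 < 0 ∧ x 1 < 0)) ∨
      ((0 < x 0 ∧ 0 < x 2) ∨ (x 0 < 0 ∧ x 2 < 0)) ∨
      ((0 < x 1 ∧ 0 < x 2) ∨ (x 1 < 0 ∧ x 2 < 0)) := by omega
  rcases hcases with hs | hs | hs
  · obtain ⟨hz, hp, hr⟩ := CorC_core h0 h1 hs (by omega) hg
    refine ⟨_, hz, hrad _ (by rw [hprod, ← hp]), ?_, 2, ?_⟩
    · intro j
      rw [Int.abs_eq_natAbs]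
      fin_cases j
      · show ((x 0).natAbs : ℤ) ≤ (((x 0).natAbs + (x 1).natAbs : ℕ) : ℤ)
        omega
      · show ((x 1).natAbs : ℤ) ≤ (((x 0).natAbs + (x 1).natAbs : ℕ) : ℤ)
        omega
      · show ((x 2).natAbs : ℤ) ≤ (((x 0).natAbs + (x 1).natAbs : ℕ) : ℤ)
        omega
    · rw [Int.abs_eq_natAbs, hr]
  · obtain ⟨hz, hp, hr⟩ := CorC_core h0 h2 hs (by omega) (fun d a b c => hg d a c b)
    refine ⟨_, hz, hrad _ (by
      rw [hprod, ← hp]
      congr 1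
      ring), ?_, 1, ?_⟩
    · intro j
      rw [Int.abs_eq_natAbs]
      fin_cases j
      · show ((x 0).natAbs : ℤ) ≤ (((x 0).natAbs + (x 2).natAbs : ℕ) : ℤ)
        omega
      · show ((x 1).natAbs : ℤ) ≤ (((x 0).natAbs + (x 2).natAbs : ℕ) : ℤ)
        omega
      · show ((x 2).natAbs : ℤ) ≤ (((x 0).natAbs + (x 2).natAbs : ℕ) : ℤ)
        omega
    · rw [Int.abs_eq_natAbs, hr]
  · obtain ⟨hz, hp, hr⟩ := CorC_core h1 h2 hs (by omega) (fun d a b c => hg d c a b)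
    refine ⟨_, hz, hrad _ (by
      rw [hprod, ← hp]
      congr 1
      ring), ?_, 0, ?_⟩
    · intro j
      rw [Int.abs_eq_natAbs]
      fin_cases j
      · show ((x 0).natAbs : ℤ) ≤ (((x 1).natAbs + (x 2).natAbs : ℕ) : ℤ)
        omega
      · show ((x 1).natAbs : ℤ) ≤ (((x 1).natAbs + (x 2).natAbs : ℕ) : ℤ)
        omega
      · show ((x 2).natAbs : ℤ) ≤ (((x 1).natAbs + (x 2).natAbs : ℕ) : ℤ)
        omega
    · rw [Int.abs_eq_natAbs, hr]

private theorem CorC_vals {p q r : ℤ} (hr : r.natAbs = p.natAbs + q.natAbs) (v : ℤ)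
    (hv : v = p ∨ v = q ∨ v = r) :
    v.natAbs = p.natAbs ∨ v.natAbs = q.natAbs ∨ v.natAbs = p.natAbs + q.natAbs := by
  rcases hv with rfl | rfl | rfl
  · exact Or.inl rfl
  · exact Or.inr (Or.inl rfl)
  · exact Or.inr (Or.inr hr)

/-- the entries of an admissible triple are, up to sign, `a`, `b`, `a + b` -/
theorem adm_vals {x : Fin 3 → ℤ} (hx : Adm x) : ∃ z : ℕ × ℕ, Prm z ∧ radZ (∏ i, x i) = rd (pr3 z) ∧
    ∀ j, (x j).natAbs = z.1 ∨ (x j).natAbs = z.2 ∨ (x j).natAbs = z.1 + z.2 := by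
  obtain ⟨hgcd, hsum, hne⟩ := hx
  rw [Fin.sum_univ_three] at hsum
  have h0 : x 0 ≠ 0 := by
    have := hne {0} (singleton_nonempty _) (by decide)
    rwa [sum_singleton] at this
  have h1 : x 1 ≠ 0 := by
    have := hne {1} (singleton_nonempty _) (by decide)
    rwa [sum_singleton] at this
  have h2 : x 2 ≠ 0 := by
    have := hne {2} (singleton_nonempty _) (by decide)
    rwa [sum_singleton] at this
  have hg : ∀ d : ℤ, d ∣ x 0 → d ∣ x 1 → d ∣ x 2 → IsUnit d := by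
    intro d e0 e1 e2
    apply isUnit_of_dvd_one
    rw [← hgcd]
    apply Finset.dvd_gcd
    intro i _
    fin_cases i
    · exact e0
    · exact e1
    · exact e2
  have hrad : ∀ z : ℕ × ℕ, (∏ i, x i).natAbs = pr3 z → radZ (∏ i, x i) = rd (pr3 z) := by
    intro z hz
    unfold radZ rd
    rw [hz]
  have hprod : ∏ i, x i = x 0 * x 1 * x 2 := Fin.prod_univ_three _
  have hcases : ((0 < x 0 ∧ 0 < x 1) ∨ (x 0 < 0 ∧ x 1 < 0)) ∨
      ((0 < x 0 ∧ 0 < x 2) ∨ (x 0 < 0 ∧ x 2 < 0)) ∨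
      ((0 < x 1 ∧ 0 < x 2) ∨ (x 1 < 0 ∧ x 2 < 0)) := by omega
  rcases hcases with hs | hs | hs
  · obtain ⟨hz, hp, hr⟩ := CorC_core h0 h1 hs (by omega) hg
    refine ⟨_, hz, hrad _ (by rw [hprod, ← hp]), ?_⟩
    intro j
    refine CorC_vals hr (x j) ?_
    fin_cases j
    · exact Or.inl rfl
    · exact Or.inr (Or.inl rfl)
    · exact Or.inr (Or.inr rfl)
  · obtain ⟨hz, hp, hr⟩ := CorC_core h0 h2 hs (by omega) (fun d a b c => hg d a c b)
    refine ⟨_, hz, hrad _ (by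
      rw [hprod, ← hp]
      congr 1
      ring), ?_⟩
    intro j
    refine CorC_vals hr (x j) ?_
    fin_cases j
    · exact Or.inl rfl
    · exact Or.inr (Or.inr rfl)
    · exact Or.inr (Or.inl rfl)
  · obtain ⟨hz, hp, hr⟩ := CorC_core h1 h2 hs (by omega) (fun d a b c => hg d c a b)
    refine ⟨_, hz, hrad _ (by
      rw [hprod, ← hp]
      congr 1
      ring), ?_⟩
    intro j
    refine CorC_vals hr (x j) ?_
    fin_cases j
    · exact Or.inr (Or.inr rfl)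
    · exact Or.inl rfl
    · exact Or.inr (Or.inl rfl)

end Pool.MP_a95293_nt.RC
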