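import Pool.Agent.Lib_MP_a95293_rc.CorB
import Pool.Agent.Lib_MP_a95293_rc.CorC

/-!
# Piece CORD: density results
-/

set_option autoImplicit false

namespace Pool.MP_a95293_nt.RC

open Finset

/-- PROOF: `few_R`, `adm_pair`. -/
theorem few_R_adm (ε : ℝ) (hε : 0 < ε) : ∃ B : ℕ, ∀ X : ℕ,
    ({R : ℕ | 1 ≤ R ∧ R ≤ X ∧ ∃ x : Fin 3 → ℤ, Adm x ∧ radZ (∏ i, x i) ∣ R ∧ ∃ j, (B : ℤ) < |x j|}.ncard : ℝ) ≤
      ε * X := by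
  obtain ⟨B, hB⟩ := few_R ε hε
  refine ⟨B, fun X => le_trans ?_ (hB X)⟩
  have hfin : {R : ℕ | 1 ≤ R ∧ R ≤ X ∧ ∃ z : ℕ × ℕ, Prm z ∧ rd (pr3 z) ∣ R ∧
      B < z.1 + z.2}.Finite := (Set.finite_Icc 1 X).subset fun R hR => ⟨hR.1, hR.2.1⟩
  have h1 := Set.ncard_le_ncard (s := {R : ℕ | 1 ≤ R ∧ R ≤ X ∧ ∃ x : Fin 3 → ℤ, Adm x ∧
      radZ (∏ i, x i) ∣ R ∧ ∃ j, (B : ℤ) < |x j|}) (t := {R : ℕ | 1 ≤ R ∧ R ≤ X ∧ ∃ z : ℕ × ℕ, Prm z ∧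
      rd (pr3 z) ∣ R ∧ B < z.1 + z.2}) (by
    rintro R ⟨h1, h2, x, hx, hd, j, hj⟩
    obtain ⟨z, hz, hr, hle, _⟩ := adm_pair hx
    refine ⟨h1, h2, z, hz, hr ▸ hd, ?_⟩
    have h3 := hj.trans_le (hle j)
    exact_mod_cast h3) hfin
  exact_mod_cast h1

/-- PROOF: given `ε`, take `B` for `ε/2`. If `R` is in the set and `R^M ≥ B` then `R` is in the set of `few_R_adm`; the `R` with `R^M < B` are finitely many. -/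
theorem density_zero (M : ℝ) (hM : 0 < M) :
    Filter.Tendsto (fun X : ℕ => ({R : ℕ | 1 ≤ R ∧ R ≤ X ∧ ∃ x : Fin 3 → ℤ, Adm x ∧ radZ (∏ i, x i) ∣ R ∧
      ∃ j, (R : ℝ) ^ M < (|x j| : ℤ)}.ncard : ℝ) / X) Filter.atTop (nhds 0) := by
  rw [Metric.tendsto_atTop]
  intro ε hε
  obtain ⟨B, hB⟩ := few_R_adm (ε / 2) (by linarith)
  set N₁ := ⌈(B : ℝ) ^ (1 / M)⌉₊ with hN₁
  refine ⟨⌈2 * ((N₁ : ℝ) + 1) / ε⌉₊ + 1, fun X hX => ?_⟩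
  have hX0 : 0 < X := by omega
  have hXR : (0 : ℝ) < X := by exact_mod_cast hX0
  have hX1 : 2 * ((N₁ : ℝ) + 1) / ε < X := by
    have h1 := Nat.le_ceil (2 * ((N₁ : ℝ) + 1) / ε)
    have h2 : ((⌈2 * ((N₁ : ℝ) + 1) / ε⌉₊ + 1 : ℕ) : ℝ) ≤ X := by exact_mod_cast hX
    push_cast at h2
    linarith
  rw [dist_zero_right, Real.norm_of_nonneg (by positivity), div_lt_iff₀ hXR]
  set S := {R : ℕ | 1 ≤ R ∧ R ≤ X ∧ ∃ x : Fin 3 → ℤ, Adm x ∧ radZ (∏ i, x i) ∣ R ∧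
      ∃ j, (R : ℝ) ^ M < (|x j| : ℤ)} with hS
  set S' := {R : ℕ | 1 ≤ R ∧ R ≤ X ∧ ∃ x : Fin 3 → ℤ, Adm x ∧ radZ (∏ i, x i) ∣ R ∧
      ∃ j, (B : ℤ) < |x j|} with hS'
  have hfin' : S'.Finite := (Set.finite_Icc 1 X).subset fun R hR => ⟨hR.1, hR.2.1⟩
  have hsub : S ⊆ S' ∪ Set.Icc 1 N₁ := by
    rintro R ⟨h1, h2, x, hx, hd, j, hj⟩
    by_cases hR : R ≤ N₁
    · right
      exact ⟨h1, hR⟩
    · left
      refine ⟨h1, h2, x, hx, hd, j, ?_⟩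
      have h3 : (B : ℝ) ^ (1 / M) ≤ R := by
        refine (Nat.le_ceil _).trans ?_
        exact_mod_cast (by omega : N₁ ≤ R)
      have h4 : (B : ℝ) ≤ (R : ℝ) ^ M := by
        calc (B : ℝ) = ((B : ℝ) ^ (1 / M)) ^ M := by
              rw [← Real.rpow_mul (Nat.cast_nonneg _), one_div_mul_cancel hM.ne', Real.rpow_one]
          _ ≤ (R : ℝ) ^ M := Real.rpow_le_rpow (by positivity) h3 hM.le
      have h5 : (B : ℝ) < ((|x j| : ℤ) : ℝ) := h4.trans_lt hj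
      exact_mod_cast h5
  have h1 := (Set.ncard_le_ncard hsub (hfin'.union (Set.finite_Icc _ _))).trans (Set.ncard_union_le _ _)
  have h2 : (Set.Icc 1 N₁).ncard = N₁ := by
    rw [← coe_Icc, Set.ncard_coe_finset, Nat.card_Icc, Nat.add_sub_cancel]
  rw [h2] at h1
  have h3 : (S.ncard : ℝ) ≤ S'.ncard + N₁ := by exact_mod_cast h1
  have h4 := hB X
  have h5 : 2 * ((N₁ : ℝ) + 1) < X * ε := by
    rw [div_lt_iff₀ hε] at hX1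
    exact hX1
  linarith

end Pool.MP_a95293_nt.RC
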