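import Pool.Agent.Lib_MP_a95293_rc.OmA

/-!
# Piece OMB: the average of `m^ω`
-/

set_option autoImplicit false

namespace Pool.MP_a95293_nt.RC

open Finset

/-- PROOF: `harmonic` bounds (`harmonic_le_one_add_log`). -/
theorem sum_inv_le (X : ℕ) (hX : 1 ≤ X) : ∑ d ∈ Icc 1 X, 1 / (d : ℝ) ≤ 1 + Real.log X := by
  have h1 := harmonic_le_one_add_log X
  have h2 : ((harmonic X : ℚ) : ℝ) = ∑ d ∈ Icc 1 X, 1 / (d : ℝ) := by
    rw [harmonic_eq_sum_Icc]
    push_cast
    refine Finset.sum_congr rfl fun d _ => ?_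
    rw [one_div]
  rw [← h2]
  exact h1

/-- PROOF: `1 ≤ X / R` for `R ≤ X`, `sum_pow_div`, `sum_inv_le`. -/
theorem sum_pow (m X : ℕ) (hX : 1 ≤ X) :
    ∑ R ∈ (Icc 1 X).filter Squarefree, (m : ℝ) ^ R.primeFactors.card ≤ X * (1 + Real.log X) ^ m := by
  have h1 := sum_pow_div m X
  have h2 := sum_inv_le X hX
  have hX0 : (0 : ℝ) < X := by exact_mod_cast hX
  have h3 : (∑ d ∈ Icc 1 X, 1 / (d : ℝ)) ^ m ≤ (1 + Real.log X) ^ m :=
    pow_le_pow_left₀ (Finset.sum_nonneg fun d _ => by positivity) h2 m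
  calc ∑ R ∈ (Icc 1 X).filter Squarefree, (m : ℝ) ^ R.primeFactors.card
      ≤ ∑ R ∈ (Icc 1 X).filter Squarefree, X * ((m : ℝ) ^ R.primeFactors.card / R) := by
        refine Finset.sum_le_sum fun R hR => ?_
        rw [mem_filter, mem_Icc] at hR
        have hR0 : (0 : ℝ) < R := by exact_mod_cast hR.1.1
        have hRX : (R : ℝ) ≤ X := by exact_mod_cast hR.1.2
        rw [mul_div_assoc', le_div_iff₀ hR0, mul_comm]
        exact mul_le_mul_of_nonneg_right hRX (by positivity)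
    _ = X * ∑ R ∈ (Icc 1 X).filter Squarefree, (m : ℝ) ^ R.primeFactors.card / R := by
        rw [Finset.mul_sum]
    _ ≤ X * (1 + Real.log X) ^ m := mul_le_mul_of_nonneg_left (h1.trans h3) hX0.le

/-- PROOF: `C^(ω+1) ≤ C 2^(-w) (2C)^ω` for `ω > w`. -/
theorem sum_large (C w X : ℕ) (hX : 1 ≤ X) (hC : 1 ≤ C) :
    ∑ R ∈ (Icc 1 X).filter (fun R => Squarefree R ∧ w < R.primeFactors.card), (C : ℝ) ^ (R.primeFactors.card + 1) ≤
      C / 2 ^ w * (X * (1 + Real.log X) ^ (2 * C)) := by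
  have h1 := sum_pow (2 * C) X hX
  have hC' : (1 : ℝ) ≤ C := by exact_mod_cast hC
  refine le_trans ?_ (mul_le_mul_of_nonneg_left h1 (by positivity))
  rw [Finset.mul_sum]
  refine le_trans (Finset.sum_le_sum (g := fun R => (C : ℝ) / 2 ^ w * (((2 * C : ℕ) : ℝ) ^
    R.primeFactors.card)) fun R hR => ?_) (Finset.sum_le_sum_of_subset_of_nonneg ?_ ?_)
  · rw [mem_filter] at hR
    have h2 : (2 : ℝ) ^ w ≤ 2 ^ R.primeFactors.card :=
      pow_le_pow_right₀ (by norm_num) hR.2.2.le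
    have h3 : (C : ℝ) / 2 ^ w * (((2 * C : ℕ) : ℝ) ^ R.primeFactors.card) =
        C ^ (R.primeFactors.card + 1) * (2 ^ R.primeFactors.card / 2 ^ w) := by
      push_cast
      rw [mul_pow, pow_succ]
      ring
    rw [h3]
    refine le_mul_of_one_le_right (by positivity) ?_
    rw [le_div_iff₀ (by positivity), one_mul]
    exact h2
  · intro R hR
    rw [mem_filter] at hR ⊢
    exact ⟨hR.1, hR.2.1⟩
  · intro R _ _
    positivity

end Pool.MP_a95293_nt.RC
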