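import Pool.Agent.Lib_MP_a95293_rc.LocB
import Pool.Agent.Lib_MP_a95293_rc.Rad

/-!
# Piece BADA: the bad residue classes
-/

set_option autoImplicit false

namespace Pool.MP_a95293_nt.RC

open Finset

/-- the bad classes for the set `S` of primes: exponents smaller than `N`, at least `h` good moduli -/
noncomputable def BadS (L : Finset ℕ) (N h : ℕ) (S : Finset ℕ) : Finset ℕ :=
  open Classical in
  (range (∏ l ∈ L, l)).filter fun y => ∃ (σ f : ℕ → ℕ) (t e : ℕ), (∀ q ∈ S, σ q < 3 ∧ f q < N) ∧ t < 3 ∧ e < N ∧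
    h ≤ (L.filter fun l => l ∉ S ∧ ¬ (l - 1) ∣ e).card ∧ y ∈ Cls L S σ f t e

private theorem BadA_prt {S : Finset ℕ} {σ f σ' f' : ℕ → ℕ} (h : ∀ q ∈ S, σ q = σ' q ∧ f q = f' q) (i : ℕ) :
    prt S σ f i = prt S σ' f' i := by
  unfold prt
  have h1 : S.filter (fun q => σ q = i) = S.filter (fun q => σ' q = i) := by
    refine filter_congr fun q hq => ?_
    rw [(h q hq).1]
  rw [h1]
  refine prod_congr rfl fun q hq => ?_
  rw [(h q (mem_filter.1 hq).1).2]

private theorem BadA_cls {L S : Finset ℕ} {σ f σ' f' : ℕ → ℕ} (h : ∀ q ∈ S, σ q = σ' q ∧ f q = f' q)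
    (t e : ℕ) : Cls L S σ f t e = Cls L S σ' f' t e := by
  classical
  unfold Cls
  ext y
  rw [mem_filter, mem_filter]
  unfold Eqn
  simp only [BadA_prt h]

/-- PROOF: `Cls` depends only on the restrictions of `σ`, `f` to `S` (`prt`), so `BadS` is contained in the union over the
`(3 N)^(|S|+1)` data `(g, (t, e))`, `g ∈ Fintype.piFinset (fun _ : S => range 3 ×ˢ range N)`, `(t, e) ∈ range 3 ×ˢ range N`, with
`h ≤ #{…}`, of the sets `Cls` (extend `g` by zero outside `S`); each has `card * 2^h ≤ ∏ l` (`cls_card`, `2^h ≤ 2^#`). `Finset.card_biUnion_le`. -/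
theorem bad_card (L : Finset ℕ) (hL : ∀ l ∈ L, l.Prime) (N h : ℕ) (S : Finset ℕ) (hS : ∀ q ∈ S, q.Prime) :
    (BadS L N h S).card * 2 ^ h ≤ (3 * N) ^ (S.card + 1) * ∏ l ∈ L, l := by
  classical
  set M := ∏ l ∈ L, l with hM
  -- extension by zero
  set e1 : (S → ℕ × ℕ) → ℕ → ℕ := fun g q => if h : q ∈ S then (g ⟨q, h⟩).1 else 0 with he1
  set e2 : (S → ℕ × ℕ) → ℕ → ℕ := fun g q => if h : q ∈ S then (g ⟨q, h⟩).2 else 0 with he2
  set Q : Finset ((S → ℕ × ℕ) × (ℕ × ℕ)) :=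
    ((Fintype.piFinset fun _ : S => range 3 ×ˢ range N) ×ˢ (range 3 ×ˢ range N)).filter
      fun x => h ≤ (L.filter fun l => l ∉ S ∧ ¬ (l - 1) ∣ x.2.2).card with hQ
  have hsub : BadS L N h S ⊆ Q.biUnion fun x => Cls L S (e1 x.1) (e2 x.1) x.2.1 x.2.2 := by
    intro y hy
    unfold BadS at hy
    rw [mem_filter] at hy
    obtain ⟨_, σ, f, t, e, h1, h2, h3, h4, h5⟩ := hy
    rw [mem_biUnion]
    refine ⟨(fun q => (σ q, f q), (t, e)), ?_, ?_⟩
    · rw [hQ, mem_filter, mem_product, mem_product, Fintype.mem_piFinset]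
      refine ⟨⟨fun q => ?_, mem_range.2 h2, mem_range.2 h3⟩, h4⟩
      rw [mem_product]
      exact ⟨mem_range.2 (h1 q q.2).1, mem_range.2 (h1 q q.2).2⟩
    · have h6 : Cls L S σ f t e = Cls L S (e1 fun q => (σ q, f q)) (e2 fun q => (σ q, f q)) t e := by
        apply BadA_cls
        intro q hq
        simp only [he1, he2, dif_pos hq, and_self]
      rw [← h6]
      exact h5
  have hQc : Q.card ≤ (3 * N) ^ (S.card + 1) := by
    refine (card_filter_le _ _).trans (le_of_eq ?_)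
    rw [card_product, Fintype.card_piFinset]
    simp only [card_product, card_range, prod_const, card_univ, Fintype.card_coe]
    rw [pow_succ]
  calc (BadS L N h S).card * 2 ^ h
      ≤ (∑ x ∈ Q, (Cls L S (e1 x.1) (e2 x.1) x.2.1 x.2.2).card) * 2 ^ h :=
        Nat.mul_le_mul_right _ ((card_le_card hsub).trans card_biUnion_le)
    _ = ∑ x ∈ Q, (Cls L S (e1 x.1) (e2 x.1) x.2.1 x.2.2).card * 2 ^ h := by rw [Finset.sum_mul]
    _ ≤ ∑ x ∈ Q, M := by
        refine Finset.sum_le_sum fun x hx => ?_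
        rw [hQ, mem_filter, mem_product, mem_product] at hx
        refine le_trans (Nat.mul_le_mul_left _ (Nat.pow_le_pow_right (by norm_num) hx.2)) ?_
        exact cls_card L S hL hS _ _ _ _ (mem_range.1 hx.1.2.1)
    _ = Q.card * M := by rw [sum_const, smul_eq_mul]
    _ ≤ (3 * N) ^ (S.card + 1) * M := Nat.mul_le_mul_right _ hQc

/-- the exceptional radicals -/
noncomputable def Exc (L : Finset ℕ) (N h w X : ℕ) : Finset ℕ :=
  open Classical in
  (Icc 1 X).filter fun R => ∃ p m, R = m * p ∧ ∏ l ∈ L, l < p ∧ m.primeFactors.card + 1 ≤ w ∧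
    p % (∏ l ∈ L, l) ∈ BadS L N h m.primeFactors

end Pool.MP_a95293_nt.RC
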