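import Pool.Agent.Lib_MP_a95293_rc.BadA

/-!
# Piece BADB: an unstructured triple gives a bad class
-/

set_option autoImplicit false

namespace Pool.MP_a95293_nt.RC

open Finset

/-- the side of `p` -/
private def BadB_sd (z : ℕ × ℕ) (p : ℕ) : ℕ := if p ∣ z.1 then 0 else if p ∣ z.2 then 1 else 2

private theorem BadB_sd_lt (z : ℕ × ℕ) (p : ℕ) : BadB_sd z p < 3 := by
  unfold BadB_sd
  split_ifs <;> omega

private theorem BadB_mem {z : ℕ × ℕ} (hz : Prm z) {p : ℕ} (hp : p ∈ (pr3 z).primeFactors) :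
    (p ∈ z.1.primeFactors ↔ BadB_sd z p = 0) ∧ (p ∈ z.2.primeFactors ↔ BadB_sd z p = 1) ∧
      (p ∈ (z.1 + z.2).primeFactors ↔ BadB_sd z p = 2) := by
  have hpp := Nat.prime_of_mem_primeFactors hp
  rw [primeFactors_pr3 hz, mem_union, mem_union] at hp
  have d12 : p ∣ z.1 → p ∣ z.2 → False := fun h1 h2 =>
    hpp.one_lt.ne' (Nat.eq_one_of_dvd_coprimes hz.2.2 h1 h2)
  have d13 : p ∣ z.1 → p ∣ z.1 + z.2 → False := fun h1 h2 =>
    hpp.one_lt.ne' (Nat.eq_one_of_dvd_coprimes hz.cop1 h1 h2)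
  have d23 : p ∣ z.2 → p ∣ z.1 + z.2 → False := fun h1 h2 =>
    hpp.one_lt.ne' (Nat.eq_one_of_dvd_coprimes hz.cop2 h1 h2)
  have n1 := hz.1.ne'
  have n2 := hz.2.1.ne'
  have n3 : z.1 + z.2 ≠ 0 := by omega
  have m1 : p ∈ z.1.primeFactors ↔ p ∣ z.1 := by
    rw [Nat.mem_primeFactors]
    exact ⟨fun h => h.2.1, fun h => ⟨hpp, h, n1⟩⟩
  have m2 : p ∈ z.2.primeFactors ↔ p ∣ z.2 := by
    rw [Nat.mem_primeFactors]
    exact ⟨fun h => h.2.1, fun h => ⟨hpp, h, n2⟩⟩
  have m3 : p ∈ (z.1 + z.2).primeFactors ↔ p ∣ z.1 + z.2 := by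
    rw [Nat.mem_primeFactors]
    exact ⟨fun h => h.2.1, fun h => ⟨hpp, h, n3⟩⟩
  rw [m1, m2, m3] at hp
  rw [m1, m2, m3]
  unfold BadB_sd
  by_cases h1 : p ∣ z.1
  · rw [if_pos h1]
    exact ⟨⟨fun _ => rfl, fun _ => h1⟩, ⟨fun h => (d12 h1 h).elim, fun h => by omega⟩,
      ⟨fun h => (d13 h1 h).elim, fun h => by omega⟩⟩
  · rw [if_neg h1]
    by_cases h2 : p ∣ z.2
    · rw [if_pos h2]
      exact ⟨⟨fun h => (h1 h).elim, fun h => by omega⟩, ⟨fun _ => rfl, fun _ => h2⟩,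
        ⟨fun h => (d23 h2 h).elim, fun h => by omega⟩⟩
    · rw [if_neg h2]
      have h3 : p ∣ z.1 + z.2 := by
        rcases hp with (h | h) | h
        · exact (h1 h).elim
        · exact (h2 h).elim
        · exact h
      exact ⟨⟨fun h => (h1 h).elim, fun h => by omega⟩, ⟨fun h => (h2 h).elim, fun h => by omega⟩,
        ⟨fun _ => rfl, fun _ => h3⟩⟩

/-- the number `n` is the product over the primes of its side -/
private theorem BadB_prod {z : ℕ × ℕ} {n i : ℕ} (hn : n ≠ 0)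
    (hsub : n.primeFactors ⊆ (pr3 z).primeFactors)
    (hmem : ∀ p ∈ (pr3 z).primeFactors, p ∈ n.primeFactors ↔ BadB_sd z p = i)
    (hfac : ∀ p ∈ n.primeFactors, (pr3 z).factorization p = n.factorization p) :
    ∏ q ∈ (pr3 z).primeFactors.filter (fun q => BadB_sd z q = i), q ^ (pr3 z).factorization q = n := by
  have h1 : (pr3 z).primeFactors.filter (fun q => BadB_sd z q = i) = n.primeFactors := by
    ext q
    rw [mem_filter]
    constructor
    · rintro ⟨a, b⟩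
      exact (hmem q a).2 b
    · intro h
      exact ⟨hsub h, (hmem q (hsub h)).1 h⟩
  rw [h1]
  conv_rhs => rw [← Nat.prod_factorization_pow_eq_self hn]
  rw [Finsupp.prod, Nat.support_factorization]
  refine prod_congr rfl fun q hq => ?_
  rw [hfac q hq]

/-- reduction of the exponents -/
private theorem BadB_pow {l N q v : ℕ} (hl : l.Prime) (hN : (l - 1) ∣ N) (hq : q.Prime) (hql : q ≠ l) :
    (q : ZMod l) ^ v = (q : ZMod l) ^ (v % N) := by
  have := Fact.mk hl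
  have h0 : (q : ZMod l) ≠ 0 := by
    rw [Ne, ZMod.natCast_eq_zero_iff, Nat.prime_dvd_prime_iff_eq hl hq]
    exact fun h => hql h.symm
  obtain ⟨c, hc⟩ := hN
  have h1 : (q : ZMod l) ^ N = 1 := by
    rw [hc, pow_mul, ZMod.pow_card_sub_one_eq_one h0, one_pow]
  conv_lhs => rw [← Nat.div_add_mod v N, pow_add, pow_mul, h1, one_pow, one_mul]

private theorem BadB_side {l N : ℕ} (hl : l.Prime) (hN : (l - 1) ∣ N) {S : Finset ℕ} {p : ℕ}
    (hp : p.Prime) (hpS : p ∉ S) (hS : ∀ q ∈ S, q.Prime) (hlS : l ∉ S) (hpl : p ≠ l) (σ v : ℕ → ℕ) (i : ℕ) :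
    ((∏ q ∈ (insert p S).filter (fun q => σ q = i), q ^ v q : ℕ) : ZMod l) =
      (prt S σ (fun q => v q % N) i : ZMod l) * (if σ p = i then (p : ZMod l) ^ (v p % N) else 1) := by
  have h1 : ∀ T : Finset ℕ, T ⊆ S → ((∏ q ∈ T, q ^ v q : ℕ) : ZMod l) =
      ((∏ q ∈ T, q ^ (v q % N) : ℕ) : ZMod l) := by
    intro T hT
    push_cast
    refine prod_congr rfl fun q hq => ?_
    exact BadB_pow hl hN (hS q (hT hq)) (fun h => hlS (h ▸ hT hq))
  unfold prt
  rw [filter_insert]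
  by_cases h : σ p = i
  · rw [if_pos h, if_pos h, prod_insert (fun hh => hpS (mem_filter.1 hh).1), Nat.cast_mul,
      h1 _ (filter_subset _ _), Nat.cast_pow, BadB_pow hl hN hp hpl, mul_comm]
  · rw [if_neg h, if_neg h, mul_one, h1 _ (filter_subset _ _)]

/-- PROOF: `σ q = 0, 1, 2` according to `q ∣ a`, `q ∣ b`, `q ∣ a + b` (`q ∈ insert p S`), `f q = v_q(pr3 z) % N`, `t = σ p`, `e = v_p(pr3 z) % N`.
`(l - 1) ∣ e ↔ (l - 1) ∣ v_p(pr3 z)` as `(l - 1) ∣ N`. For `l ∈ L`, `l ∉ S`, `l ≠ p`: all `q ∈ insert p S` are different from `l`, so nonzero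
modulo `l`, `q^(v_q) = q^(v_q % N)` in `ZMod l` (`ZMod.pow_card_sub_one_eq_one`, `(l-1) ∣ N`), and `a = ∏_{σ q = 0} q^(v_q)` etc.
(`Nat.factorization_prod_pow_eq_self`, `fact_pr3`, `primeFactors_pr3`), so `a + b = a + b` gives `Eqn` for `y = p`, hence for `p % M` (`l ∣ M`); and
`l ∤ p % M` since `l ∤ p`. -/
theorem bad_mem {L : Finset ℕ} (hL : ∀ l ∈ L, l.Prime) {N h : ℕ} (hN : 0 < N) (hN' : ∀ l ∈ L, (l - 1) ∣ N)
    {S : Finset ℕ} {p : ℕ} (hp : p.Prime) (hpS : p ∉ S) (hpL : p ∉ L) {z : ℕ × ℕ} (hz : Prm z)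
    (hP : (pr3 z).primeFactors = insert p S)
    (hh : h ≤ (L.filter fun l => l ∉ S ∧ ¬ (l - 1) ∣ (pr3 z).factorization p).card) :
    p % (∏ l ∈ L, l) ∈ BadS L N h S := by
  classical
  have hS : ∀ q ∈ S, q.Prime := fun q hq =>
    Nat.prime_of_mem_primeFactors (hP ▸ mem_insert_of_mem hq : q ∈ (pr3 z).primeFactors)
  set M := ∏ l ∈ L, l with hM
  have hMpos : 0 < M := Finset.prod_pos fun l hl => (hL l hl).pos
  set v : ℕ → ℕ := fun q => (pr3 z).factorization q with hv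
  unfold BadS
  rw [mem_filter]
  refine ⟨mem_range.2 (Nat.mod_lt _ hMpos), BadB_sd z, fun q => v q % N, BadB_sd z p, v p % N, ?_,
    BadB_sd_lt z p, Nat.mod_lt _ hN, ?_, ?_⟩
  · intro q _
    exact ⟨BadB_sd_lt z q, Nat.mod_lt _ hN⟩
  · refine hh.trans (le_of_eq ?_)
    congr 1
    refine filter_congr fun l hl => ?_
    rw [Nat.dvd_mod_iff (hN' l hl)]
  · unfold Cls
    rw [mem_filter]
    refine ⟨mem_range.2 (Nat.mod_lt _ hMpos), fun l hl hlS => ?_⟩
    have hlp := hL l hl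
    have hlM : l ∣ M := dvd_prod_of_mem (fun l => l) hl
    have hpl : p ≠ l := fun h => hpL (h ▸ hl)
    have hcast : ((p % M : ℕ) : ZMod l) = (p : ZMod l) := by
      rw [ZMod.natCast_eq_natCast_iff]
      exact (Nat.mod_modEq p M).of_dvd hlM
    refine ⟨?_, ?_⟩
    · rw [Nat.dvd_mod_iff hlM, Nat.prime_dvd_prime_iff_eq hlp hp]
      exact fun h => hpl h.symm
    · unfold Eqn
      rw [hcast]
      have n1 := hz.1.ne'
      have n2 := hz.2.1.ne'
      have n3 : z.1 + z.2 ≠ 0 := by omega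
      have hu := primeFactors_pr3 hz
      have s1 : z.1.primeFactors ⊆ (pr3 z).primeFactors := by
        rw [hu]; exact subset_union_left.trans subset_union_left
      have s2 : z.2.primeFactors ⊆ (pr3 z).primeFactors := by
        rw [hu]; exact subset_union_right.trans subset_union_left
      have s3 : (z.1 + z.2).primeFactors ⊆ (pr3 z).primeFactors := by
        rw [hu]; exact subset_union_right
      have p1 := BadB_prod n1 s1 (fun p hp => (BadB_mem hz hp).1) (fun p hp => (fact_pr3 hz p).1 hp)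
      have p2 := BadB_prod n2 s2 (fun p hp => (BadB_mem hz hp).2.1)
        (fun p hp => (fact_pr3 hz p).2.1 hp)
      have p3 := BadB_prod n3 s3 (fun p hp => (BadB_mem hz hp).2.2)
        (fun p hp => (fact_pr3 hz p).2.2 hp)
      have q1 := BadB_side hlp (hN' l hl) hp hpS hS hlS hpl (BadB_sd z) v 0
      have q2 := BadB_side hlp (hN' l hl) hp hpS hS hlS hpl (BadB_sd z) v 1
      have q3 := BadB_side hlp (hN' l hl) hp hpS hS hlS hpl (BadB_sd z) v 2
      rw [← hP] at q1 q2 q3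
      rw [p1] at q1
      rw [p2] at q2
      rw [p3] at q3
      rw [← q1, ← q2, ← q3]
      push_cast
      rfl

end Pool.MP_a95293_nt.RC
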