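import Pool.Agent.Lib_MP_a95293_rc.BadB

/-!
# Piece BADC: triples with a non exceptional radical are structured
-/

set_option autoImplicit false

namespace Pool.MP_a95293_nt.RC

open Finset

/-- PROOF: suppose that for every `l ∈ L` there is a prime `p_l ∈ P := (pr3 z).primeFactors`, `M < p_l`, with `(l-1) ∤ v_(p_l)`. `|P| ≤ w` and
`w (h + w) ≤ |L|`, so (`Finset.exists_lt_card_fiberwise_of_mul_lt_card_of_maps_to` or `exists_le_card_fiberwise…`) some `p ∈ P` is `p_l` for at least `h + w` of the `l`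
(`P` is nonempty as `L` is, `w ≥ 1`); those outside `S = P.erase p` are at least `h + w - |S| ≥ h`; `bad_mem` gives
`p % M ∈ BadS L N h S`, and `R = rd (pr3 z) = m p` with `m = R / p`, `m.primeFactors = S`, `|S| + 1 ≤ w`. So `R ∈ Exc`. (`p ∉ L` because `p > M ≥ l`.) -/
theorem struct_of_not_exc {L : Finset ℕ} (hL : ∀ l ∈ L, l.Prime) {N h w X : ℕ} (hN : 0 < N) (hN' : ∀ l ∈ L, (l - 1) ∣ N)
    (hw : 1 ≤ w) (hwL : w * (h + w) ≤ L.card) {z : ℕ × ℕ} (hz : Prm z) (hX : rd (pr3 z) ≤ X)
    (hzw : (pr3 z).primeFactors.card ≤ w) (hE : rd (pr3 z) ∉ Exc L N h w X) :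
    ∃ l ∈ L, ∀ p ∈ (pr3 z).primeFactors, ∏ l ∈ L, l < p → (l - 1) ∣ (pr3 z).factorization p := by
  classical
  set M := ∏ l ∈ L, l with hM
  by_contra hcon
  push Not at hcon
  choose! P hP1 hP2 hP3 using hcon
  set T := (pr3 z).primeFactors with hT
  have hLne : L.Nonempty := by
    rw [nonempty_iff_ne_empty]
    intro he
    rw [he, card_empty] at hwL
    have : 1 * 1 ≤ w * (h + w) := Nat.mul_le_mul hw (by omega)
    omega
  obtain ⟨l0, hl0⟩ := hLne
  have hTne : T.Nonempty := ⟨_, hP1 l0 hl0⟩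
  obtain ⟨p, hpT, hpc⟩ := exists_le_card_fiber_of_mul_le_card_of_maps_to (s := L) (t := T) (f := P)
    (n := h + w) hP1 hTne ((Nat.mul_le_mul_right _ hzw).trans hwL)
  have hpp : p.Prime := Nat.prime_of_mem_primeFactors hpT
  have hex : ∃ l ∈ L, P l = p := by
    have : 0 < (L.filter fun l => P l = p).card := by omega
    obtain ⟨l, hl⟩ := card_pos.1 this
    exact ⟨l, (mem_filter.1 hl).1, (mem_filter.1 hl).2⟩
  obtain ⟨l1, hl1, hl1p⟩ := hex
  have hMp : M < p := by rw [← hl1p]; exact hP2 l1 hl1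
  have hpL : p ∉ L := by
    intro hpL
    have h1 : p ∣ M := dvd_prod_of_mem (fun l => l) hpL
    have h2 : 0 < M := Finset.prod_pos fun l hl => (hL l hl).pos
    have := Nat.le_of_dvd h2 h1
    omega
  set S := T.erase p with hS
  have hScard : S.card + 1 = T.card := card_erase_add_one hpT
  have hins : T = insert p S := (insert_erase hpT).symm
  have hh : h ≤ (L.filter fun l => l ∉ S ∧ ¬ (l - 1) ∣ (pr3 z).factorization p).card := by
    have h1 : (L.filter fun l => P l = p) \ S ⊆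
        L.filter fun l => l ∉ S ∧ ¬ (l - 1) ∣ (pr3 z).factorization p := by
      intro l hl
      rw [mem_sdiff, mem_filter] at hl
      rw [mem_filter]
      refine ⟨hl.1.1, hl.2, ?_⟩
      rw [← hl.1.2]
      exact hP3 l hl.1.1
    have h2 := card_le_card h1
    have h3 := le_card_sdiff S (L.filter fun l => P l = p)
    omega
  have hmem := bad_mem hL hN hN' hpp (notMem_erase p T) hpL hz hins hh
  apply hE
  unfold Exc
  rw [mem_filter, mem_Icc]
  refine ⟨⟨rd_pos _, hX⟩, p, ∏ q ∈ S, q, ?_, hMp, ?_, ?_⟩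
  · unfold rd
    rw [← hT, hins, prod_insert (notMem_erase p T), mul_comm]
  · rw [Nat.primeFactors_prod fun q hq => Nat.prime_of_mem_primeFactors (mem_of_mem_erase hq), hScard]
    exact hzw
  · rw [Nat.primeFactors_prod fun q hq => Nat.prime_of_mem_primeFactors (mem_of_mem_erase hq)]
    exact hmem

end Pool.MP_a95293_nt.RC
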