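import Pool.Agent.Lib_MP_a95293_rc.BadA
import Pool.Agent.Lib_MP_a95293_rc.OmB

/-!
# Piece BADD: the number of exceptional radicals
-/

set_option autoImplicit false

namespace Pool.MP_a95293_nt.RC

open Finset

/-- the number of `p ∈ (M, Y]` in given classes -/
private theorem BadD_count {M Y : ℕ} (B : Finset ℕ) :
    ((Ioc M Y).filter fun p => p % M ∈ B).card ≤ B.card * (Y / M + 1) := by
  classical
  have h1 : ((Ioc M Y).filter fun p => p % M ∈ B).card ≤ (B ×ˢ range (Y / M + 1)).card := by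
    refine card_le_card_of_injOn (fun p => (p % M, p / M)) ?_ ?_
    · intro p hp
      have hp' := mem_coe.1 hp
      rw [mem_filter, mem_Ioc] at hp'
      refine mem_coe.2 (mem_product.2 ⟨hp'.2, mem_range.2 ?_⟩)
      exact Nat.lt_succ_of_le (Nat.div_le_div_right hp'.1.2)
    · intro p _ q _ h
      have e1 : p % M = q % M := congrArg Prod.fst h
      have e2 : p / M = q / M := congrArg Prod.snd h
      rw [← Nat.div_add_mod p M, ← Nat.div_add_mod q M, e1, e2]
  rwa [card_product, card_range] at h1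

private theorem BadD_real {M X m : ℕ} (hM : 0 < M) (hm : 0 < m) (hX : M < X / m) :
    ((X / m / M + 1 : ℕ) : ℝ) ≤ 2 * X / (m * M) := by
  have hm' : (0 : ℝ) < m := by exact_mod_cast hm
  have hM' : (0 : ℝ) < M := by exact_mod_cast hM
  have h1 : ((X / m / M : ℕ) : ℝ) ≤ X / (m * M) := by
    calc ((X / m / M : ℕ) : ℝ) ≤ ((X / m : ℕ) : ℝ) / M := Nat.cast_div_le
      _ ≤ ((X : ℝ) / m) / M := by
          apply div_le_div_of_nonneg_right Nat.cast_div_le hM'.le
      _ = X / (m * M) := by rw [div_div]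
  have h2 : (1 : ℝ) ≤ X / (m * M) := by
    rw [le_div_iff₀ (by positivity), one_mul]
    have h3 : m * M ≤ X := by
      have h4 : m * (X / m) ≤ X := Nat.mul_div_le X m
      exact (Nat.mul_le_mul_left m hX.le).trans h4
    exact_mod_cast h3
  push_cast
  have h3 : 2 * (X : ℝ) / (m * M) = X / (m * M) + X / (m * M) := by ring
  rw [h3]
  linarith

/-- PROOF: for every `m ≤ X` with `ω(m) + 1 ≤ w` count the `p` with `M < p ≤ X/m`, `p % M ∈ Bad(m)`: at most
`|Bad(m)| (X/(m M) + 1) ≤ |Bad(m)| 2 X/(m M)` (if there is such a `p` then `m M < m p ≤ X`; `Nat.count_modEq_card`-like lemma or: the numbers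
`p ≤ Y` with `p % M = r` inject by `p / M` into `range (Y/M + 1)`). `|Bad(m)| ≤ (3N)^w M / 2^h` (`bad_card`). Sum over `m`: `∑_{m ≤ X} 1/m ≤ 1 + log X`
(`harmonic_le_one_add_log`). -/
theorem exc_card {L : Finset ℕ} (hL : ∀ l ∈ L, l.Prime) (N h w X : ℕ) (hN : 0 < N) (hX : 1 ≤ X) :
    ((Exc L N h w X).card : ℝ) ≤ 2 * (3 * N) ^ w / 2 ^ h * (X * (1 + Real.log X)) := by
  classical
  set M := ∏ l ∈ L, l with hM
  have hM0 : 0 < M := Finset.prod_pos fun l hl => (hL l hl).pos
  have hM' : (0 : ℝ) < M := by exact_mod_cast hM0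
  set I := (Icc 1 X).filter fun m => m.primeFactors.card + 1 ≤ w ∧ M < X / m with hI
  have hsub : Exc L N h w X ⊆ I.biUnion fun m =>
      ((Ioc M (X / m)).filter fun p => p % M ∈ BadS L N h m.primeFactors).image fun p => m * p := by
    intro R hR
    unfold Exc at hR
    rw [mem_filter, mem_Icc] at hR
    obtain ⟨⟨hR1, hR2⟩, p, m, rfl, hMp, hmw, hpB⟩ := hR
    have hp0 : 0 < p := by omega
    have hm0 : 0 < m := by
      rcases Nat.eq_zero_or_pos m with h0 | h0
      · rw [h0, zero_mul] at hR1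
        omega
      · exact h0
    have hpX : p ≤ X / m := by
      rw [Nat.le_div_iff_mul_le hm0, mul_comm]
      exact hR2
    have hmX : m ≤ X := (Nat.le_mul_of_pos_right m hp0).trans hR2
    rw [mem_biUnion]
    refine ⟨m, ?_, ?_⟩
    · rw [hI, mem_filter, mem_Icc]
      exact ⟨⟨hm0, hmX⟩, hmw, by omega⟩
    · rw [mem_image]
      exact ⟨p, mem_filter.2 ⟨mem_Ioc.2 ⟨hMp, hpX⟩, hpB⟩, rfl⟩
  have hNw : (1 : ℝ) ≤ 3 * N := by
    have : (1 : ℝ) ≤ N := by exact_mod_cast hN
    linarith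
  have hterm : ∀ m ∈ I, ((((Ioc M (X / m)).filter fun p => p % M ∈ BadS L N h m.primeFactors).image
      fun p => m * p).card : ℝ) ≤ 2 * (3 * N) ^ w / 2 ^ h * X * (1 / m) := by
    intro m hm
    rw [hI, mem_filter, mem_Icc] at hm
    obtain ⟨⟨hm1, hmX⟩, hmw, hMX⟩ := hm
    have hm' : (0 : ℝ) < m := by exact_mod_cast hm1
    have h1 : ((((Ioc M (X / m)).filter fun p => p % M ∈ BadS L N h m.primeFactors).image
        fun p => m * p).card : ℝ) ≤ (BadS L N h m.primeFactors).card * ((X / m / M + 1 : ℕ) : ℝ) := by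
      exact_mod_cast card_image_le.trans (BadD_count _)
    have h2 : ((BadS L N h m.primeFactors).card : ℝ) ≤ (3 * N) ^ w * M / 2 ^ h := by
      rw [le_div_iff₀ (by positivity)]
      have h3 := bad_card L hL N h m.primeFactors fun q hq => Nat.prime_of_mem_primeFactors hq
      have h4 : ((BadS L N h m.primeFactors).card : ℝ) * 2 ^ h ≤
          (3 * N) ^ (m.primeFactors.card + 1) * M := by exact_mod_cast h3
      exact h4.trans (mul_le_mul_of_nonneg_right (pow_le_pow_right₀ hNw hmw) hM'.le)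
    calc _ ≤ _ := h1
      _ ≤ ((3 * N) ^ w * M / 2 ^ h) * (2 * X / (m * M)) :=
          mul_le_mul h2 (BadD_real hM0 hm1 hMX) (Nat.cast_nonneg _) (by positivity)
      _ = _ := by field_simp
  calc ((Exc L N h w X).card : ℝ) ≤ ∑ m ∈ I, ((((Ioc M (X / m)).filter fun p =>
        p % M ∈ BadS L N h m.primeFactors).image fun p => m * p).card : ℝ) := by
        exact_mod_cast (card_le_card hsub).trans card_biUnion_le
    _ ≤ ∑ m ∈ I, 2 * (3 * (N : ℝ)) ^ w / 2 ^ h * X * (1 / (m : ℝ)) := Finset.sum_le_sum hterm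
    _ ≤ ∑ m ∈ Icc 1 X, 2 * (3 * (N : ℝ)) ^ w / 2 ^ h * X * (1 / (m : ℝ)) :=
        Finset.sum_le_sum_of_subset_of_nonneg (filter_subset _ _) fun _ _ _ => by positivity
    _ = 2 * (3 * N) ^ w / 2 ^ h * (X * ∑ m ∈ Icc 1 X, 1 / (m : ℝ)) := by
        rw [← Finset.mul_sum]
        ring
    _ ≤ 2 * (3 * N) ^ w / 2 ^ h * (X * (1 + Real.log X)) := by
        have := sum_inv_le X hX
        gcongr

end Pool.MP_a95293_nt.RC
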