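import Pool.Agent.Lib_MP_a95293_rc.Struct
import Pool.Agent.Lib_MP_a95293_rc.BadC
import Pool.Agent.Lib_MP_a95293_rc.BadD
import Pool.Agent.Lib_MP_a95293_rc.OmB

/-!
# Piece COMB: the combinatorial bound with free parameters
-/

set_option autoImplicit false

namespace Pool.MP_a95293_nt.RC

open Finset

private theorem Comb_fib {C₀ : ℕ}
    (hC : ∀ (P : Finset ℕ) (Z : Finset (ℕ × ℕ)), (∀ z ∈ Z, Prm z ∧ (pr3 z).primeFactors = P) →
      Z.card ≤ C₀ ^ (P.card + 1)) (Z : Finset (ℕ × ℕ)) (hZ : ∀ z ∈ Z, Prm z) (R : ℕ) :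
    (Z.filter fun z => rd (pr3 z) = R).card ≤ C₀ ^ (R.primeFactors.card + 1) := by
  apply hC
  intro z hz
  rw [mem_filter] at hz
  refine ⟨hZ z hz.1, ?_⟩
  rw [← hz.2, rd_primeFactors]

/-- the third part, for one modulus -/
private theorem Comb_one {X M w k B : ℕ} (hk : 24 ≤ k) (hkB : k ≤ B) (hM : 1 ≤ M) (Z : Finset (ℕ × ℕ))
    (hZ : ∀ z ∈ Z, Prm z ∧ rd (pr3 z) ≤ X ∧ (pr3 z).primeFactors.card ≤ w ∧
      ∀ p ∈ (pr3 z).primeFactors, M < p → k ∣ (pr3 z).factorization p) :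
    (Z.card : ℝ) ≤ 2 * (2 * (Real.sqrt X * (M : ℝ) ^ (2 * B * w) * (2 ^ 11 * B) ^ w) + (B : ℝ) ^ 80) := by
  classical
  have key : ∀ Z' : Finset (ℕ × ℕ), (∀ z ∈ Z', Prm z ∧ z.1 ≤ z.2 ∧ rd (pr3 z) ≤ X ∧
      (pr3 z).primeFactors.card ≤ w ∧ ∀ p ∈ (pr3 z).primeFactors, M < p → k ∣ (pr3 z).factorization p) →
      (Z'.card : ℝ) ≤ 2 * (Real.sqrt X * (M : ℝ) ^ (2 * B * w) * (2 ^ 11 * B) ^ w) + (B : ℝ) ^ 80 := by
    intro Z' hZ'
    have h1 := count_struct hk hM Z' hZ'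
    have h2 : (Z'.card : ℝ) ≤ 2 * ((Nat.sqrt X : ℝ) * (M : ℝ) ^ (2 * k * w) * (2 ^ 11 * (k : ℝ)) ^ w) +
        (k : ℝ) ^ 80 := by
      exact_mod_cast h1
    refine h2.trans ?_
    have hM' : (1 : ℝ) ≤ M := by exact_mod_cast hM
    have hkB' : (k : ℝ) ≤ B := by exact_mod_cast hkB
    have hs : (Nat.sqrt X : ℝ) ≤ Real.sqrt X := Real.nat_sqrt_le_real_sqrt
    have e1 : (M : ℝ) ^ (2 * k * w) ≤ (M : ℝ) ^ (2 * B * w) :=
      pow_le_pow_right₀ hM' (Nat.mul_le_mul_right w (Nat.mul_le_mul_left 2 hkB))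
    gcongr
  set Z1 := Z.filter fun z => z.1 ≤ z.2 with hZ1
  set Z2 := Z.filter fun z => ¬ z.1 ≤ z.2 with hZ2
  have hc : Z.card = Z1.card + Z2.card := (card_filter_add_card_filter_not _).symm
  have h1 := key Z1 (by
    intro z hz
    rw [hZ1, mem_filter] at hz
    obtain ⟨a, b⟩ := hZ z hz.1
    exact ⟨a, hz.2, b⟩)
  have h2 := key (Z2.image Prod.swap) (by
    intro z hz
    rw [mem_image] at hz
    obtain ⟨y, hy, rfl⟩ := hz
    rw [hZ2, mem_filter] at hy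
    obtain ⟨a, b⟩ := hZ y hy.1
    obtain ⟨s1, s2⟩ := a.swap
    rw [s2]
    refine ⟨s1, ?_, b⟩
    show y.2 ≤ y.1
    omega)
  rw [card_image_of_injective _ Prod.swap_injective] at h2
  rw [hc]
  push_cast
  linarith

/-- PROOF: split `Z` into three parts. (1) `w < ω(rd (pr3 z))`: fibres over `R = rd (pr3 z)` (squarefree, in `Icc 1 X`), each of size `≤ C₀^(ω(R)+1)` by `hC`
(`(pr3 z).primeFactors = R.primeFactors`), `sum_large`. (2) `ω ≤ w` and `rd (pr3 z) ∈ Exc L N h w X`: at most `C₀^(w+1)` for every `R ∈ Exc`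
(`exc_card`). (3) the rest: `struct_of_not_exc` gives `l ∈ L` with the divisibility; for every `l` the number of such `z` with `z.1 ≤ z.2` is bounded by
`count_struct` (`k = l - 1 ≥ 24`, `H = M = ∏ l`), and the `z` with `z.2 ≤ z.1` are treated by `Prod.swap` (`Prm.swap`, injective); `l - 1 ≤ B` and monotonicity in `k`. -/
theorem comb {C₀ : ℕ} (hC0 : 1 ≤ C₀)
    (hC : ∀ (P : Finset ℕ) (Z : Finset (ℕ × ℕ)), (∀ z ∈ Z, Prm z ∧ (pr3 z).primeFactors = P) →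
      Z.card ≤ C₀ ^ (P.card + 1))
    {L : Finset ℕ} {N h w X B : ℕ} (hL : ∀ l ∈ L, l.Prime ∧ 25 ≤ l ∧ l ≤ B) (hN : 0 < N) (hN' : ∀ l ∈ L, (l - 1) ∣ N)
    (hw : 1 ≤ w) (hwL : w * (h + w) ≤ L.card) (hX : 1 ≤ X) (Z : Finset (ℕ × ℕ))
    (hZ : ∀ z ∈ Z, Prm z ∧ rd (pr3 z) ≤ X) :
    (Z.card : ℝ) ≤ C₀ / 2 ^ w * (X * (1 + Real.log X) ^ (2 * C₀)) +
      (C₀ : ℝ) ^ (w + 1) * (2 * (3 * N) ^ w / 2 ^ h * (X * (1 + Real.log X))) +
      2 * (L.card : ℝ) * (2 * (Real.sqrt X * ((∏ l ∈ L, l : ℕ) : ℝ) ^ (2 * B * w) * (2 ^ 11 * B) ^ w) + (B : ℝ) ^ 80) := by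
  classical
  have hL' : ∀ l ∈ L, l.Prime := fun l hl => (hL l hl).1
  set M := ∏ l ∈ L, l with hM
  have hM1 : 1 ≤ M := Finset.prod_pos fun l hl => (hL' l hl).pos
  have hZP : ∀ z ∈ Z, Prm z := fun z hz => (hZ z hz).1
  set Z1 := Z.filter fun z => w < (pr3 z).primeFactors.card with hZ1
  set Z0 := Z.filter fun z => ¬ w < (pr3 z).primeFactors.card with hZ0
  have hc1 : Z.card = Z1.card + Z0.card := (card_filter_add_card_filter_not _).symm
  set Z2 := Z0.filter fun z => rd (pr3 z) ∈ Exc L N h w X with hZ2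
  set Z3 := Z0.filter fun z => ¬ rd (pr3 z) ∈ Exc L N h w X with hZ3
  have hc2 : Z0.card = Z2.card + Z3.card := (card_filter_add_card_filter_not _).symm
  have hZ1s : ∀ z ∈ Z1, z ∈ Z ∧ w < (pr3 z).primeFactors.card := fun z hz => mem_filter.1 hz
  have hZ0s : ∀ z ∈ Z0, z ∈ Z ∧ (pr3 z).primeFactors.card ≤ w := fun z hz => by
    have := mem_filter.1 hz
    exact ⟨this.1, not_lt.1 this.2⟩
  -- part 1
  have b1 : (Z1.card : ℝ) ≤ C₀ / 2 ^ w * (X * (1 + Real.log X) ^ (2 * C₀)) := by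
    refine le_trans ?_ (sum_large C₀ w X hX hC0)
    have hmap : Set.MapsTo (fun z => rd (pr3 z)) (Z1 : Set (ℕ × ℕ))
        ((Icc 1 X).filter (fun R => Squarefree R ∧ w < R.primeFactors.card) : Finset ℕ) := by
      intro z hz
      obtain ⟨h1, h2⟩ := hZ1s z hz
      simp only [coe_filter, Set.mem_ofPred_eq, mem_Icc]
      refine ⟨⟨rd_pos _, (hZ z h1).2⟩, rd_squarefree _, ?_⟩
      rw [rd_primeFactors]
      exact h2
    rw [card_eq_sum_card_fiberwise hmap]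
    push_cast
    refine Finset.sum_le_sum fun R _ => ?_
    have := Comb_fib hC Z1 (fun z hz => hZP z (hZ1s z hz).1) R
    exact_mod_cast this
  -- part 2
  have b2 : (Z2.card : ℝ) ≤ (C₀ : ℝ) ^ (w + 1) * (2 * (3 * N) ^ w / 2 ^ h * (X * (1 + Real.log X))) := by
    have hmap : Set.MapsTo (fun z => rd (pr3 z)) (Z2 : Set (ℕ × ℕ)) (Exc L N h w X : Finset ℕ) := by
      intro z hz
      exact mem_coe.2 (mem_filter.1 (mem_coe.1 hz)).2
    have h1 : Z2.card ≤ ∑ R ∈ Exc L N h w X, C₀ ^ (w + 1) := by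
      rw [card_eq_sum_card_fiberwise hmap]
      refine Finset.sum_le_sum fun R _ => ?_
      rcases (Z2.filter fun z => rd (pr3 z) = R).eq_empty_or_nonempty with he | ⟨z, hz⟩
      · rw [he, card_empty]
        exact Nat.zero_le _
      · refine (Comb_fib hC Z2 (fun z hz => hZP z (hZ0s z (mem_filter.1 hz).1).1) R).trans ?_
        apply Nat.pow_le_pow_right hC0
        have h2 := mem_filter.1 hz
        have h3 := (hZ0s z (mem_filter.1 h2.1).1).2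
        rw [← rd_primeFactors, h2.2] at h3
        omega
    rw [sum_const, smul_eq_mul] at h1
    have h2 : (Z2.card : ℝ) ≤ (Exc L N h w X).card * (C₀ : ℝ) ^ (w + 1) := by exact_mod_cast h1
    refine h2.trans ?_
    rw [mul_comm]
    exact mul_le_mul_of_nonneg_left (exc_card hL' N h w X hN hX) (by positivity)
  -- part 3
  have b3 : (Z3.card : ℝ) ≤ 2 * (L.card : ℝ) * (2 * (Real.sqrt X * (M : ℝ) ^ (2 * B * w) *
      (2 ^ 11 * B) ^ w) + (B : ℝ) ^ 80) := by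
    have hsub : Z3 ⊆ L.biUnion fun l => Z3.filter fun z =>
        ∀ p ∈ (pr3 z).primeFactors, M < p → (l - 1) ∣ (pr3 z).factorization p := by
      intro z hz
      have h1 := mem_filter.1 hz
      obtain ⟨h2, h3⟩ := hZ0s z h1.1
      obtain ⟨l, hl, hl'⟩ := struct_of_not_exc hL' hN hN' hw hwL (hZ z h2).1 (hZ z h2).2 h3 h1.2
      exact mem_biUnion.2 ⟨l, hl, mem_filter.2 ⟨hz, hl'⟩⟩
    have h1 : (Z3.card : ℝ) ≤ ∑ l ∈ L, ((Z3.filter fun z =>
        ∀ p ∈ (pr3 z).primeFactors, M < p → (l - 1) ∣ (pr3 z).factorization p).card : ℝ) := by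
      exact_mod_cast (card_le_card hsub).trans card_biUnion_le
    refine h1.trans ?_
    have h2 : ∀ l ∈ L, ((Z3.filter fun z =>
        ∀ p ∈ (pr3 z).primeFactors, M < p → (l - 1) ∣ (pr3 z).factorization p).card : ℝ) ≤
        2 * (2 * (Real.sqrt X * (M : ℝ) ^ (2 * B * w) * (2 ^ 11 * B) ^ w) + (B : ℝ) ^ 80) := by
      intro l hl
      obtain ⟨_, h25, hlB⟩ := hL l hl
      apply Comb_one (k := l - 1) (by omega) (by omega) hM1
      intro z hz
      have h3 := mem_filter.1 hz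
      obtain ⟨h4, h5⟩ := hZ0s z (mem_filter.1 h3.1).1
      exact ⟨(hZ z h4).1, (hZ z h4).2, h5, h3.2⟩
    refine (Finset.sum_le_sum h2).trans (le_of_eq ?_)
    rw [sum_const, nsmul_eq_mul]
    ring
  rw [hc1, hc2, Nat.cast_add, Nat.cast_add]
  refine (add_le_add b1 (add_le_add b2 b3)).trans (le_of_eq ?_)
  ring

end Pool.MP_a95293_nt.RC
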