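import Pool.Agent.Lib_MP_a95293_rc.Main

/-!
# Piece CORA: the sum of the reciprocals of the radicals
-/

set_option autoImplicit false

namespace Pool.MP_a95293_nt.RC

open Finset

/-- the pairs -/
abbrev PT : Type := {z : ℕ × ℕ // Prm z}

private theorem CorA_exp {x : ℝ} (hx : 0 < x) (n : ℕ) : Real.exp (-x) ≤ n.factorial / x ^ n := by
  have h1 := Real.pow_div_factorial_le_exp x hx.le n
  have h2 : 0 < x ^ n / n.factorial := by positivity
  rw [Real.exp_neg, ← one_div]
  calc 1 / Real.exp x ≤ 1 / (x ^ n / n.factorial) := one_div_le_one_div_of_le h2 h1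
    _ = n.factorial / x ^ n := by rw [one_div_div]

private theorem CorA_sum {c : ℝ} (hc : 0 < c) :
    Summable fun j : ℕ => 2 * Real.exp (-(((j : ℝ) + 1) * Real.log 2) ^ c) := by
  set n := ⌈2 / c⌉₊ with hn
  have hn1 : 2 ≤ c * n := by
    have := Nat.le_ceil (2 / c)
    rw [div_le_iff₀ hc] at this
    linarith
  have hl : 0 < Real.log 2 := Real.log_pos (by norm_num)
  have hs : Summable fun j : ℕ => 1 / (((j + 1 : ℕ) : ℝ)) ^ (c * n) :=
    (summable_nat_add_iff 1).2 (Real.summable_one_div_nat_rpow.2 (by linarith))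
  refine Summable.of_nonneg_of_le (fun j => by positivity) (fun j => ?_)
    (hs.mul_left (2 * n.factorial / (Real.log 2) ^ (c * n)))
  have hj : (0 : ℝ) < (j : ℝ) + 1 := by positivity
  have h1 := CorA_exp (x := (((j : ℝ) + 1) * Real.log 2) ^ c) (by positivity) n
  have h2 : ((((j : ℝ) + 1) * Real.log 2) ^ c) ^ n =
      ((j : ℝ) + 1) ^ (c * n) * (Real.log 2) ^ (c * n) := by
    rw [← Real.rpow_natCast, ← Real.rpow_mul (by positivity), Real.mul_rpow hj.le hl.le]
  rw [h2] at h1
  push_cast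
  calc 2 * Real.exp (-(((j : ℝ) + 1) * Real.log 2) ^ c) ≤
      2 * (n.factorial / (((j : ℝ) + 1) ^ (c * n) * (Real.log 2) ^ (c * n))) := by linarith
    _ = 2 * n.factorial / (Real.log 2) ^ (c * n) * (1 / ((j : ℝ) + 1) ^ (c * n)) := by
        field_simp

/-- PROOF: by Theorem C the number of `z` with `2^j ≤ rd < 2^(j+1)` is at most `2^(j+1) exp (-((j+1) log 2)^c) ≤ 2^(j+1) K / (j+1)^2` for a constant `K`
(also for the finitely many small `j`: the sets are finite by `finite_le`), so every finite partial sum is at most `∑_j 2 K / (j+1)^2`.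
`summable_of_sum_le`. -/
theorem summable_rd : Summable fun z : PT => 1 / (rd (pr3 z.1) : ℝ) := by
  classical
  obtain ⟨c, hc, X₀, h⟩ := theoremC
  set N : ℕ → ℕ := fun j => {z : ℕ × ℕ | Prm z ∧ rd (pr3 z) ≤ 2 ^ (j + 1)}.ncard with hN
  set b : ℕ → ℝ := fun j => (if j < X₀ then (N j : ℝ) else 0) +
    2 * Real.exp (-(((j : ℝ) + 1) * Real.log 2) ^ c) with hb
  have hb0 : ∀ j, 0 ≤ b j := by
    intro j
    simp only [hb]
    split_ifs <;> positivity
  have hbs : Summable b := by
    apply Summable.add _ (CorA_sum hc)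
    apply summable_of_ne_finset_zero (s := range X₀)
    intro j hj
    rw [mem_range] at hj
    rw [if_neg hj]
  apply summable_of_sum_le (c := ∑' j, b j) (fun z => by positivity)
  intro u
  have hfib : ∑ j ∈ u.image (fun z : PT => Nat.log 2 (rd (pr3 z.1))),
      ∑ z ∈ u.filter (fun z : PT => Nat.log 2 (rd (pr3 z.1)) = j), 1 / (rd (pr3 z.1) : ℝ) =
        ∑ z ∈ u, 1 / (rd (pr3 z.1) : ℝ) :=
    sum_fiberwise_of_maps_to (fun z hz => mem_image_of_mem _ hz) _
  rw [← hfib]
  refine le_trans (sum_le_sum fun j _ => ?_) (hbs.sum_le_tsum _ fun j _ => hb0 j)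
  set V := u.filter (fun z : PT => Nat.log 2 (rd (pr3 z.1)) = j) with hV
  have hVm : ∀ z ∈ V, 2 ^ j ≤ rd (pr3 z.1) ∧ rd (pr3 z.1) ≤ 2 ^ (j + 1) := by
    intro z hz
    rw [hV, mem_filter] at hz
    have h0 := (rd_pos (pr3 z.1)).ne'
    refine ⟨?_, ?_⟩
    · rw [← hz.2]
      exact Nat.pow_log_le_self 2 h0
    · rw [← hz.2]
      exact (Nat.lt_pow_succ_log_self (by norm_num) _).le
  have hcard : (V.image Subtype.val).card = V.card := card_image_of_injective _ Subtype.val_injective
  have hterm : ∑ z ∈ V, 1 / (rd (pr3 z.1) : ℝ) ≤ V.card * (1 / 2 ^ j) := by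
    rw [← nsmul_eq_mul, ← sum_const]
    refine sum_le_sum fun z hz => ?_
    apply one_div_le_one_div_of_le (by positivity)
    exact_mod_cast (hVm z hz).1
  refine hterm.trans ?_
  by_cases hj : j < X₀
  · have h1 : V.card ≤ N j := by
      rw [← hcard]
      simp only [hN]
      rw [← Set.ncard_coe_finset]
      apply Set.ncard_le_ncard _ (finite_le _)
      intro z hz
      rw [mem_coe, mem_image] at hz
      obtain ⟨y, hy, rfl⟩ := hz
      exact ⟨y.2, (hVm y hy).2⟩
    have h2 : (V.card : ℝ) ≤ N j := by exact_mod_cast h1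
    have h3 : (1 : ℝ) / 2 ^ j ≤ 1 := by
      rw [div_le_one (by positivity)]
      exact one_le_pow₀ (by norm_num)
    have h4 : (V.card : ℝ) * (1 / 2 ^ j) ≤ V.card := mul_le_of_le_one_right (Nat.cast_nonneg _) h3
    have h5 : 0 ≤ 2 * Real.exp (-(((j : ℝ) + 1) * Real.log 2) ^ c) := by positivity
    simp only [hb]
    rw [if_pos hj]
    linarith
  · have hX : X₀ ≤ 2 ^ (j + 1) := by
      have h1 : j + 1 < 2 ^ (j + 1) := Nat.lt_two_pow_self
      omega
    have h1 := h (2 ^ (j + 1)) hX (V.image Subtype.val) fun z hz => by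
      rw [mem_image] at hz
      obtain ⟨y, hy, rfl⟩ := hz
      exact ⟨y.2, (hVm y hy).2⟩
    rw [hcard] at h1
    push_cast at h1
    rw [Real.log_pow] at h1
    push_cast at h1
    simp only [hb]
    rw [if_neg hj, zero_add]
    have h2 := mul_le_mul_of_nonneg_right h1 (show (0 : ℝ) ≤ 1 / 2 ^ j by positivity)
    refine h2.trans (le_of_eq ?_)
    rw [pow_succ]
    field_simp

end Pool.MP_a95293_nt.RC
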