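import Pool.Agent.Lib_MP_a95293_rc.CorA

/-!
# Piece CORB: few radicals with a large triple
-/

set_option autoImplicit false

namespace Pool.MP_a95293_nt.RC

open Finset

/-- PROOF: `ε > 0`; choose a finite `F : Finset PT` such that every finite set disjoint from `F` has sum `< ε` (`Summable.vanishing`/`summable_iff_vanishing_norm`),
`B = ∑_{z ∈ F} (z.1 + z.2)`. If `R ≤ X` has a pair `z`, `rd (pr3 z) ∣ R`, `B < z.1 + z.2`, then `z ∉ F` and `rd (pr3 z) ≤ R ≤ X`; the set `G` of the pairs with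
`rd ≤ X` not in `F` is finite (`finite_le`) and the number of such `R` is at most `∑_{z ∈ G} X / rd ≤ ε X` (the number of multiples of `r` up to `X` is
`X / r`, `Nat.card_multiples`). -/
theorem few_R (ε : ℝ) (hε : 0 < ε) : ∃ B : ℕ, ∀ X : ℕ,
    ({R : ℕ | 1 ≤ R ∧ R ≤ X ∧ ∃ z : ℕ × ℕ, Prm z ∧ rd (pr3 z) ∣ R ∧ B < z.1 + z.2}.ncard : ℝ) ≤ ε * X := by
  classical
  have hs := summable_rd
  rw [summable_iff_vanishing_norm] at hs
  obtain ⟨F, hF⟩ := hs ε hε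
  refine ⟨∑ z ∈ F, (z.1.1 + z.1.2), fun X => ?_⟩
  have hfin : {z : PT | rd (pr3 z.1) ≤ X}.Finite := by
    apply Set.Finite.of_finite_image (f := Subtype.val) _ Subtype.val_injective.injOn
    apply (finite_le X).subset
    rintro _ ⟨y, hy, rfl⟩
    exact ⟨y.2, hy⟩
  set G := hfin.toFinset \ F with hG
  have hsub : {R : ℕ | 1 ≤ R ∧ R ≤ X ∧ ∃ z : ℕ × ℕ, Prm z ∧ rd (pr3 z) ∣ R ∧
      (∑ z ∈ F, (z.1.1 + z.1.2)) < z.1 + z.2} ⊆
      (G.biUnion fun z => (Ioc 0 X).filter fun R => rd (pr3 z.1) ∣ R : Finset ℕ) := by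
    rintro R ⟨h1, h2, z, hz, hd, hlt⟩
    rw [mem_coe, mem_biUnion]
    refine ⟨⟨z, hz⟩, ?_, ?_⟩
    · rw [hG, mem_sdiff, Set.Finite.mem_toFinset]
      refine ⟨(Nat.le_of_dvd h1 hd).trans h2, fun hmem => ?_⟩
      have h3 := single_le_sum (f := fun z : PT => z.1.1 + z.1.2) (fun _ _ => Nat.zero_le _) hmem
      simp only at h3
      omega
    · rw [mem_filter, mem_Ioc]
      exact ⟨⟨h1, h2⟩, hd⟩
  have h1 := (Set.ncard_le_ncard hsub (Finset.finite_toSet _))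
  rw [Set.ncard_coe_finset] at h1
  have h2 : ((G.biUnion fun z => (Ioc 0 X).filter fun R => rd (pr3 z.1) ∣ R).card : ℝ) ≤
      ∑ z ∈ G, (X : ℝ) / rd (pr3 z.1) := by
    have h3 : (G.biUnion fun z => (Ioc 0 X).filter fun R => rd (pr3 z.1) ∣ R).card ≤
        ∑ z ∈ G, X / rd (pr3 z.1) := by
      refine card_biUnion_le.trans (sum_le_sum fun z _ => ?_)
      rw [Nat.Ioc_filter_dvd_card_eq_div]
    calc ((G.biUnion fun z => (Ioc 0 X).filter fun R => rd (pr3 z.1) ∣ R).card : ℝ) ≤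
        ((∑ z ∈ G, X / rd (pr3 z.1) : ℕ) : ℝ) := by exact_mod_cast h3
      _ = ∑ z ∈ G, ((X / rd (pr3 z.1) : ℕ) : ℝ) := by push_cast; rfl
      _ ≤ _ := sum_le_sum fun z _ => Nat.cast_div_le
  have h4 : ∑ z ∈ G, (X : ℝ) / rd (pr3 z.1) ≤ ε * X := by
    have h5 := hF G (sdiff_disjoint)
    have h6 : ∑ z ∈ G, 1 / (rd (pr3 z.1) : ℝ) ≤ ε := (le_abs_self _).trans h5.le
    have h7 : ∑ z ∈ G, (X : ℝ) / rd (pr3 z.1) = (∑ z ∈ G, 1 / (rd (pr3 z.1) : ℝ)) * X := by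
      rw [sum_mul]
      refine sum_congr rfl fun z _ => ?_
      ring
    rw [h7]
    exact mul_le_mul_of_nonneg_right h6 (Nat.cast_nonneg _)
  have h5 : ({R : ℕ | 1 ≤ R ∧ R ≤ X ∧ ∃ z : ℕ × ℕ, Prm z ∧ rd (pr3 z) ∣ R ∧
      (∑ z ∈ F, (z.1.1 + z.1.2)) < z.1 + z.2}.ncard : ℝ) ≤
      ((G.biUnion fun z => (Ioc 0 X).filter fun R => rd (pr3 z.1) ∣ R).card : ℝ) := by
    exact_mod_cast h1
  exact h5.trans (h2.trans h4)

end Pool.MP_a95293_nt.RC
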