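import Pool.Agent.Lib_MP_a95293_rc.CorD

/-!
# Piece CORE: the number of admissible integer triples
-/

set_option autoImplicit false

namespace Pool.MP_a95293_nt.RC

open Finset

/-- at most `36` triples with sum `0` have their entries in `{± a, ± b, ± (a + b)}` -/
theorem adm_fiber (z : ℕ × ℕ) (W : Finset (Fin 3 → ℤ)) (hW : ∀ x ∈ W, ∑ i, x i = 0 ∧
    ∀ j, (x j).natAbs = z.1 ∨ (x j).natAbs = z.2 ∨ (x j).natAbs = z.1 + z.2) : W.card ≤ 36 := by
  classical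
  set V : Finset ℤ := {(z.1 : ℤ), -(z.1 : ℤ), (z.2 : ℤ), -(z.2 : ℤ), ((z.1 + z.2 : ℕ) : ℤ),
    -((z.1 + z.2 : ℕ) : ℤ)} with hV
  have hVc : V.card ≤ 6 := card_le_six
  have hsub : W ⊆ (V ×ˢ V).image fun st => (![st.1, st.2, -(st.1 + st.2)] : Fin 3 → ℤ) := by
    intro x hx
    obtain ⟨hs, e3⟩ := hW x hx
    have hmem : ∀ j, x j ∈ V := by
      intro j
      rw [hV]
      simp only [mem_insert, mem_singleton]
      rcases e3 j with h | h | h <;> omega
    rw [mem_image]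
    refine ⟨(x 0, x 1), mem_product.2 ⟨hmem 0, hmem 1⟩, ?_⟩
    rw [Fin.sum_univ_three] at hs
    funext j
    fin_cases j
    · rfl
    · rfl
    · show -(x 0 + x 1) = x 2
      omega
  refine (card_le_card hsub).trans (card_image_le.trans ?_)
  rw [card_product]
  calc V.card * V.card ≤ 6 * 6 := Nat.mul_le_mul hVc hVc
    _ = 36 := by norm_num

/-- at most `36` admissible triples belong to one pair -/
theorem adm_count (Z : Finset (Fin 3 → ℤ)) (X : ℕ) (hZ : ∀ x ∈ Z, Adm x ∧ radZ (∏ i, x i) ≤ X) :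
    ∃ Y : Finset (ℕ × ℕ), (∀ z ∈ Y, Prm z ∧ rd (pr3 z) ≤ X) ∧ Z.card ≤ 36 * Y.card := by
  classical
  have h1 : ∀ x : Fin 3 → ℤ, ∃ z : ℕ × ℕ, x ∈ Z → (Prm z ∧ radZ (∏ i, x i) = rd (pr3 z) ∧
      ∀ j, (x j).natAbs = z.1 ∨ (x j).natAbs = z.2 ∨ (x j).natAbs = z.1 + z.2) := by
    intro x
    by_cases hx : x ∈ Z
    · obtain ⟨z, hz⟩ := adm_vals (hZ x hx).1
      exact ⟨z, fun _ => hz⟩
    · exact ⟨(0, 0), fun h => absurd h hx⟩
  choose ζ hζ using h1
  refine ⟨Z.image ζ, ?_, ?_⟩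
  · intro z hz
    rw [mem_image] at hz
    obtain ⟨x, hx, rfl⟩ := hz
    obtain ⟨e1, e2, _⟩ := hζ x hx
    exact ⟨e1, e2 ▸ (hZ x hx).2⟩
  · apply card_le_mul_card_image
    intro z _
    apply adm_fiber z
    intro x hx
    rw [mem_filter] at hx
    obtain ⟨hx, rfl⟩ := hx
    exact ⟨(hZ x hx).1.2.1, (hζ x hx).2.2⟩

/-- **The sum of the reciprocals of the radicals of the admissible triples converges.** -/
theorem adm_summable : Summable fun x : {x : Fin 3 → ℤ // Adm x} => 1 / (radZ (∏ i, x.1 i) : ℝ) := by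
  classical
  have h1 : ∀ x : {x : Fin 3 → ℤ // Adm x}, ∃ z : PT, radZ (∏ i, x.1 i) = rd (pr3 z.1) ∧
      ∀ j, (x.1 j).natAbs = z.1.1 ∨ (x.1 j).natAbs = z.1.2 ∨ (x.1 j).natAbs = z.1.1 + z.1.2 := by
    intro x
    obtain ⟨z, hz, h⟩ := adm_vals x.2
    exact ⟨⟨z, hz⟩, h⟩
  choose ζ hζ using h1
  apply summable_of_sum_le (c := 36 * ∑' z : PT, 1 / (rd (pr3 z.1) : ℝ)) (fun _ => by positivity)
  intro u
  have e1 : ∑ x ∈ u, 1 / (radZ (∏ i, x.1 i) : ℝ) =
      ∑ x ∈ u, (fun z : PT => 1 / (rd (pr3 z.1) : ℝ)) (ζ x) :=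
    sum_congr rfl fun x _ => by rw [(hζ x).1]
  rw [e1, Finset.sum_comp (fun z : PT => 1 / (rd (pr3 z.1) : ℝ)) ζ]
  have e2 : ∀ z ∈ u.image ζ, (u.filter fun x => ζ x = z).card • (1 / (rd (pr3 z.1) : ℝ)) ≤
      36 * (1 / (rd (pr3 z.1) : ℝ)) := by
    intro z _
    rw [nsmul_eq_mul]
    apply mul_le_mul_of_nonneg_right _ (by positivity)
    have e3 : (u.filter fun x => ζ x = z).card ≤ 36 := by
      rw [← card_image_of_injective (u.filter fun x => ζ x = z) Subtype.val_injective]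
      apply adm_fiber z.1
      intro x hx
      rw [mem_image] at hx
      obtain ⟨y, hy, rfl⟩ := hx
      rw [mem_filter] at hy
      obtain ⟨_, rfl⟩ := hy
      exact ⟨y.2.2.1, (hζ y).2⟩
    exact_mod_cast e3
  refine (sum_le_sum e2).trans ?_
  rw [← mul_sum]
  apply mul_le_mul_of_nonneg_left _ (by norm_num)
  exact summable_rd.sum_le_tsum _ fun _ _ => by positivity

theorem adm_finite (X : ℕ) : {x : Fin 3 → ℤ | Adm x ∧ radZ (∏ i, x i) ≤ X}.Finite := by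
  classical
  by_contra hinf
  have hi : {x : Fin 3 → ℤ | Adm x ∧ radZ (∏ i, x i) ≤ X}.Infinite := hinf
  obtain ⟨Z, hZ, hc⟩ := hi.exists_subset_card_eq (36 * (finite_le X).toFinset.card + 1)
  obtain ⟨Y, hY, hle⟩ := adm_count Z X fun x hx => hZ hx
  have h1 : Y ⊆ (finite_le X).toFinset := fun z hz => by
    rw [Set.Finite.mem_toFinset]
    exact hY z hz
  have h2 := card_le_card h1
  omega

/-- **Theorem C for admissible triples.** -/
theorem theoremC_adm : ∃ c : ℝ, 0 < c ∧ ∃ X₀ : ℕ, ∀ X ≥ X₀,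
    {x : Fin 3 → ℤ | Adm x ∧ radZ (∏ i, x i) ≤ X}.Finite ∧
    ({x : Fin 3 → ℤ | Adm x ∧ radZ (∏ i, x i) ≤ X}.ncard : ℝ) ≤
      X * Real.exp (-(Real.log X) ^ c) := by
  classical
  obtain ⟨c, hc, X₀, h⟩ := theoremC
  have hlog : Filter.Tendsto (fun X : ℕ => Real.log (X : ℝ)) Filter.atTop Filter.atTop :=
    Real.tendsto_log_atTop.comp tendsto_natCast_atTop_atTop
  obtain ⟨X₁, hX₁⟩ := Filter.eventually_atTop.1
    ((hlog.eventually (par_ev 2 (c / 2) c (by linarith))).and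
      (hlog.eventually (par_ev 4 0 (c / 2) (by linarith))))
  refine ⟨c / 2, by linarith, max X₀ X₁, fun X hX => ⟨adm_finite X, ?_⟩⟩
  obtain ⟨g1, g2⟩ := hX₁ X ((le_max_right _ _).trans hX)
  rw [Real.rpow_zero, mul_one] at g2
  obtain ⟨Y, hY, hle⟩ := adm_count (adm_finite X).toFinset X fun x hx => by
    rw [Set.Finite.mem_toFinset] at hx
    exact hx
  rw [Set.ncard_eq_toFinset_card _ (adm_finite X)]
  have h1 := h X ((le_max_left _ _).trans hX) Y hY
  have h2 : ((adm_finite X).toFinset.card : ℝ) ≤ 36 * Y.card := by exact_mod_cast hle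
  have h3 : (36 : ℝ) ≤ Real.exp 4 := by
    have e1 := Real.exp_one_gt_d9
    have e2 : Real.exp 4 = Real.exp 1 ^ 4 := by
      rw [← Real.exp_nat_mul]
      norm_num
    rw [e2]
    have e3 : (2.7 : ℝ) ^ 4 ≤ Real.exp 1 ^ 4 := pow_le_pow_left₀ (by norm_num) (by linarith) 4
    norm_num at e3 ⊢
    linarith
  have hX0 : (0 : ℝ) ≤ X := Nat.cast_nonneg X
  calc ((adm_finite X).toFinset.card : ℝ) ≤ 36 * Y.card := h2
    _ ≤ Real.exp 4 * (X * Real.exp (-(Real.log X) ^ c)) :=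
        mul_le_mul h3 h1 (Nat.cast_nonneg _) (Real.exp_pos _).le
    _ = X * Real.exp (4 + -(Real.log X) ^ c) := by
        rw [Real.exp_add]
        ring
    _ ≤ X * Real.exp (-(Real.log X) ^ (c / 2)) := by
        apply mul_le_mul_of_nonneg_left _ hX0
        apply Real.exp_le_exp.2
        linarith

end Pool.MP_a95293_nt.RC
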