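import Pool.Agent.Lib_MP_a95293_rc.Defs

/-!
# Piece PATA: patterns
-/

set_option autoImplicit false

namespace Pool.MP_a95293_nt.RC

open Finset

/-- the pattern of `D`: `⌊10 m θ_p⌋`, `m` the number of primes and `θ_p = v_p(D) log p / log D` -/
noncomputable def pat (D p : ℕ) : ℕ :=
  ⌊10 * (D.primeFactors.card : ℝ) * (D.factorization p * Real.log p / Real.log D)⌋₊

/-- the normalised pattern -/
noncomputable def patf (D p : ℕ) : ℝ := (pat D p : ℝ) / (10 * D.primeFactors.card)

private theorem PatA_log (D : ℕ) (hD : D ≠ 0) :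
    ∑ p ∈ D.primeFactors, (D.factorization p : ℝ) * Real.log p = Real.log D := by
  have h1 : ((∏ p ∈ D.primeFactors, p ^ D.factorization p : ℕ) : ℝ) = D := by
    have := Nat.prod_factorization_pow_eq_self hD
    rw [Finsupp.prod, Nat.support_factorization] at this
    exact_mod_cast this
  rw [← h1]
  push_cast
  rw [Real.log_prod]
  · refine sum_congr rfl fun p _ => ?_
    rw [Real.log_pow]
  · intro p hp
    have : (0 : ℝ) < p := by exact_mod_cast (Nat.prime_of_mem_primeFactors hp).pos
    positivity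

private theorem PatA_th (D : ℕ) (hD : 2 ≤ D) :
    ∑ p ∈ D.primeFactors, (D.factorization p : ℝ) * Real.log p / Real.log D = 1 := by
  rw [← Finset.sum_div, PatA_log D (by omega)]
  exact div_self (Real.log_pos (by exact_mod_cast hD)).ne'

private theorem PatA_card (D : ℕ) (hD : 2 ≤ D) : (0 : ℝ) < D.primeFactors.card := by
  have : 0 < D.primeFactors.card := card_pos.2 (Nat.nonempty_primeFactors.2 hD)
  exact_mod_cast this

/-- PROOF: `∑_p v_p(D) log p = log D` (log of `Nat.factorization_prod_pow_eq_self`), so `∑ ⌊10 m θ_p⌋ ≤ 10 m ∑ θ_p = 10 m`. -/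
theorem pat_sum (D : ℕ) (hD : 2 ≤ D) : ∑ p ∈ D.primeFactors, pat D p ≤ 10 * D.primeFactors.card := by
  have hl : 0 < Real.log D := Real.log_pos (by exact_mod_cast hD)
  have h1 : ∑ p ∈ D.primeFactors, (pat D p : ℝ) ≤ 10 * D.primeFactors.card := by
    calc ∑ p ∈ D.primeFactors, (pat D p : ℝ) ≤ ∑ p ∈ D.primeFactors,
          10 * (D.primeFactors.card : ℝ) * (D.factorization p * Real.log p / Real.log D) := by
          refine sum_le_sum fun p hp => ?_
          have : 0 ≤ Real.log p := Real.log_natCast_nonneg p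
          exact Nat.floor_le (by positivity)
      _ = 10 * D.primeFactors.card := by
          rw [← mul_sum, PatA_th D hD, mul_one]
  exact_mod_cast h1

theorem patf_nonneg (D p : ℕ) : 0 ≤ patf D p := by
  unfold patf
  positivity

/-- PROOF: `⌊10 m θ⌋ / (10 m) ≤ θ`. -/
theorem patf_le (D : ℕ) (hD : 2 ≤ D) (p : ℕ) : patf D p * Real.log D ≤ D.factorization p * Real.log p := by
  have hl : 0 < Real.log D := Real.log_pos (by exact_mod_cast hD)
  have hm := PatA_card D hD
  have hp : 0 ≤ Real.log p := Real.log_natCast_nonneg p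
  rw [← le_div_iff₀ hl]
  unfold patf
  rw [div_le_iff₀ (by positivity)]
  have h1 : (pat D p : ℝ) ≤
      10 * (D.primeFactors.card : ℝ) * (D.factorization p * Real.log p / Real.log D) :=
    Nat.floor_le (by positivity)
  linarith

/-- PROOF: `∑ ⌊10 m θ_p⌋ ≥ 10 m - m = 9 m`. -/
theorem patf_sum (D : ℕ) (hD : 2 ≤ D) : 9 / 10 ≤ ∑ p ∈ D.primeFactors, patf D p := by
  have hl : 0 < Real.log D := Real.log_pos (by exact_mod_cast hD)
  have hm := PatA_card D hD
  unfold patf
  rw [← sum_div, le_div_iff₀ (by positivity)]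
  have h1 : ∑ p ∈ D.primeFactors,
      (10 * (D.primeFactors.card : ℝ) * (D.factorization p * Real.log p / Real.log D) - 1) ≤
      ∑ p ∈ D.primeFactors, (pat D p : ℝ) := by
    refine sum_le_sum fun p _ => ?_
    have := Nat.lt_floor_add_one
      (10 * (D.primeFactors.card : ℝ) * (D.factorization p * Real.log p / Real.log D))
    unfold pat
    linarith
  rw [sum_sub_distrib, ← mul_sum, PatA_th D hD, sum_const, nsmul_eq_mul] at h1
  linarith

end Pool.MP_a95293_nt.RC
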