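import Pool.Agent.Lib_MP_a95293_rc.Defs

/-!
# Piece PATN: the number of patterns
-/

set_option autoImplicit false

namespace Pool.MP_a95293_nt.RC

open Finset

/-- the number of patterns.
PROOF: bound the number by `∑_φ 2^(10 m - ∑ φ) = 2^(10 m) ∏_p ∑_{j ≤ 10 m} 2^(-j) ≤ 2^(10 m) 2^m` (`Finset.prod_univ_sum`, reals or
rationals; `∑_{j ≤ J} 2^(-j) ≤ 2`), `m = T.card`. -/
theorem pat_count (T : Finset ℕ) :
    ((Fintype.piFinset fun _ : T => range (10 * T.card + 1)).filter fun φ => ∑ p, φ p ≤ 10 * T.card).card ≤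
      2 ^ (11 * T.card) := by
  classical
  set m := T.card with hm
  set P := Fintype.piFinset fun _ : T => range (10 * m + 1) with hP
  have h1 : ((P.filter fun φ => ∑ p, φ p ≤ 10 * m).card : ℝ) ≤ 2 ^ (11 * m) := by
    calc ((P.filter fun φ => ∑ p, φ p ≤ 10 * m).card : ℝ) =
        ∑ φ ∈ P.filter (fun φ => ∑ p, φ p ≤ 10 * m), (1 : ℝ) := by
          rw [sum_const, nsmul_eq_mul, mul_one]
      _ ≤ ∑ φ ∈ P.filter (fun φ => ∑ p, φ p ≤ 10 * m),
          (2 : ℝ) ^ (10 * m) * ∏ p, (1 / 2 : ℝ) ^ (φ p) := by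
          refine sum_le_sum fun φ hφ => ?_
          rw [mem_filter] at hφ
          rw [Finset.prod_pow_eq_pow_sum, one_div, inv_pow, ← div_eq_mul_inv,
            le_div_iff₀ (by positivity), one_mul]
          exact pow_le_pow_right₀ (by norm_num) hφ.2
      _ ≤ ∑ φ ∈ P, (2 : ℝ) ^ (10 * m) * ∏ p, (1 / 2 : ℝ) ^ (φ p) :=
          sum_le_sum_of_subset_of_nonneg (filter_subset _ _) fun _ _ _ => by positivity
      _ = (2 : ℝ) ^ (10 * m) * ∏ _p : T, ∑ j ∈ range (10 * m + 1), (1 / 2 : ℝ) ^ j := by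
          rw [← mul_sum, hP, Finset.prod_univ_sum]
      _ ≤ (2 : ℝ) ^ (10 * m) * ∏ _p : T, (2 : ℝ) := by
          apply mul_le_mul_of_nonneg_left _ (by positivity)
          refine prod_le_prod (fun _ _ => sum_nonneg fun _ _ => by positivity) fun _ _ => ?_
          exact sum_geometric_two_le _
      _ = 2 ^ (11 * m) := by
          rw [prod_const, card_univ, Fintype.card_coe, ← hm, ← pow_add]
          congr 1
          ring
  exact_mod_cast h1

end Pool.MP_a95293_nt.RC
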