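import Pool.Agent.Lib_MP_a95293_rc.TwoSol
import Pool.Agent.Lib_MP_a95293_rc.PatA
import Pool.Agent.Lib_MP_a95293_rc.PatN
import Pool.Agent.Lib_MP_a95293_rc.PatB

/-!
# Piece CNT: the number of solutions with given primes
-/

set_option autoImplicit false

namespace Pool.MP_a95293_nt.RC

open Finset

private theorem CountSol_mo {p : ℕ} {a : ℤ} (h : (mo p : ℤ) ∣ a) :
    (p : ℤ) ∣ a ∧ (p = 2 → (4 : ℤ) ∣ a) := by
  unfold mo at h
  by_cases hp : p = 2
  · rw [if_pos hp] at h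
    subst hp
    exact ⟨(by norm_num : ((2 : ℕ) : ℤ) ∣ ((4 : ℕ) : ℤ)).trans h, fun _ => h⟩
  · rw [if_neg hp] at h
    exact ⟨h, fun h2 => absurd h2 hp⟩

private theorem CountSol_inj {k : ℕ} (hk : 24 ≤ k) {α β : ℤ} {T : Finset ℕ} {x y x' y' : ℤ} {D D' : ℕ}
    (h : Sol k α β x y D) (h' : Sol k α β x' y' D') (hD : k ^ 40 ≤ D) (hDD : D ≤ D')
    (hT : D.primeFactors = T) (hT' : D'.primeFactors = T) (hp : ∀ p ∈ T, pat D p = pat D' p)
    (hc : ∀ p ∈ T, cls p x y = cls p x' y') : x = x' ∧ y = y' := by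
  have hk40 : k ≤ k ^ 40 := Nat.le_self_pow (by norm_num) k
  have hD2 : 2 ≤ D := by omega
  have hD2' : 2 ≤ D' := by omega
  have hcl : ∀ p ∈ D.primeFactors, (mo p : ℤ) ∣ x * y' - x' * y := by
    intro p hpD
    have hpp := Nat.prime_of_mem_primeFactors hpD
    have hpD' : p ∈ D'.primeFactors := by rw [hT', ← hT]; exact hpD
    exact cls_eq hpp (h.not_dvd (by omega) hpp (Nat.dvd_of_mem_primeFactors hpD)).2.2.2
      (h'.not_dvd (by omega) hpp (Nat.dvd_of_mem_primeFactors hpD')).2.2.2 (hc p (hT ▸ hpD))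
  refine two_sol hk h h' hD hDD (patf D) (fun p _ => patf_nonneg D p) (patf_sum D hD2)
    (hT'.trans hT.symm) (fun p _ => patf_le D hD2 p) ?_ (fun p hp => (CountSol_mo (hcl p hp)).1)
    (fun h2 => (CountSol_mo (hcl 2 h2)).2 rfl)
  intro p hpD
  have e : patf D p = patf D' p := by
    unfold patf
    rw [hp p (hT ▸ hpD), hT, hT']
  rw [e]
  exact patf_le D' hD2' p

/-- PROOF: choose `Q p` for `p ∈ T` from `cls_mem`. The map `z ↦ (p : T) ↦ cls p z.1 z.2` sends `Z` into `Fintype.piFinset (fun p : T => Q p)` of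
cardinality `≤ k ^ T.card` (`Sol.not_dvd`, `α x^k - β y^k = D` is divisible by `p`) and is injective on `Z`: for two solutions (the one with the
smaller `D` first) apply `two_sol` with `f = patf D` (`patf D p = patf D' p` as `T` and the patterns agree; `patf_le` for both), `cls_eq`
gives `p ∣ x y' - x' y`, and `4 ∣` for `p = 2`. `card_le_card_of_injOn`. -/
theorem count_pat {k : ℕ} (hk : 24 ≤ k) (α β : ℤ) (T : Finset ℕ) (φ : ℕ → ℕ) (Z : Finset (ℤ × ℤ))
    (hZ : ∀ z ∈ Z, ∃ D : ℕ, Sol k α β z.1 z.2 D ∧ k ^ 40 ≤ D ∧ D.primeFactors = T ∧ ∀ p ∈ T, pat D p = φ p) :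
    Z.card ≤ k ^ T.card := by
  classical
  have hQ : ∀ p : ℕ, ∃ Q : Finset ℕ, Q.card ≤ k ∧ (p.Prime → ∀ x y : ℤ, ¬ (p : ℤ) ∣ α →
      ¬ (p : ℤ) ∣ x → ¬ (p : ℤ) ∣ y → (p : ℤ) ∣ α * x ^ k - β * y ^ k → cls p x y ∈ Q) := by
    intro p
    by_cases hp : p.Prime
    · obtain ⟨Q, h1, h2⟩ := cls_mem (by omega : 2 ≤ k) hp α β
      exact ⟨Q, h1, fun _ => h2⟩
    · exact ⟨∅, by simp, fun h => absurd h hp⟩
  choose Q hQ1 hQ2 using hQ
  have hcard : (Fintype.piFinset fun p : T => Q p).card ≤ k ^ T.card := by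
    rw [Fintype.card_piFinset]
    calc ∏ p : T, (Q p).card ≤ ∏ p : T, k := Finset.prod_le_prod' fun p _ => hQ1 p
      _ = k ^ T.card := by rw [prod_const, card_univ, Fintype.card_coe]
  refine le_trans ?_ hcard
  refine card_le_card_of_injOn (fun z => fun p : T => cls p z.1 z.2) ?_ ?_
  · intro z hz
    obtain ⟨D, hS, hD, hT, _⟩ := hZ z (mem_coe.1 hz)
    refine mem_coe.2 (Fintype.mem_piFinset.2 fun p => ?_)
    have hpD : (p : ℕ) ∈ D.primeFactors := by rw [hT]; exact p.2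
    have hpp := Nat.prime_of_mem_primeFactors hpD
    obtain ⟨h1, _, h2, h3⟩ := hS.not_dvd (by omega) hpp (Nat.dvd_of_mem_primeFactors hpD)
    refine hQ2 p hpp z.1 z.2 h1 h2 h3 ?_
    rw [hS.val]
    exact_mod_cast Nat.dvd_of_mem_primeFactors hpD
  · intro z hz z' hz' hzz
    obtain ⟨D, hS, hD, hT, hp⟩ := hZ z (mem_coe.1 hz)
    obtain ⟨D', hS', hD', hT', hp'⟩ := hZ z' (mem_coe.1 hz')
    have hc : ∀ p ∈ T, cls p z.1 z.2 = cls p z'.1 z'.2 := fun p hpT => congrFun hzz ⟨p, hpT⟩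
    rcases le_total D D' with hDD | hDD
    · obtain ⟨e1, e2⟩ := CountSol_inj hk hS hS' hD hDD hT hT'
        (fun p hpT => (hp p hpT).trans (hp' p hpT).symm) hc
      exact Prod.ext e1 e2
    · obtain ⟨e1, e2⟩ := CountSol_inj hk hS' hS hD' hDD hT' hT
        (fun p hpT => (hp' p hpT).trans (hp p hpT).symm) (fun p hpT => (hc p hpT).symm)
      exact Prod.ext e1.symm e2.symm

/-- **The number of solutions.**
PROOF: `D` is determined by `z`: `D = (α z.1^k - β z.2^k).toNat`. Let `key z = fun p : T => pat (D z) p`; its image is contained in the set of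
`pat_count` (`pat_sum`), of size `≤ 2^(11 |T|)`, and every fibre has at most `k^|T|` elements (`count_pat` with any extension of the
function to `ℕ`). `Finset.card_le_mul_card_image`. -/
theorem count_sol {k : ℕ} (hk : 24 ≤ k) (α β : ℤ) (T : Finset ℕ) (Z : Finset (ℤ × ℤ))
    (hZ : ∀ z ∈ Z, ∃ D : ℕ, Sol k α β z.1 z.2 D ∧ k ^ 40 ≤ D ∧ D.primeFactors = T) :
    Z.card ≤ (2 ^ 11 * k) ^ T.card := by
  classical
  set Dz : ℤ × ℤ → ℕ := fun z => (α * z.1 ^ k - β * z.2 ^ k).toNat with hDz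
  have hDD : ∀ z ∈ Z, Sol k α β z.1 z.2 (Dz z) ∧ k ^ 40 ≤ Dz z ∧ (Dz z).primeFactors = T := by
    intro z hz
    obtain ⟨D, hS, hD, hT⟩ := hZ z hz
    have : Dz z = D := by
      simp only [hDz]
      rw [hS.val, Int.toNat_natCast]
    rw [this]
    exact ⟨hS, hD, hT⟩
  have hk40 : k ≤ k ^ 40 := Nat.le_self_pow (by norm_num) k
  set key : ℤ × ℤ → (T → ℕ) := fun z p => pat (Dz z) p with hkey
  have h1 : Z.card ≤ k ^ T.card * (Z.image key).card := by
    apply card_le_mul_card_image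
    intro φ hφ
    set φ' : ℕ → ℕ := fun p => if h : p ∈ T then φ ⟨p, h⟩ else 0 with hφ'
    refine count_pat hk α β T φ' _ ?_
    intro z hz
    rw [mem_filter] at hz
    obtain ⟨a, b, c⟩ := hDD z hz.1
    refine ⟨Dz z, a, b, c, fun p hp => ?_⟩
    simp only [hφ', dif_pos hp]
    rw [← hz.2]
  have h2 : (Z.image key).card ≤ 2 ^ (11 * T.card) := by
    refine le_trans (card_le_card ?_) (pat_count T)
    intro φ hφ
    rw [mem_image] at hφ
    obtain ⟨z, hz, rfl⟩ := hφ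
    obtain ⟨a, b, c⟩ := hDD z hz
    have hs : ∑ p : T, key z p ≤ 10 * T.card := by
      have h3 := pat_sum (Dz z) (by omega)
      rw [c] at h3
      rw [← sum_coe_sort] at h3
      exact h3
    rw [mem_filter, Fintype.mem_piFinset]
    refine ⟨fun p => ?_, hs⟩
    rw [mem_range]
    have h4 : key z p ≤ ∑ p : T, key z p :=
      single_le_sum (f := key z) (fun _ _ => Nat.zero_le _) (mem_univ p)
    omega
  calc Z.card ≤ k ^ T.card * (Z.image key).card := h1
    _ ≤ k ^ T.card * 2 ^ (11 * T.card) := Nat.mul_le_mul_left _ h2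
    _ = (2 ^ 11 * k) ^ T.card := by rw [mul_pow, ← pow_mul, mul_comm]

end Pool.MP_a95293_nt.RC
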