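import Pool.Agent.Lib_MP_a95293_rc.DecA
import Pool.Agent.Lib_MP_a95293_rc.Rad

/-!
# Piece DECB: triples as solutions
-/

set_option autoImplicit false

namespace Pool.MP_a95293_nt.RC

open Finset

/-- PROOF: `u = a`, `v = - b`, `D = a + b`. -/
theorem sol_c {k : ℕ} {z : ℕ × ℕ} (hz : Prm z) :
    Sol k (al k z.1) (-(al k z.2 : ℤ)) (rt k z.1) (rt k z.2) (z.1 + z.2) := by
  have h1 := al_mul k z.1 hz.1.ne'
  have h2 := al_mul k z.2 hz.2.1.ne'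
  have e1 : (al k z.1 : ℤ) * (rt k z.1 : ℤ) ^ k = z.1 := by exact_mod_cast h1
  have e2 : -(al k z.2 : ℤ) * (rt k z.2 : ℤ) ^ k = -(z.2 : ℤ) := by
    have e3 : (al k z.2 : ℤ) * (rt k z.2 : ℤ) ^ k = z.2 := by exact_mod_cast h2
    linarith
  refine ⟨by exact_mod_cast rt_pos k z.1, by exact_mod_cast rt_pos k z.2, ?_, ?_, ?_, ?_⟩
  · rw [e1, e2]
    exact (Nat.isCoprime_iff_coprime.2 hz.2.2).neg_right
  · rw [e1, e2]
    push_cast
    ring
  · rw [e1, abs_of_nonneg (by positivity)]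
    push_cast
    linarith [Nat.cast_nonneg (α := ℤ) z.1, Nat.cast_nonneg (α := ℤ) z.2]
  · rw [e2, abs_neg, abs_of_nonneg (by positivity)]
    push_cast
    linarith [Nat.cast_nonneg (α := ℤ) z.1, Nat.cast_nonneg (α := ℤ) z.2]

/-- PROOF: `u = a + b`, `v = a`, `D = b`, and `a + b ≤ 2 b`. -/
theorem sol_b {k : ℕ} {z : ℕ × ℕ} (hz : Prm z) (h : z.1 ≤ z.2) :
    Sol k (al k (z.1 + z.2)) (al k z.1) (rt k (z.1 + z.2)) (rt k z.1) z.2 := by
  have h3 : z.1 + z.2 ≠ 0 := by have := hz.1; omega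
  have h1 := al_mul k z.1 hz.1.ne'
  have h2 := al_mul k (z.1 + z.2) h3
  have e1 : (al k z.1 : ℤ) * (rt k z.1 : ℤ) ^ k = z.1 := by exact_mod_cast h1
  have e2 : (al k (z.1 + z.2) : ℤ) * (rt k (z.1 + z.2) : ℤ) ^ k = ((z.1 + z.2 : ℕ) : ℤ) := by
    exact_mod_cast h2
  have hle : (z.1 : ℤ) ≤ z.2 := by exact_mod_cast h
  refine ⟨by exact_mod_cast rt_pos k (z.1 + z.2), by exact_mod_cast rt_pos k z.1, ?_, ?_, ?_, ?_⟩
  · rw [e1, e2]
    exact Nat.isCoprime_iff_coprime.2 hz.cop1.symm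
  · rw [e1, e2]
    push_cast
    ring
  · rw [e2, abs_of_nonneg (by positivity)]
    push_cast
    linarith
  · rw [e1, abs_of_nonneg (by positivity)]
    linarith [Nat.cast_nonneg (α := ℤ) z.1, Nat.cast_nonneg (α := ℤ) z.2]

end Pool.MP_a95293_nt.RC
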