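import Pool.Agent.Lib_MP_a95293_rc.DecB
import Pool.Agent.Lib_MP_a95293_rc.CountSol

/-!
# Piece DECC: counting triples with given coefficients
-/

set_option autoImplicit false

namespace Pool.MP_a95293_nt.RC

open Finset

/-- PROOF: the map `z ↦ (rt k z.1, rt k z.2) : ℤ × ℤ` is injective on `Z` (`a = α (rt a)^k`), and `count_sol` for the image (`sol_c`). -/
theorem count_c {k : ℕ} (hk : 24 ≤ k) (α β : ℕ) (T : Finset ℕ) (Z : Finset (ℕ × ℕ))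
    (hZ : ∀ z ∈ Z, Prm z ∧ al k z.1 = α ∧ al k z.2 = β ∧ k ^ 40 ≤ z.1 + z.2 ∧ (z.1 + z.2).primeFactors = T) :
    Z.card ≤ (2 ^ 11 * k) ^ T.card := by
  classical
  set F : ℕ × ℕ → ℤ × ℤ := fun z => ((rt k z.1 : ℤ), (rt k z.2 : ℤ)) with hF
  have hinj : Set.InjOn F (Z : Set (ℕ × ℕ)) := by
    intro z hz z' hz' h
    obtain ⟨hP, h1, h2, _, _⟩ := hZ z (mem_coe.1 hz)
    obtain ⟨hP', h1', h2', _, _⟩ := hZ z' (mem_coe.1 hz')
    have e1 : rt k z.1 = rt k z'.1 := Nat.cast_injective (R := ℤ) (congrArg Prod.fst h)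
    have e2 : rt k z.2 = rt k z'.2 := Nat.cast_injective (R := ℤ) (congrArg Prod.snd h)
    have f1 := al_mul k z.1 hP.1.ne'
    have f1' := al_mul k z'.1 hP'.1.ne'
    have f2 := al_mul k z.2 hP.2.1.ne'
    have f2' := al_mul k z'.2 hP'.2.1.ne'
    refine Prod.ext ?_ ?_
    · rw [← f1, ← f1', h1, h1', e1]
    · rw [← f2, ← f2', h2, h2', e2]
  rw [← card_image_of_injOn hinj]
  refine count_sol hk α (-(β : ℤ)) T _ ?_
  intro y hy
  rw [mem_image] at hy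
  obtain ⟨z, hz, rfl⟩ := hy
  obtain ⟨hP, h1, h2, h3, h4⟩ := hZ z hz
  have hs := sol_c (k := k) hP
  rw [h1, h2] at hs
  exact ⟨z.1 + z.2, hs, h3, h4⟩

/-- PROOF: the same with `sol_b` and `z ↦ (rt k (z.1 + z.2), rt k z.1)`. -/
theorem count_b {k : ℕ} (hk : 24 ≤ k) (α β : ℕ) (T : Finset ℕ) (Z : Finset (ℕ × ℕ))
    (hZ : ∀ z ∈ Z, Prm z ∧ z.1 ≤ z.2 ∧ al k (z.1 + z.2) = α ∧ al k z.1 = β ∧ k ^ 40 ≤ z.2 ∧
      z.2.primeFactors = T) :
    Z.card ≤ (2 ^ 11 * k) ^ T.card := by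
  classical
  set F : ℕ × ℕ → ℤ × ℤ := fun z => ((rt k (z.1 + z.2) : ℤ), (rt k z.1 : ℤ)) with hF
  have hinj : Set.InjOn F (Z : Set (ℕ × ℕ)) := by
    intro z hz z' hz' h
    obtain ⟨hP, _, h1, h2, _, _⟩ := hZ z (mem_coe.1 hz)
    obtain ⟨hP', _, h1', h2', _, _⟩ := hZ z' (mem_coe.1 hz')
    have e1 : rt k (z.1 + z.2) = rt k (z'.1 + z'.2) := Nat.cast_injective (R := ℤ) (congrArg Prod.fst h)
    have e2 : rt k z.1 = rt k z'.1 := Nat.cast_injective (R := ℤ) (congrArg Prod.snd h)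
    have g1 : z.1 + z.2 ≠ 0 := by have := hP.1; omega
    have g1' : z'.1 + z'.2 ≠ 0 := by have := hP'.1; omega
    have f1 := al_mul k (z.1 + z.2) g1
    have f1' := al_mul k (z'.1 + z'.2) g1'
    have f2 := al_mul k z.1 hP.1.ne'
    have f2' := al_mul k z'.1 hP'.1.ne'
    rw [h1, e1] at f1
    rw [h1'] at f1'
    rw [h2, e2] at f2
    rw [h2'] at f2'
    refine Prod.ext ?_ ?_ <;> omega
  rw [← card_image_of_injOn hinj]
  refine count_sol hk α (β : ℤ) T _ ?_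
  intro y hy
  rw [mem_image] at hy
  obtain ⟨z, hz, rfl⟩ := hy
  obtain ⟨hP, hle, h1, h2, h3, h4⟩ := hZ z hz
  have hs := sol_b (k := k) hP hle
  rw [h1, h2] at hs
  exact ⟨z.2, hs, h3, h4⟩

end Pool.MP_a95293_nt.RC
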