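import Mathlib

/-!
# MP_a95293_nt (n-term abc, n = 3): counting triples with small radical. Definitions

Theorem C: there is `c > 0` such that for large `X` at most `X exp (-(log X)^c)` coprime triples
`a + b = c` of positive integers (of any height) have `rad (a b c) ≤ X`.
-/

set_option autoImplicit false

namespace Pool.MP_a95293_nt.RC

open Finset

/-- the radical of `n` -/
def rd (n : ℕ) : ℕ := ∏ p ∈ n.primeFactors, p

/-- `z = (a, b)` is a coprime pair of positive integers -/
def Prm (z : ℕ × ℕ) : Prop := 0 < z.1 ∧ 0 < z.2 ∧ z.1.Coprime z.2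

/-- the product `a b (a + b)` -/
def pr3 (z : ℕ × ℕ) : ℕ := z.1 * z.2 * (z.1 + z.2)

/-! ### Padé coefficients -/

/-- `k ^ i ∏_{t<i} (k (n - t) + 1) / i!` (an exact division for `i ≤ n`) -/
def gp (k n i : ℕ) : ℕ := k ^ i * (∏ t ∈ range i, (k * (n - t) + 1)) / i.factorial

/-- `k ^ i ∏_{t<i} (k (n - t) - 1) / i!` (an exact division for `i ≤ n`) -/
def gm (k n i : ℕ) : ℕ := k ^ i * (∏ t ∈ range i, (k * (n - t) - 1)) / i.factorial

/-- the coefficients -/
def cf (k n i : ℕ) : ℕ := gp k n i * gm k n (n - i)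

/-- the Padé numerator, homogeneous of degree `n` -/
def fA (k n : ℕ) (u v : ℤ) : ℤ := ∑ i ∈ range (n + 1), (cf k n i : ℤ) * u ^ i * v ^ (n - i)

/-- the Padé denominator, homogeneous of degree `n` -/
def fB (k n : ℕ) (u v : ℤ) : ℤ := fA k n v u

/-- the linear form `t A_n(u, v) - s B_n(u, v)` -/
def Lam (k n : ℕ) (s t u v : ℤ) : ℤ := t * fA k n u v - s * fB k n u v

/-- `(x, y)` is a solution of `α x^k - β y^k = D`, the three terms coprime, the two powers of size
at most `2 D` -/
structure Sol (k : ℕ) (α β x y : ℤ) (D : ℕ) : Prop where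
  hx : 0 < x
  hy : 0 < y
  cop : IsCoprime (α * x ^ k) (β * y ^ k)
  val : α * x ^ k - β * y ^ k = D
  hu : |α * x ^ k| ≤ 2 * D
  hv : |β * y ^ k| ≤ 2 * D

end Pool.MP_a95293_nt.RC
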