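import Pool.Agent.Lib_MP_a95293_rc.Defs

/-!
# Piece FIN: the final inequalities (pure real analysis)
-/

set_option autoImplicit false

namespace Pool.MP_a95293_nt.RC

private theorem Fin_log {k : ℕ} (hk : 24 ≤ k) : 3.1 ≤ Real.log k := by
  have h1 : Real.log 24 ≤ Real.log k := Real.log_le_log (by norm_num) (by exact_mod_cast hk)
  have h2 : Real.log ((2 : ℝ) ^ 9) ≤ Real.log ((24 : ℝ) ^ 2) :=
    Real.log_le_log (by norm_num) (by norm_num)
  rw [Real.log_pow, Real.log_pow] at h2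
  push_cast at h2
  have h3 := Real.log_two_gt_d9
  norm_num at h3 ⊢
  linarith

private theorem Fin_log4 : Real.log 4 = 2 * Real.log 2 := by
  rw [show (4 : ℝ) = 2 ^ 2 by norm_num, Real.log_pow]
  norm_num

private theorem Fin_logk {k : ℕ} (hk : 24 ≤ k) :
    Real.log (4 * k * (k + 1)) ≤ 5 / 2 * Real.log k := by
  have hk' : (24 : ℝ) ≤ k := by exact_mod_cast hk
  have h1 : Real.log ((4 * (k : ℝ) * (k + 1)) ^ 2) ≤ Real.log ((k : ℝ) ^ 5) := by
    apply Real.log_le_log (by positivity)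
    have h2 : 16 * ((k : ℝ) + 1) ^ 2 ≤ k ^ 3 := by
      nlinarith [mul_le_mul hk' hk' (by norm_num) (by linarith),
        mul_nonneg (show 0 ≤ (k : ℝ) - 24 by linarith) (sq_nonneg (k : ℝ))]
    calc (4 * (k : ℝ) * (k + 1)) ^ 2 = (k : ℝ) ^ 2 * (16 * ((k : ℝ) + 1) ^ 2) := by ring
      _ ≤ (k : ℝ) ^ 2 * (k : ℝ) ^ 3 := mul_le_mul_of_nonneg_left h2 (by positivity)
      _ = (k : ℝ) ^ 5 := by ring
  rw [Real.log_pow, Real.log_pow] at h1
  push_cast at h1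
  linarith

/-- The gap principle.
PROOF: `k ≥ 24`, `L ≥ 40 log k ≥ 40 log 24 ≥ 126` (`log 24 = 3 log 2 + log 3`, `Real.log_two_gt_d9`, `3 > 2^(3/2)`... it is enough that
`log 24 ≥ 4 log 2 + (1/2) log 2 ≥ 3.1`). `k ((9/10) L - log k - log 2) ≤ log 4 + L + L'`, so
`L' ≥ 24 ((9/10) L - L/40 - log 2) - L - log 4 ≥ 20 L - 24 log 2 - log 4 - L + ... ≥ 19 L` (first note `k (…) ≥ 24 (…)` as the bracket is
nonnegative; `24 * (7/8) L = 21 L`, `21 L - L - 18.1 ≥ 19 L` as `L ≥ 126`). -/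
theorem gap_ineq {k : ℕ} {L L' : ℝ} (hk : 24 ≤ k) (hL : 40 * Real.log k ≤ L)
    (h : 9 / 10 * L - Real.log k ≤ Real.log 2 + (Real.log 4 + L + L') / k) : 19 * L ≤ L' := by
  have hk' : (24 : ℝ) ≤ k := by exact_mod_cast hk
  have hl := Fin_log hk
  have h2 := Real.log_two_gt_d9
  have h3 := Real.log_two_lt_d9
  have h4 := Fin_log4
  have hb : 0 ≤ 9 / 10 * L - Real.log k - Real.log 2 := by
    norm_num at hl h2 h3
    linarith
  have h5 : (9 / 10 * L - Real.log k - Real.log 2) * k ≤ Real.log 4 + L + L' := by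
    rw [← le_div_iff₀ (by linarith)]
    linarith
  have h6 : (9 / 10 * L - Real.log k - Real.log 2) * 24 ≤
      (9 / 10 * L - Real.log k - Real.log 2) * k := mul_le_mul_of_nonneg_left hk' hb
  norm_num at hl h2 h3
  linarith

/-- The main inequality.
PROOF: `(2N - 3) L < L'` gives `N L ≤ (L' + 3 L)/2 ≤ (22/38) L'`. With `L ≥ 126`: `log (N+1) ≤ N ≤ (22/38) L'/126 ≤ 0.0047 L'`,
`N log 2 ≤ 0.0033 L'`; `log (4 k (k+1)) ≤ (5/2) log k ≤ L/16` (`4 k (k+1) ≤ k^(5/2)` for `k ≥ 24`: square it, `16 (k+1)^2 ≤ k^3`), so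
`N log (4 k (k+1)) ≤ 0.0362 L'`; `(2N+1) log k ≤ (2 N + 1) L/40 ≤ (L' + 4 L)/40 ≤ 0.0303 L'`;
`(log 4 + L + L')/k ≤ (1.4 + (20/19) L')/24 ≤ 0.0440 L'`; `log 2 ≤ 0.0003 L'`. The sum is at most `0.70 L' < 0.9 L'`. -/
theorem main_ineq {k N : ℕ} {L L' : ℝ} (hk : 24 ≤ k) (hL : 40 * Real.log k ≤ L) (hLL : 19 * L ≤ L')
    (hN : (2 * (N : ℝ) - 3) * L < L') :
    Real.log 2 + (Real.log 4 + L + L') / k + Real.log (N + 1) + N * Real.log (4 * k * (k + 1)) +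
      N * (Real.log 2 + L) < 9 / 10 * L' - (2 * N + 1) * Real.log k := by
  have hk' : (24 : ℝ) ≤ k := by exact_mod_cast hk
  have hl := Fin_log hk
  have h2 := Real.log_two_gt_d9
  have h3 := Real.log_two_lt_d9
  have h4 := Fin_log4
  have hlk := Fin_logk hk
  have hN0 : (0 : ℝ) ≤ N := Nat.cast_nonneg N
  norm_num at hl h2 h3
  have hL1 : 124 ≤ L := by linarith
  have hL' : 2356 ≤ L' := by linarith
  have hNL : (N : ℝ) * L ≤ 22 / 38 * L' := by linarith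
  have hN1 : (N : ℝ) * 124 ≤ N * L := mul_le_mul_of_nonneg_left hL1 hN0
  have hN2 : Real.log ((N : ℝ) + 1) ≤ N := by
    have := Real.log_le_sub_one_of_pos (show (0 : ℝ) < N + 1 by linarith)
    linarith
  have hN3 : (N : ℝ) * Real.log 2 ≤ N * 0.6932 := mul_le_mul_of_nonneg_left (by linarith) hN0
  have hN4 : (N : ℝ) * Real.log (4 * k * (k + 1)) ≤ N * (5 / 2 * Real.log k) :=
    mul_le_mul_of_nonneg_left hlk hN0
  have hN5 : (N : ℝ) * (40 * Real.log k) ≤ N * L := mul_le_mul_of_nonneg_left hL hN0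
  have hd : (Real.log 4 + L + L') / k ≤ (Real.log 4 + L + L') / 24 := by
    apply div_le_div_of_nonneg_left _ (by norm_num) hk'
    linarith
  have e1 : (N : ℝ) * (Real.log 2 + L) = N * Real.log 2 + N * L := by ring
  have e2 : (2 * (N : ℝ) + 1) * Real.log k = 2 * (N * Real.log k) + Real.log k := by ring
  rw [e1, e2]
  linarith

/-- PROOF: `n = ⌈(L'/L - 1)/2⌉₊`. -/
theorem exists_index {L L' : ℝ} (hL : 0 < L) (hLL : 19 * L ≤ L') :
    ∃ n : ℕ, L' ≤ (2 * n + 1) * L ∧ (2 * (n : ℝ) - 1) * L < L' := by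
  have h1 : 19 ≤ L' / L := by
    rw [le_div_iff₀ hL]
    exact hLL
  refine ⟨⌈(L' / L - 1) / 2⌉₊, ?_, ?_⟩
  · have h2 := Nat.le_ceil ((L' / L - 1) / 2)
    rw [← div_le_iff₀ hL]
    linarith
  · have h2 := Nat.ceil_lt_add_one (show 0 ≤ (L' / L - 1) / 2 by linarith)
    rw [← lt_div_iff₀ hL]
    linarith

end Pool.MP_a95293_nt.RC
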