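import Pool.Agent.Lib_MP_a95293_rc.Defs

/-!
# Piece LOCA: power equations modulo a prime
-/

set_option autoImplicit false

namespace Pool.MP_a95293_nt.RC

open Finset

/-- PROOF: let `G = (ZMod ℓ)ˣ`, cyclic of order `ℓ - 1`. If `y0` is in the set (else it is empty; note `κ ≠ 0` then), `y ↦ y / y0` maps the set
into the subgroup `K = {u | u^e = 1}` of `G`, `K ≠ ⊤` (if `K = ⊤` then `ℓ - 1 ∣ e`: `IsCyclic.exponent_eq_card`, `Monoid.exponent_dvd_iff_forall_pow_eq_one`,
`ZMod.card_units`), so `2 |K| ≤ |G|` (`Subgroup.card_mul_index`, index `≥ 2`). -/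
theorem pow_card {l : ℕ} [Fact l.Prime] {e : ℕ} (he : ¬ (l - 1) ∣ e) (κ : ZMod l) :
    2 * (univ.filter fun y : ZMod l => y ≠ 0 ∧ y ^ e = κ).card ≤ l := by
  obtain ⟨g, hg⟩ : ∃ g : (ZMod l)ˣ, g ^ e ≠ 1 := by
    by_contra hc
    push Not at hc
    apply he
    have h1 : Monoid.exponent (ZMod l)ˣ ∣ e := Monoid.exponent_dvd_iff_forall_pow_eq_one.2 hc
    rwa [IsCyclic.exponent_eq_card, Nat.card_eq_fintype_card, ZMod.card_units] at h1
  set A := univ.filter fun y : ZMod l => y ≠ 0 ∧ y ^ e = κ with hA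
  set B := A.image fun y => (g : ZMod l) * y with hB
  have hcard : B.card = A.card := card_image_of_injective _ fun x y h => g.isUnit.mul_left_cancel h
  have hdis : Disjoint A B := by
    rw [disjoint_left]
    intro y hy hyB
    rw [hB, mem_image] at hyB
    obtain ⟨x, hx, rfl⟩ := hyB
    rw [hA, mem_filter] at hy hx
    have h1 := hy.2.2
    rw [mul_pow, hx.2.2] at h1
    have hκ : κ ≠ 0 := by
      rw [← hx.2.2]
      exact pow_ne_zero _ hx.2.1
    have h2 : (g : ZMod l) ^ e = 1 := mul_right_cancel₀ hκ (by rw [h1, one_mul])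
    apply hg
    apply Units.ext
    rw [Units.val_pow_eq_pow_val, h2, Units.val_one]
  have h3 : (A ∪ B).card ≤ l := by
    refine (card_le_univ _).trans (le_of_eq (ZMod.card l))
  rw [card_union_of_disjoint hdis, hcard] at h3
  omega

end Pool.MP_a95293_nt.RC
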