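import Pool.Agent.Lib_MP_a95293_rc.LocA
import Pool.Agent.Lib_MP_a95293_rc.LocC

/-!
# Piece LOCB: admissible classes for one choice of the data
-/

set_option autoImplicit false

namespace Pool.MP_a95293_nt.RC

open Finset

/-- `∏_{q ∈ S, σ q = i} q^(f q)` -/
def prt (S : Finset ℕ) (σ f : ℕ → ℕ) (i : ℕ) : ℕ := ∏ q ∈ S.filter (fun q => σ q = i), q ^ f q

/-- the equation `A_0 + A_1 = A_2` modulo `l`, with an additional factor `y^e` on the side `t` -/
def Eqn (S : Finset ℕ) (σ f : ℕ → ℕ) (t e y l : ℕ) : Prop :=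
  ((prt S σ f 0 : ZMod l) * (if t = 0 then (y : ZMod l) ^ e else 1)) +
    (prt S σ f 1 : ZMod l) * (if t = 1 then (y : ZMod l) ^ e else 1) =
    (prt S σ f 2 : ZMod l) * (if t = 2 then (y : ZMod l) ^ e else 1)

/-- the admissible classes for one choice of the data -/
noncomputable def Cls (L S : Finset ℕ) (σ f : ℕ → ℕ) (t e : ℕ) : Finset ℕ :=
  open Classical in
  (range (∏ l ∈ L, l)).filter fun y => ∀ l ∈ L, l ∉ S → ¬ l ∣ y ∧ Eqn S σ f t e y l

private theorem LocB_eqn_mod (S : Finset ℕ) (σ f : ℕ → ℕ) (t e y l : ℕ) :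
    Eqn S σ f t e (y % l) l ↔ Eqn S σ f t e y l := by
  unfold Eqn
  rw [ZMod.natCast_mod]

private theorem LocB_prt {S : Finset ℕ} {l : ℕ} (hl : l.Prime) (hS : ∀ q ∈ S, q.Prime) (hlS : l ∉ S)
    (σ f : ℕ → ℕ) (i : ℕ) : (prt S σ f i : ZMod l) ≠ 0 := by
  have := Fact.mk hl
  rw [Ne, ZMod.natCast_eq_zero_iff]
  unfold prt
  intro h
  rw [(Nat.Prime.prime hl).dvd_finsetProd_iff] at h
  obtain ⟨q, hq, hlq⟩ := h
  rw [mem_filter] at hq
  have h1 := hl.dvd_of_dvd_pow hlq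
  rw [Nat.prime_dvd_prime_iff_eq hl (hS q hq.1)] at h1
  exact hlS (h1 ▸ hq.1)

private theorem LocB_kappa {S : Finset ℕ} {l : ℕ} (hl : l.Prime) (hS : ∀ q ∈ S, q.Prime) (hlS : l ∉ S)
    (σ f : ℕ → ℕ) {t : ℕ} (ht : t < 3) (e : ℕ) :
    ∃ κ : ZMod l, ∀ y : ℕ, Eqn S σ f t e y l → (y : ZMod l) ^ e = κ := by
  have := Fact.mk hl
  have h0 := LocB_prt hl hS hlS σ f 0
  have h1 := LocB_prt hl hS hlS σ f 1
  have h2 := LocB_prt hl hS hlS σ f 2
  obtain rfl | rfl | rfl : t = 0 ∨ t = 1 ∨ t = 2 := by omega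
  · refine ⟨((prt S σ f 2 : ZMod l) - prt S σ f 1) / prt S σ f 0, fun y hy => ?_⟩
    unfold Eqn at hy
    simp only [if_true, zero_ne_one, if_false, mul_one, (by norm_num : ¬ (0 : ℕ) = 2)] at hy
    rw [eq_div_iff h0]
    linear_combination hy
  · refine ⟨((prt S σ f 2 : ZMod l) - prt S σ f 0) / prt S σ f 1, fun y hy => ?_⟩
    unfold Eqn at hy
    simp only [if_true, one_ne_zero, if_false, mul_one, (by norm_num : ¬ (1 : ℕ) = 2)] at hy
    rw [eq_div_iff h1]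
    linear_combination hy
  · refine ⟨((prt S σ f 0 : ZMod l) + prt S σ f 1) / prt S σ f 2, fun y hy => ?_⟩
    unfold Eqn at hy
    simp only [if_true, if_false, mul_one, (by norm_num : ¬ (2 : ℕ) = 0),
      (by norm_num : ¬ (2 : ℕ) = 1)] at hy
    rw [eq_div_iff h2]
    linear_combination -hy

/-- PROOF: `crt_half` with `K l = {y < l | l ∉ S → ¬ l ∣ y ∧ Eqn S σ f t e y l}` and `G = {l ∈ L | l ∉ S ∧ ¬ (l - 1) ∣ e}` (the conditions depend only on
`y % l`: `ZMod.natCast_mod`, `Nat.dvd_mod_iff`). For `l ∈ G`: the primes `q ∈ S` are units modulo `l`, so all `prt S σ f i ≠ 0` in `ZMod l`; in each of the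
three cases `t = 0, 1, 2` the equation says `y^e = κ` for a fixed `κ`, so `2 |K l| ≤ l` by `pow_card` (`K l` injects into `ZMod l`). -/
theorem cls_card (L S : Finset ℕ) (hL : ∀ l ∈ L, l.Prime) (hS : ∀ q ∈ S, q.Prime) (σ f : ℕ → ℕ) (t e : ℕ)
    (ht : t < 3) :
    (Cls L S σ f t e).card * 2 ^ (L.filter fun l => l ∉ S ∧ ¬ (l - 1) ∣ e).card ≤ ∏ l ∈ L, l := by
  classical
  set K : ℕ → Finset ℕ := fun l => (range l).filter fun y => l ∉ S → ¬ l ∣ y ∧ Eqn S σ f t e y l with hK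
  set G := L.filter fun l => l ∉ S ∧ ¬ (l - 1) ∣ e with hG
  have h1 : Cls L S σ f t e ⊆ (range (∏ l ∈ L, l)).filter fun y => ∀ l ∈ L, y % l ∈ K l := by
    intro y hy
    unfold Cls at hy
    rw [mem_filter] at hy ⊢
    refine ⟨hy.1, fun l hl => ?_⟩
    rw [hK]
    simp only [mem_filter, mem_range]
    refine ⟨Nat.mod_lt _ (hL l hl).pos, fun hlS => ?_⟩
    obtain ⟨a, b⟩ := hy.2 l hl hlS
    refine ⟨fun h => a ((Nat.dvd_mod_iff (dvd_refl l)).1 h), ?_⟩
    rw [LocB_eqn_mod]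
    exact b
  refine (Nat.mul_le_mul_right _ (card_le_card h1)).trans ?_
  apply crt_half L G hL (filter_subset _ _) K
  · intro l _
    exact (card_filter_le _ _).trans (le_of_eq (card_range l))
  · intro l hl
    rw [hG, mem_filter] at hl
    obtain ⟨hlL, hlS, hle⟩ := hl
    have hlp := hL l hlL
    have := Fact.mk hlp
    obtain ⟨κ, hκ⟩ := LocB_kappa hlp hS hlS σ f ht e
    refine le_trans (Nat.mul_le_mul_left 2 ?_) (pow_card hle κ)
    refine card_le_card_of_injOn (fun y : ℕ => (y : ZMod l)) ?_ ?_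
    · intro y hy
      have hy' := mem_coe.1 hy
      rw [hK] at hy'
      simp only [mem_filter, mem_range] at hy'
      obtain ⟨a, b⟩ := hy'.2 hlS
      refine mem_coe.2 (mem_filter.2 ⟨mem_univ _, ?_, hκ y b⟩)
      rwa [Ne, ZMod.natCast_eq_zero_iff]
    · intro y hy y' hy' h
      have h3 := mem_coe.1 hy
      have h4 := mem_coe.1 hy'
      rw [hK] at h3 h4
      simp only [mem_filter, mem_range] at h3 h4
      exact Nat.ModEq.eq_of_lt_of_lt ((ZMod.natCast_eq_natCast_iff _ _ _).1 h) h3.1 h4.1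

end Pool.MP_a95293_nt.RC
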