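import Pool.Agent.Lib_MP_a95293_rc.PadeD

/-!
# Piece LTE: lifting the exponent, divisibility and size of the Padé form
-/

set_option autoImplicit false

namespace Pool.MP_a95293_nt.RC

open Finset

/-- PROOF: `p` does not divide `s` and `p ∣ s - t`. For odd `p`: `Int.emultiplicity_pow_sub_pow` (Mathlib.NumberTheory.Multiplicity):
`emultiplicity p (s^k - t^k) = emultiplicity p (s - t) + emultiplicity p k = emultiplicity p (k (s - t))` (`emultiplicity_mul` for a prime);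
for `p = 2`: `Int.two_pow_sub_pow'`. Then `pow_dvd_iff_le_emultiplicity`. -/
theorem lte {p : ℕ} (hp : p.Prime) {k m : ℕ} (hk : 1 ≤ k) {s t : ℤ} (hs : ¬ (p : ℤ) ∣ s)
    (h : (p : ℤ) ∣ s - t) (h2 : p = 2 → (4 : ℤ) ∣ s - t) (hm : (p : ℤ) ^ m ∣ s ^ k - t ^ k) :
    (p : ℤ) ^ m ∣ k * (s - t) := by
  have hpp := Nat.prime_iff_prime_int.1 hp
  have key : emultiplicity (p : ℤ) (s ^ k - t ^ k) = emultiplicity (p : ℤ) ((k : ℤ) * (s - t)) := by
    rw [emultiplicity_mul hpp, Int.natCast_emultiplicity, add_comm (emultiplicity p k)]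
    rcases hp.eq_two_or_odd' with h3 | h3
    · have h5 := Int.two_pow_sub_pow' k (h2 h3) (by rw [h3] at hs; exact_mod_cast hs)
      rw [← Int.natCast_emultiplicity, h3]
      exact_mod_cast h5
    · exact Int.emultiplicity_pow_sub_pow hp h3 h hs k
  rw [pow_dvd_iff_le_emultiplicity] at hm ⊢
  rw [← key]
  exact hm

/-- PROOF: `lte` and `k = p ^ v k'` with `p ∤ k'` (`Nat.ordProj_mul_ordCompl_eq_self`), `v = k.factorization p`. -/
theorem lte2 {p : ℕ} (hp : p.Prime) {k m : ℕ} (hk : 1 ≤ k) {s t : ℤ} (hs : ¬ (p : ℤ) ∣ s)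
    (h : (p : ℤ) ∣ s - t) (h2 : p = 2 → (4 : ℤ) ∣ s - t) (hm : (p : ℤ) ^ m ∣ s ^ k - t ^ k) :
    (p : ℤ) ^ (m - k.factorization p) ∣ s - t := by
  have h3 := lte hp hk hs h h2 hm
  have hpp := Nat.prime_iff_prime_int.1 hp
  set v := k.factorization p with hv
  have h4 : p ^ v * (k / p ^ v) = k := Nat.ordProj_mul_ordCompl_eq_self k p
  have h5 : ¬ p ∣ k / p ^ v := Nat.not_dvd_ordCompl hp (by omega)
  have h6 : IsCoprime ((p : ℤ) ^ m) ((k / p ^ v : ℕ) : ℤ) := by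
    apply IsCoprime.pow_left
    rw [Prime.coprime_iff_not_dvd hpp]
    exact_mod_cast h5
  have h7 : (p : ℤ) ^ m ∣ (p : ℤ) ^ v * (s - t) := by
    apply h6.dvd_of_dvd_mul_left
    have h8 : ((k / p ^ v : ℕ) : ℤ) * ((p : ℤ) ^ v * (s - t)) = k * (s - t) := by
      have h9 : ((p : ℤ) ^ v) * ((k / p ^ v : ℕ) : ℤ) = k := by exact_mod_cast h4
      rw [← h9]
      ring
    rw [h8]
    exact h3
  rcases le_total m v with h8 | h8
  · rw [Nat.sub_eq_zero_of_le h8, pow_zero]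
    exact one_dvd _
  · have h9 : (p : ℤ) ^ m = (p : ℤ) ^ v * (p : ℤ) ^ (m - v) := by
      rw [← pow_add]
      congr 1
      omega
    rw [h9] at h7
    exact (mul_dvd_mul_iff_left (pow_ne_zero _ hpp.ne_zero)).1 h7

theorem fA_smul (k n : ℕ) (c u v : ℤ) : fA k n (c * u) (c * v) = c ^ n * fA k n u v := by
  unfold fA
  rw [mul_sum]
  refine sum_congr rfl fun i hi => ?_
  rw [mem_range] at hi
  have h1 : c ^ n = c ^ i * c ^ (n - i) := by
    rw [← pow_add]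
    congr 1
    omega
  rw [h1, mul_pow, mul_pow]
  ring

theorem fA_modEq (k n : ℕ) {m u v u' v' : ℤ} (hu : u ≡ u' [ZMOD m]) (hv : v ≡ v' [ZMOD m]) :
    fA k n u v ≡ fA k n u' v' [ZMOD m] := by
  unfold fA
  rw [Int.modEq_iff_dvd, ← sum_sub_distrib]
  refine dvd_sum fun i _ => ?_
  exact (((Int.ModEq.refl _).mul (hu.pow i)).mul (hv.pow (n - i))).dvd

/-- PROOF: put `s = x y'`, `t = x' y`, `u = α x^k`, `v = β y^k`. Modulo `p^a`: `β s^k = x^k (β y'^k) ≡ x^k (α x'^k) = x'^k u`, and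
`β t^k = x'^k v`. By `fA_smul`, `fA_modEq` (for `fA` and `fB`), modulo `p^a`:
`(x'^k)^n Lam k n s t u v = Lam k n s t (x'^k u) (x'^k v) ≡ Lam k n s t (β s^k) (β t^k) = β^n Lam k n s t (s^k) (t^k)`, which is divisible by
`(s - t)^(2n+1)` (`pad_dvd`), so by `p^((2n+1) b)`. `x'` is prime to `p`. -/
theorem Lam_dvd {p : ℕ} (hp : p.Prime) (k n : ℕ) (hk : 2 ≤ k) {α β x y x' y' : ℤ} {a b : ℕ}
    (hx' : ¬ (p : ℤ) ∣ x') (h1 : (p : ℤ) ^ a ∣ α * x' ^ k - β * y' ^ k)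
    (h2 : (p : ℤ) ^ b ∣ x * y' - x' * y) :
    (p : ℤ) ^ (min a ((2 * n + 1) * b)) ∣ Lam k n (x * y') (x' * y) (α * x ^ k) (β * y ^ k) := by
  set M := (p : ℤ) ^ (min a ((2 * n + 1) * b)) with hM
  have hpp := Nat.prime_iff_prime_int.1 hp
  have hMa : M ∣ (p : ℤ) ^ a := pow_dvd_pow _ (min_le_left _ _)
  have hMb : M ∣ (p : ℤ) ^ ((2 * n + 1) * b) := pow_dvd_pow _ (min_le_right _ _)
  have hu : x' ^ k * (α * x ^ k) ≡ β * (x * y') ^ k [ZMOD M] := by
    rw [Int.modEq_iff_dvd]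
    have : β * (x * y') ^ k - x' ^ k * (α * x ^ k) = - x ^ k * (α * x' ^ k - β * y' ^ k) := by
      rw [mul_pow]
      ring
    rw [this]
    exact (hMa.trans h1).mul_left _
  have hv : x' ^ k * (β * y ^ k) ≡ β * (x' * y) ^ k [ZMOD M] := by
    rw [mul_pow, show x' ^ k * (β * y ^ k) = β * (x' ^ k * y ^ k) by ring]
  have h3 : (x' ^ k) ^ n * Lam k n (x * y') (x' * y) (α * x ^ k) (β * y ^ k) ≡
      β ^ n * Lam k n (x * y') (x' * y) ((x * y') ^ k) ((x' * y) ^ k) [ZMOD M] := by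
    unfold Lam fB
    have e1 := fA_modEq k n hu hv
    have e2 := fA_modEq k n hv hu
    rw [fA_smul, fA_smul] at e1 e2
    have e3 := ((Int.ModEq.refl (x' * y)).mul e1).sub ((Int.ModEq.refl (x * y')).mul e2)
    have e4 : (x' ^ k) ^ n * (x' * y * fA k n (α * x ^ k) (β * y ^ k) -
        x * y' * fA k n (β * y ^ k) (α * x ^ k)) =
        x' * y * ((x' ^ k) ^ n * fA k n (α * x ^ k) (β * y ^ k)) -
        x * y' * ((x' ^ k) ^ n * fA k n (β * y ^ k) (α * x ^ k)) := by ring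
    have e5 : β ^ n * (x' * y * fA k n ((x * y') ^ k) ((x' * y) ^ k) -
        x * y' * fA k n ((x' * y) ^ k) ((x * y') ^ k)) =
        x' * y * (β ^ n * fA k n ((x * y') ^ k) ((x' * y) ^ k)) -
        x * y' * (β ^ n * fA k n ((x' * y) ^ k) ((x * y') ^ k)) := by ring
    rw [e4, e5]
    exact e3
  have h4 : M ∣ β ^ n * Lam k n (x * y') (x' * y) ((x * y') ^ k) ((x' * y) ^ k) := by
    refine Dvd.dvd.mul_left ?_ _
    refine Dvd.dvd.trans ?_ (pad_dvd k n hk (x * y') (x' * y))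
    refine hMb.trans ?_
    rw [mul_comm, pow_mul]
    exact pow_dvd_pow_of_dvd h2 _
  have h5 : M ∣ (x' ^ k) ^ n * Lam k n (x * y') (x' * y) (α * x ^ k) (β * y ^ k) :=
    (h3.dvd_iff).2 h4
  have h6 : IsCoprime M ((x' ^ k) ^ n) := by
    rw [hM]
    exact (((Prime.coprime_iff_not_dvd hpp).2 hx').pow_left).pow_right.pow_right
  exact h6.dvd_of_dvd_mul_left h5

/-- PROOF: `cf_le` termwise. -/
theorem fA_abs_le (k n : ℕ) (hk : 2 ≤ k) {u v : ℤ} {B : ℕ} (hu : |u| ≤ B) (hv : |v| ≤ B) :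
    |fA k n u v| ≤ ((n + 1) * (4 * k * (k + 1)) ^ n * B ^ n : ℕ) := by
  unfold fA
  have hB : (0 : ℤ) ≤ B := Nat.cast_nonneg _
  have h1 : ∀ i ∈ range (n + 1), |(cf k n i : ℤ) * u ^ i * v ^ (n - i)| ≤
      (((4 * k * (k + 1)) ^ n * B ^ n : ℕ) : ℤ) := by
    intro i hi
    rw [mem_range] at hi
    rw [abs_mul, abs_mul, abs_pow, abs_pow, abs_of_nonneg (Int.natCast_nonneg _)]
    have e1 : (B : ℤ) ^ n = (B : ℤ) ^ i * (B : ℤ) ^ (n - i) := by
      rw [← pow_add]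
      congr 1
      omega
    have e2 : ((cf k n i : ℕ) : ℤ) ≤ (4 * k * (k + 1)) ^ n := by
      exact_mod_cast cf_le k n i hk (by omega)
    push_cast
    rw [e1, ← mul_assoc]
    refine mul_le_mul (mul_le_mul e2 ?_ (by positivity) (by positivity)) ?_ (by positivity)
      (by positivity)
    · exact pow_le_pow_left₀ (abs_nonneg _) hu i
    · exact pow_le_pow_left₀ (abs_nonneg _) hv _
  refine (abs_sum_le_sum_abs _ _).trans ((sum_le_sum h1).trans ?_)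
  rw [sum_const, card_range, nsmul_eq_mul]
  push_cast
  apply le_of_eq
  ring

theorem Lam_abs_le (k n : ℕ) (hk : 2 ≤ k) {s t u v : ℤ} {B : ℕ} {S : ℝ} (hs : |(s : ℝ)| ≤ S) (ht : |(t : ℝ)| ≤ S)
    (hu : |u| ≤ B) (hv : |v| ≤ B) :
    |((Lam k n s t u v : ℤ) : ℝ)| ≤ 2 * S * ((n + 1) * (4 * k * (k + 1)) ^ n * B ^ n) := by
  have hA : |((fA k n u v : ℤ) : ℝ)| ≤ (n + 1) * (4 * k * (k + 1)) ^ n * B ^ n := by
    exact_mod_cast fA_abs_le k n hk hu hv
  have hB : |((fA k n v u : ℤ) : ℝ)| ≤ (n + 1) * (4 * k * (k + 1)) ^ n * B ^ n := by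
    exact_mod_cast fA_abs_le k n hk hv hu
  have hS : 0 ≤ S := (abs_nonneg _).trans hs
  unfold Lam fB
  push_cast
  refine (abs_sub _ _).trans ?_
  rw [abs_mul, abs_mul]
  have h1 := mul_le_mul ht hA (abs_nonneg _) hS
  have h2 := mul_le_mul hs hB (abs_nonneg _) hS
  linarith

end Pool.MP_a95293_nt.RC
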