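import Pool.Agent.Lib_MP_a95293_rc.ParZ

/-!
# Piece PARB: the second term
-/

set_option autoImplicit false

namespace Pool.MP_a95293_nt.RC

open Finset

/-- `c z / log z ≤ ℓ ≤ z` is the number of moduli.
PROOF: `h = ℓ / w - w ≥ c z^(1 - δ/3) / log z - 1 - z^(δ/3) ≥ z^(1 - δ/2)` for large `Λ`, and
`log ((3 N)^w) ≤ w (log 3 + y log z) ≤ z^(δ/3) (2 + z^(1-δ) log z) = o(z^(1 - δ/2))`, `(w+1) log C₀`, `log (2 (1 + Λ))`, `Λ^(δ/10) ≤ (2 z)^(3 δ/10)` are also
`o(z^(1 - δ/2))` (`Λ^(1/3) ≤ z + 1`). `w * (h + w) ≤ ℓ`: `h + w = ℓ / w` because `w ≤ ℓ / w` for large `Λ`; `Nat.mul_div_le`. -/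
theorem par_two (C₀ : ℕ) (hC : 1 ≤ C₀) (δ c : ℝ) (hδ : 0 < δ) (hδ1 : δ ≤ 1 / 4) (hc : 0 < c) : ∀ᶠ Λ : ℝ in Filter.atTop,
    ∀ l N : ℕ, c * zz Λ / Real.log (zz Λ) ≤ l → N ≤ zz Λ ^ yy δ Λ →
      ww δ Λ * ((l / ww δ Λ - ww δ Λ) + ww δ Λ) ≤ l ∧
      (C₀ : ℝ) ^ (ww δ Λ + 1) * (2 * (3 * N) ^ ww δ Λ / 2 ^ (l / ww δ Λ - ww δ Λ) * (1 + Λ)) ≤
        1 / 3 * Real.exp (-(Λ ^ (δ / 10))) := by
  have hz : Filter.Tendsto (fun Λ => (zz Λ : ℝ)) Filter.atTop Filter.atTop :=
    tendsto_natCast_atTop_atTop.comp zz_tendsto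
  set K := 2 / c * (2 * Real.log C₀ + 11) with hK
  have hlC : 0 ≤ Real.log C₀ := Real.log_natCast_nonneg C₀
  filter_upwards [hz.eventually (par_log 1 (δ / 12) (by linarith)),
    hz.eventually (par_ev K (1 - 7 * δ / 12) (1 - 5 * δ / 12) (by linarith)),
    hz.eventually (par_ev (1 / c) (2 * δ / 3) (1 - δ / 12) (by linarith)),
    hz.eventually (Filter.eventually_ge_atTop 2), zz_ge, ww_ge hδ hδ1,
    par_log 1 (1 / 12) (by norm_num), par_ev 4 0 (δ / 9) (by linarith),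
    Filter.eventually_ge_atTop 1] with Λ g1 g2 g3 g4 g5 g6 g7 g8 g9 l N hl hN
  rw [Real.rpow_zero, mul_one] at g8
  rw [one_mul] at g1 g7
  set z : ℝ := (zz Λ : ℝ) with hzd
  have hz0 : 0 < z := by linarith
  have hz1 : 1 ≤ z := by linarith
  have hlz : 0 < Real.log z := Real.log_pos (by linarith)
  have hlz1 : Real.log z ≤ z ^ (δ / 12) := (Real.log_le_log hz0 (by linarith)).trans g1
  set w : ℝ := (ww δ Λ : ℝ) with hwd
  have hw1 : 1 ≤ w := by linarith
  have hw1' : 1 ≤ ww δ Λ := by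
    have e0 := hw1
    rw [hwd] at e0
    exact_mod_cast e0
  have hwz : w ≤ z ^ (δ / 3) := ww_le_z
  -- the lower bound for l
  have hl2 : c * z ^ (1 - δ / 12) ≤ l := by
    refine le_trans ?_ hl
    rw [le_div_iff₀ hlz]
    have e1 : z = z ^ (1 - δ / 12) * z ^ (δ / 12) := by
      rw [← Real.rpow_add hz0, sub_add_cancel, Real.rpow_one]
    calc c * z ^ (1 - δ / 12) * Real.log z ≤ c * z ^ (1 - δ / 12) * z ^ (δ / 12) :=
          mul_le_mul_of_nonneg_left hlz1 (by positivity)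
      _ = c * (z ^ (1 - δ / 12) * z ^ (δ / 12)) := by ring
      _ = c * z := by rw [← e1]
  have hww : w * w ≤ l := by
    have e1 : w * w ≤ z ^ (2 * δ / 3) := by
      have e2 : z ^ (2 * δ / 3) = z ^ (δ / 3) * z ^ (δ / 3) := by
        rw [← Real.rpow_add hz0]
        congr 1
        ring
      rw [e2]
      exact mul_le_mul hwz hwz (by linarith) (by positivity)
    have e3 : z ^ (2 * δ / 3) ≤ c * z ^ (1 - δ / 12) := by
      have e4 := mul_le_mul_of_nonneg_left g3 hc.le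
      rw [← mul_assoc, mul_one_div_cancel hc.ne', one_mul] at e4
      exact e4
    linarith
  have hww' : ww δ Λ ≤ l / ww δ Λ := by
    rw [Nat.le_div_iff_mul_le hw1']
    have e0 := hww
    rw [hwd] at e0
    exact_mod_cast e0
  refine ⟨?_, ?_⟩
  · rw [Nat.sub_add_cancel hww']
    exact Nat.mul_div_le l _
  set h : ℕ := l / ww δ Λ - ww δ Λ with hh
  -- lower bound for h
  have hh1 : (l : ℝ) / w - 1 - w ≤ h := by
    have e1 : ((l / ww δ Λ : ℕ) : ℝ) ≤ h + w := by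
      have : l / ww δ Λ ≤ h + ww δ Λ := by omega
      rw [hwd]
      exact_mod_cast this
    have e2 := Nat.lt_floor_add_one ((l : ℝ) / w)
    rw [hwd, Nat.floor_div_natCast, Nat.floor_natCast, ← hwd] at e2
    linarith
  have hh2 : c * z ^ (1 - 5 * δ / 12) ≤ l / w := by
    rw [le_div_iff₀ (by linarith)]
    refine le_trans ?_ hl2
    have e1 : z ^ (1 - δ / 12) = z ^ (1 - 5 * δ / 12) * z ^ (δ / 3) := by
      rw [← Real.rpow_add hz0]
      congr 1
      ring
    rw [e1, ← mul_assoc]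
    exact mul_le_mul_of_nonneg_left hwz (by positivity)
  -- the small terms
  set T := z ^ (1 / 4 : ℝ) with hT
  have hT1 : 1 ≤ T := Real.one_le_rpow hz1 (by norm_num)
  set M := z ^ (1 - 7 * δ / 12) with hM
  have hTM : T ≤ M := Real.rpow_le_rpow_of_exponent_le hz1 (by linarith)
  have hwT : w ≤ T := hwz.trans (Real.rpow_le_rpow_of_exponent_le hz1 (by linarith))
  have hΛT : Λ ^ (1 / 12 : ℝ) ≤ 2 * T := by
    have e1 : Λ ^ (1 / 3 : ℝ) ≤ 2 * z := by linarith
    calc Λ ^ (1 / 12 : ℝ) = (Λ ^ (1 / 3 : ℝ)) ^ (1 / 4 : ℝ) := by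
          rw [← Real.rpow_mul (by linarith)]
          norm_num
      _ ≤ (2 * z) ^ (1 / 4 : ℝ) := Real.rpow_le_rpow (by positivity) e1 (by norm_num)
      _ = 2 ^ (1 / 4 : ℝ) * T := Real.mul_rpow (by norm_num) hz0.le
      _ ≤ 2 ^ (1 : ℝ) * T := mul_le_mul_of_nonneg_right
          (Real.rpow_le_rpow_of_exponent_le (by norm_num) (by norm_num)) (by linarith)
      _ = 2 * T := by rw [Real.rpow_one]
  have hΛδ : Λ ^ (δ / 10) ≤ 2 * T :=
    (Real.rpow_le_rpow_of_exponent_le g9 (by linarith)).trans hΛT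
  have hyz : (yy δ Λ : ℝ) ≤ z ^ (1 - δ) := Nat.floor_le (by positivity)
  have hwy : w * ((yy δ Λ : ℝ) * Real.log z) ≤ M := by
    calc w * ((yy δ Λ : ℝ) * Real.log z) ≤ z ^ (δ / 3) * (z ^ (1 - δ) * z ^ (δ / 12)) := by
          refine mul_le_mul hwz ?_ (by positivity) (by positivity)
          exact mul_le_mul hyz hlz1 hlz.le (by positivity)
      _ = M := by
          rw [← Real.rpow_add hz0, ← Real.rpow_add hz0, hM]
          congr 1
          ring
  have hl2' := Real.log_two_gt_d9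
  have hl2'' := Real.log_two_lt_d9
  have hl3 : Real.log 3 ≤ 2 := by
    have := Real.log_le_sub_one_of_pos (show (0 : ℝ) < 3 by norm_num)
    linarith
  have hmain : (w + 1) * Real.log C₀ + (Real.log 2 + w * (Real.log 3 + (yy δ Λ : ℝ) * Real.log z) -
      h * Real.log 2 + Real.log (1 + Λ)) ≤ -2 + -(Λ ^ (δ / 10)) := by
    have e1 : (w + 1) * Real.log C₀ ≤ 2 * T * Real.log C₀ :=
      mul_le_mul_of_nonneg_right (by linarith) hlC
    have e2 : w * Real.log 3 ≤ T * 2 :=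
      mul_le_mul hwT hl3 (Real.log_nonneg (by norm_num)) (by linarith)
    have e3 : (h : ℝ) * (1 / 2) ≤ h * Real.log 2 :=
      mul_le_mul_of_nonneg_left (by linarith) (Nat.cast_nonneg h)
    have e4 : (2 * Real.log C₀ + 11) * M ≤ c / 2 * z ^ (1 - 5 * δ / 12) := by
      have e5 := mul_le_mul_of_nonneg_left g2 (show 0 ≤ c / 2 by linarith)
      have e6 : c / 2 * (K * M) = (2 * Real.log C₀ + 11) * M := by
        rw [hK]
        field_simp
      rw [e6] at e5
      exact e5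
    have e7 : 2 * T * Real.log C₀ ≤ 2 * Real.log C₀ * M := by
      have := mul_le_mul_of_nonneg_right hTM hlC
      linarith
    have e8 : w * (Real.log 3 + (yy δ Λ : ℝ) * Real.log z) =
        w * Real.log 3 + w * ((yy δ Λ : ℝ) * Real.log z) := by ring
    rw [e8]
    linarith
  have e2 : ∀ m : ℕ, (2 : ℝ) ^ m = Real.exp (m * Real.log 2) := by
    intro m
    rw [mul_comm, Real.exp_mul, Real.exp_log (by norm_num), Real.rpow_natCast]
  have hC0 : (0 : ℝ) < C₀ := by exact_mod_cast (by omega : 0 < C₀)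
  have e3 : (C₀ : ℝ) ^ (ww δ Λ + 1) = Real.exp ((w + 1) * Real.log C₀) := by
    rw [mul_comm, Real.exp_mul, Real.exp_log hC0, ← Real.rpow_natCast]
    push_cast
    rfl
  have e4 : ((3 : ℝ) * N) ^ ww δ Λ ≤ Real.exp (w * (Real.log 3 + (yy δ Λ : ℝ) * Real.log z)) := by
    have e5 : (3 : ℝ) * N ≤ 3 * z ^ yy δ Λ := by
      have : (N : ℝ) ≤ z ^ yy δ Λ := by
        rw [hzd]
        exact_mod_cast hN
      linarith
    calc ((3 : ℝ) * N) ^ ww δ Λ ≤ (3 * z ^ yy δ Λ) ^ ww δ Λ := pow_le_pow_left₀ (by positivity) e5 _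
      _ = _ := by
        rw [mul_comm w, Real.exp_mul, Real.exp_add, Real.exp_log (by norm_num),
          mul_comm (yy δ Λ : ℝ), Real.exp_mul, Real.exp_log hz0, Real.rpow_natCast,
          Real.rpow_natCast]
  have e5 : 1 + Λ = Real.exp (Real.log (1 + Λ)) := (Real.exp_log (by linarith)).symm
  calc (C₀ : ℝ) ^ (ww δ Λ + 1) * (2 * (3 * N) ^ ww δ Λ / 2 ^ h * (1 + Λ)) ≤
      Real.exp ((w + 1) * Real.log C₀) * (Real.exp (Real.log 2) *
        Real.exp (w * (Real.log 3 + (yy δ Λ : ℝ) * Real.log z)) / Real.exp (h * Real.log 2) *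
          Real.exp (Real.log (1 + Λ))) := by
        rw [e3, e2 h, ← e5, Real.exp_log (show (0 : ℝ) < 2 by norm_num)]
        apply mul_le_mul_of_nonneg_left _ (Real.exp_pos _).le
        apply mul_le_mul_of_nonneg_right _ (by linarith)
        apply div_le_div_of_nonneg_right _ (Real.exp_pos _).le
        exact mul_le_mul_of_nonneg_left e4 (by norm_num)
    _ = Real.exp ((w + 1) * Real.log C₀ + (Real.log 2 +
          w * (Real.log 3 + (yy δ Λ : ℝ) * Real.log z) - h * Real.log 2 + Real.log (1 + Λ))) := by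
        rw [Real.exp_add, Real.exp_add, Real.exp_sub, Real.exp_add]
    _ ≤ Real.exp (-2 + -(Λ ^ (δ / 10))) := Real.exp_le_exp.2 hmain
    _ = Real.exp (-2) * Real.exp (-(Λ ^ (δ / 10))) := Real.exp_add _ _
    _ ≤ _ := mul_le_mul_of_nonneg_right par_third (Real.exp_pos _).le

end Pool.MP_a95293_nt.RC
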