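import Pool.Agent.Lib_MP_a95293_rc.ParZ

/-!
# Piece PARC: the third term
-/

set_option autoImplicit false

namespace Pool.MP_a95293_nt.RC

open Finset

/-- PROOF: `z ≤ Λ^(1/3)`, `w ≤ Λ^(δ/9)`, so `log ((4^z)^(2 z w)) = 2 z^2 w log 4 ≤ 3 Λ^(2/3 + δ/9)`, `w log (2^11 z)`, `80 log z`, `Λ^(δ/10)` are all `o(Λ)`; the
factor `exp (Λ/2)` leaves `exp (-Λ/2)`. -/
theorem par_three (δ : ℝ) (hδ : 0 < δ) (hδ1 : δ ≤ 1 / 4) : ∀ᶠ Λ : ℝ in Filter.atTop,
    2 * (zz Λ : ℝ) * (2 * (Real.exp (Λ / 2) * ((4 : ℝ) ^ zz Λ) ^ (2 * zz Λ * ww δ Λ) * (2 ^ 11 * (zz Λ : ℝ)) ^ ww δ Λ) +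
      (zz Λ : ℝ) ^ 80) ≤ 1 / 3 * (Real.exp Λ * Real.exp (-(Λ ^ (δ / 10)))) := by
  filter_upwards [par_ev 200 (25 / 36) 1 (by norm_num), Filter.eventually_ge_atTop 1,
    zz_ge, par_ev 2 0 (1 / 3) (by norm_num)] with Λ g1 g2 g3 g4
  rw [Real.rpow_one] at g1
  rw [Real.rpow_zero, mul_one] at g4
  have hΛ0 : 0 < Λ := by linarith
  set z : ℝ := (zz Λ : ℝ) with hzd
  set w : ℝ := (ww δ Λ : ℝ) with hwd
  set T := Λ ^ (25 / 36 : ℝ) with hT
  have hT1 : 1 ≤ T := Real.one_le_rpow g2 (by norm_num)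
  have hz1 : 1 ≤ z := by linarith
  have hz0 : 0 < z := by linarith
  have hzle : z ≤ Λ ^ (1 / 3 : ℝ) := zz_le hΛ0.le
  have hzT : z ≤ T := hzle.trans (Real.rpow_le_rpow_of_exponent_le g2 (by norm_num))
  have hw0 : 0 ≤ w := Nat.cast_nonneg _
  have hwle : w ≤ Λ ^ (1 / 36 : ℝ) :=
    (ww_le hδ hΛ0.le).trans (Real.rpow_le_rpow_of_exponent_le g2 (by linarith))
  have hwT : w ≤ T := hwle.trans (Real.rpow_le_rpow_of_exponent_le g2 (by norm_num))
  have hzw : z * w ≤ T := by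
    calc z * w ≤ Λ ^ (1 / 3 : ℝ) * Λ ^ (1 / 36 : ℝ) := mul_le_mul hzle hwle hw0 (by positivity)
      _ = Λ ^ (1 / 3 + 1 / 36 : ℝ) := (Real.rpow_add hΛ0 _ _).symm
      _ ≤ T := Real.rpow_le_rpow_of_exponent_le g2 (by norm_num)
  have hzzw : z * (z * w) ≤ T := by
    calc z * (z * w) ≤ Λ ^ (1 / 3 : ℝ) * (Λ ^ (1 / 3 : ℝ) * Λ ^ (1 / 36 : ℝ)) := by
          refine mul_le_mul hzle ?_ (by positivity) (by positivity)
          exact mul_le_mul hzle hwle hw0 (by positivity)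
      _ = Λ ^ (25 / 36 : ℝ) := by
          rw [← Real.rpow_add hΛ0, ← Real.rpow_add hΛ0]
          norm_num
      _ = T := rfl
  have hΛδ : Λ ^ (δ / 10) ≤ T := Real.rpow_le_rpow_of_exponent_le g2 (by linarith)
  have hlz : Real.log z ≤ z := by
    have := Real.log_le_sub_one_of_pos hz0
    linarith
  have hlz0 : 0 ≤ Real.log z := Real.log_nonneg hz1
  have hl2 := Real.log_two_lt_d9
  have hl4 : Real.log 4 ≤ 2 := by
    rw [show (4 : ℝ) = 2 ^ 2 by norm_num, Real.log_pow]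
    push_cast
    linarith
  have hl4' : 0 ≤ Real.log 4 := Real.log_nonneg (by norm_num)
  -- exponentials
  have e1 : ((4 : ℝ) ^ zz Λ) ^ (2 * zz Λ * ww δ Λ) = Real.exp (2 * (z * (z * w)) * Real.log 4) := by
    rw [← pow_mul, ← Real.rpow_natCast, mul_comm _ (Real.log 4), Real.exp_mul,
      Real.exp_log (by norm_num)]
    congr 1
    push_cast
    ring
  have e2 : ((2 : ℝ) ^ 11 * z) ^ ww δ Λ ≤ Real.exp (w * (8 + z)) := by
    have e3 : (2 : ℝ) ^ 11 * z ≤ Real.exp (8 + z) := by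
      rw [← Real.log_le_iff_le_exp (by positivity), Real.log_mul (by norm_num) hz0.ne', Real.log_pow]
      push_cast
      linarith
    calc ((2 : ℝ) ^ 11 * z) ^ ww δ Λ ≤ Real.exp (8 + z) ^ ww δ Λ :=
          pow_le_pow_left₀ (by positivity) e3 _
      _ = Real.exp (w * (8 + z)) := by
          rw [mul_comm, Real.exp_mul, hwd, Real.rpow_natCast]
  have e3 : z ^ 80 ≤ Real.exp (80 * z) := by
    have : z ≤ Real.exp z := by
      have := Real.add_one_le_exp z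
      linarith
    calc z ^ 80 ≤ Real.exp z ^ 80 := pow_le_pow_left₀ hz0.le this _
      _ = Real.exp (80 * z) := by
          rw [← Real.exp_nat_mul]
          norm_num
  have e4 : 2 * z ≤ Real.exp (1 + z) := by
    rw [← Real.log_le_iff_le_exp (by positivity), Real.log_mul (by norm_num) hz0.ne']
    linarith
  set A := Λ / 2 + 2 * (z * (z * w)) * Real.log 4 + w * (8 + z) + 80 * z with hA
  have hB1 : 0 ≤ 2 * (z * (z * w)) * Real.log 4 := by positivity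
  have hB2 : 0 ≤ w * (8 + z) := by positivity
  have e5 : 2 * (Real.exp (Λ / 2) * ((4 : ℝ) ^ zz Λ) ^ (2 * zz Λ * ww δ Λ) *
      ((2 : ℝ) ^ 11 * z) ^ ww δ Λ) + z ^ 80 ≤ Real.exp (2 + A) := by
    have f1 : Real.exp (Λ / 2) * ((4 : ℝ) ^ zz Λ) ^ (2 * zz Λ * ww δ Λ) *
        ((2 : ℝ) ^ 11 * z) ^ ww δ Λ ≤ Real.exp A := by
      rw [e1, ← Real.exp_add]
      calc Real.exp (Λ / 2 + 2 * (z * (z * w)) * Real.log 4) * ((2 : ℝ) ^ 11 * z) ^ ww δ Λ ≤
          Real.exp (Λ / 2 + 2 * (z * (z * w)) * Real.log 4) * Real.exp (w * (8 + z)) :=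
            mul_le_mul_of_nonneg_left e2 (Real.exp_pos _).le
        _ = Real.exp (Λ / 2 + 2 * (z * (z * w)) * Real.log 4 + w * (8 + z)) :=
            (Real.exp_add _ _).symm
        _ ≤ Real.exp A := Real.exp_le_exp.2 (by linarith)
    have f2 : z ^ 80 ≤ Real.exp A := e3.trans (Real.exp_le_exp.2 (by linarith))
    have f3 : (3 : ℝ) ≤ Real.exp 2 := by
      have := Real.add_one_le_exp (2 : ℝ)
      linarith
    rw [Real.exp_add]
    have f4 : 3 * Real.exp A ≤ Real.exp 2 * Real.exp A :=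
      mul_le_mul_of_nonneg_right f3 (Real.exp_pos _).le
    linarith
  have e6 : 3 ≤ Real.exp 2 := by
    have := Real.add_one_le_exp (2 : ℝ)
    linarith
  have hfin : 1 + z + (2 + A) ≤ -2 + (Λ + -(Λ ^ (δ / 10))) := by
    have f1 : 2 * (z * (z * w)) * Real.log 4 ≤ 2 * T * 2 :=
      mul_le_mul (by linarith) hl4 hl4' (by linarith)
    have f2 : w * (8 + z) ≤ 8 * T + T := by
      have : w * (8 + z) = 8 * w + z * w := by ring
      rw [this]
      linarith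
    rw [hA]
    linarith
  calc 2 * z * (2 * (Real.exp (Λ / 2) * ((4 : ℝ) ^ zz Λ) ^ (2 * zz Λ * ww δ Λ) *
      (2 ^ 11 * z) ^ ww δ Λ) + z ^ 80) ≤ Real.exp (1 + z) * Real.exp (2 + A) :=
        mul_le_mul e4 e5 (by positivity) (Real.exp_pos _).le
    _ = Real.exp (1 + z + (2 + A)) := (Real.exp_add _ _).symm
    _ ≤ Real.exp (-2 + (Λ + -(Λ ^ (δ / 10)))) := Real.exp_le_exp.2 hfin
    _ = Real.exp (-2) * (Real.exp Λ * Real.exp (-(Λ ^ (δ / 10)))) := by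
        rw [Real.exp_add, Real.exp_add]
    _ ≤ _ := mul_le_mul_of_nonneg_right par_third (by positivity)

end Pool.MP_a95293_nt.RC
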