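import Pool.Agent.Lib_MP_a95293_rc.Defs

/-!
# Piece PARN: the modulus `N`
-/

set_option autoImplicit false

namespace Pool.MP_a95293_nt.RC

open Finset

/-- the product of the largest powers `≤ z` of the primes `≤ y` -/
def NN (z y : ℕ) : ℕ := ∏ q ∈ (Icc 1 y).filter Nat.Prime, q ^ Nat.log q z

theorem NN_pos (z y : ℕ) : 0 < NN z y := by
  unfold NN
  refine prod_pos fun q hq => ?_
  exact Nat.pow_pos (mem_filter.1 hq).2.pos

/-- PROOF: every factor is at most `z` (`Nat.pow_log_le_self`), at most `y` factors. -/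
theorem NN_le (z y : ℕ) (hz : 1 ≤ z) : NN z y ≤ z ^ y := by
  unfold NN
  have h1 : ∏ q ∈ (Icc 1 y).filter Nat.Prime, q ^ Nat.log q z ≤
      ∏ q ∈ (Icc 1 y).filter Nat.Prime, z :=
    prod_le_prod (fun _ _ => Nat.zero_le _) fun q _ => Nat.pow_log_le_self q (by omega)
  refine h1.trans ?_
  rw [prod_const]
  refine Nat.pow_le_pow_right (by omega) ?_
  refine (card_filter_le _ _).trans ?_
  rw [Nat.card_Icc]
  omega

/-- PROOF: `v_q(n) ≤ log_q z` since `q^(v_q(n)) ≤ n ≤ z`; `Nat.factorization_prod_pow_eq_self` and `Finset.prod_dvd_prod_of_subset`, or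
`(Nat.factorization_le_iff_dvd _ _).1`. -/
theorem NN_dvd {z y n : ℕ} (hn : n ≠ 0) (hnz : n ≤ z) (h : ∀ q, q.Prime → q ∣ n → q ≤ y) : n ∣ NN z y := by
  have h1 : n = ∏ q ∈ n.primeFactors, q ^ n.factorization q := by
    have := Nat.prod_factorization_pow_eq_self hn
    rw [Finsupp.prod, Nat.support_factorization] at this
    exact this.symm
  have h2 : n.primeFactors ⊆ (Icc 1 y).filter Nat.Prime := by
    intro q hq
    have hp := Nat.prime_of_mem_primeFactors hq
    rw [mem_filter, mem_Icc]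
    exact ⟨⟨hp.one_lt.le, h q hp (Nat.dvd_of_mem_primeFactors hq)⟩, hp⟩
  unfold NN
  refine dvd_trans ?_ (prod_dvd_prod_of_subset _ _ _ h2)
  conv_lhs => rw [h1]
  refine prod_dvd_prod_of_dvd _ _ fun q hq => ?_
  have hp := Nat.prime_of_mem_primeFactors hq
  refine pow_dvd_pow q ?_
  refine (Nat.le_log_iff_pow_le hp.one_lt (by omega)).2 ?_
  exact (Nat.le_of_dvd (by omega) (Nat.ordProj_dvd n q)).trans hnz

end Pool.MP_a95293_nt.RC
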