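import Pool.Agent.Lib_MP_a95293_rc.SvR

/-!
# Piece SVS: many primes `l` with smooth `l - 1`
-/

set_option autoImplicit false

namespace Pool.MP_a95293_nt.RC

open Finset

private theorem SvS_log {z : ℝ} (hz : 147456 ≤ z) : Real.log z ≤ z / 192 := by
  have h1 : Real.log z ≤ z ^ (1 / 2 : ℝ) / (1 / 2) :=
    Real.log_le_rpow_div (by linarith) (by norm_num)
  rw [← Real.sqrt_eq_rpow] at h1
  have h2 : 384 ≤ Real.sqrt z := by
    apply Real.le_sqrt_of_sq_le
    norm_num
    exact hz
  have h3 := Real.mul_self_sqrt (show 0 ≤ z by linarith)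
  nlinarith

/-- **Many primes `l` with smooth `l - 1`.**
PROOF: `Chebyshev.pi_ge`: `π(z) ≥ (1/2) z / log z` for large `z`. Choose `δ ≤ 1/4` with `C δ ≤ 1/8`; for large `z` the exceptions (`rough_shift`) and the primes `< 25`
are at most `(1/4) z / log z`. -/
theorem smooth_shift : ∃ δ c : ℝ, 0 < δ ∧ δ ≤ 1 / 4 ∧ 0 < c ∧ ∃ z₀ : ℕ, ∀ z ≥ z₀,
    c * z / Real.log z ≤ ((LL δ z).card : ℝ) := by
  classical
  obtain ⟨C, hC, hr⟩ := rough_shift
  set δ := min (1 / 4) (1 / (8 * C)) with hδ
  have hδ0 : 0 < δ := lt_min (by norm_num) (by positivity)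
  have hδ4 : δ ≤ 1 / 4 := min_le_left _ _
  have hCδ : C * δ ≤ 1 / 8 := by
    have h1 : δ ≤ 1 / (8 * C) := min_le_right _ _
    calc C * δ ≤ C * (1 / (8 * C)) := mul_le_mul_of_nonneg_left h1 hC.le
      _ = 1 / 8 := by field_simp
  obtain ⟨z₁, hz₁⟩ := hr δ hδ0 hδ4
  refine ⟨δ, 1 / 8, hδ0, hδ4, by norm_num, max (max z₁ 147456) ⌈Real.exp (8 * C)⌉₊,
    fun z hz => ?_⟩
  have hza : z₁ ≤ z := (le_max_left _ _).trans ((le_max_left _ _).trans hz)
  have hzb : 147456 ≤ z := (le_max_right _ _).trans ((le_max_left _ _).trans hz)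
  have hzc : Real.exp (8 * C) ≤ z := by
    refine (Nat.le_ceil _).trans ?_
    exact_mod_cast (le_max_right _ _).trans hz
  have hzR : (147456 : ℝ) ≤ z := by exact_mod_cast hzb
  have hl : 8 * C ≤ Real.log z := by
    rw [Real.le_log_iff_exp_le (by linarith)]
    exact hzc
  have hlp : 0 < Real.log z := Real.log_pos (by linarith)
  have hlog := SvS_log hzR
  have hsub : (range (z + 1)).filter Nat.Prime ⊆
      LL δ z ∪ ((Icc 1 z).filter fun l => l.Prime ∧ Rough δ z l) ∪ Icc 1 24 := by
    intro l hl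
    rw [mem_filter, mem_range] at hl
    rw [mem_union, mem_union]
    unfold LL
    rw [mem_filter, mem_filter, mem_Icc, mem_Icc, mem_Icc]
    have := hl.2.one_lt
    by_cases h24 : l ≤ 24
    · right
      omega
    · by_cases hR : Rough δ z l
      · left
        right
        exact ⟨by omega, hl.2, hR⟩
      · left
        left
        exact ⟨by omega, hl.2, hR⟩
  have hcard := (card_le_card hsub).trans
    ((card_union_le _ _).trans (Nat.add_le_add_right (card_union_le _ _) _))
  rw [Nat.card_Icc, ← Nat.count_eq_card_filter_range] at hcard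
  have hcR : (Nat.primeCounting z : ℝ) ≤ ((LL δ z).card : ℝ) +
      (((Icc 1 z).filter fun l => l.Prime ∧ Rough δ z l).card : ℝ) + 24 := by
    have h1 : Nat.primeCounting z ≤ (LL δ z).card +
      ((Icc 1 z).filter fun l => l.Prime ∧ Rough δ z l).card + 24 := hcard
    exact_mod_cast h1
  have hpi := Chebyshev.pi_ge z
  have hro := hz₁ z hza
  have h24 : (24 : ℝ) ≤ 1 / 8 * (z / Real.log z) := by
    rw [← mul_div_assoc, le_div_iff₀ hlp]
    linarith
  have hro2 : C * z / Real.log z ^ 2 * (1 + δ * Real.log z) ≤ 1 / 4 * (z / Real.log z) := by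
    have e1 : C * z / Real.log z ^ 2 * (1 + δ * Real.log z) =
        (C / Real.log z) * (z / Real.log z) + (C * δ) * (z / Real.log z) := by
      field_simp
    have e2 : C / Real.log z ≤ 1 / 8 := by
      rw [div_le_iff₀ hlp]
      linarith
    have e3 : 0 ≤ (z : ℝ) / Real.log z := by positivity
    rw [e1]
    nlinarith
  have hpi2 : 1 / 2 * (z / Real.log z) ≤ (z * Real.log 2 - Real.log (z + 1)) / Real.log z := by
    rw [← mul_div_assoc]
    apply div_le_div_of_nonneg_right _ hlp.le
    have e1 : Real.log ((z : ℝ) + 1) ≤ Real.log 2 + Real.log z := by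
      rw [← Real.log_mul (by norm_num) (by linarith)]
      exact Real.log_le_log (by linarith) (by linarith)
    have e2 := Real.log_two_gt_d9
    have e3 := Real.log_two_lt_d9
    nlinarith
  have e4 : 1 / 8 * (z : ℝ) / Real.log z = 1 / 8 * (z / Real.log z) := by ring
  rw [e4]
  linarith

end Pool.MP_a95293_nt.RC
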