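import Pool.Agent.Lib_MP_a95293_rc.Comb
import Pool.Agent.Lib_MP_a95293_rc.Ev
import Pool.Agent.Lib_MP_a95293_rc.SvS
import Pool.Agent.Lib_MP_a95293_rc.ParN
import Pool.Agent.Lib_MP_a95293_rc.ParB
import Pool.Agent.Lib_MP_a95293_rc.ParC

/-!
# Piece MAIN: Theorem C
-/

set_option autoImplicit false

namespace Pool.MP_a95293_nt.RC

open Finset

/-- **Theorem C.**
PROOF: `C₀` from `evertse`, `δ, c` from `smooth_shift`. For large `X` put `Λ = log X`, `z = zz Λ`, `w = ww δ Λ`, `y = yy δ Λ`,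
`L = LL δ z`, `N = NN z y` (`l - 1 ∣ N` by `NN_dvd`), `h = |L| / w - w`. Apply `comb` with
`B = z`; `∏_{l ∈ L} l ≤ primorial z ≤ 4^z` (`primorial_le_4_pow`), `|L| ≤ z`, `√X = exp (Λ/2)`, `X = exp Λ`; `par_one`, `par_two`, `par_three`. -/
theorem theoremC : ∃ c : ℝ, 0 < c ∧ ∃ X₀ : ℕ, ∀ X ≥ X₀, ∀ Z : Finset (ℕ × ℕ),
    (∀ z ∈ Z, Prm z ∧ rd (pr3 z) ≤ X) → (Z.card : ℝ) ≤ X * Real.exp (-(Real.log X) ^ c) := by
  classical
  obtain ⟨C₀, hC0, hC⟩ := evertse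
  obtain ⟨δ, c, hδ, hδ1, hc, z₀, hz₀⟩ := smooth_shift
  refine ⟨δ / 10, by positivity, ?_⟩
  have hlog : Filter.Tendsto (fun X : ℕ => Real.log (X : ℝ)) Filter.atTop Filter.atTop :=
    Real.tendsto_log_atTop.comp tendsto_natCast_atTop_atTop
  have h1 := hlog.eventually (par_one C₀ hC0 δ hδ hδ1)
  have h2 := hlog.eventually (par_two C₀ hC0 δ c hδ hδ1 hc)
  have h3 := hlog.eventually (par_three δ hδ hδ1)
  have h4 := (zz_tendsto.comp hlog).eventually_ge_atTop (max z₀ 1)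
  obtain ⟨X₀, hX₀⟩ := Filter.eventually_atTop.1 (((h1.and h2).and (h3.and h4)).and
    (Filter.eventually_ge_atTop 1))
  refine ⟨X₀, fun X hX Z hZ => ?_⟩
  obtain ⟨⟨⟨⟨hw, p1⟩, p2⟩, ⟨p3, hzz⟩⟩, hX1⟩ := hX₀ X hX
  set Λ : ℝ := Real.log (X : ℝ) with hΛ
  have hzz' : max z₀ 1 ≤ zz Λ := hzz
  have hXpos : (0 : ℝ) < X := by exact_mod_cast hX1
  have hXe : (X : ℝ) = Real.exp Λ := by rw [hΛ, Real.exp_log hXpos]
  set L := LL δ (zz Λ) with hL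
  have hLmem : ∀ l ∈ L, l.Prime ∧ 25 ≤ l ∧ l ≤ zz Λ ∧ ¬ Rough δ (zz Λ) l := by
    intro l hl
    rw [hL] at hl
    unfold LL at hl
    rw [mem_filter, mem_Icc] at hl
    exact ⟨hl.2.1, hl.1.1, hl.1.2, hl.2.2⟩
  have hN' : ∀ l ∈ L, (l - 1) ∣ NN (zz Λ) (yy δ Λ) := by
    intro l hl
    obtain ⟨hp, h25, hlz, hr⟩ := hLmem l hl
    apply NN_dvd (by omega) (by omega)
    intro q hq hql
    unfold yy
    apply Nat.le_floor
    by_contra hcon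
    push Not at hcon
    exact hr ⟨q, hq, hql, hcon⟩
  have hcard := hz₀ (zz Λ) ((le_max_left _ _).trans hzz')
  have hz1 : 1 ≤ zz Λ := (le_max_right _ _).trans hzz'
  obtain ⟨q1, q2⟩ := p2 L.card (NN (zz Λ) (yy δ Λ)) hcard (NN_le _ _ hz1)
  have hprod : ∏ l ∈ L, l ≤ 4 ^ zz Λ := by
    refine le_trans ?_ (primorial_le_four_pow (zz Λ))
    unfold primorial
    apply Finset.prod_le_prod_of_subset_of_one_le'
    · intro l hl
      obtain ⟨hp, _, hlz, _⟩ := hLmem l hl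
      rw [mem_filter, mem_range]
      exact ⟨by omega, hp⟩
    · intro l hl _
      rw [mem_filter] at hl
      exact hl.2.one_lt.le
  have hcardle : L.card ≤ zz Λ := by
    have : L ⊆ Icc 1 (zz Λ) := by
      intro l hl
      obtain ⟨hp, h25, hlz, _⟩ := hLmem l hl
      rw [mem_Icc]
      omega
    have h := card_le_card this
    rwa [Nat.card_Icc, Nat.add_sub_cancel] at h
  have hmain := comb hC0 hC (L := L) (N := NN (zz Λ) (yy δ Λ))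
    (h := L.card / ww δ Λ - ww δ Λ) (w := ww δ Λ) (X := X) (B := zz Λ)
    (fun l hl => ⟨(hLmem l hl).1, (hLmem l hl).2.1, (hLmem l hl).2.2.1⟩) (NN_pos _ _) hN' hw q1 hX1 Z hZ
  refine hmain.trans ?_
  have t1 : (C₀ : ℝ) / 2 ^ ww δ Λ * (X * (1 + Real.log X) ^ (2 * C₀)) ≤
      1 / 3 * (X * Real.exp (-(Λ ^ (δ / 10)))) := by
    calc (C₀ : ℝ) / 2 ^ ww δ Λ * (X * (1 + Real.log X) ^ (2 * C₀))
        = X * ((C₀ : ℝ) / 2 ^ ww δ Λ * (1 + Λ) ^ (2 * C₀)) := by ring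
      _ ≤ X * (1 / 3 * Real.exp (-(Λ ^ (δ / 10)))) := mul_le_mul_of_nonneg_left p1 hXpos.le
      _ = _ := by ring
  have t2 : (C₀ : ℝ) ^ (ww δ Λ + 1) * (2 * (3 * (NN (zz Λ) (yy δ Λ) : ℕ)) ^ ww δ Λ /
      2 ^ (L.card / ww δ Λ - ww δ Λ) * (X * (1 + Real.log X))) ≤
      1 / 3 * (X * Real.exp (-(Λ ^ (δ / 10)))) := by
    calc (C₀ : ℝ) ^ (ww δ Λ + 1) * (2 * (3 * (NN (zz Λ) (yy δ Λ) : ℕ)) ^ ww δ Λ /
          2 ^ (L.card / ww δ Λ - ww δ Λ) * (X * (1 + Real.log X)))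
        = X * ((C₀ : ℝ) ^ (ww δ Λ + 1) * (2 * (3 * (NN (zz Λ) (yy δ Λ) : ℕ)) ^ ww δ Λ /
          2 ^ (L.card / ww δ Λ - ww δ Λ) * (1 + Λ))) := by ring
      _ ≤ X * (1 / 3 * Real.exp (-(Λ ^ (δ / 10)))) := mul_le_mul_of_nonneg_left q2 hXpos.le
      _ = _ := by ring
  have t3 : 2 * (L.card : ℝ) * (2 * (Real.sqrt X * ((∏ l ∈ L, l : ℕ) : ℝ) ^ (2 * zz Λ * ww δ Λ) *
      (2 ^ 11 * (zz Λ : ℕ)) ^ ww δ Λ) + ((zz Λ : ℕ) : ℝ) ^ 80) ≤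
      1 / 3 * (X * Real.exp (-(Λ ^ (δ / 10)))) := by
    have hsq : Real.sqrt X = Real.exp (Λ / 2) := by
      rw [hXe, Real.sqrt_eq_iff_mul_self_eq (Real.exp_pos _).le (Real.exp_pos _).le, ← Real.exp_add]
      congr 1
      ring
    rw [hsq]
    rw [hXe]
    refine le_trans ?_ p3
    have e1 : ((∏ l ∈ L, l : ℕ) : ℝ) ≤ (4 : ℝ) ^ zz Λ := by exact_mod_cast hprod
    have e2 : ((L.card : ℕ) : ℝ) ≤ (zz Λ : ℝ) := by exact_mod_cast hcardle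
    gcongr
  have hfin : (X : ℝ) * Real.exp (-(Real.log X) ^ (δ / 10)) = X * Real.exp (-(Λ ^ (δ / 10))) := rfl
  rw [hfin]
  linarith

end Pool.MP_a95293_nt.RC
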