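import Pool.Agent.Lib_MP_a95293_rc.Defs

/-!
# Piece OMA: the logarithmic average of `m^ω`
-/

set_option autoImplicit false

namespace Pool.MP_a95293_nt.RC

open Finset

/-- PROOF: `∑_{S ⊆ P} m^|S| = (m+1)^|P|` (`Finset.sum_pow_mul_eq_add_pow`) and `S ↦ ∏ S` is a bijection from the subsets of `R.primeFactors`
to the divisors of the squarefree `R` (or `Nat.sum_divisors_filter_squarefree`). -/
theorem sum_div_pow (m R : ℕ) (hR : Squarefree R) :
    ∑ d ∈ R.divisors, m ^ d.primeFactors.card = (m + 1) ^ R.primeFactors.card := by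
  have h1 : ∑ S ∈ R.primeFactors.powerset, m ^ S.card = (m + 1) ^ R.primeFactors.card := by
    have h2 := Finset.sum_pow_mul_eq_add_pow m 1 R.primeFactors
    simpa using h2
  rw [← h1]
  refine Finset.sum_nbij' (fun d => d.primeFactors) (fun S => ∏ p ∈ S, p) ?_ ?_ ?_ ?_ ?_
  · intro d hd
    rw [Nat.mem_divisors] at hd
    exact mem_powerset.2 (Nat.primeFactors_mono hd.1 hd.2)
  · intro S hS
    rw [Nat.mem_divisors]
    refine ⟨?_, hR.ne_zero⟩
    calc ∏ p ∈ S, p ∣ ∏ p ∈ R.primeFactors, p :=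
          Finset.prod_dvd_prod_of_subset _ _ _ (mem_powerset.1 hS)
      _ = R := Nat.prod_primeFactors_of_squarefree hR
  · intro d hd
    rw [Nat.mem_divisors] at hd
    exact Nat.prod_primeFactors_of_squarefree (hR.squarefree_of_dvd hd.1)
  · intro S hS
    exact Nat.primeFactors_prod fun p hp => Nat.prime_of_mem_primeFactors (mem_powerset.1 hS hp)
  · intro d _
    rfl

/-- PROOF: induction on `m`. `m = 0`: only `R = 1` contributes, `1 ≤ 1` (`0^0 = 1`). Step: by `sum_div_pow`
`∑_R (m+1)^ω(R) / R = ∑_R ∑_{d ∣ R} m^ω(d) / R`; `(R, d) ↦ (d, R/d)` is injective into pairs `d ≤ X` squarefree, `e ≤ X`, and `1/R = 1/d 1/e`. -/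
theorem sum_pow_div (m X : ℕ) :
    ∑ R ∈ (Icc 1 X).filter Squarefree, (m : ℝ) ^ R.primeFactors.card / R ≤ (∑ d ∈ Icc 1 X, 1 / (d : ℝ)) ^ m := by
  induction m with
  | zero =>
    rw [pow_zero]
    have h1 : ∑ R ∈ (Icc 1 X).filter Squarefree, ((0 : ℕ) : ℝ) ^ R.primeFactors.card / R ≤
        ∑ R ∈ ({1} : Finset ℕ), (1 : ℝ) := by
      rw [← Finset.sum_filter_add_sum_filter_not _ (fun R => R = 1)]
      have h2 : ∑ R ∈ ((Icc 1 X).filter Squarefree).filter (fun R => ¬ R = 1),
          ((0 : ℕ) : ℝ) ^ R.primeFactors.card / R = 0 := by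
        refine Finset.sum_eq_zero fun R hR => ?_
        rw [mem_filter, mem_filter, mem_Icc] at hR
        have h3 : R.primeFactors.card ≠ 0 := by
          rw [Ne, card_eq_zero, Nat.primeFactors_eq_empty]
          omega
        rw [Nat.cast_zero, zero_pow h3, zero_div]
      rw [h2, add_zero]
      refine (Finset.sum_le_sum (g := fun _ => (1 : ℝ)) fun R hR => ?_).trans
        (Finset.sum_le_sum_of_subset_of_nonneg ?_ fun _ _ _ => zero_le_one)
      · rw [mem_filter] at hR
        rw [hR.2]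
        simp
      · intro R hR
        rw [mem_filter] at hR
        exact mem_singleton.2 hR.2
    rw [sum_singleton] at h1
    exact h1
  | succ m ih =>
    have h1 : ∑ R ∈ (Icc 1 X).filter Squarefree, ((m + 1 : ℕ) : ℝ) ^ R.primeFactors.card / R =
        ∑ R ∈ (Icc 1 X).filter Squarefree, ∑ x ∈ R.divisorsAntidiagonal,
          ((m : ℝ) ^ x.1.primeFactors.card / x.1) * (1 / (x.2 : ℝ)) := by
      refine Finset.sum_congr rfl fun R hR => ?_
      rw [mem_filter, mem_Icc] at hR
      have h2 := sum_div_pow m R hR.2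
      have h3 : ((m + 1 : ℕ) : ℝ) ^ R.primeFactors.card = ∑ d ∈ R.divisors, (m : ℝ) ^ d.primeFactors.card := by
        exact_mod_cast h2.symm
      rw [h3, Finset.sum_div, ← Nat.map_div_right_divisors, Finset.sum_map]
      refine Finset.sum_congr rfl fun d hd => ?_
      rw [Nat.mem_divisors] at hd
      have hd0 : (d : ℝ) ≠ 0 := by
        have := Nat.pos_of_dvd_of_pos hd.1 (by omega : 0 < R)
        exact_mod_cast this.ne'
      have hR0 : (R : ℝ) ≠ 0 := by exact_mod_cast hd.2
      show (m : ℝ) ^ d.primeFactors.card / R = ((m : ℝ) ^ d.primeFactors.card / d) * (1 / ((R / d : ℕ) : ℝ))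
      rw [Nat.cast_div hd.1 hd0]
      field_simp
    rw [h1, pow_succ]
    refine le_trans ?_ (mul_le_mul_of_nonneg_right ih (Finset.sum_nonneg fun d _ => by positivity))
    rw [Finset.sum_mul_sum, ← Finset.sum_product', Finset.sum_sigma']
    refine le_trans (le_of_eq ?_) (Finset.sum_le_sum_of_subset_of_nonneg (s := (((Icc 1 X).filter
      Squarefree).sigma fun R => R.divisorsAntidiagonal).image fun y => y.2) ?_ ?_)
    · rw [Finset.sum_image]
      rintro ⟨R, x⟩ hy ⟨R', x'⟩ hy' h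
      have hy1 := (mem_sigma.1 (mem_coe.1 hy)).2
      have hy2 := (mem_sigma.1 (mem_coe.1 hy')).2
      rw [Nat.mem_divisorsAntidiagonal] at hy1 hy2
      have h' : x = x' := h
      have e1 : x.1 * x.2 = R := hy1.1
      have e2 : x'.1 * x'.2 = R' := hy2.1
      subst h'
      rw [← e1, ← e2]
    · intro x hx
      rw [mem_image] at hx
      obtain ⟨⟨R, y⟩, hy, rfl⟩ := hx
      rw [mem_sigma] at hy
      obtain ⟨hy1, hy2⟩ := hy
      have hy1' : R ∈ (Icc 1 X).filter Squarefree := hy1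
      have hy2' : y ∈ R.divisorsAntidiagonal := hy2
      rw [mem_filter, mem_Icc] at hy1'
      rw [Nat.mem_divisorsAntidiagonal] at hy2'
      obtain ⟨⟨hR1, hR2⟩, hR3⟩ := hy1'
      obtain ⟨e, _⟩ := hy2'
      have hp1 : y.1 ∣ R := Dvd.intro _ e
      have hp2 : y.2 ∣ R := Dvd.intro_left _ e
      have g1 := Nat.le_of_dvd (by omega) hp1
      have g2 := Nat.le_of_dvd (by omega) hp2
      have g3 := Nat.pos_of_dvd_of_pos hp1 (by omega : 0 < R)
      have g4 := Nat.pos_of_dvd_of_pos hp2 (by omega : 0 < R)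
      show y ∈ ((Icc 1 X).filter Squarefree) ×ˢ Icc 1 X
      rw [mem_product, mem_filter, mem_Icc, mem_Icc]
      exact ⟨⟨⟨g3, by omega⟩, hR3.squarefree_of_dvd hp1⟩, g4, by omega⟩
    · intro x _ _
      positivity

end Pool.MP_a95293_nt.RC
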