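import Pool.Agent.Lib_MP_a95293_rc.Defs

/-!
# Piece PADA: the Padé coefficients are integers of size at most `(4 k (k+1))^n`
-/

set_option autoImplicit false

namespace Pool.MP_a95293_nt.RC

open Finset

private theorem PadeA_le {p e i : ℕ} (hp : p.Prime) (h : p ^ e ∣ i.factorial) : e ≤ i := by
  have : Fact p.Prime := ⟨hp⟩
  have h1 := sub_one_mul_padicValNat_factorial (p := p) i
  have h2 : e ≤ padicValNat p i.factorial :=
    (padicValNat_dvd_iff_le (Nat.factorial_ne_zero i)).1 h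
  have h3 : 1 ≤ p - 1 := by
    have := hp.two_le
    omega
  have h4 : padicValNat p i.factorial ≤ (p - 1) * padicValNat p i.factorial :=
    Nat.le_mul_of_pos_left _ h3
  omega

private theorem PadeA_prod {N : ℕ} (f g : ℕ → ℕ) (h : ∀ t, f t ≡ g t [MOD N]) (i : ℕ) :
    ∏ t ∈ range i, f t ≡ ∏ t ∈ range i, g t [MOD N] := by
  induction i with
  | zero => exact Nat.ModEq.refl _
  | succ i ih =>
    rw [prod_range_succ, prod_range_succ]
    exact ih.mul (h i)

private theorem PadeA_gp (k n i : ℕ) (hi : i ≤ n) :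
    ∏ t ∈ range i, (k * (n - t) + 1) = ∏ t ∈ range i, ((k * (n - i + 1) + 1) + k * t) := by
  rw [← prod_range_reflect]
  refine prod_congr rfl fun t ht => ?_
  rw [mem_range] at ht
  have h1 : n - (i - 1 - t) = n - i + 1 + t := by omega
  rw [h1]
  ring

private theorem PadeA_gm (k n i : ℕ) (hk : 1 ≤ k) (hi : i ≤ n) :
    ∏ t ∈ range i, (k * (n - t) - 1) = ∏ t ∈ range i, ((k * (n - i + 1) - 1) + k * t) := by
  rw [← prod_range_reflect]
  refine prod_congr rfl fun t ht => ?_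
  rw [mem_range] at ht
  have h1 : n - (i - 1 - t) = n - i + 1 + t := by omega
  have h2 : 1 ≤ k * (n - i + 1) := Nat.mul_pos hk (by omega)
  rw [h1, mul_add k (n - i + 1) t]
  generalize k * (n - i + 1) = a at h2
  generalize k * t = b
  omega

private theorem PadeA_pos1 (k n i : ℕ) (hi : i ≤ n) :
    0 < ∏ t ∈ range i, (k * (n - t) + 1) := prod_pos fun t _ => Nat.succ_pos _

private theorem PadeA_pos2 (k n i : ℕ) (hk : 2 ≤ k) (hi : i ≤ n) :
    0 < ∏ t ∈ range i, (k * (n - t) - 1) := by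
  refine prod_pos fun t ht => ?_
  rw [mem_range] at ht
  have h1 : 2 * 1 ≤ k * (n - t) := Nat.mul_le_mul hk (by omega)
  omega

/-- `i!` divides `k ^ i ∏_{t<i} (r + k t)`.
PROOF: `Nat.dvd_iff_prime_pow_dvd_dvd`: let `p` be prime and `p ^ e ∣ i!`. If `p ∣ k`: `e ≤ v_p(i!) ≤ i`
(Legendre: `sub_one_mul_padicValNat_factorial`, or `Nat.Prime.multiplicity_factorial`-type lemmas; or `(p^e ∣ i! → e ≤ i)` by
`Nat.factorization_factorial`...), hence `p ^ e ∣ k ^ e ∣ k ^ i`. If `p ∤ k`: choose `k'` with `k * k' ≡ 1 [MOD p ^ e]`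
(`Nat.exists_mul_mod_eq_one_of_coprime`, or work in `ZMod (p ^ e)` with the unit `k`); then
`k' ^ i * ∏ (r + k t) ≡ ∏ (r k' + t) = (r k').ascFactorial i` mod `p ^ e`, divisible by `i!` (`Nat.factorial_dvd_ascFactorial`)
hence by `p ^ e`; `k'` is prime to `p`, so `p ^ e ∣ ∏ (r + k t)`. -/
theorem fact_dvd (k r i : ℕ) : i.factorial ∣ k ^ i * ∏ t ∈ range i, (r + k * t) := by
  rw [Nat.dvd_iff_prime_pow_dvd_dvd]
  intro p e hp he
  by_cases hpk : p ∣ k
  · have h1 := PadeA_le hp he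
    have h2 : p ^ e ∣ k ^ i := (pow_dvd_pow_of_dvd hpk e).trans (pow_dvd_pow k h1)
    exact h2.mul_right _
  · rcases Nat.eq_zero_or_pos e with h0 | h0
    · rw [h0, pow_zero]
      exact one_dvd _
    have hco : Nat.Coprime k (p ^ e) := ((Nat.Prime.coprime_iff_not_dvd hp).2 hpk).symm.pow_right e
    have h1 : 1 < p ^ e := Nat.one_lt_pow h0.ne' hp.one_lt
    obtain ⟨m, _, hm⟩ := Nat.exists_mul_mod_eq_one_of_coprime hco h1
    have hm' : k * m ≡ 1 [MOD p ^ e] := by
      unfold Nat.ModEq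
      rw [hm, Nat.mod_eq_of_lt h1]
    have h2 : m ^ i * ∏ t ∈ range i, (r + k * t) ≡ (r * m).ascFactorial i [MOD p ^ e] := by
      have h3 : m ^ i * ∏ t ∈ range i, (r + k * t) = ∏ t ∈ range i, (m * (r + k * t)) := by
        rw [prod_mul_distrib, prod_const, card_range]
      rw [h3, Nat.ascFactorial_eq_prod_range]
      apply PadeA_prod
      intro t
      have h4 : m * (r + k * t) = r * m + k * m * t := by ring
      rw [h4]
      have h5 := (hm'.mul_right t).add_left (r * m)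
      rw [one_mul] at h5
      exact h5
    have h3 : p ^ e ∣ m ^ i * ∏ t ∈ range i, (r + k * t) :=
      (h2.dvd_iff (dvd_refl _)).2 (he.trans (Nat.factorial_dvd_ascFactorial _ _))
    have h4 : Nat.Coprime (k * m) (p ^ e) := by
      unfold Nat.Coprime
      rw [hm'.gcd_eq, Nat.gcd_one_left]
    have h5 : Nat.Coprime (p ^ e) (m ^ i) := (h4.coprime_mul_left.symm).pow_right i
    exact (h5.dvd_of_dvd_mul_left h3).mul_left _

/-- PROOF: reverse the product (`Finset.prod_range_reflect`): `t ↦ i - 1 - t` and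
`k (n - (i - 1 - t)) + 1 = (k (n - i + 1) + 1) + k t`; then `fact_dvd`; `Nat.div_mul_cancel`. -/
theorem gp_mul (k n i : ℕ) (hi : i ≤ n) :
    gp k n i * i.factorial = k ^ i * ∏ t ∈ range i, (k * (n - t) + 1) := by
  unfold gp
  rw [PadeA_gp k n i hi]
  exact Nat.div_mul_cancel (fact_dvd _ _ _)

/-- PROOF: as `gp_mul`, with `k (n - (i - 1 - t)) - 1 = (k (n - i + 1) - 1) + k t`. -/
theorem gm_mul (k n i : ℕ) (hk : 1 ≤ k) (hi : i ≤ n) :
    gm k n i * i.factorial = k ^ i * ∏ t ∈ range i, (k * (n - t) - 1) := by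
  unfold gm
  rw [PadeA_gm k n i hk hi]
  exact Nat.div_mul_cancel (fact_dvd _ _ _)

theorem gp_pos (k n i : ℕ) (hk : 1 ≤ k) (hi : i ≤ n) : 0 < gp k n i := by
  apply Nat.pos_of_ne_zero
  intro h0
  have h1 := gp_mul k n i hi
  rw [h0, zero_mul] at h1
  have h2 : 0 < k ^ i * ∏ t ∈ range i, (k * (n - t) + 1) :=
    Nat.mul_pos (Nat.pow_pos (by omega)) (PadeA_pos1 k n i hi)
  omega

theorem gm_pos (k n i : ℕ) (hk : 2 ≤ k) (hi : i ≤ n) : 0 < gm k n i := by
  apply Nat.pos_of_ne_zero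
  intro h0
  have h1 := gm_mul k n i (by omega) hi
  rw [h0, zero_mul] at h1
  have h2 : 0 < k ^ i * ∏ t ∈ range i, (k * (n - t) - 1) :=
    Nat.mul_pos (Nat.pow_pos (by omega)) (PadeA_pos2 k n i hk hi)
  omega

/-- PROOF: `gp k n i * i! = k^i ∏ (k (n-t) + 1) ≤ k^i (k+1)^i ∏ (n - t) = (k(k+1))^i n.descFactorial i` (`n - t ≥ 1` for `t < i ≤ n`)
`= (k (k+1))^i * (n.choose i * i!)`; cancel `i!`. -/
theorem gp_le (k n i : ℕ) (hi : i ≤ n) : gp k n i ≤ (k * (k + 1)) ^ i * n.choose i := by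
  have h1 := gp_mul k n i hi
  have h3 : ∏ t ∈ range i, (k * (n - t) + 1) ≤ ∏ t ∈ range i, ((k + 1) * (n - t)) := by
    refine prod_le_prod (fun _ _ => Nat.zero_le _) fun t ht => ?_
    rw [mem_range] at ht
    rw [add_mul, one_mul]
    omega
  have h2 : gp k n i * i.factorial ≤ (k * (k + 1)) ^ i * n.choose i * i.factorial := by
    rw [h1]
    refine (Nat.mul_le_mul_left _ h3).trans (le_of_eq ?_)
    rw [prod_mul_distrib, prod_const, card_range, ← Nat.descFactorial_eq_prod_range,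
      Nat.descFactorial_eq_factorial_mul_choose, mul_pow]
    ring
  exact Nat.le_of_mul_le_mul_right h2 (Nat.factorial_pos i)

/-- PROOF: the same with `k (n - t) - 1 ≤ (k+1) (n - t)`. -/
theorem gm_le (k n i : ℕ) (hk : 1 ≤ k) (hi : i ≤ n) : gm k n i ≤ (k * (k + 1)) ^ i * n.choose i := by
  have h1 := gm_mul k n i hk hi
  have h3 : ∏ t ∈ range i, (k * (n - t) - 1) ≤ ∏ t ∈ range i, ((k + 1) * (n - t)) := by
    refine prod_le_prod (fun _ _ => Nat.zero_le _) fun t ht => ?_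
    rw [add_mul, one_mul]
    omega
  have h2 : gm k n i * i.factorial ≤ (k * (k + 1)) ^ i * n.choose i * i.factorial := by
    rw [h1]
    refine (Nat.mul_le_mul_left _ h3).trans (le_of_eq ?_)
    rw [prod_mul_distrib, prod_const, card_range, ← Nat.descFactorial_eq_prod_range,
      Nat.descFactorial_eq_factorial_mul_choose, mul_pow]
    ring
  exact Nat.le_of_mul_le_mul_right h2 (Nat.factorial_pos i)

theorem cf_pos (k n i : ℕ) (hk : 2 ≤ k) (hi : i ≤ n) : 0 < cf k n i := by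
  exact Nat.mul_pos (gp_pos k n i (by omega) hi) (gm_pos k n (n - i) hk (Nat.sub_le _ _))

/-- PROOF: `gp_le`, `gm_le`, `n.choose i ≤ 2 ^ n` (`Nat.choose_le_two_pow`), `(n - i) + i = n`. -/
theorem cf_le (k n i : ℕ) (hk : 2 ≤ k) (hi : i ≤ n) : cf k n i ≤ (4 * k * (k + 1)) ^ n := by
  unfold cf
  have h1 := gp_le k n i hi
  have h2 := gm_le k n (n - i) (by omega) (Nat.sub_le _ _)
  have h3 := Nat.choose_le_two_pow n i
  have h4 := Nat.choose_le_two_pow n (n - i)
  calc gp k n i * gm k n (n - i) ≤ ((k * (k + 1)) ^ i * n.choose i) *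
        ((k * (k + 1)) ^ (n - i) * n.choose (n - i)) := Nat.mul_le_mul h1 h2
    _ ≤ ((k * (k + 1)) ^ i * 2 ^ n) * ((k * (k + 1)) ^ (n - i) * 2 ^ n) :=
        Nat.mul_le_mul (Nat.mul_le_mul_left _ h3) (Nat.mul_le_mul_left _ h4)
    _ = ((k * (k + 1)) ^ i * (k * (k + 1)) ^ (n - i)) * (2 ^ n * 2 ^ n) := by ring
    _ = (4 * k * (k + 1)) ^ n := by
        rw [← pow_add, show i + (n - i) = n by omega, ← mul_pow, ← mul_pow]
        congr 1
        ring

theorem cf_zero (k : ℕ) : cf k 0 0 = 1 := by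
  simp [cf, gp, gm]

end Pool.MP_a95293_nt.RC
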