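import Pool.Agent.Lib_MP_a95293_rc.PadeL

/-!
# Piece PADD: the Padé form vanishes to order `2n + 1` on the diagonal
-/

set_option autoImplicit false

namespace Pool.MP_a95293_nt.RC

open Finset

/-- PROOF: `lag` with `q = descPochhammer ℚ m` (`natDegree = m ≤ 2n`, `eval` at a natural number is `descFactorial = m! * choose`,
`descPochhammer_eval_eq_descFactorial`, `Nat.descFactorial_eq_factorial_mul_choose`), divide by `m!`. -/
theorem lag_choose (k n m : ℕ) (hk : 2 ≤ k) (hm : m ≤ 2 * n) :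
    ∑ i ∈ range (n + 1), (cf k n i : ℤ) * ((k * i).choose m : ℤ) =
      ∑ i ∈ range (n + 1), (cf k n (n - i) : ℤ) * ((k * i + 1).choose m : ℤ) := by
  have h := lag k n hk (descPochhammer ℚ m) (by
    rw [descPochhammer_natDegree]
    exact hm)
  have e1 : ∀ N : ℕ, (descPochhammer ℚ m).eval (N : ℚ) = m.factorial * (N.choose m : ℚ) := by
    intro N
    rw [descPochhammer_eval_eq_descFactorial, Nat.descFactorial_eq_factorial_mul_choose]
    push_cast
    rfl
  have e2 : ∑ i ∈ range (n + 1), (cf k n i : ℚ) * (descPochhammer ℚ m).eval ((k * i : ℚ)) =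
      m.factorial * ∑ i ∈ range (n + 1), (cf k n i : ℚ) * ((k * i).choose m : ℚ) := by
    rw [mul_sum]
    refine sum_congr rfl fun i _ => ?_
    have e3 : (k * i : ℚ) = ((k * i : ℕ) : ℚ) := by
      push_cast
      rfl
    rw [e3, e1]
    ring
  have e4 : ∑ i ∈ range (n + 1), (cf k n (n - i) : ℚ) * (descPochhammer ℚ m).eval ((k * i + 1 : ℚ)) =
      m.factorial * ∑ i ∈ range (n + 1), (cf k n (n - i) : ℚ) * ((k * i + 1).choose m : ℚ) := by
    rw [mul_sum]
    refine sum_congr rfl fun i _ => ?_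
    have e3 : (k * i + 1 : ℚ) = ((k * i + 1 : ℕ) : ℚ) := by
      push_cast
      rfl
    rw [e3, e1]
    ring
  rw [e2, e4] at h
  have hm0 : (m.factorial : ℚ) ≠ 0 := by positivity
  have h2 := mul_left_cancel₀ hm0 h
  exact_mod_cast h2

theorem PadeD_bin {R : Type*} [CommRing R] (s t : R) {a N : ℕ} (ha : a ≤ N) :
    s ^ a * t ^ (N - a) = ∑ m ∈ range (N + 1), (a.choose m : R) * ((s - t) ^ m * t ^ (N - m)) := by
  have h1 : s ^ a = ∑ m ∈ range (a + 1), (s - t) ^ m * t ^ (a - m) * (a.choose m : R) := by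
    rw [← add_pow, sub_add_cancel]
  rw [h1, sum_mul]
  have h2 : ∀ m ∈ range (a + 1), (s - t) ^ m * t ^ (a - m) * (a.choose m : R) * t ^ (N - a) =
      (a.choose m : R) * ((s - t) ^ m * t ^ (N - m)) := by
    intro m hm
    rw [mem_range] at hm
    have h3 : t ^ (N - m) = t ^ (a - m) * t ^ (N - a) := by
      rw [← pow_add]
      congr 1
      omega
    rw [h3]
    ring
  rw [sum_congr rfl h2]
  apply sum_subset
  · intro x hx
    rw [mem_range] at hx ⊢
    omega
  · intro m _ hm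
    rw [mem_range, not_lt] at hm
    rw [Nat.choose_eq_zero_of_lt (by omega), Nat.cast_zero, zero_mul]

/-- the form vanishes to order `2n+1` on the diagonal, over any commutative ring -/
theorem PadeD_gen {R : Type*} [CommRing R] (k n : ℕ) (hk : 2 ≤ k) (s t : R) :
    (s - t) ^ (2 * n + 1) ∣
      ∑ i ∈ range (n + 1), (cf k n i : R) * (s ^ (k * i) * t ^ (k * n + 1 - k * i)) -
      ∑ i ∈ range (n + 1), (cf k n (n - i) : R) *
        (s ^ (k * i + 1) * t ^ (k * n + 1 - (k * i + 1))) := by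
  have hle : ∀ i ∈ range (n + 1), k * i + 1 ≤ k * n + 1 := fun i hi => by
    rw [mem_range] at hi
    have := Nat.mul_le_mul_left k (show i ≤ n by omega)
    omega
  have e1 : ∑ i ∈ range (n + 1), (cf k n i : R) * (s ^ (k * i) * t ^ (k * n + 1 - k * i)) =
      ∑ m ∈ range (k * n + 1 + 1),
        ((∑ i ∈ range (n + 1), (cf k n i : ℤ) * ((k * i).choose m : ℤ) : ℤ) : R) *
          ((s - t) ^ m * t ^ (k * n + 1 - m)) := by
    rw [sum_congr rfl fun i hi => by
      rw [PadeD_bin s t (show k * i ≤ k * n + 1 by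
        have := hle i hi
        omega), mul_sum]]
    rw [sum_comm]
    refine sum_congr rfl fun m _ => ?_
    push_cast
    rw [sum_mul]
    refine sum_congr rfl fun i _ => ?_
    ring
  have e2 : ∑ i ∈ range (n + 1), (cf k n (n - i) : R) *
        (s ^ (k * i + 1) * t ^ (k * n + 1 - (k * i + 1))) =
      ∑ m ∈ range (k * n + 1 + 1),
        ((∑ i ∈ range (n + 1), (cf k n (n - i) : ℤ) * ((k * i + 1).choose m : ℤ) : ℤ) : R) *
          ((s - t) ^ m * t ^ (k * n + 1 - m)) := by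
    rw [sum_congr rfl fun i hi => by
      rw [PadeD_bin s t (hle i hi), mul_sum]]
    rw [sum_comm]
    refine sum_congr rfl fun m _ => ?_
    push_cast
    rw [sum_mul]
    refine sum_congr rfl fun i _ => ?_
    ring
  rw [e1, e2, ← sum_sub_distrib]
  refine dvd_sum fun m _ => ?_
  by_cases hm : m ≤ 2 * n
  · rw [lag_choose k n m hk hm, sub_self]
    exact dvd_zero _
  · have h1 : (s - t) ^ (2 * n + 1) ∣ (s - t) ^ m := pow_dvd_pow _ (by omega)
    exact dvd_sub ((h1.mul_right _).mul_left _) ((h1.mul_right _).mul_left _)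

/-- **The Padé form vanishes to order `2n+1` on the diagonal.**
PROOF: put `s = t + d`. `s^(k i) = ∑_{m ≤ k n + 1} C(k i, m) d^m t^(k i - m)` (`add_pow`; the extra terms vanish), so
`t (s^k)^i (t^k)^(n-i) = ∑_{m ≤ kn+1} C(k i, m) d^m t^(kn + 1 - m)`, and in the same way
`s (t^k)^(n-i) (s^k)^i = ∑_m C(k i + 1, m) d^m t^(kn+1-m)`. In `fB k n (s^k) (t^k) = ∑_i cf_i (t^k)^i (s^k)^(n-i)` replace `i` by `n - i`
(`Finset.sum_range_reflect`). Therefore `Lam = ∑_{m ≤ kn+1} d^m t^(kn+1-m) (∑_i cf_i C(k i, m) - ∑_i cf_(n-i) C(k i + 1, m))`; the bracket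
vanishes for `m ≤ 2n` (`lag_choose`) and the terms with `m ≥ 2n+1` are divisible by `d^(2n+1)`. -/
theorem pad_dvd (k n : ℕ) (hk : 2 ≤ k) (s t : ℤ) :
    (s - t) ^ (2 * n + 1) ∣ Lam k n s t (s ^ k) (t ^ k) := by
  have h := PadeD_gen k n hk s t
  have e1 : t * ∑ i ∈ range (n + 1), (cf k n i : ℤ) * (s ^ k) ^ i * (t ^ k) ^ (n - i) =
      ∑ i ∈ range (n + 1), (cf k n i : ℤ) * (s ^ (k * i) * t ^ (k * n + 1 - k * i)) := by
    rw [mul_sum]
    refine sum_congr rfl fun i hi => ?_
    rw [mem_range] at hi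
    have h1 := Nat.mul_le_mul_left k (show i ≤ n by omega)
    have h2 : t ^ (k * n + 1 - k * i) = t * (t ^ k) ^ (n - i) := by
      rw [← pow_mul, ← pow_succ']
      congr 1
      rw [Nat.mul_sub]
      omega
    rw [h2, pow_mul]
    ring
  have e2 : s * ∑ i ∈ range (n + 1), (cf k n i : ℤ) * (t ^ k) ^ i * (s ^ k) ^ (n - i) =
      ∑ i ∈ range (n + 1), (cf k n (n - i) : ℤ) *
        (s ^ (k * i + 1) * t ^ (k * n + 1 - (k * i + 1))) := by
    have hr := sum_range_reflect (fun i => (cf k n i : ℤ) * (t ^ k) ^ i * (s ^ k) ^ (n - i)) (n + 1)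
    rw [← hr, mul_sum]
    refine sum_congr rfl fun i hi => ?_
    rw [mem_range] at hi
    have h1 := Nat.mul_le_mul_left k (show i ≤ n by omega)
    have h2 : t ^ (k * n + 1 - (k * i + 1)) = (t ^ k) ^ (n - i) := by
      rw [← pow_mul]
      congr 1
      rw [Nat.mul_sub]
      omega
    have h3 : n + 1 - 1 - i = n - i := by omega
    have h4 : n - (n - i) = i := by omega
    have h5 : s ^ (k * i + 1) = (s ^ k) ^ i * s := by rw [pow_succ, pow_mul]
    rw [h3, h4, h2, h5]
    ring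
  unfold Lam fB fA
  rw [e1, e2]
  exact h

end Pool.MP_a95293_nt.RC
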