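import Pool.Agent.Lib_MP_a95293_rc.PadeA

/-!
# Piece PADL: the divided difference identity behind the Padé approximants
-/

set_option autoImplicit false

namespace Pool.MP_a95293_nt.RC

open Finset

private theorem PadeL_split (f : ℕ → ℚ) {n i : ℕ} (hi : i ≤ n) :
    ∏ j ∈ range (n + 1), f j =
      (∏ t ∈ range i, f (i - 1 - t)) * f i * ∏ t ∈ range (n - i), f (i + 1 + t) := by
  have h : n + 1 = i + 1 + (n - i) := by omega
  rw [h, prod_range_add, prod_range_succ, prod_range_reflect]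

private theorem PadeL_erase (f : ℕ → ℚ) {n i : ℕ} (hi : i ≤ n) :
    ∏ j ∈ (range (n + 1)).erase i, f j =
      (∏ t ∈ range i, f (i - 1 - t)) * ∏ t ∈ range (n - i), f (i + 1 + t) := by
  have h1 := PadeL_split (Function.update f i 1) hi
  have hmem : i ∈ range (n + 1) := mem_range.2 (by omega)
  rw [← mul_prod_erase _ _ hmem, Function.update_self, one_mul, mul_one] at h1
  have e1 : ∏ j ∈ (range (n + 1)).erase i, Function.update f i 1 j =
      ∏ j ∈ (range (n + 1)).erase i, f j :=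
    prod_congr rfl fun j hj => Function.update_of_ne (ne_of_mem_erase hj) _ _
  have e2 : ∏ t ∈ range i, Function.update f i 1 (i - 1 - t) = ∏ t ∈ range i, f (i - 1 - t) :=
    prod_congr rfl fun t ht => Function.update_of_ne (by
      rw [mem_range] at ht
      omega) _ _
  have e3 : ∏ t ∈ range (n - i), Function.update f i 1 (i + 1 + t) =
      ∏ t ∈ range (n - i), f (i + 1 + t) :=
    prod_congr rfl fun t _ => Function.update_of_ne (by omega) _ _
  rw [e1, e2, e3] at h1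
  exact h1

private theorem PadeL_cast {i t : ℕ} (ht : t < i) : ((i - 1 - t : ℕ) : ℚ) = i - 1 - t := by
  rw [Nat.sub_sub, Nat.cast_sub (by omega)]
  push_cast
  ring

private theorem PadeL_fact (k m : ℕ) : ∏ t ∈ range m, ((k : ℚ) * (t + 1)) = (k : ℚ) ^ m * m.factorial := by
  rw [prod_mul_distrib, prod_const, card_range]
  congr 1
  exact_mod_cast prod_range_add_one_eq_factorial m

private theorem PadeL_neg (f : ℕ → ℚ) (m : ℕ) : ∏ t ∈ range m, (-f t) = (-1) ^ m * ∏ t ∈ range m, f t := by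
  rw [prod_neg, card_range]

private theorem PadeL_er (k n i : ℕ) (hi : i ≤ n) :
    ∏ j ∈ (range (n + 1)).erase i, ((k * i : ℚ) - k * j) =
      (-1) ^ (n - i) * ((k : ℚ) ^ n * i.factorial * (n - i).factorial) := by
  have h1 : ∏ j ∈ (range (n + 1)).erase i, ((k * i : ℚ) - k * j) =
      (∏ t ∈ range i, ((k * i : ℚ) - k * ((i - 1 - t : ℕ) : ℚ))) *
        ∏ t ∈ range (n - i), ((k * i : ℚ) - k * ((i + 1 + t : ℕ) : ℚ)) :=
    PadeL_erase (fun j => (k * i : ℚ) - k * j) hi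
  have h2 : ∏ t ∈ range i, ((k * i : ℚ) - k * ((i - 1 - t : ℕ) : ℚ)) =
      ∏ t ∈ range i, ((k : ℚ) * (t + 1)) := by
    refine prod_congr rfl fun t ht => ?_
    rw [PadeL_cast (mem_range.1 ht)]
    ring
  have h3 : ∏ t ∈ range (n - i), ((k * i : ℚ) - k * ((i + 1 + t : ℕ) : ℚ)) =
      ∏ t ∈ range (n - i), (-((k : ℚ) * (t + 1))) := by
    refine prod_congr rfl fun t _ => ?_
    push_cast
    ring
  have h4 : (k : ℚ) ^ n = (k : ℚ) ^ i * (k : ℚ) ^ (n - i) := by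
    rw [← pow_add]
    congr 1
    omega
  rw [h1, h2, h3, PadeL_neg, PadeL_fact, PadeL_fact, h4]
  ring

private theorem PadeL_sq (m : ℕ) : ((-1 : ℚ) ^ m) * (-1) ^ m = 1 := by
  rw [← mul_pow]
  norm_num

private theorem PadeL_top (h : ℕ → ℚ) {n i : ℕ} (hi : i ≤ n) :
    (∏ t ∈ range i, h (n - 1 - t)) * ∏ t ∈ range (n - i), h t = ∏ t ∈ range n, h t := by
  have h1 : ∏ t ∈ range n, h t = ∏ t ∈ range (n - i + i), h t := by
    rw [Nat.sub_add_cancel hi]
  rw [h1, prod_range_add, mul_comm]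
  congr 1
  rw [← prod_range_reflect]
  refine prod_congr rfl fun t ht => ?_
  rw [mem_range] at ht
  congr 1
  omega

/-- The product of the differences of a node `k i` to all the other nodes `k j`, `k j + 1` (`j ≤ n`).
PROOF: `∏_{j ≠ i} (k i - k j) = k^n (-1)^(n-i) i! (n-i)!` and
`∏_{j ≤ n} (k i - (k j + 1)) = ∏_{j ≤ i} (k (i-j) - 1) * ∏_{i < j ≤ n} (-(k (j-i) + 1))
 = - ∏_{t=1}^{i} (k t - 1) * (-1)^(n-i) ∏_{t=1}^{n-i} (k t + 1)`. -/
theorem node_even (k n i : ℕ) (hk : 2 ≤ k) (hi : i ≤ n) :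
    (∏ j ∈ (range (n + 1)).erase i, ((k * i : ℚ) - k * j)) * ∏ j ∈ range (n + 1), ((k * i : ℚ) - (k * j + 1)) =
      -((k : ℚ) ^ n * i.factorial * (n - i).factorial * (∏ t ∈ range i, ((k : ℚ) * (t + 1) - 1)) *
        ∏ t ∈ range (n - i), ((k : ℚ) * (t + 1) + 1)) := by
  have h1 : ∏ j ∈ range (n + 1), ((k * i : ℚ) - (k * j + 1)) =
      (∏ t ∈ range i, ((k * i : ℚ) - (k * ((i - 1 - t : ℕ) : ℚ) + 1))) * ((k * i : ℚ) - (k * i + 1)) *
        ∏ t ∈ range (n - i), ((k * i : ℚ) - (k * ((i + 1 + t : ℕ) : ℚ) + 1)) :=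
    PadeL_split (fun j => (k * i : ℚ) - (k * j + 1)) hi
  have h2 : ∏ t ∈ range i, ((k * i : ℚ) - (k * ((i - 1 - t : ℕ) : ℚ) + 1)) =
      ∏ t ∈ range i, ((k : ℚ) * (t + 1) - 1) := by
    refine prod_congr rfl fun t ht => ?_
    rw [PadeL_cast (mem_range.1 ht)]
    ring
  have h3 : ∏ t ∈ range (n - i), ((k * i : ℚ) - (k * ((i + 1 + t : ℕ) : ℚ) + 1)) =
      ∏ t ∈ range (n - i), (-((k : ℚ) * (t + 1) + 1)) := by
    refine prod_congr rfl fun t _ => ?_
    push_cast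
    ring
  rw [PadeL_er k n i hi, h1, h2, h3, PadeL_neg]
  linear_combination (-((k : ℚ) ^ n * i.factorial * (n - i).factorial *
    (∏ t ∈ range i, ((k : ℚ) * (t + 1) - 1)) *
        ∏ t ∈ range (n - i), ((k : ℚ) * (t + 1) + 1))) * PadeL_sq (n - i)

/-- The same for a node `k i + 1`.
PROOF: `∏_{j ≤ n} (k i + 1 - k j) = ∏_{t=1}^{i} (k t + 1) * ∏_{t=1}^{n-i} (-(k t - 1))` and
`∏_{j ≠ i} (k i - k j) = k^n (-1)^(n-i) i! (n-i)!`. -/
theorem node_odd (k n i : ℕ) (hk : 2 ≤ k) (hi : i ≤ n) :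
    (∏ j ∈ range (n + 1), ((k * i + 1 : ℚ) - k * j)) * ∏ j ∈ (range (n + 1)).erase i, ((k * i + 1 : ℚ) - (k * j + 1)) =
      (k : ℚ) ^ n * i.factorial * (n - i).factorial * (∏ t ∈ range i, ((k : ℚ) * (t + 1) + 1)) *
        ∏ t ∈ range (n - i), ((k : ℚ) * (t + 1) - 1) := by
  have h1 : ∏ j ∈ range (n + 1), ((k * i + 1 : ℚ) - k * j) =
      (∏ t ∈ range i, ((k * i + 1 : ℚ) - k * ((i - 1 - t : ℕ) : ℚ))) * ((k * i + 1 : ℚ) - k * i) *
        ∏ t ∈ range (n - i), ((k * i + 1 : ℚ) - k * ((i + 1 + t : ℕ) : ℚ)) :=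
    PadeL_split (fun j => (k * i + 1 : ℚ) - k * j) hi
  have h2 : ∏ t ∈ range i, ((k * i + 1 : ℚ) - k * ((i - 1 - t : ℕ) : ℚ)) =
      ∏ t ∈ range i, ((k : ℚ) * (t + 1) + 1) := by
    refine prod_congr rfl fun t ht => ?_
    rw [PadeL_cast (mem_range.1 ht)]
    ring
  have h3 : ∏ t ∈ range (n - i), ((k * i + 1 : ℚ) - k * ((i + 1 + t : ℕ) : ℚ)) =
      ∏ t ∈ range (n - i), (-((k : ℚ) * (t + 1) - 1)) := by
    refine prod_congr rfl fun t _ => ?_
    push_cast
    ring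
  have h4 : ∏ j ∈ (range (n + 1)).erase i, ((k * i + 1 : ℚ) - (k * j + 1)) =
      ∏ j ∈ (range (n + 1)).erase i, ((k * i : ℚ) - k * j) := by
    refine prod_congr rfl fun t _ => ?_
    ring
  rw [h4, PadeL_er k n i hi, h1, h2, h3, PadeL_neg]
  linear_combination ((k : ℚ) ^ n * i.factorial * (n - i).factorial *
    (∏ t ∈ range i, ((k : ℚ) * (t + 1) + 1)) *
        ∏ t ∈ range (n - i), ((k : ℚ) * (t + 1) - 1)) * PadeL_sq (n - i)

/-- PROOF: `gp k n i i! = k^i ∏_{t=n-i+1}^{n} (k t + 1)`, `gm k n (n-i) (n-i)! = k^(n-i) ∏_{t=i+1}^{n} (k t - 1)` (`gp_mul`,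
`gm_mul`, `Finset.prod_range_reflect`, `Finset.prod_range_add`-type splittings; casts of `k (n - t) - 1` with `n - t ≥ 1`). -/
theorem cf_eq (k n i : ℕ) (hk : 2 ≤ k) (hi : i ≤ n) :
    (cf k n i : ℚ) * (i.factorial * (n - i).factorial * (∏ t ∈ range i, ((k : ℚ) * (t + 1) - 1)) *
        ∏ t ∈ range (n - i), ((k : ℚ) * (t + 1) + 1)) =
      (k : ℚ) ^ n * (∏ t ∈ range n, ((k : ℚ) * (t + 1) - 1)) * ∏ t ∈ range n, ((k : ℚ) * (t + 1) + 1) := by
  have hgp : (gp k n i : ℚ) * i.factorial = (k : ℚ) ^ i * ∏ t ∈ range i, ((k : ℚ) * ((n - t : ℕ) : ℚ) + 1) := by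
    exact_mod_cast gp_mul k n i hi
  have hgm : (gm k n (n - i) : ℚ) * (n - i).factorial =
      (k : ℚ) ^ (n - i) * ∏ t ∈ range (n - i), ((k : ℚ) * ((n - t : ℕ) : ℚ) - 1) := by
    have h1 : ((gm k n (n - i) * (n - i).factorial : ℕ) : ℚ) =
        ((k ^ (n - i) * ∏ t ∈ range (n - i), (k * (n - t) - 1) : ℕ) : ℚ) := by
      rw [gm_mul k n (n - i) (by omega) (Nat.sub_le _ _)]
    rw [Nat.cast_mul, Nat.cast_mul, Nat.cast_pow, Nat.cast_prod] at h1
    rw [h1]
    congr 1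
    refine prod_congr rfl fun t ht => ?_
    rw [mem_range] at ht
    have h2 : 1 * 1 ≤ k * (n - t) := Nat.mul_le_mul (by omega) (by omega)
    rw [Nat.cast_sub (by omega), Nat.cast_mul, Nat.cast_one]
  have ht1 : (∏ t ∈ range i, ((k : ℚ) * ((n - t : ℕ) : ℚ) + 1)) *
      ∏ t ∈ range (n - i), ((k : ℚ) * (t + 1) + 1) = ∏ t ∈ range n, ((k : ℚ) * (t + 1) + 1) := by
    rw [← PadeL_top (fun t => (k : ℚ) * (t + 1) + 1) hi]
    congr 1
    refine prod_congr rfl fun t ht => ?_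
    rw [mem_range] at ht
    have h1 : ((n - t : ℕ) : ℚ) = ((n - 1 - t : ℕ) : ℚ) + 1 := by
      rw [← Nat.cast_add_one]
      congr 1
      omega
    rw [h1]
  have ht2 : (∏ t ∈ range (n - i), ((k : ℚ) * ((n - t : ℕ) : ℚ) - 1)) *
      ∏ t ∈ range i, ((k : ℚ) * (t + 1) - 1) = ∏ t ∈ range n, ((k : ℚ) * (t + 1) - 1) := by
    rw [← PadeL_top (fun t => (k : ℚ) * (t + 1) - 1) (Nat.sub_le n i), Nat.sub_sub_self hi]
    congr 1
    refine prod_congr rfl fun t ht => ?_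
    rw [mem_range] at ht
    have h1 : ((n - t : ℕ) : ℚ) = ((n - 1 - t : ℕ) : ℚ) + 1 := by
      rw [← Nat.cast_add_one]
      congr 1
      omega
    rw [h1]
  have h4 : (k : ℚ) ^ n = (k : ℚ) ^ i * (k : ℚ) ^ (n - i) := by
    rw [← pow_add]
    congr 1
    omega
  have h5 : (cf k n i : ℚ) = gp k n i * gm k n (n - i) := by
    unfold cf
    push_cast
    rfl
  rw [h5, h4, ← ht1, ← ht2]
  calc (gp k n i : ℚ) * gm k n (n - i) * (i.factorial * (n - i).factorial *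
        (∏ t ∈ range i, ((k : ℚ) * (t + 1) - 1)) * ∏ t ∈ range (n - i), ((k : ℚ) * (t + 1) + 1)) =
      ((gp k n i : ℚ) * i.factorial) * ((gm k n (n - i) : ℚ) * (n - i).factorial) *
        ((∏ t ∈ range i, ((k : ℚ) * (t + 1) - 1)) *
          ∏ t ∈ range (n - i), ((k : ℚ) * (t + 1) + 1)) := by ring
    _ = _ := by
        rw [hgp, hgm]
        ring

/-- **The identity**.
PROOF: `Lagrange.coeff_eq_sum` for the `2n + 2` distinct nodes `v (i, false) = k i`, `v (i, true) = k i + 1` on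
`range (n+1) ×ˢ univ : Finset (ℕ × Bool)` (or on `(range (n+1)).disjSum (range (n+1))`): since `natDegree q ≤ 2n`, the coefficient
of index `2n + 1` vanishes, so `∑_i q(k i) / (node_even i) + ∑_i q(k i + 1) / (node_odd i) = 0`. Multiply by
`- k^n * k^n * ∏ (k t - 1) * ∏ (k t + 1)`... : by `cf_eq`, `node_even`: the weight of `k i` is `- cf k n i / K` and by `cf_eq` for
`n - i` and `node_odd` the weight of `k i + 1` is `cf k n (n - i) / K` with the common nonzero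
`K = k^n * k^n * ∏_{t ≤ n} (k t - 1) * ∏_{t ≤ n} (k t + 1)`. -/
theorem lag (k n : ℕ) (hk : 2 ≤ k) (q : Polynomial ℚ) (hq : q.natDegree ≤ 2 * n) :
    ∑ i ∈ range (n + 1), (cf k n i : ℚ) * q.eval ((k * i : ℚ)) =
      ∑ i ∈ range (n + 1), (cf k n (n - i) : ℚ) * q.eval ((k * i + 1 : ℚ)) := by
  classical
  set Pm := ∏ t ∈ range n, ((k : ℚ) * (t + 1) - 1) with hPm
  set Pp := ∏ t ∈ range n, ((k : ℚ) * (t + 1) + 1) with hPp
  have hk0 : (k : ℚ) ≠ 0 := by
    have : 0 < k := by omega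
    positivity
  have hk2 : (2 : ℚ) ≤ k := by exact_mod_cast hk
  have hm0 : ∀ t : ℕ, (k : ℚ) * (t + 1) - 1 ≠ 0 := by
    intro t
    have h1 : (0 : ℚ) ≤ t := Nat.cast_nonneg t
    have : (0 : ℚ) < (k : ℚ) * (t + 1) - 1 := by nlinarith
    exact this.ne'
  have hp0 : ∀ t : ℕ, (k : ℚ) * (t + 1) + 1 ≠ 0 := by
    intro t
    positivity
  have hPm0 : Pm ≠ 0 := prod_ne_zero_iff.2 fun t _ => hm0 t
  have hPp0 : Pp ≠ 0 := prod_ne_zero_iff.2 fun t _ => hp0 t
  have hkn : (k : ℚ) ^ n ≠ 0 := pow_ne_zero _ hk0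
  set K := (k : ℚ) ^ n * ((k : ℚ) ^ n * Pm * Pp) with hK
  have hK0 : K ≠ 0 := by positivity
  -- the nodes
  set s := (range (n + 1)).disjSum (range (n + 1)) with hs
  set v : ℕ ⊕ ℕ → ℚ := Sum.elim (fun i => (k * i : ℚ)) (fun i => (k * i + 1 : ℚ)) with hv
  have hcard : #s = 2 * n + 2 := by
    rw [hs, card_disjSum, card_range]
    ring
  have hne : ∀ i j : ℕ, (k * i : ℚ) ≠ k * j + 1 := by
    intro i j h
    have h1 : k * i = k * j + 1 := by exact_mod_cast h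
    have h2 : k ∣ 1 := (Nat.dvd_add_right (dvd_mul_right k j)).1 (h1 ▸ dvd_mul_right k i)
    have h3 := Nat.le_of_dvd one_pos h2
    omega
  have hinj : Set.InjOn v s := by
    rintro (i | i) _ (j | j) _ h
    · have h1 : (k * i : ℚ) = k * j := h
      rw [Nat.cast_injective (mul_left_cancel₀ hk0 h1)]
    · exact absurd h (hne i j)
    · exact absurd h.symm (hne j i)
    · have h1 : (k * i + 1 : ℚ) = k * j + 1 := h
      rw [Nat.cast_injective (mul_left_cancel₀ hk0 (add_right_cancel h1))]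
  have hdeg : q.degree < #s := by
    refine lt_of_le_of_lt (Polynomial.degree_le_natDegree) ?_
    rw [hcard]
    exact_mod_cast (by omega : q.natDegree < 2 * n + 2)
  have h0 := Lagrange.coeff_eq_sum hinj hdeg
  rw [hcard, show 2 * n + 2 - 1 = 2 * n + 1 by omega,
    Polynomial.coeff_eq_zero_of_natDegree_lt (by omega), hs, sum_disjSum] at h0
  have he : ∀ i ∈ range (n + 1), q.eval (v (Sum.inl i)) /
      ∏ j ∈ ((range (n + 1)).disjSum (range (n + 1))).erase (Sum.inl i), (v (Sum.inl i) - v j) =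
      -((cf k n i : ℚ) * q.eval (k * i : ℚ)) / K := by
    intro i hi
    have hi' : i ≤ n := by
      rw [mem_range] at hi
      omega
    have e1 : ((range (n + 1)).disjSum (range (n + 1))).erase (Sum.inl i) =
        ((range (n + 1)).erase i).disjSum (range (n + 1)) := by
      ext (a | a) <;> simp
    have e2 : ∏ j ∈ ((range (n + 1)).disjSum (range (n + 1))).erase (Sum.inl i),
        (v (Sum.inl i) - v j) = -((k : ℚ) ^ n * i.factorial * (n - i).factorial *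
          (∏ t ∈ range i, ((k : ℚ) * (t + 1) - 1)) *
        ∏ t ∈ range (n - i), ((k : ℚ) * (t + 1) + 1)) := by
      rw [e1, prod_disjSum, ← node_even k n i hk hi']
      rfl
    have e3 := cf_eq k n i hk hi'
    rw [← hPm, ← hPp] at e3
    rw [e2]
    set A := ∏ t ∈ range i, ((k : ℚ) * (t + 1) - 1)
    set B := ∏ t ∈ range (n - i), ((k : ℚ) * (t + 1) + 1)
    have hA : A ≠ 0 := prod_ne_zero_iff.2 fun t _ => hm0 t
    have hB : B ≠ 0 := prod_ne_zero_iff.2 fun t _ => hp0 t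
    have hf1 : (i.factorial : ℚ) ≠ 0 := by positivity
    have hf2 : ((n - i).factorial : ℚ) ≠ 0 := by positivity
    rw [div_eq_div_iff (neg_ne_zero.2 (by positivity)) hK0, hK, ← e3]
    show q.eval (k * i : ℚ) * _ = _
    ring
  have ho : ∀ i ∈ range (n + 1), q.eval (v (Sum.inr i)) /
      ∏ j ∈ ((range (n + 1)).disjSum (range (n + 1))).erase (Sum.inr i), (v (Sum.inr i) - v j) =
      ((cf k n (n - i) : ℚ) * q.eval (k * i + 1 : ℚ)) / K := by
    intro i hi
    have hi' : i ≤ n := by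
      rw [mem_range] at hi
      omega
    have e1 : ((range (n + 1)).disjSum (range (n + 1))).erase (Sum.inr i) =
        (range (n + 1)).disjSum ((range (n + 1)).erase i) := by
      ext (a | a) <;> simp
    have e2 : ∏ j ∈ ((range (n + 1)).disjSum (range (n + 1))).erase (Sum.inr i),
        (v (Sum.inr i) - v j) = (k : ℚ) ^ n * i.factorial * (n - i).factorial *
          (∏ t ∈ range i, ((k : ℚ) * (t + 1) + 1)) *
        ∏ t ∈ range (n - i), ((k : ℚ) * (t + 1) - 1) := by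
      rw [e1, prod_disjSum, ← node_odd k n i hk hi']
      rfl
    have e3 := cf_eq k n (n - i) hk (Nat.sub_le _ _)
    rw [← hPm, ← hPp, Nat.sub_sub_self hi'] at e3
    rw [e2]
    set A := ∏ t ∈ range i, ((k : ℚ) * (t + 1) + 1)
    set B := ∏ t ∈ range (n - i), ((k : ℚ) * (t + 1) - 1)
    have hA : A ≠ 0 := prod_ne_zero_iff.2 fun t _ => hp0 t
    have hB : B ≠ 0 := prod_ne_zero_iff.2 fun t _ => hm0 t
    have hf1 : (i.factorial : ℚ) ≠ 0 := by positivity
    have hf2 : ((n - i).factorial : ℚ) ≠ 0 := by positivity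
    rw [div_eq_div_iff (by positivity) hK0, hK, ← e3]
    show q.eval (k * i + 1 : ℚ) * _ = _
    ring
  rw [sum_congr rfl he, sum_congr rfl ho, ← sum_div, ← sum_div, ← add_div, eq_comm,
    div_eq_zero_iff, or_iff_left hK0, sum_neg_distrib] at h0
  linarith

end Pool.MP_a95293_nt.RC
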