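import Pool.Agent.Lib_MP_a95293_rc.PadeD

/-!
# Piece PADW: the Padé determinant vanishes to order `2n+1` at `1`
-/

set_option autoImplicit false

namespace Pool.MP_a95293_nt.RC

open Finset

/-- the polynomial `A_n(X, 1)` -/
noncomputable def pA (k n : ℕ) : Polynomial ℚ := ∑ i ∈ range (n + 1), Polynomial.C (cf k n i : ℚ) * Polynomial.X ^ i

/-- the polynomial `B_n(X, 1)` -/
noncomputable def pB (k n : ℕ) : Polynomial ℚ := ∑ i ∈ range (n + 1), Polynomial.C (cf k n (n - i) : ℚ) * Polynomial.X ^ i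

/-- PROOF: `T^i`-expansion: the polynomial `A_n(T^k) - T B_n(T^k) = ∑ cf_i T^(ki) - ∑ cf_(n-i) T^(ki+1)` has all Taylor coefficients of
index `m ≤ 2n` at `1` equal to `∑ cf_i C(ki, m) - ∑ cf_(n-i) C(ki+1, m) = 0` (`lag_choose`); e.g. use `Polynomial.X_sub_C_pow_dvd_iff`
(`(X - C t)^n ∣ p ↔ X^n ∣ p.comp (X + C t)`) and `Polynomial.X_pow_dvd_iff`, `Polynomial.coeff_X_add_C_pow` (coefficients of `(X + 1)^(ki)`). -/
theorem pAB_dvd (k n : ℕ) (hk : 2 ≤ k) :
    (Polynomial.X - Polynomial.C (1 : ℚ)) ^ (2 * n + 1) ∣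
      (pA k n).comp (Polynomial.X ^ k) - Polynomial.X * (pB k n).comp (Polynomial.X ^ k) := by
  have h := PadeD_gen (R := Polynomial ℚ) k n hk Polynomial.X (Polynomial.C 1)
  have e : (pA k n).comp (Polynomial.X ^ k) - Polynomial.X * (pB k n).comp (Polynomial.X ^ k) =
      ∑ i ∈ range (n + 1), (cf k n i : Polynomial ℚ) *
        (Polynomial.X ^ (k * i) * Polynomial.C 1 ^ (k * n + 1 - k * i)) -
      ∑ i ∈ range (n + 1), (cf k n (n - i) : Polynomial ℚ) *
        (Polynomial.X ^ (k * i + 1) * Polynomial.C 1 ^ (k * n + 1 - (k * i + 1))) := by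
    unfold pA pB
    rw [Polynomial.sum_comp, Polynomial.sum_comp, mul_sum]
    congr 1
    · refine sum_congr rfl fun i _ => ?_
      rw [Polynomial.mul_comp, Polynomial.C_comp, Polynomial.X_pow_comp, ← pow_mul,
        Polynomial.C_1, one_pow, mul_one]
      simp
    · refine sum_congr rfl fun i _ => ?_
      rw [Polynomial.mul_comp, Polynomial.C_comp, Polynomial.X_pow_comp, ← pow_mul,
        Polynomial.C_1, one_pow, mul_one, pow_succ]
      simp
      ring
  rw [e]
  exact h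

/-- the determinant -/
noncomputable def pW (k n : ℕ) : Polynomial ℚ := pA k n * pB k (n + 1) - pA k (n + 1) * pB k n

/-- PROOF: `T W(T^k) = A_(n+1)(T^k) Λ_n - A_n(T^k) Λ_(n+1)` with `Λ_m = A_m(T^k) - T B_m(T^k)`, so `(T-1)^(2n+1) ∣ T W(T^k)`
(`pAB_dvd` for `n` and `n+1`), and `T` is coprime to `T - 1`, so `(T-1)^(2n+1) ∣ W(T^k)`. Let `W ≠ 0` (else trivial) and write
`W = (X-1)^μ E` with `E(1) ≠ 0` (`Polynomial.exists_eq_pow_rootMultiplicity_mul_and_not_dvd`). `W(T^k) = (T^k-1)^μ E(T^k) = (T-1)^μ G^μ E(T^k)`,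
`G = ∑_{i<k} T^i` (`mul_geom_sum`/`Commute.geom_sum₂_mul`), the last two factors do not vanish at `1` (`G(1) = k`), so `2n+1 ≤ μ`. -/
theorem pW_dvd (k n : ℕ) (hk : 2 ≤ k) : (Polynomial.X - Polynomial.C (1 : ℚ)) ^ (2 * n + 1) ∣ pW k n := by
  have hA := pAB_dvd k n hk
  have hB := (pow_dvd_pow (Polynomial.X - Polynomial.C (1 : ℚ))
    (show 2 * n + 1 ≤ 2 * (n + 1) + 1 by omega)).trans (pAB_dvd k (n + 1) hk)
  have h1 : (Polynomial.X - Polynomial.C (1 : ℚ)) ^ (2 * n + 1) ∣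
      Polynomial.X * (pW k n).comp (Polynomial.X ^ k) := by
    have e : Polynomial.X * (pW k n).comp (Polynomial.X ^ k) =
        (pA k (n + 1)).comp (Polynomial.X ^ k) *
          ((pA k n).comp (Polynomial.X ^ k) - Polynomial.X * (pB k n).comp (Polynomial.X ^ k)) -
        (pA k n).comp (Polynomial.X ^ k) *
          ((pA k (n + 1)).comp (Polynomial.X ^ k) -
            Polynomial.X * (pB k (n + 1)).comp (Polynomial.X ^ k)) := by
      unfold pW
      rw [Polynomial.sub_comp, Polynomial.mul_comp, Polynomial.mul_comp]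
      ring
    rw [e]
    exact dvd_sub (hA.mul_left _) (hB.mul_left _)
  have h2 : IsCoprime ((Polynomial.X - Polynomial.C (1 : ℚ)) ^ (2 * n + 1)) Polynomial.X := by
    apply IsCoprime.pow_left
    exact ⟨-1, 1, by
      rw [Polynomial.C_1]
      ring⟩
  have h3 := h2.dvd_of_dvd_mul_left h1
  by_cases hW : pW k n = 0
  · rw [hW]
    exact dvd_zero _
  obtain ⟨E, hE, hnd⟩ := Polynomial.exists_eq_pow_rootMultiplicity_mul_and_not_dvd (pW k n) hW 1
  generalize (pW k n).rootMultiplicity 1 = μ at hE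
  by_contra hcon
  have hμ : μ < 2 * n + 1 := by
    by_contra hge
    apply hcon
    rw [hE]
    exact (pow_dvd_pow _ (by omega)).mul_right _
  set G := ∑ i ∈ range k, (Polynomial.X : Polynomial ℚ) ^ i with hGd
  have hG : (Polynomial.X ^ k : Polynomial ℚ) - Polynomial.C 1 =
      (Polynomial.X - Polynomial.C 1) * G := by
    rw [Polynomial.C_1, mul_geom_sum]
  have h4 : (pW k n).comp (Polynomial.X ^ k) =
      (Polynomial.X - Polynomial.C 1) ^ μ * (G ^ μ * E.comp (Polynomial.X ^ k)) := by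
    rw [hE, Polynomial.mul_comp, Polynomial.pow_comp, Polynomial.sub_comp, Polynomial.X_comp,
      Polynomial.C_comp, hG, mul_pow]
    ring
  rw [h4] at h3
  have h5 : (Polynomial.X - Polynomial.C (1 : ℚ)) ^ μ * (Polynomial.X - Polynomial.C 1) ∣
      (Polynomial.X - Polynomial.C 1) ^ μ * (G ^ μ * E.comp (Polynomial.X ^ k)) := by
    refine Dvd.dvd.trans ?_ h3
    rw [← pow_succ]
    exact pow_dvd_pow _ (by omega)
  have h6 : Polynomial.X - Polynomial.C (1 : ℚ) ∣ G ^ μ * E.comp (Polynomial.X ^ k) :=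
    (mul_dvd_mul_iff_left (pow_ne_zero _ (Polynomial.X_sub_C_ne_zero 1))).1 h5
  rw [Polynomial.dvd_iff_isRoot, Polynomial.IsRoot.def, Polynomial.eval_mul, Polynomial.eval_pow,
    Polynomial.eval_comp, Polynomial.eval_pow, Polynomial.eval_X, one_pow] at h6
  have hG1 : G.eval 1 = k := by
    rw [hGd, Polynomial.eval_finsetSum]
    simp
  have hk0 : (k : ℚ) ≠ 0 := by
    have : 0 < k := by omega
    positivity
  rcases mul_eq_zero.1 h6 with h7 | h7
  · rw [hG1] at h7
    exact pow_ne_zero _ hk0 h7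
  · exact hnd (Polynomial.dvd_iff_isRoot.2 h7)

end Pool.MP_a95293_nt.RC
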