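import Pool.Agent.Lib_MP_a95293_rc.Defs

/-!
# Piece PARZ: the parameters, the first term
-/

set_option autoImplicit false

namespace Pool.MP_a95293_nt.RC

open Finset

/-- the parameter `z = ⌊Λ^(1/3)⌋`, `Λ = log X` -/
noncomputable def zz (Λ : ℝ) : ℕ := ⌊Λ ^ (1 / 3 : ℝ)⌋₊

/-- the parameter `w = ⌊z^(δ/3)⌋` -/
noncomputable def ww (δ Λ : ℝ) : ℕ := ⌊(zz Λ : ℝ) ^ (δ / 3)⌋₊

/-- the parameter `y = ⌊z^(1-δ)⌋` -/
noncomputable def yy (δ Λ : ℝ) : ℕ := ⌊(zz Λ : ℝ) ^ (1 - δ)⌋₊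

theorem par_ev (K a b : ℝ) (hab : a < b) : ∀ᶠ Λ : ℝ in Filter.atTop, K * Λ ^ a ≤ Λ ^ b := by
  have h1 := (tendsto_rpow_atTop (sub_pos.2 hab)).eventually_ge_atTop K
  filter_upwards [h1, Filter.eventually_gt_atTop 0] with Λ h2 h3
  calc K * Λ ^ a ≤ Λ ^ (b - a) * Λ ^ a := mul_le_mul_of_nonneg_right h2 (by positivity)
    _ = Λ ^ b := by
        rw [← Real.rpow_add h3]
        congr 1
        ring

theorem par_log (K b : ℝ) (hb : 0 < b) :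
    ∀ᶠ Λ : ℝ in Filter.atTop, K * Real.log (1 + Λ) ≤ Λ ^ b := by
  filter_upwards [par_ev (2 * |K|) 0 b hb, par_ev (2 * |K| * (2 / b)) (b / 2) b (by linarith),
    Filter.eventually_ge_atTop 1] with Λ h1 h2 h3
  have h4 : Real.log (1 + Λ) ≤ 1 + Real.log Λ := by
    have e1 : Real.log (1 + Λ) ≤ Real.log (2 * Λ) := Real.log_le_log (by linarith) (by linarith)
    rw [Real.log_mul (by norm_num) (by linarith)] at e1
    have := Real.log_two_lt_d9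
    linarith
  have h5 : Real.log Λ ≤ Λ ^ (b / 2) / (b / 2) := Real.log_le_rpow_div (by linarith) (by linarith)
  have h6 : 0 ≤ Real.log (1 + Λ) := Real.log_nonneg (by linarith)
  have h7 : K * Real.log (1 + Λ) ≤ |K| * Real.log (1 + Λ) :=
    mul_le_mul_of_nonneg_right (le_abs_self K) h6
  have h8 : |K| * Real.log (1 + Λ) ≤ |K| * (1 + Λ ^ (b / 2) / (b / 2)) :=
    mul_le_mul_of_nonneg_left (by linarith) (abs_nonneg K)
  rw [Real.rpow_zero, mul_one] at h1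
  have h9 : |K| * (1 + Λ ^ (b / 2) / (b / 2)) =
      (2 * |K| + 2 * |K| * (2 / b) * Λ ^ (b / 2)) / 2 := by
    field_simp
  linarith

theorem zz_le {Λ : ℝ} (h : 0 ≤ Λ) : (zz Λ : ℝ) ≤ Λ ^ (1 / 3 : ℝ) := Nat.floor_le (by positivity)

theorem zz_ge : ∀ᶠ Λ : ℝ in Filter.atTop, Λ ^ (1 / 3 : ℝ) / 2 ≤ zz Λ := by
  filter_upwards [par_ev 2 0 (1 / 3) (by norm_num)] with Λ h1
  rw [Real.rpow_zero, mul_one] at h1
  have := Nat.lt_floor_add_one (Λ ^ (1 / 3 : ℝ))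
  unfold zz
  linarith

theorem ww_le_z {δ Λ : ℝ} : (ww δ Λ : ℝ) ≤ (zz Λ : ℝ) ^ (δ / 3) := Nat.floor_le (by positivity)

theorem ww_le {δ Λ : ℝ} (hδ : 0 < δ) (h : 0 ≤ Λ) : (ww δ Λ : ℝ) ≤ Λ ^ (δ / 9) := by
  refine ww_le_z.trans ?_
  refine (Real.rpow_le_rpow (Nat.cast_nonneg _) (zz_le h) (by linarith)).trans ?_
  rw [← Real.rpow_mul h]
  apply le_of_eq
  congr 1
  ring

theorem ww_ge {δ : ℝ} (hδ : 0 < δ) (hδ1 : δ ≤ 1 / 4) :
    ∀ᶠ Λ : ℝ in Filter.atTop, Λ ^ (δ / 9) / 4 ≤ ww δ Λ := by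
  filter_upwards [zz_ge, par_ev 4 0 (δ / 9) (by linarith), Filter.eventually_ge_atTop 1] with
    Λ h1 h2 h3
  rw [Real.rpow_zero, mul_one] at h2
  have h4 := Nat.lt_floor_add_one ((zz Λ : ℝ) ^ (δ / 3))
  have h5 : Λ ^ (δ / 9) / 2 ≤ (zz Λ : ℝ) ^ (δ / 3) := by
    calc Λ ^ (δ / 9) / 2 ≤ Λ ^ (δ / 9) / 2 ^ (δ / 3) := by
          apply div_le_div_of_nonneg_left (by positivity) (by positivity)
          calc (2 : ℝ) ^ (δ / 3) ≤ 2 ^ (1 : ℝ) :=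
                Real.rpow_le_rpow_of_exponent_le (by norm_num) (by linarith)
            _ = 2 := Real.rpow_one 2
      _ = (Λ ^ (1 / 3 : ℝ) / 2) ^ (δ / 3) := by
          rw [Real.div_rpow (by positivity) (by norm_num), ← Real.rpow_mul (by linarith)]
          congr 2
          ring
      _ ≤ (zz Λ : ℝ) ^ (δ / 3) := Real.rpow_le_rpow (by positivity) h1 (by linarith)
  have h6 : (zz Λ : ℝ) ^ (δ / 3) < (ww δ Λ : ℝ) + 1 := h4
  linarith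

theorem par_third : Real.exp (-2) ≤ 1 / 3 := by
  rw [Real.exp_neg, ← one_div]
  apply one_div_le_one_div_of_le (by norm_num)
  have := Real.add_one_le_exp (2 : ℝ)
  linarith

/-- PROOF: `z → ∞`. -/
theorem zz_tendsto : Filter.Tendsto zz Filter.atTop Filter.atTop := by
  exact tendsto_nat_floor_atTop.comp (tendsto_rpow_atTop (by norm_num))

/-- PROOF: `w ≥ z^(δ/3) - 1 ≥ Λ^(δ/9)/4` for large `Λ`, so `2^(-w) ≤ exp (-(log 2/4) Λ^(δ/9))`, while `C₀ (1+Λ)^(2 C₀) = exp (O(log Λ))` and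
`Λ^(δ/10) = o(Λ^(δ/9))`. -/
theorem par_one (C₀ : ℕ) (hC : 1 ≤ C₀) (δ : ℝ) (hδ : 0 < δ) (hδ1 : δ ≤ 1 / 4) : ∀ᶠ Λ : ℝ in Filter.atTop,
    1 ≤ ww δ Λ ∧ (C₀ : ℝ) / 2 ^ ww δ Λ * (1 + Λ) ^ (2 * C₀) ≤ 1 / 3 * Real.exp (-(Λ ^ (δ / 10))) := by
  filter_upwards [ww_ge hδ hδ1, par_ev (24 * (C₀ + 2)) 0 (δ / 9) (by linarith),
    par_log (48 * C₀) (δ / 9) (by linarith), par_ev 24 (δ / 10) (δ / 9) (by linarith),
    par_ev 4 0 (δ / 9) (by linarith), Filter.eventually_ge_atTop 1] with Λ h1 h2 h3 h4 h5 h6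
  rw [Real.rpow_zero, mul_one] at h2 h5
  have hw : (1 : ℝ) ≤ ww δ Λ := by linarith
  refine ⟨by exact_mod_cast hw, ?_⟩
  have e1 : (C₀ : ℝ) ≤ Real.exp C₀ := by
    have := Real.add_one_le_exp (C₀ : ℝ)
    linarith
  have e2 : (2 : ℝ) ^ ww δ Λ = Real.exp (ww δ Λ * Real.log 2) := by
    rw [mul_comm, Real.exp_mul, Real.exp_log (by norm_num), Real.rpow_natCast]
  have e3 : (1 + Λ) ^ (2 * C₀) = Real.exp (2 * C₀ * Real.log (1 + Λ)) := by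
    rw [mul_comm (2 * (C₀ : ℝ)), Real.exp_mul, Real.exp_log (by linarith)]
    rw [← Real.rpow_natCast]
    push_cast
    rfl
  have e4 := Real.log_two_gt_d9
  have e5 : Λ ^ (δ / 9) / 8 ≤ ww δ Λ * Real.log 2 := by nlinarith
  calc (C₀ : ℝ) / 2 ^ ww δ Λ * (1 + Λ) ^ (2 * C₀) ≤
      Real.exp C₀ / Real.exp (ww δ Λ * Real.log 2) * Real.exp (2 * C₀ * Real.log (1 + Λ)) := by
        rw [e2, e3]
        apply mul_le_mul_of_nonneg_right _ (Real.exp_pos _).le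
        exact div_le_div_of_nonneg_right e1 (Real.exp_pos _).le
    _ = Real.exp (C₀ - ww δ Λ * Real.log 2 + 2 * C₀ * Real.log (1 + Λ)) := by
        rw [Real.exp_add, Real.exp_sub]
    _ ≤ Real.exp (-2 + -(Λ ^ (δ / 10))) := by
        apply Real.exp_le_exp.2
        linarith
    _ = Real.exp (-2) * Real.exp (-(Λ ^ (δ / 10))) := Real.exp_add _ _
    _ ≤ _ := mul_le_mul_of_nonneg_right par_third (Real.exp_pos _).le

end Pool.MP_a95293_nt.RC
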