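import Pool.Agent.Lib_MP_a95293_rc.DecC

/-!
# Piece STR: counting the structured triples
-/

set_option autoImplicit false

namespace Pool.MP_a95293_nt.RC

open Finset

/-- a finite set with a key in `[1, s] × [1, A] × [1, A]` and small fibres -/
private theorem Struct_key {Z : Finset (ℕ × ℕ)} {s A F : ℕ} (key : ℕ × ℕ → ℕ × ℕ × ℕ)
    (h1 : ∀ z ∈ Z, key z ∈ Icc 1 s ×ˢ (Icc 1 A ×ˢ Icc 1 A))
    (h2 : ∀ κ, (Z.filter fun z => key z = κ).card ≤ F) : Z.card ≤ s * A ^ 2 * F := by
  classical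
  have h3 : Z.card ≤ F * (Z.image key).card := card_le_mul_card_image _ _ fun κ _ => h2 κ
  have h4 : (Z.image key).card ≤ (Icc 1 s ×ˢ (Icc 1 A ×ˢ Icc 1 A)).card := by
    apply card_le_card
    intro κ hκ
    rw [mem_image] at hκ
    obtain ⟨z, hz, rfl⟩ := hκ
    exact h1 z hz
  rw [card_product, card_product, Nat.card_Icc, Nat.card_Icc, Nat.add_sub_cancel,
    Nat.add_sub_cancel] at h4
  calc Z.card ≤ F * (Z.image key).card := h3
    _ ≤ F * (s * (A * A)) := Nat.mul_le_mul_left _ h4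
    _ = s * A ^ 2 * F := by ring

/-- PROOF: `rd a rd b rd c ≤ X` so `rd c ≤ √X` or `rd b ≤ √X` (`rd_pr3`; `Nat.sqrt`: if both `> Nat.sqrt X` then `rd b rd c > X`, `Nat.lt_succ_sqrt`).
Split `Z`: (i) `z.2 < k^40`: then `z.1 ≤ z.2 < k^40`, at most `(k^40)^2`. (ii) `k^40 ≤ z.2`, `rd (z.1+z.2) ≤ √X`: the data
`(rd (z.1+z.2), al k z.1, al k z.2)` takes at most `√X (H^(kw))^2` values (`al_le`, `al_pos`; for `p ∈ z.1.primeFactors` `v_p(z.1) = v_p(pr3 z)` by `fact_pr3`, `z.1.primeFactors ⊆ (pr3 z).primeFactors`)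
and every fibre has at most `(2^11 k)^w` elements (`count_c` with `T = (rd c).primeFactors`, `T.card ≤ w`). (iii) `k^40 ≤ z.2`, `rd z.2 ≤ √X`: the same with `count_b`.
`H^(2 k w) = (H^(kw))^2`. -/
theorem count_struct {X k H w : ℕ} (hk : 24 ≤ k) (hH : 1 ≤ H) (Z : Finset (ℕ × ℕ))
    (hZ : ∀ z ∈ Z, Prm z ∧ z.1 ≤ z.2 ∧ rd (pr3 z) ≤ X ∧ (pr3 z).primeFactors.card ≤ w ∧
      ∀ p ∈ (pr3 z).primeFactors, H < p → k ∣ (pr3 z).factorization p) :
    Z.card ≤ 2 * (Nat.sqrt X * H ^ (2 * k * w) * (2 ^ 11 * k) ^ w) + k ^ 80 := by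
  classical
  have hk1 : 1 ≤ k := by omega
  set s := Nat.sqrt X with hs
  set A := H ^ (k * w) with hA
  have hAk : H ^ (2 * k * w) = A ^ 2 := by
    rw [hA, ← pow_mul]
    congr 1
    ring
  -- the three coefficients are small
  have hal : ∀ z ∈ Z, ∀ n : ℕ, n = z.1 ∨ n = z.2 ∨ n = z.1 + z.2 → al k n ∈ Icc 1 A := by
    intro z hz n hn
    obtain ⟨hP, _, _, hw, hst⟩ := hZ z hz
    have hsub : n.primeFactors ⊆ (pr3 z).primeFactors := by
      rw [primeFactors_pr3 hP]
      rcases hn with rfl | rfl | rfl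
      · exact subset_union_left.trans subset_union_left
      · exact subset_union_right.trans subset_union_left
      · exact subset_union_right
    rw [mem_Icc]
    refine ⟨al_pos k n, al_le hk1 hH ((card_le_card hsub).trans hw) fun p hp hpH => ?_⟩
    have h1 := hst p (hsub hp) hpH
    obtain ⟨f1, f2, f3⟩ := fact_pr3 hP p
    rcases hn with rfl | rfl | rfl
    · rwa [f1 hp] at h1
    · rwa [f2 hp] at h1
    · rwa [f3 hp] at h1
  have hrad : ∀ z ∈ Z, rd (z.1 + z.2) ≤ s ∨ rd z.2 ≤ s := by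
    intro z hz
    obtain ⟨hP, _, hX, _, _⟩ := hZ z hz
    by_contra hc
    push Not at hc
    rw [rd_pr3 hP] at hX
    have h1 : (s + 1) * (s + 1) ≤ rd z.2 * rd (z.1 + z.2) := Nat.mul_le_mul hc.2 hc.1
    have h2 : X < (s + 1) * (s + 1) := Nat.lt_succ_sqrt X
    have h3 : rd z.2 * rd (z.1 + z.2) ≤ rd z.1 * rd z.2 * rd (z.1 + z.2) := by
      rw [mul_assoc]
      exact Nat.le_mul_of_pos_left _ (rd_pos _)
    omega
  set Z1 := Z.filter fun z => z.2 < k ^ 40 with hZ1
  set Z2 := Z.filter fun z => k ^ 40 ≤ z.2 ∧ rd (z.1 + z.2) ≤ s with hZ2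
  set Z3 := Z.filter fun z => k ^ 40 ≤ z.2 ∧ rd z.2 ≤ s with hZ3
  have hcov : Z ⊆ Z1 ∪ (Z2 ∪ Z3) := by
    intro z hz
    rw [mem_union, mem_union, hZ1, hZ2, hZ3, mem_filter, mem_filter, mem_filter]
    rcases Nat.lt_or_ge z.2 (k ^ 40) with h | h
    · exact Or.inl ⟨hz, h⟩
    · rcases hrad z hz with h1 | h1
      · exact Or.inr (Or.inl ⟨hz, h, h1⟩)
      · exact Or.inr (Or.inr ⟨hz, h, h1⟩)
  have b1 : Z1.card ≤ k ^ 80 := by
    have h1 : Z1 ⊆ range (k ^ 40) ×ˢ range (k ^ 40) := by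
      intro z hz
      rw [hZ1, mem_filter] at hz
      obtain ⟨_, hle, _⟩ := hZ z hz.1
      rw [mem_product, mem_range, mem_range]
      omega
    have h2 := card_le_card h1
    rw [card_product, card_range, ← pow_add] at h2
    exact h2
  have hpowle : ∀ T : Finset ℕ, T.card ≤ w → (2 ^ 11 * k) ^ T.card ≤ (2 ^ 11 * k) ^ w := fun T hT =>
    Nat.pow_le_pow_right (by positivity) hT
  have b2 : Z2.card ≤ s * A ^ 2 * (2 ^ 11 * k) ^ w := by
    refine Struct_key (fun z => (rd (z.1 + z.2), al k z.1, al k z.2)) ?_ ?_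
    · intro z hz
      rw [hZ2, mem_filter] at hz
      rw [mem_product, mem_product]
      exact ⟨mem_Icc.2 ⟨rd_pos _, hz.2.2⟩, hal z hz.1 _ (Or.inl rfl), hal z hz.1 _ (Or.inr (Or.inl rfl))⟩
    · rintro ⟨r, α, β⟩
      rcases (Z2.filter fun z => (rd (z.1 + z.2), al k z.1, al k z.2) = (r, α, β)).eq_empty_or_nonempty
        with he | ⟨y, hy⟩
      · rw [he, card_empty]
        exact Nat.zero_le _
      · have hT : (r.primeFactors).card ≤ w := by
          rw [mem_filter] at hy
          obtain ⟨hy1, hy2⟩ := hy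
          rw [hZ2, mem_filter] at hy1
          obtain ⟨hP, _, _, hw, _⟩ := hZ y hy1.1
          have e1 : rd (y.1 + y.2) = r := congrArg Prod.fst hy2
          rw [← e1, rd_primeFactors]
          refine (card_le_card ?_).trans hw
          rw [primeFactors_pr3 hP]
          exact subset_union_right
        refine le_trans (count_c hk α β r.primeFactors _ ?_) (hpowle _ hT)
        intro z hz
        rw [mem_filter] at hz
        obtain ⟨hz1, hz2⟩ := hz
        rw [hZ2, mem_filter] at hz1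
        obtain ⟨hP, _, _, _, _⟩ := hZ z hz1.1
        have e1 : rd (z.1 + z.2) = r := congrArg Prod.fst hz2
        have e2 : al k z.1 = α := congrArg (fun q => q.2.1) hz2
        have e3 : al k z.2 = β := congrArg (fun q => q.2.2) hz2
        refine ⟨hP, e2, e3, ?_, ?_⟩
        · have := hz1.2.1
          omega
        · rw [← e1, rd_primeFactors]
  have b3 : Z3.card ≤ s * A ^ 2 * (2 ^ 11 * k) ^ w := by
    refine Struct_key (fun z => (rd z.2, al k (z.1 + z.2), al k z.1)) ?_ ?_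
    · intro z hz
      rw [hZ3, mem_filter] at hz
      rw [mem_product, mem_product]
      exact ⟨mem_Icc.2 ⟨rd_pos _, hz.2.2⟩, hal z hz.1 _ (Or.inr (Or.inr rfl)), hal z hz.1 _ (Or.inl rfl)⟩
    · rintro ⟨r, α, β⟩
      rcases (Z3.filter fun z => (rd z.2, al k (z.1 + z.2), al k z.1) = (r, α, β)).eq_empty_or_nonempty
        with he | ⟨y, hy⟩
      · rw [he, card_empty]
        exact Nat.zero_le _
      · have hT : (r.primeFactors).card ≤ w := by
          rw [mem_filter] at hy
          obtain ⟨hy1, hy2⟩ := hy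
          rw [hZ3, mem_filter] at hy1
          obtain ⟨hP, _, _, hw, _⟩ := hZ y hy1.1
          have e1 : rd y.2 = r := congrArg Prod.fst hy2
          rw [← e1, rd_primeFactors]
          refine (card_le_card ?_).trans hw
          rw [primeFactors_pr3 hP]
          exact subset_union_right.trans subset_union_left
        refine le_trans (count_b hk α β r.primeFactors _ ?_) (hpowle _ hT)
        intro z hz
        rw [mem_filter] at hz
        obtain ⟨hz1, hz2⟩ := hz
        rw [hZ3, mem_filter] at hz1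
        obtain ⟨hP, hle, _, _, _⟩ := hZ z hz1.1
        have e1 : rd z.2 = r := congrArg Prod.fst hz2
        have e2 : al k (z.1 + z.2) = α := congrArg (fun q => q.2.1) hz2
        have e3 : al k z.1 = β := congrArg (fun q => q.2.2) hz2
        exact ⟨hP, hle, e2, e3, hz1.2.1, by rw [← e1, rd_primeFactors]⟩
  have htot : Z.card ≤ Z1.card + (Z2.card + Z3.card) :=
    (card_le_card hcov).trans ((card_union_le _ _).trans (Nat.add_le_add_left (card_union_le _ _) _))
  rw [hAk]
  omega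

end Pool.MP_a95293_nt.RC
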