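import Pool.Agent.Lib_MP_a95293_rc.SvW

/-!
# Piece SVA: upper bound weights of dimension `K`
-/

set_option autoImplicit false

namespace Pool.MP_a95293_nt.RC

open Finset ArithmeticFunction Pool.Agent.OmAP

/-- **Upper bound weights of dimension `K`.**
PROOF: copy of `brun_hooley_of` (with `recip_block`), `lam = uw z (blk K z) b`. -/
theorem brun_hooley_up (K : ℕ) : ∃ C : ℕ, ∀ z : ℕ, 2 ≤ z → ∃ lam : Finset ℕ → ℝ,
    (∀ A, |lam A| ≤ 1) ∧
    (∀ A ⊆ PP K z, lam A ≠ 0 → ∏ p ∈ A, p ≤ z ^ C) ∧
    (∀ S ⊆ PP K z, (if S = ∅ then 1 else 0) ≤ ∑ A ∈ S.powerset, lam A) ∧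
    (∀ g : ℕ → ℝ, (∀ p ∈ PP K z, 0 ≤ g p ∧ g p ≤ (K : ℝ) / p) →
      ∑ A ∈ (PP K z).powerset, lam A * ∏ p ∈ A, g p ≤ 2 * ∏ p ∈ PP K z, (1 - g p)) := by
  obtain ⟨B, hB, hrec⟩ := recip_block
  set X : ℝ := K * B with hX
  have hX0 : 0 ≤ X := by positivity
  have hsum : Summable fun n : ℕ => X ^ n / (n.factorial : ℝ) :=
    Real.summable_pow_div_factorial X
  have htail := tendsto_sum_nat_add fun n : ℕ => X ^ n / (n.factorial : ℝ)
  have hpos : (0 : ℝ) < Real.exp (-(2 * X)) / 2 := by positivity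
  have hev := (htail.eventually (gt_mem_nhds hpos)).exists_forall_of_atTop
  obtain ⟨N, hN⟩ := hev
  set b0 : ℕ := 2 * N with hb0
  have hNb := hN b0 (by omega)
  refine ⟨2 * b0 + 6, fun z hz => ?_⟩
  have hdis : ∀ i < z, ∀ j < z, i ≠ j → Disjoint (blk K z i) (blk K z j) := fun i _ j _ hij => by
    rcases Nat.lt_or_gt_of_ne hij with h | h
    · exact blk_disjoint K z h
    · exact (blk_disjoint K z h).symm
  have heven : ∀ j, Even ((fun j => b0 + 2 * j) j) := fun j => ⟨N + j, by simp only; omega⟩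
  obtain ⟨lam, hlam⟩ : ∃ lam : Finset ℕ → ℝ, lam = uw z (blk K z) (fun j => b0 + 2 * j) := ⟨_, rfl⟩
  have h1 : ∀ A, |lam A| ≤ 1 := fun A => by rw [hlam]; exact abs_uw_le _ _ _ A
  have h2 : ∀ A, lam A ≠ 0 → ∀ j < z, (A ∩ blk K z j).card ≤ b0 + 2 * j + 1 := fun A hA j hj => by
    rw [hlam] at hA
    exact uw_card_le z (blk K z) (fun j => b0 + 2 * j) A hA j hj
  have h3 : ∀ S ⊆ (range z).biUnion (blk K z), (if S = ∅ then 1 else 0) ≤ ∑ A ∈ S.powerset, lam A :=
    fun S hS => by
      rw [hlam]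
      exact uw_lower z (blk K z) (fun j => b0 + 2 * j) heven hdis S hS
  have h4 : ∀ g : ℕ → ℝ, (∀ p ∈ (range z).biUnion (blk K z), 0 ≤ g p ∧ g p ≤ 1 / 2) →
      (∑ j ∈ range z, (∑ p ∈ blk K z j, g p) ^ (b0 + 2 * j + 1) / ((b0 + 2 * j + 1).factorial : ℝ) *
        Real.exp (2 * ∑ p ∈ blk K z j, g p) ≤ 1 / 2) →
      ∑ A ∈ ((range z).biUnion (blk K z)).powerset, lam A * ∏ p ∈ A, g p ≤
        2 * ∏ p ∈ (range z).biUnion (blk K z), (1 - g p) := fun g hg hs => by
      rw [hlam]
      exact uw_upper z (blk K z) (fun j => b0 + 2 * j) heven hdis g hg hs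
  rw [blk_union] at h3 h4
  refine ⟨lam, h1, ?_, h3, ?_⟩
  · intro A hA hlam
    have hz0 : (0 : ℝ) < z := by exact_mod_cast (by omega : 0 < z)
    have hz1 : (1 : ℝ) ≤ z := by exact_mod_cast (by omega : 1 ≤ z)
    have hAu : A = (range z).biUnion fun j => A ∩ blk K z j := by
      rw [← Finset.inter_biUnion, blk_union, Finset.inter_eq_left.mpr hA]
    have hreal : ((∏ p ∈ A, p : ℕ) : ℝ) ≤ (z : ℝ) ^ (2 * b0 + 6) := by
      calc ((∏ p ∈ A, p : ℕ) : ℝ) = ∏ j ∈ range z, ∏ p ∈ A ∩ blk K z j, (p : ℝ) := by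
            push_cast
            conv_lhs => rw [hAu]
            rw [Finset.prod_biUnion]
            intro i _ j _ hij
            rcases Nat.lt_or_gt_of_ne hij with h | h
            · exact (blk_disjoint K z h).mono Finset.inter_subset_right Finset.inter_subset_right
            · exact ((blk_disjoint K z h).symm).mono Finset.inter_subset_right
                Finset.inter_subset_right
        _ ≤ ∏ j ∈ range z, (z : ℝ) ^ ((1 / 2 : ℝ) ^ j * ((b0 : ℝ) + 2 * j + 1)) := by
            refine Finset.prod_le_prod (fun j _ => Finset.prod_nonneg fun p _ => Nat.cast_nonneg p)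
              fun j hj => ?_
            have hcard := h2 A hlam j (mem_range.mp hj)
            have hy1 : (1 : ℝ) ≤ (z : ℝ) ^ ((1 / 2 : ℝ) ^ j) :=
              Real.one_le_rpow hz1 (by positivity)
            calc ∏ p ∈ A ∩ blk K z j, (p : ℝ)
                ≤ ∏ p ∈ A ∩ blk K z j, (z : ℝ) ^ ((1 / 2 : ℝ) ^ j) := by
                  refine Finset.prod_le_prod (fun p _ => Nat.cast_nonneg p) fun p hp => ?_
                  have hp' : p ≤ zs z j := by
                    have := (Finset.mem_inter.mp hp).2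
                    simp only [blk, mem_filter, mem_Ioc] at this
                    exact this.1.2
                  exact (Nat.cast_le.mpr hp').trans (zs_le_rpow z j)
              _ = ((z : ℝ) ^ ((1 / 2 : ℝ) ^ j)) ^ (A ∩ blk K z j).card := by
                  rw [Finset.prod_const]
              _ ≤ ((z : ℝ) ^ ((1 / 2 : ℝ) ^ j)) ^ (b0 + 2 * j + 1) :=
                  pow_le_pow_right₀ hy1 hcard
              _ = (z : ℝ) ^ ((1 / 2 : ℝ) ^ j * ((b0 : ℝ) + 2 * j + 1)) := by
                  rw [← Real.rpow_natCast ((z : ℝ) ^ ((1 / 2 : ℝ) ^ j)),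
                    ← Real.rpow_mul hz0.le]
                  push_cast
                  rfl
        _ = (z : ℝ) ^ (∑ j ∈ range z, (1 / 2 : ℝ) ^ j * ((b0 : ℝ) + 2 * j + 1)) := by
            rw [Real.rpow_sum_of_pos hz0]
        _ ≤ (z : ℝ) ^ ((2 * b0 + 6 : ℕ) : ℝ) := by
            refine Real.rpow_le_rpow_of_exponent_le hz1 ?_
            rw [sum_exponents]
            push_cast
            have : (0 : ℝ) ≤ (1 / 2 : ℝ) ^ z * (2 * b0 + 4 * z + 6) := by positivity
            linarith
        _ = (z : ℝ) ^ (2 * b0 + 6) := by rw [Real.rpow_natCast]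
    exact_mod_cast hreal
  · intro g hg
    refine h4 g (fun p hp => ⟨(hg p hp).1, (hg p hp).2.trans ?_⟩) ?_
    · simp only [PP, mem_filter, mem_Ioc] at hp
      have hp0 : (0 : ℝ) < p := by exact_mod_cast hp.2.pos
      rw [div_le_div_iff₀ hp0 (by norm_num)]
      have : (2 * K : ℝ) ≤ p := by exact_mod_cast hp.1.1.le
      linarith
    · have hG : ∀ j ∈ range z, 0 ≤ ∑ p ∈ blk K z j, g p ∧ ∑ p ∈ blk K z j, g p ≤ X := by
        intro j hj
        have hsub : ∀ p ∈ blk K z j, p ∈ PP K z := by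
          intro p hp
          rw [← blk_union]
          exact Finset.mem_biUnion.mpr ⟨j, hj, hp⟩
        refine ⟨Finset.sum_nonneg fun p hp => (hg p (hsub p hp)).1, ?_⟩
        calc ∑ p ∈ blk K z j, g p ≤ ∑ p ∈ blk K z j, (K : ℝ) * (1 / p) := by
              refine Finset.sum_le_sum fun p hp => ?_
              have := (hg p (hsub p hp)).2
              rwa [← div_eq_mul_one_div]
          _ = K * ∑ p ∈ blk K z j, (1 : ℝ) / p := by rw [Finset.mul_sum]
          _ ≤ K * ∑ p ∈ (Ioc (zs z (j + 1)) ((zs z (j + 1) + 1) ^ 2)).filter Nat.Prime,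
                (1 : ℝ) / p := by
              refine mul_le_mul_of_nonneg_left ?_ (Nat.cast_nonneg K)
              refine Finset.sum_le_sum_of_subset_of_nonneg ?_ (fun _ _ _ => by positivity)
              intro p hp
              simp only [blk, mem_filter, mem_Ioc] at hp ⊢
              refine ⟨⟨hp.1.1, hp.1.2.trans ?_⟩, hp.2.1⟩
              have := Nat.lt_succ_sqrt' (zs z j)
              exact this.le
          _ ≤ X := by
              rw [hX]
              exact mul_le_mul_of_nonneg_left (hrec _) (Nat.cast_nonneg K)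
      calc ∑ j ∈ range z, (∑ p ∈ blk K z j, g p) ^ (b0 + 2 * j + 1) /
            ((b0 + 2 * j + 1).factorial : ℝ) * Real.exp (2 * ∑ p ∈ blk K z j, g p)
          ≤ ∑ j ∈ range z, X ^ (b0 + 2 * j + 1) / ((b0 + 2 * j + 1).factorial : ℝ) *
              Real.exp (2 * X) := by
            refine Finset.sum_le_sum fun j hj => ?_
            obtain ⟨hG0, hG1⟩ := hG j hj
            gcongr
        _ = (∑ j ∈ range z, X ^ (b0 + 2 * j + 1) / ((b0 + 2 * j + 1).factorial : ℝ)) *
              Real.exp (2 * X) := by rw [Finset.sum_mul]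
        _ ≤ (Real.exp (-(2 * X)) / 2) * Real.exp (2 * X) := by
            refine mul_le_mul_of_nonneg_right ?_ (Real.exp_pos _).le
            refine le_trans ?_ hNb.le
            have hs2 : Summable fun k : ℕ => X ^ (k + b0) / ((k + b0).factorial : ℝ) :=
              (summable_nat_add_iff b0).mpr hsum
            have := hs2.sum_le_tsum ((range z).image fun j => 2 * j + 1)
              (fun k _ => by positivity)
            refine le_trans (le_of_eq ?_) this
            rw [Finset.sum_image (fun a _ b _ h => by simpa using h)]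
            refine Finset.sum_congr rfl fun j _ => ?_
            rw [show 2 * j + 1 + b0 = b0 + 2 * j + 1 by ring]
        _ = 1 / 2 := by
            rw [Real.exp_neg]
            have := Real.exp_pos (2 * X)
            field_simp

end Pool.MP_a95293_nt.RC
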