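import Pool.Agent.Lib_MP_a95293_rc.Defs

/-!
# Piece SVH: the average over `h`
-/

set_option autoImplicit false

namespace Pool.MP_a95293_nt.RC

open Finset

private theorem SvH_har (H : ℕ) : ∑ e ∈ Icc 1 H, 1 / (e : ℝ) ≤ 1 + Real.log H := by
  have h1 := harmonic_le_one_add_log H
  have h2 : ((harmonic H : ℚ) : ℝ) = ∑ d ∈ Icc 1 H, 1 / (d : ℝ) := by
    rw [harmonic_eq_sum_Icc]
    push_cast
    refine Finset.sum_congr rfl fun d _ => ?_
    rw [one_div]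
  rw [← h2]
  exact h1

private theorem SvH_one {H : ℕ} {S : Finset ℕ} (hS : ∀ p ∈ S, p.Prime) :
    ∑ h ∈ (Icc 1 H).filter (fun h => S ⊆ h.primeFactors), 1 / (h : ℝ) ≤
      (∏ p ∈ S, 1 / (p : ℝ)) * ∑ e ∈ Icc 1 H, 1 / (e : ℝ) := by
  classical
  have hD : 0 < ∏ p ∈ S, p := Finset.prod_pos fun p hp => (hS p hp).pos
  have h1 : (Icc 1 H).filter (fun h => S ⊆ h.primeFactors) ⊆
      (Icc 1 H).image fun e => (∏ p ∈ S, p) * e := by
    intro h hh
    rw [mem_filter, mem_Icc] at hh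
    have hdvd : ∏ p ∈ S, p ∣ h := by
      refine (Finset.prod_dvd_prod_of_subset _ _ _ hh.2).trans (Nat.prod_primeFactors_dvd h)
    obtain ⟨e, he⟩ := hdvd
    rw [mem_image]
    refine ⟨e, ?_, he.symm⟩
    have he0 : 0 < e := by
      rcases Nat.eq_zero_or_pos e with h0 | h0
      · rw [h0, mul_zero] at he
        omega
      · exact h0
    have : e ≤ (∏ p ∈ S, p) * e := Nat.le_mul_of_pos_left e hD
    rw [mem_Icc]
    omega
  refine (Finset.sum_le_sum_of_subset_of_nonneg h1 fun _ _ _ => by positivity).trans ?_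
  rw [Finset.sum_image fun a _ b _ hab => Nat.eq_of_mul_eq_mul_left hD hab, Finset.mul_sum]
  refine Finset.sum_le_sum fun e _ => le_of_eq ?_
  push_cast
  rw [Finset.prod_div_distrib, Finset.prod_const_one, one_div_mul_one_div]

/-- **The average over `h`.**
PROOF: `∏_{p ∣ h} (1 + 2/p) = ∑_{S ⊆ h.primeFactors} ∏_{p ∈ S} 2/p = ∑_{d ∣ h, d squarefree} 2^ω(d)/d ≤ ∑_{d ∣ h} 2 √d / d` (`2^ω(d) ≤` number of divisors `≤ 2 √d`), so the sum
is at most `∑_{d ≤ H} ∑_{e ≤ H} (2 / d^(1/2)) (1/(d e)) ≤ (∑ 2 / d^(3/2)) (1 + log H)`. (Any other proof is fine.) -/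
theorem avg_h : ∃ C : ℝ, 0 < C ∧ ∀ H : ℕ, 1 ≤ H →
    ∑ h ∈ Icc 1 H, 1 / (h : ℝ) * ∏ p ∈ h.primeFactors, (1 + 2 / (p : ℝ)) ≤ C * (1 + Real.log H) := by
  classical
  have hsum : Summable fun n : ℕ => 1 / (n : ℝ) ^ 2 := Real.summable_one_div_nat_pow.2 (by norm_num)
  refine ⟨Real.exp (2 * ∑' n : ℕ, 1 / (n : ℝ) ^ 2), Real.exp_pos _, fun H hH => ?_⟩
  set P := (Icc 1 H).filter Nat.Prime with hP
  have hhar0 : 0 ≤ ∑ e ∈ Icc 1 H, 1 / (e : ℝ) := Finset.sum_nonneg fun e _ => by positivity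
  have h1 : ∑ h ∈ Icc 1 H, 1 / (h : ℝ) * ∏ p ∈ h.primeFactors, (1 + 2 / (p : ℝ)) =
      ∑ S ∈ P.powerset, (∏ p ∈ S, 2 / (p : ℝ)) *
        ∑ h ∈ (Icc 1 H).filter (fun h => S ⊆ h.primeFactors), 1 / (h : ℝ) := by
    have e1 : ∀ h ∈ Icc 1 H, 1 / (h : ℝ) * ∏ p ∈ h.primeFactors, (1 + 2 / (p : ℝ)) =
        ∑ S ∈ P.powerset, if S ⊆ h.primeFactors then (∏ p ∈ S, 2 / (p : ℝ)) * (1 / (h : ℝ)) else 0 := by
      intro h hh
      rw [mem_Icc] at hh
      rw [Finset.prod_one_add, Finset.mul_sum, ← Finset.sum_filter]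
      have e2 : P.powerset.filter (fun S => S ⊆ h.primeFactors) = h.primeFactors.powerset := by
        ext S
        rw [mem_filter, mem_powerset, mem_powerset]
        refine ⟨fun hs => hs.2, fun hs => ⟨fun p hp => ?_, hs⟩⟩
        have hp' := Nat.mem_primeFactors.1 (hs hp)
        rw [hP, mem_filter, mem_Icc]
        exact ⟨⟨hp'.1.one_lt.le, (Nat.le_of_dvd (by omega) hp'.2.1).trans hh.2⟩, hp'.1⟩
      rw [e2]
      exact Finset.sum_congr rfl fun S _ => mul_comm _ _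
    rw [Finset.sum_congr rfl e1, Finset.sum_comm]
    refine Finset.sum_congr rfl fun S _ => ?_
    rw [← Finset.sum_filter, Finset.mul_sum]
  rw [h1]
  have h2 : ∑ S ∈ P.powerset, (∏ p ∈ S, 2 / (p : ℝ)) *
      ∑ h ∈ (Icc 1 H).filter (fun h => S ⊆ h.primeFactors), 1 / (h : ℝ) ≤
      ∑ S ∈ P.powerset, (∏ p ∈ S, 2 / (p : ℝ) ^ 2) * ∑ e ∈ Icc 1 H, 1 / (e : ℝ) := by
    refine Finset.sum_le_sum fun S hS => ?_
    have hSp : ∀ p ∈ S, p.Prime := fun p hp => (mem_filter.1 (mem_powerset.1 hS hp)).2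
    refine (mul_le_mul_of_nonneg_left (SvH_one hSp) (Finset.prod_nonneg fun p _ => by positivity)).trans
      (le_of_eq ?_)
    rw [← mul_assoc, ← Finset.prod_mul_distrib]
    congr 1
    refine Finset.prod_congr rfl fun p _ => ?_
    rw [div_mul_div_comm, mul_one, sq]
  refine h2.trans ?_
  rw [← Finset.sum_mul, ← Finset.prod_one_add]
  have h3 : ∏ p ∈ P, (1 + 2 / (p : ℝ) ^ 2) ≤ Real.exp (2 * ∑' n : ℕ, 1 / (n : ℝ) ^ 2) := by
    calc ∏ p ∈ P, (1 + 2 / (p : ℝ) ^ 2) ≤ ∏ p ∈ P, Real.exp (2 / (p : ℝ) ^ 2) := by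
          refine Finset.prod_le_prod (fun p _ => by positivity) fun p _ => ?_
          have := Real.add_one_le_exp (2 / (p : ℝ) ^ 2)
          linarith
      _ = Real.exp (2 * ∑ p ∈ P, 1 / (p : ℝ) ^ 2) := by
          rw [← Real.exp_sum, Finset.mul_sum]
          congr 1
          refine Finset.sum_congr rfl fun p _ => ?_
          ring
      _ ≤ _ := by
          apply Real.exp_le_exp.2
          apply mul_le_mul_of_nonneg_left _ (by norm_num)
          exact hsum.sum_le_tsum _ fun n _ => by positivity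
  exact mul_le_mul h3 (SvH_har H) hhar0 (Real.exp_pos _).le

end Pool.MP_a95293_nt.RC
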