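import Pool.Agent.Lib_MP_a95293_rc.SvM
import Pool.Agent.Lib_MP_f1a94e_ap.Defs2

/-!
# Piece SVO: the densities for `q (h q + 1)`
-/

set_option autoImplicit false

namespace Pool.MP_a95293_nt.RC

open Finset Pool.Agent.OmAP

/-- the classes `0` and `-1/h` modulo `p` -/
noncomputable def om (h p : ℕ) : Finset ℕ := (range p).filter fun t => p ∣ t * (h * t + 1)

private theorem SvO_mem {h p : ℕ} (hp : p.Prime) {t : ℕ} :
    t ∈ om h p ↔ t < p ∧ ((t : ZMod p) = 0 ∨ (h : ZMod p) * t = -1) := by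
  have := Fact.mk hp
  unfold om
  rw [mem_filter, mem_range, ← ZMod.natCast_eq_zero_iff]
  push_cast
  rw [mul_eq_zero, add_eq_zero_iff_eq_neg]

private theorem SvO_eq {h p : ℕ} (hp : p.Prime) (hh : ¬ p ∣ h) :
    om h p = {0, (-(h : ZMod p)⁻¹).val} := by
  have := Fact.mk hp
  have hh' : (h : ZMod p) ≠ 0 := by rwa [Ne, ZMod.natCast_eq_zero_iff]
  ext t
  rw [SvO_mem hp, mem_insert, mem_singleton]
  constructor
  · rintro ⟨h1, h2 | h2⟩
    · left
      rw [ZMod.natCast_eq_zero_iff] at h2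
      exact Nat.eq_zero_of_dvd_of_lt h2 h1
    · right
      have h3 : (t : ZMod p) = -(h : ZMod p)⁻¹ := by
        rw [← mul_right_inj' hh', h2, mul_neg, mul_inv_cancel₀ hh']
      rw [← h3, ZMod.val_natCast, Nat.mod_eq_of_lt h1]
  · rintro (h1 | h1)
    · rw [h1]
      exact ⟨hp.pos, Or.inl Nat.cast_zero⟩
    · rw [h1]
      refine ⟨ZMod.val_lt _, Or.inr ?_⟩
      rw [ZMod.natCast_val, ZMod.cast_id', id, mul_neg, mul_inv_cancel₀ hh']

/-- PROOF: in the field `ZMod p`: `t = 0` or `h t = -1`; at most two classes. -/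
theorem om_card_le (h : ℕ) {p : ℕ} (hp : p.Prime) : (om h p).card ≤ 2 := by
  classical
  by_cases hh : p ∣ h
  · have := Fact.mk hp
    have h1 : om h p ⊆ {0} := by
      intro t ht
      rw [SvO_mem hp] at ht
      rw [mem_singleton]
      obtain ⟨h1, h2⟩ := ht
      have h0 : (h : ZMod p) = 0 := (ZMod.natCast_eq_zero_iff _ _).2 hh
      rw [h0, zero_mul] at h2
      rcases h2 with h2 | h2
      · rw [ZMod.natCast_eq_zero_iff] at h2
        exact Nat.eq_zero_of_dvd_of_lt h2 h1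
      · exact absurd h2.symm (neg_ne_zero.2 one_ne_zero)
    have := card_le_card h1
    rw [card_singleton] at this
    omega
  · rw [SvO_eq hp hh]
    exact card_le_two

/-- PROOF: if `p ∤ h` then the two classes `0` and `-1/h` are different. -/
theorem om_card_eq {h p : ℕ} (hp : p.Prime) (hh : ¬ p ∣ h) : (om h p).card = 2 := by
  have := Fact.mk hp
  rw [SvO_eq hp hh]
  have hh' : (h : ZMod p) ≠ 0 := by rwa [Ne, ZMod.natCast_eq_zero_iff]
  apply card_pair
  intro h1
  have h2 : (-(h : ZMod p)⁻¹) = 0 := (ZMod.val_eq_zero _).1 h1.symm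
  exact inv_ne_zero hh' (neg_eq_zero.1 h2)

/-- PROOF: if `p ∣ h` then only the class `0`. -/
theorem om_card_dvd {h p : ℕ} (hp : p.Prime) (hh : p ∣ h) : (om h p).card = 1 := by
  have := Fact.mk hp
  have h1 : om h p = {0} := by
    ext t
    rw [SvO_mem hp, mem_singleton]
    have h0 : (h : ZMod p) = 0 := (ZMod.natCast_eq_zero_iff _ _).2 hh
    rw [h0, zero_mul]
    constructor
    · rintro ⟨h1, h2 | h2⟩
      · rw [ZMod.natCast_eq_zero_iff] at h2
        exact Nat.eq_zero_of_dvd_of_lt h2 h1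
      · exact absurd h2.symm (neg_ne_zero.2 one_ne_zero)
    · rintro rfl
      exact ⟨hp.pos, Or.inl Nat.cast_zero⟩
  rw [h1, card_singleton]

/-- PROOF: for `p ∤ h`: `1 - 2/p ≤ (1 - 1/p)^2`; for `p ∣ h`: `1 - 1/p ≤ (1 - 1/p)^2 (1 + 2/p)` (`(1 - 1/p)(1 + 2/p) ≥ 1` for `p ≥ 2`). So the product is at most
`(∏_{4 < p ≤ z} (1 - 1/p))^2 ∏_{p ∣ h} (1 + 2/p)` and `∏_{4 < p ≤ z} (1 - 1/p) = 3 ∏_{p ≤ z} (1 - 1/p) ≤ 3 / log z` for `z ≥ 3` (`mertens_up`); for `z = 2` the
product is empty and `9 / (log 2)^2 ≥ 1`. -/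
theorem prod_om (h z : ℕ) (hh : 1 ≤ h) (hz : 2 ≤ z) :
    ∏ p ∈ PP 2 z, (1 - ((om h p).card : ℝ) / p) ≤ 9 / Real.log z ^ 2 * ∏ p ∈ h.primeFactors, (1 + 2 / (p : ℝ)) := by
  classical
  have hPP : ∀ p ∈ PP 2 z, 4 < p ∧ p ≤ z ∧ p.Prime := by
    intro p hp
    unfold PP at hp
    rw [mem_filter, mem_Ioc] at hp
    exact ⟨by omega, hp.1.2, hp.2⟩
  have hlog : 0 < Real.log z := Real.log_pos (by exact_mod_cast (by omega : 1 < z))
  -- the product over the primes in `(4, z]`
  set Q : ℝ := ∏ p ∈ PP 2 z, (1 - 1 / (p : ℝ)) with hQ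
  have hQ0 : 0 ≤ Q := Finset.prod_nonneg fun p hp => by
    have h1 : (1 : ℝ) < p := by exact_mod_cast (hPP p hp).2.2.one_lt
    rw [sub_nonneg, div_le_one (by linarith)]
    exact h1.le
  have hQ3 : Q ≤ 3 / Real.log z := by
    set A := (Icc 1 z).filter Nat.Prime with hA
    set U := ({2, 3} : Finset ℕ) ∪ PP 2 z with hU
    have hAU : A ⊆ U := by
      intro p hp
      rw [hA, mem_filter, mem_Icc] at hp
      rw [hU, mem_union, mem_insert, mem_singleton]
      by_cases h4 : 4 < p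
      · right
        unfold PP
        rw [mem_filter, mem_Ioc]
        exact ⟨⟨by omega, hp.1.2⟩, hp.2⟩
      · left
        have h2 := hp.2.two_le
        have h5 : p ≠ 4 := by
          rintro rfl
          exact absurd hp.2 (by norm_num)
        omega
    have hUp : ∀ p ∈ U, (0 : ℝ) ≤ 1 - 1 / (p : ℝ) ∧ 1 - 1 / (p : ℝ) ≤ 1 := by
      intro p hp
      have h1 : (1 : ℝ) < p := by
        rw [hU, mem_union, mem_insert, mem_singleton] at hp
        rcases hp with (rfl | rfl) | hp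
        · norm_num
        · norm_num
        · exact_mod_cast (hPP p hp).2.2.one_lt
      constructor
      · rw [sub_nonneg, div_le_one (by linarith)]
        exact h1.le
      · have : 0 ≤ 1 / (p : ℝ) := by positivity
        linarith
    have h1 : ∏ p ∈ U, (1 - 1 / (p : ℝ)) ≤ ∏ p ∈ A, (1 - 1 / (p : ℝ)) := by
      rw [← Finset.prod_sdiff hAU]
      refine mul_le_of_le_one_left (Finset.prod_nonneg fun p hp => (hUp p (hAU hp)).1) ?_
      exact Finset.prod_le_one (fun p hp => (hUp p (mem_sdiff.1 hp).1).1)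
        fun p hp => (hUp p (mem_sdiff.1 hp).1).2
    have h2 : ∏ p ∈ U, (1 - 1 / (p : ℝ)) = 1 / 3 * Q := by
      rw [hU, Finset.prod_union, hQ]
      · congr 1
        rw [Finset.prod_pair (by norm_num)]
        norm_num
      · rw [disjoint_left]
        intro p hp hp'
        have h3 := (hPP p hp').1
        rw [mem_insert, mem_singleton] at hp
        omega
    have h3 := mertens_up z hz
    rw [h2] at h1
    have h4 : 3 / Real.log z = 3 * (1 / Real.log z) := by ring
    rw [h4]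
    linarith
  have hterm : ∀ p ∈ PP 2 z, 0 ≤ 1 - ((om h p).card : ℝ) / p ∧
      1 - ((om h p).card : ℝ) / p ≤ (1 - 1 / (p : ℝ)) ^ 2 *
        (if p ∈ h.primeFactors then 1 + 2 / (p : ℝ) else 1) := by
    intro p hp
    obtain ⟨h4, _, hpp⟩ := hPP p hp
    have hp4 : (4 : ℝ) < p := by exact_mod_cast h4
    have hp0 : (0 : ℝ) < p := by linarith
    have hx0 : 0 < 1 / (p : ℝ) := by positivity
    have hx1 : 1 / (p : ℝ) ≤ 1 / 4 := by
      apply one_div_le_one_div_of_le (by norm_num) hp4.le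
    by_cases hph : p ∣ h
    · have hm : p ∈ h.primeFactors := Nat.mem_primeFactors.2 ⟨hpp, hph, by omega⟩
      rw [om_card_dvd hpp hph, if_pos hm, Nat.cast_one]
      refine ⟨by linarith, ?_⟩
      have e : 2 / (p : ℝ) = 2 * (1 / p) := by ring
      rw [e]
      nlinarith [mul_pos hx0 hx0, mul_pos hx0 (mul_pos hx0 hx0)]
    · have hm : p ∉ h.primeFactors := fun hm => hph (Nat.dvd_of_mem_primeFactors hm)
      rw [om_card_eq hpp hph, if_neg hm]
      have e : ((2 : ℕ) : ℝ) / p = 2 * (1 / p) := by push_cast; ring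
      rw [e]
      refine ⟨by linarith, ?_⟩
      nlinarith [mul_pos hx0 hx0]
  calc ∏ p ∈ PP 2 z, (1 - ((om h p).card : ℝ) / p)
      ≤ ∏ p ∈ PP 2 z, ((1 - 1 / (p : ℝ)) ^ 2 * (if p ∈ h.primeFactors then 1 + 2 / (p : ℝ) else 1)) :=
        Finset.prod_le_prod (fun p hp => (hterm p hp).1) fun p hp => (hterm p hp).2
    _ = Q ^ 2 * ∏ p ∈ (PP 2 z) ∩ h.primeFactors, (1 + 2 / (p : ℝ)) := by
        rw [Finset.prod_mul_distrib, Finset.prod_pow, Finset.prod_ite_mem]
    _ ≤ (3 / Real.log z) ^ 2 * ∏ p ∈ h.primeFactors, (1 + 2 / (p : ℝ)) := by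
        refine mul_le_mul (pow_le_pow_left₀ hQ0 hQ3 2) ?_ (Finset.prod_nonneg fun p _ => by positivity)
          (by positivity)
        refine Finset.prod_le_prod_of_subset_of_one_le inter_subset_right
          (fun p _ => by positivity) fun p _ _ => ?_
        have : (0 : ℝ) ≤ 2 / (p : ℝ) := by positivity
        linarith
    _ = _ := by rw [div_pow]; norm_num

end Pool.MP_a95293_nt.RC
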