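import Pool.Agent.Lib_MP_a95293_rc.SvO
import Pool.Agent.Lib_MP_a95293_rc.SvU

/-!
# Piece SVP: pairs of primes `q`, `h q + 1`
-/

set_option autoImplicit false

namespace Pool.MP_a95293_nt.RC

open Finset Pool.Agent.OmAP

private theorem SvP_log {x : ℝ} (hx : 2 ^ 24 ≤ x) : Real.log x ^ 2 ≤ x ^ (1 / 2 : ℝ) := by
  have hx0 : 0 < x := by linarith [show (0 : ℝ) < 2 ^ 24 by norm_num]
  have h1 : Real.log x ≤ x ^ (1 / 8 : ℝ) / (1 / 8) := Real.log_le_rpow_div hx0.le (by norm_num)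
  have h0 : 0 ≤ Real.log x := Real.log_nonneg (by linarith [show (1 : ℝ) ≤ 2 ^ 24 by norm_num])
  have h2 : Real.log x ^ 2 ≤ (x ^ (1 / 8 : ℝ) / (1 / 8)) ^ 2 := pow_le_pow_left₀ h0 h1 2
  have h3 : (x ^ (1 / 8 : ℝ) / (1 / 8)) ^ 2 = 64 * x ^ (1 / 4 : ℝ) := by
    rw [div_pow, ← Real.rpow_natCast (x ^ (1 / 8 : ℝ)), ← Real.rpow_mul hx0.le]
    norm_num
    ring
  have h4 : (64 : ℝ) ≤ x ^ (1 / 4 : ℝ) := by
    calc (64 : ℝ) = ((2 : ℝ) ^ 24) ^ (1 / 4 : ℝ) := by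
          rw [← Real.rpow_natCast 2, ← Real.rpow_mul (by norm_num)]
          norm_num
      _ ≤ x ^ (1 / 4 : ℝ) := Real.rpow_le_rpow (by norm_num) hx (by norm_num)
  have h5 : x ^ (1 / 2 : ℝ) = x ^ (1 / 4 : ℝ) * x ^ (1 / 4 : ℝ) := by
    rw [← Real.rpow_add hx0]
    norm_num
  rw [h3] at h2
  rw [h5]
  have h6 : 0 ≤ x ^ (1 / 4 : ℝ) := by positivity
  nlinarith

/-- the choice of `z` -/
private theorem SvP_z {K : ℕ} (hK : 2 ≤ K) {x : ℕ} (hx : 4 ^ K ≤ x) :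
    ∃ z : ℕ, 2 ≤ z ∧ z ^ K ≤ x ∧ (z : ℝ) ≤ (x : ℝ) ^ (1 / 2 : ℝ) ∧
      Real.log x / (2 * K) ≤ Real.log z := by
  have hK0 : (0 : ℝ) < K := by exact_mod_cast (by omega : 0 < K)
  have hx1 : 1 ≤ x := (Nat.one_le_pow _ _ (by norm_num)).trans hx
  have hx0 : (0 : ℝ) < x := by exact_mod_cast hx1
  have hx1' : (1 : ℝ) ≤ x := by exact_mod_cast hx1
  set y : ℝ := (x : ℝ) ^ (1 / (2 * K) : ℝ) with hy
  have hy2 : 2 ≤ y := by
    have h1 : ((4 : ℝ) ^ K) ≤ x := by exact_mod_cast hx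
    calc (2 : ℝ) = ((4 : ℝ) ^ K) ^ (1 / (2 * K) : ℝ) := by
          rw [show (4 : ℝ) = 2 ^ (2 : ℕ) by norm_num, ← pow_mul, ← Real.rpow_natCast 2,
            ← Real.rpow_mul (by norm_num)]
          push_cast
          rw [mul_one_div_cancel (by positivity), Real.rpow_one]
      _ ≤ y := Real.rpow_le_rpow (by positivity) h1 (by positivity)
  have hyy : (x : ℝ) ^ (1 / K : ℝ) = y * y := by
    rw [hy, ← Real.rpow_add hx0]
    congr 1
    field_simp
    norm_num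
  set z := ⌊(x : ℝ) ^ (1 / K : ℝ)⌋₊ with hz
  have hzle : (z : ℝ) ≤ (x : ℝ) ^ (1 / K : ℝ) := Nat.floor_le (by positivity)
  have hzge : y ≤ z := by
    have h1 := Nat.lt_floor_add_one ((x : ℝ) ^ (1 / K : ℝ))
    rw [← hz] at h1
    rw [hyy] at h1
    nlinarith
  refine ⟨z, ?_, ?_, ?_, ?_⟩
  · exact_mod_cast hy2.trans hzge
  · have h1 : (z : ℝ) ^ K ≤ x := by
      calc (z : ℝ) ^ K ≤ ((x : ℝ) ^ (1 / K : ℝ)) ^ K := pow_le_pow_left₀ (Nat.cast_nonneg _) hzle K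
        _ = x := by
          rw [← Real.rpow_natCast, ← Real.rpow_mul hx0.le, one_div_mul_cancel hK0.ne', Real.rpow_one]
    exact_mod_cast h1
  · refine hzle.trans (Real.rpow_le_rpow_of_exponent_le hx1' ?_)
    exact one_div_le_one_div_of_le (by norm_num) (by exact_mod_cast hK)
  · calc Real.log x / (2 * K) = Real.log y := by
          rw [hy, Real.log_rpow hx0]
          ring
      _ ≤ Real.log z := Real.log_le_log (by linarith) hzge

/-- **Pairs of primes.**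
PROOF: `C` from `sieve_count_up 2`, `C' = max C 2`, `z = ⌊x^(1/C')⌋`, `T = x + 1 ≥ z^C`. The primes `q ≤ z` are at most `z ≤ √x`. If `q > z` is prime and `h q + 1` is
prime (`> z`) then no prime `p ≤ z` divides `q (h q + 1)`, so `q % p ∉ om h p` for `p ∈ PP 2 z`. So the number is at most
`√x + 4 (x+1) 9 / (log z)^2 ∏_{p ∣ h} (1 + 2/p)`, `log z ≥ (1/(2C')) log x` for large `x`, and `√x ≤ x / (log x)^2` for large `x`; the product over `p ∣ h` is `≥ 1`. -/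
theorem pairs_sieve : ∃ C : ℝ, 0 < C ∧ ∃ x₀ : ℕ, 2 ≤ x₀ ∧ ∀ x ≥ x₀, ∀ h : ℕ, 1 ≤ h →
    (((Icc 1 x).filter fun q => q.Prime ∧ (h * q + 1).Prime).card : ℝ) ≤
      C * x / Real.log x ^ 2 * ∏ p ∈ h.primeFactors, (1 + 2 / (p : ℝ)) := by
  classical
  obtain ⟨C0, hC0⟩ := sieve_count_up 2
  set K := max C0 2 with hK
  have hK2 : 2 ≤ K := le_max_right _ _
  have hK0 : (0 : ℝ) < K := by exact_mod_cast (by omega : 0 < K)
  refine ⟨288 * K ^ 2 + 1, by positivity, max (4 ^ K) (2 ^ 24), ?_, ?_⟩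
  · exact le_trans (by norm_num) (le_max_right _ _)
  intro x hx h hh
  have hx4 : 4 ^ K ≤ x := (le_max_left _ _).trans hx
  have hx24 : 2 ^ 24 ≤ x := (le_max_right _ _).trans hx
  obtain ⟨z, hz2, hzK, hzx, hzlog⟩ := SvP_z hK2 hx4
  have hx0 : (0 : ℝ) < x := by
    have : 0 < x := lt_of_lt_of_le (by norm_num) hx24
    exact_mod_cast this
  have hx1 : (1 : ℝ) < x := by
    have : 1 < x := lt_of_lt_of_le (by norm_num) hx24
    exact_mod_cast this
  have hlx : 0 < Real.log x := Real.log_pos hx1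
  set Pr : ℝ := ∏ p ∈ h.primeFactors, (1 + 2 / (p : ℝ)) with hPr
  have hPr1 : 1 ≤ Pr := by
    rw [hPr]
    calc (1 : ℝ) = ∏ p ∈ h.primeFactors, (1 : ℝ) := by rw [prod_const_one]
      _ ≤ _ := Finset.prod_le_prod (fun _ _ => zero_le_one) fun p _ => by
        have : (0 : ℝ) ≤ 2 / (p : ℝ) := by positivity
        linarith
  -- the sieve
  have hT : z ^ C0 ≤ x + 1 := by
    calc z ^ C0 ≤ z ^ K := Nat.pow_le_pow_right (by omega) (le_max_left _ _)
      _ ≤ x := hzK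
      _ ≤ x + 1 := Nat.le_succ x
  have hPP : ∀ p ∈ PP 2 z, p ≤ z ∧ p.Prime := by
    intro p hp
    unfold PP at hp
    rw [mem_filter, mem_Ioc] at hp
    exact ⟨hp.1.2, hp.2⟩
  have hs := hC0 z (x + 1) hz2 hT (om h) (fun p hp => ⟨om_card_le h (hPP p hp).2, by
    unfold om
    exact filter_subset _ _⟩)
  have hsub : ((Icc 1 x).filter fun q => q.Prime ∧ (h * q + 1).Prime) ⊆
      Icc 1 z ∪ (range (x + 1)).filter fun t => ∀ p ∈ PP 2 z, t % p ∉ om h p := by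
    intro q hq
    rw [mem_filter, mem_Icc] at hq
    obtain ⟨⟨hq1, hqx⟩, hqp, hhq⟩ := hq
    rw [mem_union]
    by_cases hqz : q ≤ z
    · exact Or.inl (mem_Icc.2 ⟨hq1, hqz⟩)
    · right
      rw [mem_filter, mem_range]
      refine ⟨by omega, fun p hp hmem => ?_⟩
      obtain ⟨hpz, hpp⟩ := hPP p hp
      unfold om at hmem
      rw [mem_filter] at hmem
      have h1 : p ∣ q * (h * q + 1) := by
        have h2 : q % p * (h * (q % p) + 1) ≡ q * (h * q + 1) [MOD p] := by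
          apply Nat.ModEq.mul (Nat.mod_modEq q p)
          exact Nat.ModEq.add_right 1 (Nat.ModEq.mul_left h (Nat.mod_modEq q p))
        exact (h2.dvd_iff (dvd_refl p)).1 hmem.2
      rcases hpp.dvd_mul.1 h1 with h3 | h3
      · rw [Nat.prime_dvd_prime_iff_eq hpp hqp] at h3
        omega
      · rw [Nat.prime_dvd_prime_iff_eq hpp hhq] at h3
        have : q ≤ h * q := Nat.le_mul_of_pos_left q hh
        omega
  have hcard : ((((Icc 1 x).filter fun q => q.Prime ∧ (h * q + 1).Prime).card : ℕ) : ℝ) ≤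
      z + 4 * (x + 1) * ∏ p ∈ PP 2 z, (1 - ((om h p).card : ℝ) / p) := by
    have h1 := (card_le_card hsub).trans (card_union_le _ _)
    rw [Nat.card_Icc, Nat.add_sub_cancel] at h1
    have h2 : ((((Icc 1 x).filter fun q => q.Prime ∧ (h * q + 1).Prime).card : ℕ) : ℝ) ≤
        z + (((range (x + 1)).filter fun t => ∀ p ∈ PP 2 z, t % p ∉ om h p).card : ℝ) := by
      exact_mod_cast h1
    push_cast at hs
    linarith
  refine hcard.trans ?_
  have hpo := prod_om h z hh hz2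
  rw [← hPr] at hpo
  have hlz : 0 < Real.log z := Real.log_pos (by exact_mod_cast (by omega : 1 < z))
  have h1 : 9 / Real.log z ^ 2 ≤ 36 * K ^ 2 / Real.log x ^ 2 := by
    rw [div_le_div_iff₀ (by positivity) (by positivity)]
    have h2 : Real.log x ≤ 2 * K * Real.log z := by
      rw [div_le_iff₀ (by positivity)] at hzlog
      linarith
    have h3 : Real.log x ^ 2 ≤ (2 * K * Real.log z) ^ 2 := pow_le_pow_left₀ hlx.le h2 2
    nlinarith
  have h2 : (z : ℝ) ≤ x / Real.log x ^ 2 * Pr := by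
    have h3 := SvP_log (x := (x : ℝ)) (by exact_mod_cast hx24)
    have h4 : (x : ℝ) ^ (1 / 2 : ℝ) ≤ x / Real.log x ^ 2 := by
      rw [le_div_iff₀ (by positivity)]
      calc (x : ℝ) ^ (1 / 2 : ℝ) * Real.log x ^ 2 ≤ (x : ℝ) ^ (1 / 2 : ℝ) * (x : ℝ) ^ (1 / 2 : ℝ) :=
            mul_le_mul_of_nonneg_left h3 (by positivity)
        _ = x := by
            rw [← Real.rpow_add hx0]
            norm_num
    refine (hzx.trans h4).trans ?_
    exact le_mul_of_one_le_right (by positivity) hPr1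
  have h3 : 4 * ((x : ℝ) + 1) * ∏ p ∈ PP 2 z, (1 - ((om h p).card : ℝ) / p) ≤
      8 * x * (36 * K ^ 2 / Real.log x ^ 2 * Pr) := by
    have h4 : ∏ p ∈ PP 2 z, (1 - ((om h p).card : ℝ) / p) ≤ 36 * K ^ 2 / Real.log x ^ 2 * Pr :=
      hpo.trans (mul_le_mul_of_nonneg_right h1 (by linarith))
    have h5 : 4 * ((x : ℝ) + 1) ≤ 8 * x := by linarith
    have h6 : 0 ≤ 36 * (K : ℝ) ^ 2 / Real.log x ^ 2 * Pr := by positivity
    exact (mul_le_mul_of_nonneg_left h4 (by positivity)).trans (mul_le_mul_of_nonneg_right h5 h6)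
  have h4 : (288 * (K : ℝ) ^ 2 + 1) * x / Real.log x ^ 2 * Pr =
      x / Real.log x ^ 2 * Pr + 8 * x * (36 * K ^ 2 / Real.log x ^ 2 * Pr) := by ring
  rw [h4]
  exact add_le_add h2 h3

end Pool.MP_a95293_nt.RC
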