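import Pool.Agent.Lib_MP_a95293_rc.SvP
import Pool.Agent.Lib_MP_a95293_rc.SvH

/-!
# Piece SVR: primes `l` with a large prime factor of `l - 1`
-/

set_option autoImplicit false

namespace Pool.MP_a95293_nt.RC

open Finset

/-- `l - 1` has a prime factor larger than `z^(1-δ)` -/
def Rough (δ : ℝ) (z l : ℕ) : Prop := ∃ q : ℕ, q.Prime ∧ q ∣ l - 1 ∧ (z : ℝ) ^ (1 - δ) < q

open Classical in
/-- the primes `l`, `25 ≤ l ≤ z`, such that all prime factors of `l - 1` are at most `z^(1-δ)` -/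
noncomputable def LL (δ : ℝ) (z : ℕ) : Finset ℕ := (Icc 25 z).filter fun l => l.Prime ∧ ¬ Rough δ z l

private theorem SvR_x {δ : ℝ} (hδ : δ ≤ 1 / 4) {z h : ℕ} (hz : 16 ≤ z) (hh1 : 1 ≤ h)
    (hh : (h : ℝ) ≤ (z : ℝ) ^ δ) : (z : ℝ) ^ (1 / 2 : ℝ) ≤ ((z / h : ℕ) : ℝ) := by
  have hz1 : (1 : ℝ) ≤ z := by exact_mod_cast (by omega : 1 ≤ z)
  have hz0 : (0 : ℝ) < z := by linarith
  have hh0 : (0 : ℝ) < h := by exact_mod_cast hh1
  have h1 : (z : ℝ) / h - 1 ≤ ((z / h : ℕ) : ℝ) := by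
    have := Nat.lt_floor_add_one ((z : ℝ) / h)
    rw [Nat.floor_div_natCast, Nat.floor_natCast] at this
    linarith
  have h2 : (z : ℝ) ^ (3 / 4 : ℝ) ≤ (z : ℝ) / h := by
    rw [le_div_iff₀ hh0]
    calc (z : ℝ) ^ (3 / 4 : ℝ) * h ≤ (z : ℝ) ^ (3 / 4 : ℝ) * (z : ℝ) ^ (1 / 4 : ℝ) :=
          mul_le_mul_of_nonneg_left (hh.trans (Real.rpow_le_rpow_of_exponent_le hz1 hδ))
            (by positivity)
      _ = z := by
          rw [← Real.rpow_add hz0]
          norm_num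
  have h3 : (2 : ℝ) ≤ (z : ℝ) ^ (1 / 4 : ℝ) := by
    calc (2 : ℝ) = (16 : ℝ) ^ (1 / 4 : ℝ) := by
          rw [show (16 : ℝ) = 2 ^ (4 : ℕ) by norm_num, ← Real.rpow_natCast,
            ← Real.rpow_mul (by norm_num)]
          norm_num
      _ ≤ _ := Real.rpow_le_rpow (by norm_num) (by exact_mod_cast hz) (by norm_num)
  have h4 : (z : ℝ) ^ (3 / 4 : ℝ) = (z : ℝ) ^ (1 / 4 : ℝ) * (z : ℝ) ^ (1 / 2 : ℝ) := by
    rw [← Real.rpow_add hz0]
    norm_num
  have h5 : 1 ≤ (z : ℝ) ^ (1 / 2 : ℝ) := Real.one_le_rpow hz1 (by norm_num)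
  nlinarith

open Classical in
/-- The primes `l ≤ z` such that `l - 1` has a prime factor `> z^(1-δ)`.
PROOF: `l - 1 = h q`, `1 ≤ h < z^δ`, `q ≤ z/h`; so the number is at most `∑_{h ≤ z^δ} #{q ≤ ⌊z/h⌋ : q, h q + 1 prime}`, and
by `pairs_sieve` with `x = z / h` (natural division; `x ≥ z^(1-δ)/2 ≥ z^(1/2)`, large; `log x ≥ (1/2) log z`; `x ≤ z/h`) each term is at most
`4 C (z/h) / (log z)^2 ∏_{p ∣ h} (1 + 2/p)`; sum with `avg_h`, `H = ⌊z^δ⌋`, `log H ≤ δ log z`. -/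
theorem rough_shift : ∃ C : ℝ, 0 < C ∧ ∀ δ : ℝ, 0 < δ → δ ≤ 1 / 4 → ∃ z₀ : ℕ, ∀ z ≥ z₀,
    (((Icc 1 z).filter fun l => l.Prime ∧ Rough δ z l).card : ℝ) ≤
      C * z / Real.log z ^ 2 * (1 + δ * Real.log z) := by
  classical
  obtain ⟨C₁, hC₁, hav⟩ := avg_h
  obtain ⟨C₂, hC₂, x₀, hx₀, hps⟩ := pairs_sieve
  refine ⟨4 * C₂ * C₁, by positivity, fun δ hδ0 hδ4 => ⟨max 16 (x₀ ^ 2), fun z hz => ?_⟩⟩
  have hz16 : 16 ≤ z := (le_max_left _ _).trans hz
  have hzx : x₀ ^ 2 ≤ z := (le_max_right _ _).trans hz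
  have hz1 : (1 : ℝ) ≤ z := by exact_mod_cast (by omega : 1 ≤ z)
  have hz1' : (1 : ℝ) < z := by exact_mod_cast (by omega : 1 < z)
  have hz0 : (0 : ℝ) < z := by linarith
  have hlz : 0 < Real.log z := Real.log_pos hz1'
  set H := ⌊(z : ℝ) ^ δ⌋₊ with hH
  have hHle : (H : ℝ) ≤ (z : ℝ) ^ δ := Nat.floor_le (by positivity)
  have hH1 : 1 ≤ H := by
    rw [hH]
    exact Nat.le_floor (by
      rw [Nat.cast_one]
      exact Real.one_le_rpow hz1 hδ0.le)
  have hsub : ((Icc 1 z).filter fun l => l.Prime ∧ Rough δ z l) ⊆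
      (Icc 1 H).biUnion fun h => ((Icc 1 (z / h)).filter fun q => q.Prime ∧ (h * q + 1).Prime).image
        fun q => h * q + 1 := by
    intro l hl
    rw [mem_filter, mem_Icc] at hl
    obtain ⟨⟨hl1, hlz'⟩, hlp, q, hq, hqd, hqz⟩ := hl
    obtain ⟨h, hh⟩ := hqd
    have hl2 := hlp.one_lt
    have hh0 : 0 < h := by
      rcases Nat.eq_zero_or_pos h with h0 | h0
      · rw [h0, mul_zero] at hh
        omega
      · exact h0
    have hl' : l = h * q + 1 := by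
      rw [mul_comm h q, ← hh]
      omega
    have hhq : q * h ≤ z := by omega
    rw [mem_biUnion]
    refine ⟨h, ?_, ?_⟩
    · rw [mem_Icc]
      refine ⟨hh0, Nat.le_floor ?_⟩
      have h1 : (q : ℝ) * h ≤ z := by exact_mod_cast hhq
      have h2 : (z : ℝ) ^ (1 - δ) * h ≤ (z : ℝ) ^ (1 - δ) * (z : ℝ) ^ δ := by
        rw [← Real.rpow_add hz0, sub_add_cancel, Real.rpow_one]
        refine le_trans ?_ h1
        exact mul_le_mul_of_nonneg_right hqz.le (Nat.cast_nonneg _)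
      exact le_of_mul_le_mul_left h2 (by positivity)
    · rw [mem_image]
      refine ⟨q, ?_, hl'.symm⟩
      rw [mem_filter, mem_Icc]
      refine ⟨⟨hq.one_lt.le, (Nat.le_div_iff_mul_le hh0).2 hhq⟩, hq, ?_⟩
      rw [← hl']
      exact hlp
  have hcard : (((Icc 1 z).filter fun l => l.Prime ∧ Rough δ z l).card : ℝ) ≤
      ∑ h ∈ Icc 1 H, (((Icc 1 (z / h)).filter fun q => q.Prime ∧ (h * q + 1).Prime).card : ℝ) := by
    have h1 := (card_le_card hsub).trans card_biUnion_le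
    have h2 : ((Icc 1 z).filter fun l => l.Prime ∧ Rough δ z l).card ≤
        ∑ h ∈ Icc 1 H, ((Icc 1 (z / h)).filter fun q => q.Prime ∧ (h * q + 1).Prime).card :=
      h1.trans (sum_le_sum fun h _ => card_image_le)
    exact_mod_cast h2
  refine hcard.trans ?_
  have hterm : ∀ h ∈ Icc 1 H,
      (((Icc 1 (z / h)).filter fun q => q.Prime ∧ (h * q + 1).Prime).card : ℝ) ≤
        4 * C₂ * z / Real.log z ^ 2 * (1 / (h : ℝ) * ∏ p ∈ h.primeFactors, (1 + 2 / (p : ℝ))) := by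
    intro h hh
    rw [mem_Icc] at hh
    have hh0 : (0 : ℝ) < h := by exact_mod_cast hh.1
    have hhR : (h : ℝ) ≤ (z : ℝ) ^ δ := le_trans (by exact_mod_cast hh.2) hHle
    have hx := SvR_x hδ4 hz16 hh.1 hhR
    have hxx : x₀ ≤ z / h := by
      have h1 : (x₀ : ℝ) ≤ (z : ℝ) ^ (1 / 2 : ℝ) := by
        rw [← Real.sqrt_eq_rpow]
        apply Real.le_sqrt_of_sq_le
        exact_mod_cast hzx
      exact_mod_cast h1.trans hx
    have hlx : Real.log z / 2 ≤ Real.log ((z / h : ℕ) : ℝ) := by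
      calc Real.log z / 2 = Real.log ((z : ℝ) ^ (1 / 2 : ℝ)) := by
            rw [Real.log_rpow hz0]
            ring
        _ ≤ _ := Real.log_le_log (by positivity) hx
    have hxz : ((z / h : ℕ) : ℝ) ≤ z / h := Nat.cast_div_le
    refine (hps (z / h) hxx h hh.1).trans ?_
    have hPr : 0 ≤ ∏ p ∈ h.primeFactors, (1 + 2 / (p : ℝ)) :=
      Finset.prod_nonneg fun p _ => by positivity
    rw [← mul_assoc]
    refine mul_le_mul_of_nonneg_right ?_ hPr
    have h1 : Real.log z ^ 2 ≤ 4 * Real.log ((z / h : ℕ) : ℝ) ^ 2 := by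
      nlinarith
    have h2 : 0 < Real.log ((z / h : ℕ) : ℝ) := by linarith
    calc C₂ * ((z / h : ℕ) : ℝ) / Real.log ((z / h : ℕ) : ℝ) ^ 2 ≤
        C₂ * (z / h) / Real.log ((z / h : ℕ) : ℝ) ^ 2 := by
          apply div_le_div_of_nonneg_right _ (by positivity)
          exact mul_le_mul_of_nonneg_left hxz hC₂.le
      _ ≤ C₂ * (z / h) / (Real.log z ^ 2 / 4) := by
          apply div_le_div_of_nonneg_left (by positivity) (by positivity)
          linarith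
      _ = 4 * C₂ * z / Real.log z ^ 2 * (1 / (h : ℝ)) := by
          field_simp
  refine (sum_le_sum hterm).trans ?_
  rw [← mul_sum]
  have h1 := hav H hH1
  have h2 : Real.log H ≤ δ * Real.log z := by
    rw [← Real.log_rpow hz0]
    exact Real.log_le_log (by exact_mod_cast hH1) hHle
  calc 4 * C₂ * z / Real.log z ^ 2 *
        ∑ h ∈ Icc 1 H, 1 / (h : ℝ) * ∏ p ∈ h.primeFactors, (1 + 2 / (p : ℝ)) ≤
      4 * C₂ * z / Real.log z ^ 2 * (C₁ * (1 + δ * Real.log z)) := by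
        apply mul_le_mul_of_nonneg_left _ (by positivity)
        exact h1.trans (mul_le_mul_of_nonneg_left (by linarith) hC₁.le)
    _ = 4 * C₂ * C₁ * z / Real.log z ^ 2 * (1 + δ * Real.log z) := by ring

end Pool.MP_a95293_nt.RC
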