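import Pool.Agent.Lib_MP_f1a94e_ap.SieveApp

/-!
# Piece SVW: the Brun-Hooley upper bound weights

Everything is a copy of Lib_MP_f1a94e_ap (Core.lean, BrunHooleyOf.lean, SieveApp.lean) with the inequalities reversed.
-/

set_option autoImplicit false

namespace Pool.MP_a95293_nt.RC

open Finset Pool.Agent.OmAP

/-- the upper bound weights: truncated Moebius weights in every block -/
noncomputable def uw (m : ℕ) (B : ℕ → Finset ℕ) (b : ℕ → ℕ) (A : Finset ℕ) : ℝ :=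
  ∏ j ∈ range m, cw b j (A ∩ B j).card

/-- PROOF: `abs_prod_cw_le`. -/
theorem abs_uw_le (m : ℕ) (B : ℕ → Finset ℕ) (b : ℕ → ℕ) (A : Finset ℕ) : |uw m B b A| ≤ 1 := by
  exact abs_prod_cw_le b _ fun j => (A ∩ B j).card

theorem uw_card_le (m : ℕ) (B : ℕ → Finset ℕ) (b : ℕ → ℕ) (A : Finset ℕ) (h : uw m B b A ≠ 0)
    (j : ℕ) (hj : j < m) : (A ∩ B j).card ≤ b j + 1 := by
  by_contra hcon
  push Not at hcon
  apply h
  unfold uw
  apply Finset.prod_eq_zero (mem_range.mpr hj)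
  unfold cw
  rw [if_neg (by omega)]

/-- PROOF: `sum_powerset_blocks`, `prod_blocks`, `sum_cw` (as in `lw_sum`). -/
theorem uw_sum (m : ℕ) (B : ℕ → Finset ℕ) (b : ℕ → ℕ)
    (hd : ∀ i < m, ∀ j < m, i ≠ j → Disjoint (B i) (B j)) (g : ℕ → ℝ) :
    ∑ A ∈ ((range m).biUnion B).powerset, uw m B b A * ∏ p ∈ A, g p = ∏ j ∈ range m, Yw B b g j := by
  have key : ∀ A ∈ ((range m).biUnion B).powerset, uw m B b A * ∏ p ∈ A, g p =
      ∏ j ∈ range m, (cw b j (A ∩ B j).card * ∏ p ∈ A ∩ B j, g p) := by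
    intro A hA
    have hA' := mem_powerset.mp hA
    rw [uw, Finset.prod_mul_distrib, ← prod_blocks m B hd g A hA']
  rw [Finset.sum_congr rfl key, sum_powerset_blocks m B hd (fun j A => cw b j A.card * ∏ p ∈ A, g p)]
  exact Finset.prod_congr rfl fun j _ => sum_cw B b g j

/-- PROOF: as `lw_upper`: for `S ⊆ ⋃ B j` the sum is `∏_j Yw (S ∩ B j) 1 ≥ ∏_j [S ∩ B j = ∅]` (`bonf_lower`), and this product is `1` for `S = ∅`
(and it is `≥ 0` always). -/
theorem uw_lower (m : ℕ) (B : ℕ → Finset ℕ) (b : ℕ → ℕ) (hb : ∀ j, Even (b j))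
    (hd : ∀ i < m, ∀ j < m, i ≠ j → Disjoint (B i) (B j)) (S : Finset ℕ)
    (hS : S ⊆ (range m).biUnion B) :
    (if S = ∅ then 1 else 0) ≤ ∑ A ∈ S.powerset, uw m B b A := by
  set B' : ℕ → Finset ℕ := fun j => S ∩ B j with hB'
  have hd' : ∀ i < m, ∀ j < m, i ≠ j → Disjoint (B' i) (B' j) := fun i hi j hj hij =>
    (hd i hi j hj hij).mono inter_subset_right inter_subset_right
  have hSU : (range m).biUnion B' = S := by
    ext p
    simp only [hB', mem_biUnion, mem_inter]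
    constructor
    · rintro ⟨j, _, hp, _⟩
      exact hp
    · intro hp
      obtain ⟨j, hj, hpj⟩ := mem_biUnion.mp (hS hp)
      exact ⟨j, hj, hp, hpj⟩
  have hlw : ∀ A ∈ S.powerset, uw m B b A = uw m B' b A := by
    intro A hA
    have hA' := mem_powerset.mp hA
    have : ∀ j, A ∩ B' j = A ∩ B j := by
      intro j
      simp only [hB', ← inter_assoc, inter_eq_left.mpr hA']
    simp only [uw, this]
  have h1 := uw_sum m B' b hd' (fun _ => 1)
  simp only [prod_const_one, mul_one] at h1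
  rw [hSU] at h1
  rw [Finset.sum_congr rfl hlw, h1]
  have hY : ∀ j, (if (B' j).card = 0 then (1 : ℝ) else 0) ≤ Yw B' b (fun _ => 1) j := by
    intro j
    have e : Yw B' b (fun _ => 1) j =
        ∑ k ∈ range (b j + 1), (-1 : ℝ) ^ k * ((B' j).card.choose k : ℝ) := by
      simp [Yw]
    rw [e]
    exact bonf_lower (b j) (B' j).card (hb j)
  have hY0 : ∀ j, 0 ≤ Yw B' b (fun _ => 1) j := by
    intro j
    refine le_trans ?_ (hY j)
    split_ifs <;> norm_num
  split_ifs with hSe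
  · have h2 : ∏ j ∈ range m, (1 : ℝ) ≤ ∏ j ∈ range m, Yw B' b (fun _ => 1) j := by
      refine Finset.prod_le_prod (fun _ _ => zero_le_one) fun j _ => ?_
      have h3 : (B' j).card = 0 := by
        rw [card_eq_zero]
        simp only [hB', hSe, empty_inter]
      have h4 := hY j
      rwa [if_pos h3] at h4
    rwa [prod_const_one] at h2
  · exact Finset.prod_nonneg fun j _ => hY0 j

/-- PROOF: the same induction as in `bonf_prod` (its local statement `main` covers odd `b` as well). -/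
theorem bonf_prod_odd (P : Finset ℕ) (g : ℕ → ℝ) (hg : ∀ p ∈ P, 0 ≤ g p ∧ g p ≤ 1) (b : ℕ)
    (hb : Even b) :
    ∑ k ∈ range (b + 1), (-1 : ℝ) ^ k * ∑ A ∈ P.powersetCard k, ∏ p ∈ A, g p ≤
      ∏ p ∈ P, (1 - g p) + ∑ A ∈ P.powersetCard (b + 1), ∏ p ∈ A, g p := by
  have main : ∀ P : Finset ℕ, (∀ p ∈ P, 0 ≤ g p ∧ g p ≤ 1) → ∀ b : ℕ,
      0 ≤ (-1 : ℝ) ^ b * (∑ k ∈ range (b + 1), (-1 : ℝ) ^ k *
        ∑ A ∈ P.powersetCard k, ∏ p ∈ A, g p - ∏ p ∈ P, (1 - g p)) := by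
    intro P
    induction P using Finset.induction_on with
    | empty =>
      intro _ b
      have : ∑ k ∈ range (b + 1), (-1 : ℝ) ^ k *
          ∑ A ∈ (∅ : Finset ℕ).powersetCard k, ∏ p ∈ A, g p = 1 := by
        rw [Finset.sum_range_succ', Esymm.e_zero]
        simp only [Esymm.e_empty, mul_zero, Finset.sum_const_zero, pow_zero, mul_one, zero_add]
      rw [this]
      simp
    | insert a P ha ih =>
      intro hP b
      have hP' : ∀ p ∈ P, 0 ≤ g p ∧ g p ≤ 1 := fun p hp => hP p (Finset.mem_insert_of_mem hp)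
      have hga := hP a (Finset.mem_insert_self _ _)
      have hpi0 : 0 ≤ ∏ p ∈ P, (1 - g p) :=
        Finset.prod_nonneg fun p hp => by linarith [(hP' p hp).2]
      have hpi1 : ∏ p ∈ P, (1 - g p) ≤ 1 :=
        Finset.prod_le_one (fun p hp => by linarith [(hP' p hp).2])
          fun p hp => by linarith [(hP' p hp).1]
      rw [Finset.prod_insert ha]
      cases b with
      | zero =>
        simp only [zero_add, Finset.range_one, Finset.sum_singleton, pow_zero, one_mul]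
        rw [Esymm.e_zero]
        nlinarith
      | succ b =>
        have h1 := ih hP' (b + 1)
        have h2 := mul_nonneg hga.1 (ih hP' b)
        have e1 : ∑ k ∈ range (b + 1 + 1), (-1 : ℝ) ^ k *
            ∑ A ∈ (insert a P).powersetCard k, ∏ p ∈ A, g p =
            ∑ k ∈ range (b + 1 + 1), (-1 : ℝ) ^ k * ∑ A ∈ P.powersetCard k, ∏ p ∈ A, g p -
            g a * ∑ k ∈ range (b + 1), (-1 : ℝ) ^ k * ∑ A ∈ P.powersetCard k, ∏ p ∈ A, g p := by
          rw [Finset.sum_range_succ', Finset.sum_range_succ' (fun k => (-1 : ℝ) ^ k *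
            ∑ A ∈ P.powersetCard k, ∏ p ∈ A, g p) (b + 1), Esymm.e_zero, Esymm.e_zero, Finset.mul_sum]
          have : ∀ k ∈ range (b + 1), (-1 : ℝ) ^ (k + 1) *
              ∑ A ∈ (insert a P).powersetCard (k + 1), ∏ p ∈ A, g p =
              (-1 : ℝ) ^ (k + 1) * ∑ A ∈ P.powersetCard (k + 1), ∏ p ∈ A, g p -
              g a * ((-1 : ℝ) ^ k * ∑ A ∈ P.powersetCard k, ∏ p ∈ A, g p) := by
            intro k _
            rw [Esymm.e_insert P a ha g k]
            ring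
          rw [Finset.sum_congr rfl this, Finset.sum_sub_distrib]
          ring
        rw [e1]
        have e2 : (-1 : ℝ) ^ (b + 1) = -(-1) ^ b := by ring
        rw [e2] at h1 ⊢
        nlinarith
  have h1 := main P hg (b + 1)
  have h2 : (-1 : ℝ) ^ (b + 1) = -1 := by rw [pow_succ, hb.neg_one_pow, one_mul]
  rw [Finset.sum_range_succ, h2] at h1
  linarith

/-- PROOF: `Yw_j ≤ V_j + Z_j ≤ V_j (1 + (G_j^(b_j + 1)/(b_j+1)!) exp (2 G_j)) ≤ V_j exp (...)` (`bonf_prod_odd`, `esymm_le`, `exp_le_prod`), the product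
of the exponentials is at most `exp (1/2) ≤ 2`. -/
theorem uw_upper (m : ℕ) (B : ℕ → Finset ℕ) (b : ℕ → ℕ) (hb : ∀ j, Even (b j))
    (hd : ∀ i < m, ∀ j < m, i ≠ j → Disjoint (B i) (B j)) (g : ℕ → ℝ)
    (hg : ∀ p ∈ (range m).biUnion B, 0 ≤ g p ∧ g p ≤ 1 / 2)
    (hs : ∑ j ∈ range m, (∑ p ∈ B j, g p) ^ (b j + 1) / ((b j + 1).factorial : ℝ) *
      Real.exp (2 * ∑ p ∈ B j, g p) ≤ 1 / 2) :
    ∑ A ∈ ((range m).biUnion B).powerset, uw m B b A * ∏ p ∈ A, g p ≤
      2 * ∏ p ∈ (range m).biUnion B, (1 - g p) := by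
  rw [uw_sum m B b hd g]
  have hgj : ∀ j ∈ range m, ∀ p ∈ B j, 0 ≤ g p ∧ g p ≤ 1 / 2 := fun j hj p hp =>
    hg p (mem_biUnion.mpr ⟨j, hj, hp⟩)
  have hV : ∀ j ∈ range m, Real.exp (-(2 * ∑ p ∈ B j, g p)) ≤ ∏ p ∈ B j, (1 - g p) :=
    fun j hj => exp_le_prod (B j) g (hgj j hj)
  have hV0 : ∀ j ∈ range m, 0 < ∏ p ∈ B j, (1 - g p) := fun j hj =>
    (Real.exp_pos _).trans_le (hV j hj)
  have hYV : ∀ j ∈ range m, ∏ p ∈ B j, (1 - g p) ≤ Yw B b g j := fun j hj =>
    bonf_prod (B j) g (fun p hp => ⟨(hgj j hj p hp).1, by linarith [(hgj j hj p hp).2]⟩) (b j) (hb j)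
  set T : ℕ → ℝ := fun j => (∑ p ∈ B j, g p) ^ (b j + 1) / ((b j + 1).factorial : ℝ) *
      Real.exp (2 * ∑ p ∈ B j, g p) with hT
  have hYU : ∀ j ∈ range m, Yw B b g j ≤ (∏ p ∈ B j, (1 - g p)) * Real.exp (T j) := by
    intro j hj
    have h1 : Yw B b g j ≤ ∏ p ∈ B j, (1 - g p) + ∑ A ∈ (B j).powersetCard (b j + 1), ∏ p ∈ A, g p :=
      bonf_prod_odd (B j) g (fun p hp => ⟨(hgj j hj p hp).1, by linarith [(hgj j hj p hp).2]⟩)
        (b j) (hb j)
    have h2 := esymm_le (B j) g (fun p hp => (hgj j hj p hp).1) (b j + 1)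
    have h3 : (1 : ℝ) ≤ Real.exp (2 * ∑ p ∈ B j, g p) * ∏ p ∈ B j, (1 - g p) := by
      calc (1 : ℝ) = Real.exp (2 * ∑ p ∈ B j, g p) * Real.exp (-(2 * ∑ p ∈ B j, g p)) := by
            rw [← Real.exp_add, add_neg_cancel, Real.exp_zero]
        _ ≤ _ := mul_le_mul_of_nonneg_left (hV j hj) (Real.exp_pos _).le
    have hG0 : 0 ≤ (∑ p ∈ B j, g p) ^ (b j + 1) / ((b j + 1).factorial : ℝ) := by
      apply div_nonneg _ (Nat.cast_nonneg _)
      exact pow_nonneg (Finset.sum_nonneg fun p hp => (hgj j hj p hp).1) _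
    have h4 : (∑ p ∈ B j, g p) ^ (b j + 1) / ((b j + 1).factorial : ℝ) ≤
        T j * ∏ p ∈ B j, (1 - g p) := by
      calc (∑ p ∈ B j, g p) ^ (b j + 1) / ((b j + 1).factorial : ℝ)
          = (∑ p ∈ B j, g p) ^ (b j + 1) / ((b j + 1).factorial : ℝ) * 1 := (mul_one _).symm
        _ ≤ (∑ p ∈ B j, g p) ^ (b j + 1) / ((b j + 1).factorial : ℝ) *
            (Real.exp (2 * ∑ p ∈ B j, g p) * ∏ p ∈ B j, (1 - g p)) :=
            mul_le_mul_of_nonneg_left h3 hG0
        _ = _ := by rw [hT]; ring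
    have h5 : (∏ p ∈ B j, (1 - g p)) * (T j + 1) ≤ (∏ p ∈ B j, (1 - g p)) * Real.exp (T j) :=
      mul_le_mul_of_nonneg_left (Real.add_one_le_exp _) (hV0 j hj).le
    have h6 : (∏ p ∈ B j, (1 - g p)) * (T j + 1) = ∏ p ∈ B j, (1 - g p) + T j * ∏ p ∈ B j, (1 - g p) := by
      ring
    linarith
  calc ∏ j ∈ range m, Yw B b g j ≤ ∏ j ∈ range m, ((∏ p ∈ B j, (1 - g p)) * Real.exp (T j)) :=
        Finset.prod_le_prod (fun j hj => (hV0 j hj).le.trans (hYV j hj)) hYU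
    _ = (∏ p ∈ (range m).biUnion B, (1 - g p)) * Real.exp (∑ j ∈ range m, T j) := by
        rw [Finset.prod_mul_distrib, Real.exp_sum, Finset.prod_biUnion]
        intro i hi j hj hij
        exact hd i (mem_range.mp (Finset.mem_coe.mp hi)) j (mem_range.mp (Finset.mem_coe.mp hj)) hij
    _ ≤ (∏ p ∈ (range m).biUnion B, (1 - g p)) * 2 := by
        refine mul_le_mul_of_nonneg_left ?_ (Finset.prod_nonneg fun p hp => by linarith [(hg p hp).2])
        have h1 : Real.exp (∑ j ∈ range m, T j) ≤ Real.exp (1 / 2) := Real.exp_le_exp.2 hs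
        have h2 : Real.exp (1 / 2) ≤ 2 := by
          have h3 : Real.exp (1 / 2) * Real.exp (1 / 2) = Real.exp 1 := by
            rw [← Real.exp_add]
            norm_num
          have h4 := Real.exp_one_lt_d9
          nlinarith [Real.exp_pos (1 / 2 : ℝ)]
        exact h1.trans h2
    _ = _ := mul_comm _ _

end Pool.MP_a95293_nt.RC
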