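import Pool.Agent.Lib_MP_a95293_rc.Defs

/-!
# Piece TWOA: elementary facts on solutions
-/

set_option autoImplicit false

namespace Pool.MP_a95293_nt.RC

open Finset

/-- PROOF: otherwise one of the two coprime numbers is `0`, the other is `± 1`, and `D ≤ 1`. -/
theorem Sol.ne {k : ℕ} {α β x y : ℤ} {D : ℕ} (h : Sol k α β x y D) (hk : 1 ≤ k) (hD : 1 < D) : α ≠ 0 ∧ β ≠ 0 := by
  have hDz : (1 : ℤ) < D := by exact_mod_cast hD
  constructor
  · intro h0
    have h1 := h.cop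
    have h2 := h.val
    rw [h0, zero_mul] at h1 h2
    rw [isCoprime_zero_left] at h1
    rcases Int.isUnit_iff.1 h1 with h3 | h3 <;> rw [h3] at h2 <;> omega
  · intro h0
    have h1 := h.cop
    have h2 := h.val
    rw [h0, zero_mul] at h1 h2
    rw [isCoprime_zero_right] at h1
    rcases Int.isUnit_iff.1 h1 with h3 | h3 <;> rw [h3] at h2 <;> omega

/-- a prime divisor of `D` divides none of `α, β, x, y`.
PROOF: it would divide one of `α x^k`, `β y^k`, hence (with `D = α x^k - β y^k`) both, contradiction to `cop`. -/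
theorem Sol.not_dvd {k : ℕ} {α β x y : ℤ} {D : ℕ} (h : Sol k α β x y D) (hk : 1 ≤ k) {p : ℕ} (hp : p.Prime) (hpD : p ∣ D) :
    ¬ (p : ℤ) ∣ α ∧ ¬ (p : ℤ) ∣ β ∧ ¬ (p : ℤ) ∣ x ∧ ¬ (p : ℤ) ∣ y := by
  have hpD' : (p : ℤ) ∣ D := by exact_mod_cast hpD
  have hnu : ¬ IsUnit (p : ℤ) := by
    intro hu
    have := hp.one_lt
    rcases Int.isUnit_iff.1 hu with h3 | h3 <;> omega
  have ha : ¬ (p : ℤ) ∣ α * x ^ k := by
    intro h1
    have h2 : (p : ℤ) ∣ β * y ^ k := by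
      have h3 : β * y ^ k = α * x ^ k - D := by
        rw [← h.val]
        ring
      rw [h3]
      exact dvd_sub h1 hpD'
    exact hnu (h.cop.isUnit_of_dvd' h1 h2)
  have hb : ¬ (p : ℤ) ∣ β * y ^ k := by
    intro h1
    have h2 : (p : ℤ) ∣ α * x ^ k := by
      have h3 : α * x ^ k = β * y ^ k + D := by
        rw [← h.val]
        ring
      rw [h3]
      exact dvd_add h1 hpD'
    exact hnu (h.cop.isUnit_of_dvd' h2 h1)
  refine ⟨fun h1 => ha (h1.mul_right _), fun h1 => hb (h1.mul_right _), fun h1 => ha ?_,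
    fun h1 => hb ?_⟩
  · exact (h1.trans (dvd_pow_self x (by omega))).mul_left _
  · exact (h1.trans (dvd_pow_self y (by omega))).mul_left _

/-- PROOF: `β ((x y')^k - (x' y)^k) = x^k (β y'^k) - x'^k (β y^k) = x^k (α x'^k - D') - x'^k (α x^k - D) = x'^k D - x^k D'`, divisible by `p^m`;
`p ∤ β`. -/
theorem Sol.pow_sub {k : ℕ} {α β x y x' y' : ℤ} {D D' : ℕ} (h : Sol k α β x y D) (h' : Sol k α β x' y' D') (hk : 1 ≤ k)
    {p m : ℕ} (hp : p.Prime) (hpD : p ∣ D) (h1 : p ^ m ∣ D) (h2 : p ^ m ∣ D') :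
    (p : ℤ) ^ m ∣ (x * y') ^ k - (x' * y) ^ k := by
  have hβ := (h.not_dvd hk hp hpD).2.1
  have h3 : ((p : ℤ) ^ m) ∣ D := by exact_mod_cast h1
  have h4 : ((p : ℤ) ^ m) ∣ D' := by exact_mod_cast h2
  have h5 : β * ((x * y') ^ k - (x' * y) ^ k) = x' ^ k * D - x ^ k * D' := by
    rw [mul_pow, mul_pow, ← h.val, ← h'.val]
    ring
  have h6 : ((p : ℤ) ^ m) ∣ β * ((x * y') ^ k - (x' * y) ^ k) := by
    rw [h5]
    exact dvd_sub (h3.mul_left _) (h4.mul_left _)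
  have h7 : IsCoprime ((p : ℤ) ^ m) β :=
    ((Prime.coprime_iff_not_dvd (Nat.prime_iff_prime_int.1 hp)).2 hβ).pow_left
  exact h7.dvd_of_dvd_mul_left h6

/-- PROOF: `(x y')^k ≤ |α x^k| |β y'^k| ≤ 4 D D'` (`|α|, |β| ≥ 1` by `Sol.ne`), take logarithms. -/
theorem Sol.log_le {k : ℕ} {α β x y x' y' : ℤ} {D D' : ℕ} (h : Sol k α β x y D) (h' : Sol k α β x' y' D') (hk : 1 ≤ k)
    (hD : 1 < D) (hD' : 1 < D') :
    Real.log ((x * y' : ℤ) : ℝ) ≤ (Real.log 4 + Real.log D + Real.log D') / k := by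
  obtain ⟨hα, _⟩ := h.ne hk hD
  obtain ⟨_, hβ⟩ := h'.ne hk hD'
  have hx := h.hx
  have hy := h'.hy
  have h1 : (x * y') ^ k ≤ 4 * (D : ℤ) * D' := by
    have e1 : x ^ k ≤ |α * x ^ k| := by
      rw [abs_mul, abs_of_pos (pow_pos hx k)]
      exact le_mul_of_one_le_left (by positivity) (Int.one_le_abs hα)
    have e2 : y' ^ k ≤ |β * y' ^ k| := by
      rw [abs_mul, abs_of_pos (pow_pos hy k)]
      exact le_mul_of_one_le_left (by positivity) (Int.one_le_abs hβ)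
    calc (x * y') ^ k = x ^ k * y' ^ k := mul_pow _ _ _
      _ ≤ |α * x ^ k| * |β * y' ^ k| := mul_le_mul e1 e2 (by positivity) (abs_nonneg _)
      _ ≤ (2 * (D : ℤ)) * (2 * (D' : ℤ)) := mul_le_mul h.hu h'.hv (abs_nonneg _) (by positivity)
      _ = 4 * (D : ℤ) * D' := by ring
  have hk0 : (0 : ℝ) < k := by exact_mod_cast hk
  have hD0 : (0 : ℝ) < D := by exact_mod_cast (by omega : 0 < D)
  have hD0' : (0 : ℝ) < D' := by exact_mod_cast (by omega : 0 < D')
  have hxy : (0 : ℝ) < ((x * y' : ℤ) : ℝ) := by exact_mod_cast mul_pos hx hy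
  rw [le_div_iff₀ hk0]
  have h2 : Real.log (((x * y' : ℤ) : ℝ) ^ k) ≤ Real.log (4 * (D : ℝ) * D') := by
    apply Real.log_le_log (by positivity)
    exact_mod_cast h1
  rw [Real.log_pow, Real.log_mul (by positivity) (by positivity),
    Real.log_mul (by norm_num) (by positivity)] at h2
  linarith

end Pool.MP_a95293_nt.RC
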