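import Pool.Agent.Lib_MP_a95293_rc.TwoA
import Pool.Agent.Lib_MP_a95293_rc.Lte

/-!
# Piece TWOC: the upper bound for a nonvanishing form
-/

set_option autoImplicit false

namespace Pool.MP_a95293_nt.RC

open Finset

/-- The upper bound.
PROOF: `Lam_abs_le` with `B = 2 D` and `S = max (x y') (x' y)`, `log S ≤ (log 4 + L + L')/k` (`Sol.log_le`, also with the two solutions
exchanged). -/
theorem Lam_upper {k : ℕ} (hk : 2 ≤ k) {α β x y x' y' : ℤ} {D D' : ℕ} (h : Sol k α β x y D) (h' : Sol k α β x' y' D')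
    (hD : 1 < D) (hD' : 1 < D') (n : ℕ)
    (hn : Lam k n (x * y') (x' * y) (α * x ^ k) (β * y ^ k) ≠ 0) :
    Real.log |((Lam k n (x * y') (x' * y) (α * x ^ k) (β * y ^ k) : ℤ) : ℝ)| ≤
      Real.log 2 + (Real.log 4 + Real.log D + Real.log D') / k + Real.log (n + 1) +
        n * Real.log (4 * k * (k + 1)) + n * (Real.log 2 + Real.log D) := by
  have hk1 : 1 ≤ k := by omega
  have hD0 : (0 : ℝ) < D := by exact_mod_cast (by omega : 0 < D)
  have hs0 : (0 : ℝ) < ((x * y' : ℤ) : ℝ) := by exact_mod_cast mul_pos h.hx h'.hy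
  have ht0 : (0 : ℝ) < ((x' * y : ℤ) : ℝ) := by exact_mod_cast mul_pos h'.hx h.hy
  set S : ℝ := max ((x * y' : ℤ) : ℝ) ((x' * y : ℤ) : ℝ) with hS
  have hS0 : 0 < S := lt_of_lt_of_le hs0 (le_max_left _ _)
  have hlS : Real.log S ≤ (Real.log 4 + Real.log D + Real.log D') / k := by
    rcases max_cases ((x * y' : ℤ) : ℝ) ((x' * y : ℤ) : ℝ) with ⟨h1, _⟩ | ⟨h1, _⟩
    · rw [hS, h1]
      exact h.log_le h' hk1 hD hD'
    · rw [hS, h1]
      have h2 := h'.log_le h hk1 hD' hD
      have h3 : Real.log 4 + Real.log D' + Real.log D = Real.log 4 + Real.log D + Real.log D' := by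
        ring
      rw [h3] at h2
      exact h2
  have hab := Lam_abs_le k n hk (s := x * y') (t := x' * y) (u := α * x ^ k) (v := β * y ^ k)
    (B := 2 * D) (S := S) (by
      rw [abs_of_pos hs0]
      exact le_max_left _ _) (by
      rw [abs_of_pos ht0]
      exact le_max_right _ _) (by
      push_cast
      exact h.hu) (by
      push_cast
      exact h.hv)
  have hLm : (0 : ℝ) < |((Lam k n (x * y') (x' * y) (α * x ^ k) (β * y ^ k) : ℤ) : ℝ)| := by
    rw [abs_pos]
    exact_mod_cast hn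
  have hk0 : (0 : ℝ) < k := by exact_mod_cast hk1
  refine (Real.log_le_log hLm hab).trans ?_
  push_cast
  have hW : (0 : ℝ) < 4 * k * (k + 1) := by positivity
  generalize (4 * (k : ℝ) * (k + 1)) = W at hW ⊢
  have e : Real.log (2 * S * (((n : ℝ) + 1) * W ^ n * (2 * (D : ℝ)) ^ n)) =
      Real.log 2 + Real.log S + (Real.log (n + 1) + n * Real.log W + n * (Real.log 2 + Real.log D)) := by
    rw [Real.log_mul (by positivity) (by positivity), Real.log_mul (by norm_num) hS0.ne',
      Real.log_mul (by positivity) (by positivity), Real.log_mul (by positivity) (by positivity),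
      Real.log_pow, Real.log_pow, Real.log_mul (by norm_num) hD0.ne']
  rw [e]
  linarith

end Pool.MP_a95293_nt.RC
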