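import Pool.Agent.Lib_MP_a95293_rc.TwoB
import Pool.Agent.Lib_MP_a95293_rc.TwoC
import Pool.Agent.Lib_MP_a95293_rc.Fin
import Pool.Agent.Lib_MP_a95293_rc.PadeV

/-!
# Piece TWO: two solutions with the same distribution of primes coincide
-/

set_option autoImplicit false

namespace Pool.MP_a95293_nt.RC

open Finset

/-- coprime positive pairs with equal ratio are equal -/
private theorem TwoSol_eq {x y x' y' : ℤ} (hx : 0 < x) (hx' : 0 < x')
    (h : IsCoprime x y) (h' : IsCoprime x' y') (e : x * y' = x' * y) : x = x' ∧ y = y' := by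
  have h1 : x ∣ x' := h.dvd_of_dvd_mul_right (Dvd.intro _ e)
  have h2 : x' ∣ x := h'.dvd_of_dvd_mul_right (Dvd.intro _ e.symm)
  have h3 : x = x' := Int.dvd_antisymm hx.le hx'.le h1 h2
  refine ⟨h3, ?_⟩
  rw [h3] at e
  exact (mul_left_cancel₀ hx'.ne' e).symm

/-- **Two solutions with the same pattern and the same classes coincide.**
PROOF: suppose `x y' ≠ x' y`. `Lam k 0 = x' y - x y' ≠ 0` (`cf_zero`), so by `Lam_lower`, `Lam_upper` with `n = 0` (`min (L', L) = L`) and
`gap_ineq` (`40 log k ≤ L` from `k^40 ≤ D`): `19 L ≤ L'`. Take `n` from `exists_index`; by `Lam_ne` (`u - v = D ≠ 0`, `v = β y^k ≠ 0`,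
`s = x y' ≠ 0`) one of `Lam k n`, `Lam k (n+1)` is not zero; with this `N ∈ {n, n+1}`: `L' ≤ (2N+1) L`, `(2N-3) L < L'`, and
`Lam_lower`, `Lam_upper` contradict `main_ineq`. So `x y' = x' y`; `x, y` are coprime and `x', y'` are coprime (from `cop`:
`IsCoprime.of_mul_left_right`, `IsCoprime.pow_iff`), all positive, hence equal. -/
theorem two_sol {k : ℕ} (hk : 24 ≤ k) {α β x y x' y' : ℤ} {D D' : ℕ} (h : Sol k α β x y D) (h' : Sol k α β x' y' D')
    (hD : k ^ 40 ≤ D) (hDD : D ≤ D') (f : ℕ → ℝ) (hf : ∀ p ∈ D.primeFactors, 0 ≤ f p)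
    (hsum : 9 / 10 ≤ ∑ p ∈ D.primeFactors, f p) (hT : D'.primeFactors = D.primeFactors)
    (h1 : ∀ p ∈ D.primeFactors, f p * Real.log D ≤ D.factorization p * Real.log p)
    (h2 : ∀ p ∈ D.primeFactors, f p * Real.log D' ≤ D'.factorization p * Real.log p)
    (hcl : ∀ p ∈ D.primeFactors, (p : ℤ) ∣ x * y' - x' * y)
    (hcl2 : 2 ∈ D.primeFactors → (4 : ℤ) ∣ x * y' - x' * y) : x = x' ∧ y = y' := by
  have hk1 : 1 ≤ k := by omega
  have hk2 : 2 ≤ k := by omega
  have hk40 : k ≤ k ^ 40 := Nat.le_self_pow (by norm_num) k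
  have hD1 : 1 < D := by omega
  have hD1' : 1 < D' := by omega
  have hcop : IsCoprime x y := by
    have h3 := h.cop.of_mul_left_right.of_mul_right_right
    exact (IsCoprime.pow_iff (by omega) (by omega)).1 h3
  have hcop' : IsCoprime x' y' := by
    have h3 := h'.cop.of_mul_left_right.of_mul_right_right
    exact (IsCoprime.pow_iff (by omega) (by omega)).1 h3
  refine TwoSol_eq h.hx h'.hx hcop hcop' ?_
  by_contra hne
  set L := Real.log D with hLdef
  set L' := Real.log D' with hL'def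
  have hkpos : (0 : ℝ) < k := by exact_mod_cast (by omega : 0 < k)
  have hDpos : (0 : ℝ) < D := by exact_mod_cast (by omega : 0 < D)
  have hL40 : 40 * Real.log k ≤ L := by
    have h3 : ((k : ℝ)) ^ 40 ≤ D := by exact_mod_cast hD
    have h4 := Real.log_le_log (by positivity) h3
    rw [Real.log_pow] at h4
    exact_mod_cast h4
  have hLL' : L ≤ L' := Real.log_le_log hDpos (by exact_mod_cast hDD)
  have hL0 : 0 < L := Real.log_pos (by exact_mod_cast hD1)
  -- the gap
  have h0 : Lam k 0 (x * y') (x' * y) (α * x ^ k) (β * y ^ k) ≠ 0 := by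
    intro hc
    apply hne
    have e1 : Lam k 0 (x * y') (x' * y) (α * x ^ k) (β * y ^ k) = x' * y - x * y' := by
      unfold Lam fB fA
      simp [cf_zero]
    rw [e1] at hc
    linarith
  have g1 := Lam_lower hk2 h h' hD1 hDD f hf hsum hT h1 h2 hcl hcl2 0 h0
  have g2 := Lam_upper hk2 h h' hD1 hD1' 0 h0
  have hgap : 19 * L ≤ L' := by
    apply gap_ineq hk hL40
    have e1 : min (Real.log D') ((2 * ((0 : ℕ) : ℝ) + 1) * Real.log D) = L := by
      rw [Nat.cast_zero, mul_zero, zero_add, one_mul]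
      exact min_eq_right hLL'
    rw [e1] at g1
    have g3 := g1.trans g2
    simp only [Nat.cast_zero, mul_zero, zero_add, Real.log_one, zero_mul, add_zero, one_mul] at g3
    exact g3
  obtain ⟨n, hn1, hn2⟩ := exists_index hL0 hgap
  -- the main inequality
  have key : ∀ N : ℕ, L' ≤ (2 * N + 1) * L → (2 * (N : ℝ) - 3) * L < L' →
      Lam k N (x * y') (x' * y) (α * x ^ k) (β * y ^ k) = 0 := by
    intro N hN1 hN2
    by_contra hc
    have g1 := Lam_lower hk2 h h' hD1 hDD f hf hsum hT h1 h2 hcl hcl2 N hc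
    have g2 := Lam_upper hk2 h h' hD1 hD1' N hc
    have g3 := main_ineq hk hL40 hgap hN2
    have e1 : min (Real.log D') ((2 * (N : ℝ) + 1) * Real.log D) = L' := min_eq_left hN1
    rw [e1] at g1
    linarith
  have hs : x * y' ≠ 0 := mul_ne_zero h.hx.ne' h'.hy.ne'
  have huv : α * x ^ k ≠ β * y ^ k := by
    intro hc
    have := h.val
    rw [hc, sub_self] at this
    have h3 : (D : ℤ) = 0 := this.symm
    omega
  have hv : β * y ^ k ≠ 0 := mul_ne_zero (h.ne hk1 hD1).2 (pow_ne_zero _ h.hy.ne')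
  rcases Lam_ne k n hk2 (x * y') (x' * y) (α * x ^ k) (β * y ^ k) hs huv hv with hc | hc
  · apply hc
    apply key n hn1
    nlinarith
  · apply hc
    apply key (n + 1)
    · push_cast
      nlinarith
    · push_cast
      nlinarith

end Pool.MP_a95293_nt.RC
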